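import Pool.Agent.H76.CNC.Cnc
import Pool.Agent.H42.D2.SpanT

/-!
# Two visible forms which are small on the fan

`conic_law`: let `X` be in no hyperplane which is a function of `z`. Let `Q₁`, `Q₂` be two symmetric
forms which are functions of `z` and which are small at `X`. Then off mass `2 c` the second form is
a multiple of the first one. `rank_pure`, `rank_law`: a symmetric form which is small at `X` is not
a square.
-/

set_option autoImplicit false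

namespace Pool.CNC76

open Finset Matrix
open Pool.CUB46 (q2 l1)
open Pool.D2Con (NoHyp law_mono')
open Pool.Agent.H49.Ent Pool.Agent.H32.Dense Pool.STK Pool.K2S Pool.D2A

/-- **Two forms**, without normalisation. -/
theorem conic_form {Q₁ Q₂ : Fin 3 → Fin 3 → ℝ} (h1 : ∀ i j, Q₁ i j = Q₁ j i)
    (h2 : ∀ i j, Q₂ i j = Q₂ j i) {k K e₁ e₂ η : ℝ} (hk : 0 < k) (hk1 : ∃ i j, k ≤ |Q₁ i j|)
    (hK : ∀ i j, |Q₂ i j| ≤ K) (he1 : 0 ≤ e₁) (he2 : 0 ≤ e₂) (hη : 0 < η) :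
    ∃ g₁ g₂ : Fin 3 → ℝ, ((∀ j, |g₁ j| ≤ 1) ∧ ∃ j, |g₁ j| = 1) ∧
      ((∀ j, |g₂ j| ≤ 1) ∧ ∃ j, |g₂ j| = 1) ∧
      ((∃ t : ℝ, ∀ i j, |Q₂ i j - t * Q₁ i j| ≤ 18 * (K * (e₁ / k) + e₂) / η ^ 2) ∨
        ∀ x : Fin 3 → ℝ, |q2 Q₁ x x| ≤ e₁ → |q2 Q₂ x x| ≤ e₂ → |l1 g₁ x| ≤ η ∨ |l1 g₂ x| ≤ η) := by
  have hK0 : 0 ≤ K := (abs_nonneg _).trans (hK 0 0)
  -- the maxima
  obtain ⟨⟨a, b⟩, -, hab⟩ := Finset.exists_max_image (Finset.univ : Finset (Fin 3 × Fin 3))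
    (fun p => |Q₁ p.1 p.2|) ⟨(0, 0), Finset.mem_univ _⟩
  obtain ⟨⟨a', b'⟩, -, hab'⟩ := Finset.exists_max_image (Finset.univ : Finset (Fin 3 × Fin 3))
    (fun p => |Q₂ p.1 p.2|) ⟨(0, 0), Finset.mem_univ _⟩
  obtain ⟨k₁, hk₁⟩ : ∃ k₁, k₁ = |Q₁ a b| := ⟨_, rfl⟩
  obtain ⟨k₂, hk₂⟩ : ∃ k₂, k₂ = |Q₂ a' b'| := ⟨_, rfl⟩
  have m1 : ∀ i j, |Q₁ i j| ≤ k₁ := fun i j => hk₁ ▸ hab (i, j) (Finset.mem_univ _)
  have m2 : ∀ i j, |Q₂ i j| ≤ k₂ := fun i j => hk₂ ▸ hab' (i, j) (Finset.mem_univ _)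
  have hkk : k ≤ k₁ := by
    obtain ⟨i, j, hij⟩ := hk1
    exact hij.trans (m1 i j)
  have hk₁0 : 0 < k₁ := hk.trans_le hkk
  have hk₂K : k₂ ≤ K := hk₂ ▸ hK a' b'
  have hk₂n : 0 ≤ k₂ := hk₂ ▸ abs_nonneg _
  rcases hk₂n.eq_or_lt with h0 | h0
  · refine ⟨fun _ => 1, fun _ => 1, ⟨fun _ => by simp, 0, by simp⟩, ⟨fun _ => by simp, 0, by simp⟩,
      Or.inl ⟨0, fun i j => ?_⟩⟩
    rw [zero_mul, sub_zero]
    have := m2 i j
    rw [← h0] at this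
    exact this.trans (by positivity)
  · obtain ⟨g₁, g₂, p1, p2, p3⟩ := conic_pure (M₁ := fun i j => Q₁ i j / k₁)
      (M₂ := fun i j => Q₂ i j / k₂) (fun i j => by rw [h1 i j])
      (fun i j => by rw [h2 i j])
      (fun i j => by rw [abs_div, abs_of_pos hk₁0, div_le_one hk₁0]; exact m1 i j)
      (fun i j => by rw [abs_div, abs_of_pos h0, div_le_one h0]; exact m2 i j)
      ⟨a, b, by rw [abs_div, abs_of_pos hk₁0, ← hk₁, div_self hk₁0.ne']⟩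
      (ε := e₁ / k₁ + e₂ / k₂) (η := η) (by positivity) hη
    refine ⟨g₁, g₂, p1, p2, ?_⟩
    have eq : ∀ (Q : Fin 3 → Fin 3 → ℝ) (k : ℝ) (x : Fin 3 → ℝ),
        q2 (fun i j => Q i j / k) x x = q2 Q x x / k := by
      intro Q k x
      unfold q2
      rw [Finset.sum_div]
      refine Finset.sum_congr rfl fun i _ => ?_
      rw [Finset.sum_div]
      refine Finset.sum_congr rfl fun j _ => ?_
      ring
    rcases p3 with ⟨t, ht⟩ | p3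
    · refine Or.inl ⟨t * k₂ / k₁, fun i j => ?_⟩
      have e1 : Q₂ i j - t * k₂ / k₁ * Q₁ i j = k₂ * (Q₂ i j / k₂ - t * (Q₁ i j / k₁)) := by
        field_simp
      rw [e1, abs_mul, abs_of_pos h0]
      refine (mul_le_mul_of_nonneg_left (ht i j) h0.le).trans ?_
      have e2 : k₂ * (18 * (e₁ / k₁ + e₂ / k₂) / η ^ 2) = 18 * (k₂ * (e₁ / k₁) + e₂) / η ^ 2 := by
        field_simp
      rw [e2]
      have e3 : k₂ * (e₁ / k₁) ≤ K * (e₁ / k) :=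
        mul_le_mul hk₂K (div_le_div_of_nonneg_left he1 hk hkk) (by positivity) hK0
      gcongr
    · refine Or.inr fun x hx1 hx2 => p3 x ?_ ?_
      · rw [eq, abs_div, abs_of_pos hk₁0]
        have : |q2 Q₁ x x| / k₁ ≤ e₁ / k₁ := by gcongr
        have : 0 ≤ e₂ / k₂ := by positivity
        linarith
      · rw [eq, abs_div, abs_of_pos h0]
        have : |q2 Q₂ x x| / k₂ ≤ e₂ / k₂ := by gcongr
        have : 0 ≤ e₁ / k₁ := by positivity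
        linarith

/-- **A form which is not a square.** Let `s_i S_jk` be symmetric up to `δ`. -/
theorem rank_pure {s : Fin 3 → ℝ} {S : Fin 3 → Fin 3 → ℝ} (hS : ∀ i j, S i j = S j i)
    {δ k η σ : ℝ} (hδ : 0 ≤ δ) (hk : 0 < k) (hη : 0 < η) (hη1 : η ≤ 1) (hσ : 0 < σ)
    (hkS : ∃ i j, k ≤ |S i j|) (hs : ∀ i j l, |s i * S j l - s j * S i l| ≤ δ)
    (hσδ : 36 * δ ≤ σ * (k * η ^ 2)) (hbig : ∃ i, σ ≤ |s i|) :
    ∃ g : Fin 3 → ℝ, ((∀ j, |g j| ≤ 1) ∧ ∃ j, |g j| = 1) ∧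
      ∀ x : Fin 3 → ℝ, (∀ j, |x j| ≤ 1) → |q2 S x x| ≤ k * η ^ 2 / 4 → |l1 g x| ≤ η := by
  obtain ⟨j, -, hj⟩ := Finset.exists_max_image (Finset.univ : Finset (Fin 3)) (fun j => |s j|)
    ⟨0, Finset.mem_univ _⟩
  have hj' : ∀ i, |s i| ≤ |s j| := fun i => hj i (Finset.mem_univ i)
  have hσj : σ ≤ |s j| := by
    obtain ⟨i, hi⟩ := hbig
    exact hi.trans (hj' i)
  have hj0 : 0 < |s j| := hσ.trans_le hσj
  have hj1 : s j ≠ 0 := abs_pos.1 hj0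
  refine ⟨fun i => s i / s j, ⟨fun i => ?_, j, ?_⟩, fun x hx hq => ?_⟩
  · rw [abs_div, div_le_one hj0]
    exact hj' i
  · show |s j / s j| = 1
    rw [div_self hj1, abs_one]
  -- the entries
  obtain ⟨n, hn⟩ : ∃ n : Fin 3 → ℝ, n = fun i => s i / s j := ⟨_, rfl⟩
  have hn1 : ∀ i, |n i| ≤ 1 := fun i => by
    rw [hn, abs_div, div_le_one hj0]
    exact hj' i
  obtain ⟨τ, hτ⟩ : ∃ τ, τ = δ / |s j| := ⟨_, rfl⟩
  have hτ0 : 0 ≤ τ := by rw [hτ]; positivity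
  have r1 : ∀ i l, |S i l - n i * S j l| ≤ τ := by
    intro i l
    have e1 : S i l - n i * S j l = -((s i * S j l - s j * S i l) / s j) := by
      rw [hn]
      field_simp
      ring
    rw [e1, abs_neg, abs_div, hτ]
    exact div_le_div_of_nonneg_right (hs i j l) hj0.le
  have r2 : ∀ i l, |S i l - n i * n l * S j j| ≤ 2 * τ := by
    intro i l
    have e1 : S i l - n i * n l * S j j = (S i l - n i * S j l) + n i * (S l j - n l * S j j) := by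
      rw [hS l j]
      ring
    rw [e1]
    refine (abs_add_le _ _).trans ?_
    rw [abs_mul]
    have := r1 i l
    have := r1 l j
    have := mul_le_mul (hn1 i) (r1 l j) (abs_nonneg _) zero_le_one
    linarith
  have hτk : 36 * τ ≤ k * η ^ 2 := by
    rw [hτ, ← mul_div_assoc, div_le_iff₀ hj0]
    refine hσδ.trans ?_
    rw [mul_comm]
    exact mul_le_mul_of_nonneg_left hσj (by positivity)
  have hη2 : η ^ 2 ≤ 1 := by
    have := pow_le_pow_left₀ hη.le hη1 2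
    linarith
  have r3 : 17 / 18 * k ≤ |S j j| := by
    obtain ⟨i, l, hil⟩ := hkS
    have h3 := r2 i l
    have h4 : |S i l| ≤ |n i * n l * S j j| + 2 * τ := by
      have := abs_sub_abs_le_abs_sub (S i l) (n i * n l * S j j)
      linarith
    have h5 : |n i * n l * S j j| ≤ |S j j| := by
      rw [abs_mul, abs_mul]
      have h6 := mul_le_mul (hn1 i) (hn1 l) (abs_nonneg _) zero_le_one
      have h7 := mul_le_mul_of_nonneg_right h6 (abs_nonneg (S j j))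
      linarith
    have h8 : k * η ^ 2 ≤ k * 1 := mul_le_mul_of_nonneg_left hη2 hk.le
    linarith
  have r4 : |q2 S x x - S j j * l1 n x ^ 2| ≤ 18 * τ := by
    have e1 : q2 S x x - S j j * l1 n x ^ 2 =
        ∑ i, ∑ l, (S i l - n i * n l * S j j) * x i * x l := by
      unfold q2 l1
      have e2 : (∑ l, n l * x l) ^ 2 = ∑ i, ∑ l, (n i * x i) * (n l * x l) := by
        rw [sq, Finset.sum_mul_sum]
      rw [e2, Finset.mul_sum, ← Finset.sum_sub_distrib]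
      refine Finset.sum_congr rfl fun i _ => ?_
      rw [Finset.mul_sum, ← Finset.sum_sub_distrib]
      refine Finset.sum_congr rfl fun l _ => ?_
      ring
    rw [e1]
    refine (Finset.abs_sum_le_sum_abs _ _).trans ?_
    have e3 : ∀ i, |∑ l, (S i l - n i * n l * S j j) * x i * x l| ≤ 6 * τ := by
      intro i
      refine (Finset.abs_sum_le_sum_abs _ _).trans ?_
      have e4 : ∀ l, |(S i l - n i * n l * S j j) * x i * x l| ≤ 2 * τ := by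
        intro l
        rw [abs_mul, abs_mul]
        have h6 := mul_le_mul (r2 i l) (hx i) (abs_nonneg _) (by linarith)
        have h7 := mul_le_mul h6 (hx l) (abs_nonneg _) (by linarith)
        linarith
      refine (Finset.sum_le_sum fun l _ => e4 l).trans ?_
      simp
      linarith
    refine (Finset.sum_le_sum fun i _ => e3 i).trans ?_
    simp
    linarith
  have r5 : |S j j| * l1 n x ^ 2 ≤ k * η ^ 2 / 4 + 18 * τ := by
    have h1 : |S j j| * l1 n x ^ 2 = |S j j * l1 n x ^ 2| := by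
      rw [abs_mul, abs_of_nonneg (sq_nonneg (l1 n x))]
    rw [h1]
    have h2 := abs_sub_abs_le_abs_sub (S j j * l1 n x ^ 2) (q2 S x x)
    rw [abs_sub_comm] at h2
    linarith
  have r6 : l1 n x ^ 2 ≤ η ^ 2 := by
    by_contra hcon
    have h1 := not_le.1 hcon
    have h2 : 17 / 18 * k * l1 n x ^ 2 ≤ |S j j| * l1 n x ^ 2 :=
      mul_le_mul_of_nonneg_right r3 (sq_nonneg _)
    nlinarith
  have r7 := abs_le_of_sq_le_sq r6 hη.le
  rw [hn] at r7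
  exact r7

section law

variable {Ω ζ : Type} [Fintype Ω] {q : Ω → ℝ} {X : Ω → Fin 3 → ℝ} {z : Ω → ζ} {η c : ℝ}

/-- **Two visible forms which are small on the fan are proportional.** -/
theorem conic_law (hq : ∀ ω, 0 ≤ q ω) (h : NoHyp q X z η c) (hη : 0 < η)
    {Q₁ Q₂ : ζ → Fin 3 → Fin 3 → ℝ} {k K e₁ e₂ : ζ → ℝ} (E : Ω → Prop)
    (h1 : ∀ ω, E ω → ∀ i j, Q₁ (z ω) i j = Q₁ (z ω) j i)
    (h2 : ∀ ω, E ω → ∀ i j, Q₂ (z ω) i j = Q₂ (z ω) j i)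
    (hk : ∀ ω, E ω → 0 < k (z ω) ∧ ∃ i j, k (z ω) ≤ |Q₁ (z ω) i j|)
    (hK : ∀ ω, E ω → ∀ i j, |Q₂ (z ω) i j| ≤ K (z ω))
    (he1 : ∀ ω, E ω → |q2 (Q₁ (z ω)) (X ω) (X ω)| ≤ e₁ (z ω))
    (he2 : ∀ ω, E ω → |q2 (Q₂ (z ω)) (X ω) (X ω)| ≤ e₂ (z ω)) :
    law q (fun ω => E ω ∧ ¬ ∃ t : ℝ, ∀ i j, |Q₂ (z ω) i j - t * Q₁ (z ω) i j| ≤
      18 * (K (z ω) * (e₁ (z ω) / k (z ω)) + e₂ (z ω)) / η ^ 2) True ≤ 2 * c := by
  classical
  -- the good values of the record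
  obtain ⟨G, hG⟩ : ∃ G : ζ → Prop, G = fun w => (∀ i j, Q₁ w i j = Q₁ w j i) ∧
    (∀ i j, Q₂ w i j = Q₂ w j i) ∧ (0 < k w ∧ ∃ i j, k w ≤ |Q₁ w i j|) ∧
    (∀ i j, |Q₂ w i j| ≤ K w) ∧ 0 ≤ e₁ w ∧ 0 ≤ e₂ w := ⟨_, rfl⟩
  have hGE : ∀ ω, E ω → G (z ω) := fun ω hω => by
    rw [hG]
    exact ⟨h1 ω hω, h2 ω hω, hk ω hω, hK ω hω, (abs_nonneg _).trans (he1 ω hω),
      (abs_nonneg _).trans (he2 ω hω)⟩
  have key : ∀ w, ∃ g : (Fin 3 → ℝ) × (Fin 3 → ℝ), ((∀ j, |g.1 j| ≤ 1) ∧ ∃ j, |g.1 j| = 1) ∧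
      ((∀ j, |g.2 j| ≤ 1) ∧ ∃ j, |g.2 j| = 1) ∧ (G w →
      ((∃ t : ℝ, ∀ i j, |Q₂ w i j - t * Q₁ w i j| ≤
        18 * (K w * (e₁ w / k w) + e₂ w) / η ^ 2) ∨
        ∀ x : Fin 3 → ℝ, |q2 (Q₁ w) x x| ≤ e₁ w → |q2 (Q₂ w) x x| ≤ e₂ w →
          |l1 g.1 x| ≤ η ∨ |l1 g.2 x| ≤ η)) := by
    intro w
    by_cases hw : G w
    · have hw' := hw
      rw [hG] at hw'
      obtain ⟨a1, a2, ⟨a3, a4⟩, a5, a6, a7⟩ := hw'
      obtain ⟨g₁, g₂, p1, p2, p3⟩ := conic_form a1 a2 a3 a4 a5 a6 a7 hη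
      exact ⟨(g₁, g₂), p1, p2, fun _ => p3⟩
    · exact ⟨(fun _ => 1, fun _ => 1), ⟨fun _ => by simp, 0, by simp⟩,
        ⟨fun _ => by simp, 0, by simp⟩, fun hw' => absurd hw' hw⟩
  choose g p1 p2 p3 using key
  have t1 := h (fun w => (g w).1) fun ω _ => p1 _
  have t2 := h (fun w => (g w).2) fun ω _ => p2 _
  have t3 : law q (fun ω => E ω ∧ ¬ ∃ t : ℝ, ∀ i j, |Q₂ (z ω) i j - t * Q₁ (z ω) i j| ≤
      18 * (K (z ω) * (e₁ (z ω) / k (z ω)) + e₂ (z ω)) / η ^ 2) True ≤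
      law q (fun ω => |∑ j, (g (z ω)).1 j * X ω j| ≤ η ∨ |∑ j, (g (z ω)).2 j * X ω j| ≤ η) True := by
    refine law_mono' hq fun ω _ hω => ?_
    obtain ⟨w1, w2⟩ := hω
    rcases p3 (z ω) (hGE ω w1) with h3 | h3
    · exact absurd h3 w2
    · exact h3 _ (he1 ω w1) (he2 ω w1)
  refine t3.trans ?_
  have t4 : law q (fun ω => |∑ j, (g (z ω)).1 j * X ω j| ≤ η ∨
      |∑ j, (g (z ω)).2 j * X ω j| ≤ η) True ≤
      law q (fun ω => |∑ j, (g (z ω)).1 j * X ω j| ≤ η) True +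
      law q (fun ω => |∑ j, (g (z ω)).2 j * X ω j| ≤ η) True := by
    unfold law
    rw [← Finset.sum_add_distrib]
    refine Finset.sum_le_sum fun ω _ => ?_
    by_cases c1 : |∑ j, (g (z ω)).1 j * X ω j| ≤ η
    · rw [if_pos (by simp [c1]), if_pos (by simp [c1])]
      refine le_add_of_nonneg_right ?_
      split_ifs
      · exact hq ω
      · exact le_rfl
    · by_cases c2 : |∑ j, (g (z ω)).2 j * X ω j| ≤ η
      · rw [if_pos (by simp [c2]), if_neg (by simp [c1]), if_pos (by simp [c2]), zero_add]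
      · rw [if_neg (by simp [c1, c2]), if_neg (by simp [c1]), if_neg (by simp [c2]), zero_add]
  linarith

/-- **A visible form which is small on the fan is not a square.** -/
theorem rank_law (hq : ∀ ω, 0 ≤ q ω) (h : NoHyp q X z η c) (hη : 0 < η) (hη1 : η ≤ 1)
    {s : ζ → Fin 3 → ℝ} {S : ζ → Fin 3 → Fin 3 → ℝ} {δ k σ : ζ → ℝ} (E : Ω → Prop)
    (hS : ∀ ω, E ω → ∀ i j, S (z ω) i j = S (z ω) j i)
    (hk : ∀ ω, E ω → 0 < k (z ω) ∧ ∃ i j, k (z ω) ≤ |S (z ω) i j|)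
    (hs : ∀ ω, E ω → ∀ i j l, |s (z ω) i * S (z ω) j l - s (z ω) j * S (z ω) i l| ≤ δ (z ω))
    (hσ : ∀ ω, E ω → 0 < σ (z ω) ∧ 36 * δ (z ω) ≤ σ (z ω) * (k (z ω) * η ^ 2))
    (hX : ∀ ω, E ω → ∀ j, |X ω j| ≤ 1)
    (he : ∀ ω, E ω → |q2 (S (z ω)) (X ω) (X ω)| ≤ k (z ω) * η ^ 2 / 4) :
    law q (fun ω => E ω ∧ ∃ i, σ (z ω) ≤ |s (z ω) i|) True ≤ c := by
  classical
  obtain ⟨G, hG⟩ : ∃ G : ζ → Prop, G = fun w => (∀ i j, S w i j = S w j i) ∧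
    (0 < k w ∧ ∃ i j, k w ≤ |S w i j|) ∧ (∀ i j l, |s w i * S w j l - s w j * S w i l| ≤ δ w) ∧
    (0 < σ w ∧ 36 * δ w ≤ σ w * (k w * η ^ 2)) ∧ ∃ i, σ w ≤ |s w i| := ⟨_, rfl⟩
  have key : ∀ w, ∃ g : Fin 3 → ℝ, ((∀ j, |g j| ≤ 1) ∧ ∃ j, |g j| = 1) ∧ (G w →
      ∀ x : Fin 3 → ℝ, (∀ j, |x j| ≤ 1) → |q2 (S w) x x| ≤ k w * η ^ 2 / 4 → |l1 g x| ≤ η) := by
    intro w
    by_cases hw : G w
    · have hw' := hw
      rw [hG] at hw'
      obtain ⟨a1, ⟨a2, a3⟩, a4, ⟨a5, a6⟩, a7⟩ := hw'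
      have hδ : 0 ≤ δ w := (abs_nonneg _).trans (a4 0 0 0)
      obtain ⟨g, p1, p2⟩ := rank_pure a1 hδ a2 hη hη1 a5 a3 a4 a6 a7
      exact ⟨g, p1, fun _ => p2⟩
    · exact ⟨fun _ => 1, ⟨fun _ => by simp, 0, by simp⟩, fun hw' => absurd hw' hw⟩
  choose g p1 p2 using key
  refine le_trans (law_mono' hq fun ω _ hω => ?_) (h g fun ω _ => p1 _)
  obtain ⟨w1, w2⟩ := hω
  refine p2 (z ω) ?_ (X ω) (hX ω w1) (he ω w1)
  rw [hG]
  exact ⟨hS ω w1, hk ω w1, hs ω w1, hσ ω w1, w2⟩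

end law

end Pool.CNC76
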