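import Pool.Agent.H76.CNC.Box
import Pool.Agent.H76.CNC.Law
import Pool.Agent.H35.K2S.Stab
import Pool.Agent.H42.D2.SpanT

/-!
# The abstract ball

`Clo B pt sl f`: on the event `B` the function `f` is a function of the code of the point and a
function of the code of the line. `Bll`: the ball of one window, in unit coordinates: own point `y`,
closed deep centre `yc`, direction `X`; `rel`: a closed polynomial which is small at the own points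
is small on the ball; `nhy`: no closed hyperplane contains the directions. `Chn`: the balls of
finitely many windows in one frame, with the charts `U` of `u` and the data `Ph`, `cs` of `N`.
`Tub`: the tube of the line of one window: the closed path and the closed tube polynomial of `u`.
-/

set_option autoImplicit false

namespace Pool.CNC76

open Finset MvPolynomial
open Pool.Agent.H49.Ent
open Pool.STK (IsLaw)
open Pool.K2S (Pe)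
open Pool.CUB46 (q2 l1 h3)
open Pool.D2G30 (nd)
open Pool.D2Con (NoHyp)

/-- **Closed** on `B`. -/
def Clo {Ω P S T : Type} (B : Ω → Prop) (pt : Ω → P) (sl : Ω → S) (f : Ω → T) : Prop :=
  (∀ ω ω', B ω → B ω' → pt ω = pt ω' → f ω = f ω') ∧
    ∀ ω ω', B ω → B ω' → sl ω = sl ω' → f ω = f ω'

section clo

variable {Ω P S T T' : Type} {B B' : Ω → Prop} {pt : Ω → P} {sl : Ω → S} {f : Ω → T}

theorem Clo.sub (h : Clo B pt sl f) (hB : ∀ ω, B' ω → B ω) : Clo B' pt sl f :=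
  ⟨fun ω ω' h1 h2 e => h.1 ω ω' (hB ω h1) (hB ω' h2) e,
    fun ω ω' h1 h2 e => h.2 ω ω' (hB ω h1) (hB ω' h2) e⟩

theorem Clo.map (h : Clo B pt sl f) (g : T → T') : Clo B pt sl (fun ω => g (f ω)) :=
  ⟨fun ω ω' h1 h2 e => congrArg g (h.1 ω ω' h1 h2 e),
    fun ω ω' h1 h2 e => congrArg g (h.2 ω ω' h1 h2 e)⟩

theorem Clo.map2 {T₁ T₂ : Type} {f₁ : Ω → T₁} {f₂ : Ω → T₂} (h₁ : Clo B pt sl f₁)
    (h₂ : Clo B pt sl f₂) (g : T₁ → T₂ → T') : Clo B pt sl (fun ω => g (f₁ ω) (f₂ ω)) :=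
  ⟨fun ω ω' h1 h2 e => congrArg₂ g (h₁.1 ω ω' h1 h2 e) (h₂.1 ω ω' h1 h2 e),
    fun ω ω' h1 h2 e => congrArg₂ g (h₁.2 ω ω' h1 h2 e) (h₂.2 ω ω' h1 h2 e)⟩

theorem Clo.const (t : T) : Clo B pt sl (fun _ => t) := ⟨fun _ _ _ _ _ => rfl, fun _ _ _ _ _ => rfl⟩

theorem Clo.pi {ι : Type} {f : ι → Ω → T} (h : ∀ i, Clo B pt sl (f i)) :
    Clo B pt sl (fun ω i => f i ω) :=
  ⟨fun ω ω' h1 h2 e => funext fun i => (h i).1 ω ω' h1 h2 e,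
    fun ω ω' h1 h2 e => funext fun i => (h i).2 ω ω' h1 h2 e⟩

/-- A finer code of the line. -/
theorem Clo.fine {S' : Type} {sd : Ω → S'} (h : Clo B pt sl f)
    (hs : ∀ ω ω', B ω → B ω' → sd ω = sd ω' → sl ω = sl ω') : Clo B pt sd f :=
  ⟨h.1, fun ω ω' h1 h2 e => h.2 ω ω' h1 h2 (hs ω ω' h1 h2 e)⟩

end clo

/-- **The ball of one window**, in unit coordinates. -/
structure Bll {Ω P S S' : Type} [Fintype Ω] (p : Ω → ℝ) (B : Ω → Prop) (pt : Ω → P) (sl : Ω → S)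
    (sd : Ω → S') (y yc X : Ω → Fin 3 → ℝ) (D h Q : ℕ) (κ η c T : ℝ) : Prop where
  law : IsLaw p
  κ0 : 0 ≤ κ
  pos : 0 < Pe p B
  sls : ∀ ω ω', B ω → B ω' → sd ω = sd ω' → sl ω = sl ω'
  y1 : ∀ ω, B ω → ∀ i, |y ω i| ≤ 1 / 2
  yc1 : ∀ ω, B ω → Bx (yc ω)
  ycc : Clo B pt sd yc
  ycn : ∀ ω, B ω → ∀ i, |y ω i - yc ω i| ≤ 1 / 2 ^ Q
  XT : ∀ ω, B ω → ∀ i, |X ω i| ≤ T
  rel : ∀ B' : Ω → Prop, (∀ ω, B' ω → B ω) → κ * Pe p B ≤ Pe p B' →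
    ∀ P : Ω → MvPolynomial (Fin 3) ℝ, Clo B' pt sl P → (∀ ω, B' ω → (P ω).totalDegree ≤ D) →
    ∀ M : ℝ, 0 < M → (∀ ω, B' ω → |eval (y ω) (P ω)| ≤ M) →
    ∃ B'' : Ω → Prop, (∀ ω, B'' ω → B' ω) ∧ Pe p B' ≤ 2 * Pe p B'' ∧
      ∀ ω, B'' ω → ∀ b, Bx b → |eval b (P ω)| ≤ 2 ^ h * M
  nhy : ∀ B' : Ω → Prop, (∀ ω, B' ω → B ω) → κ * Pe p B ≤ Pe p B' →
    ∀ {ζ : Type} (Z : Ω → ζ), Clo B' pt sd Z → NoHyp (cond p B' True) X Z η c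

/-- The polynomial in the unit coordinates of the cube with centre `a` and radius `ρ`. -/
noncomputable def dil (a : Fin 3 → ℝ) (ρ : ℝ) (P : MvPolynomial (Fin 3) ℝ) :
    MvPolynomial (Fin 3) ℝ :=
  aeval (fun i => C (a i) + C ρ * X i) P

/-- The unit coordinates. -/
noncomputable def unt {Ω : Type} (Y ctr : Ω → Fin 3 → ℝ) (ρ : ℝ) (ω : Ω) (i : Fin 3) : ℝ :=
  (Y ω i - ctr ω i) / ρ

/-- **The windows** `k ≤ n` in one frame. `Y`: the own point in the coordinates of the frame (time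
first), `X`: the direction, `X 0 = 1`; `ctr k`, `ρ k`: centre and radius of the cube of the window;
`U k`: the chart of `u`; `EU k`: its error; `cs k`: the derivative in the direction `u` of the chart of
`N`, at the closed centre; `Ph k`: the chart of `N` on the graph of `U k`, less `cs k * U k`; `EN k`:
the error of the chart of `N`. Larger `k`: deeper. -/
structure Chn {Ω P S S' : Type} [Fintype Ω] (p : Ω → ℝ) (B : Ω → Prop) (pt : Ω → P)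
    (sl : ℕ → Ω → S) (sd : Ω → S') (Y Yc X : Ω → Fin 3 → ℝ) (n : ℕ) (ctr : ℕ → Ω → Fin 3 → ℝ)
    (ρ EU EN : ℕ → ℝ) (U Ph : ℕ → Ω → MvPolynomial (Fin 3) ℝ) (cs : ℕ → Ω → ℝ)
    (D₀ D h Q : ℕ) (κ η c T s : ℝ) : Prop where
  bll : ∀ k ≤ n, Bll p B pt (sl k) sd (unt Y (ctr k) (ρ k)) (unt Yc (ctr k) (ρ k)) X D h Q κ η c T
  ρ0 : ∀ k ≤ n, 0 < ρ k ∧ ρ k ≤ 1
  ρd : ∀ j ≤ n, ∀ k ≤ n, j < k → 4 * ρ k ≤ ρ j
  EU0 : ∀ k ≤ n, 0 < EU k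
  EN0 : ∀ k ≤ n, 0 < EN k
  X0 : ∀ ω, B ω → X ω 0 = 1
  slm : ∀ j ≤ n, ∀ k ≤ n, j ≤ k → ∀ ω ω', B ω → B ω' → sl k ω = sl k ω' → sl j ω = sl j ω'
  ctrc : ∀ k ≤ n, Clo B pt (sl k) (ctr k)
  Uc : ∀ k ≤ n, Clo B pt (sl k) (U k)
  Phc : ∀ k ≤ n, Clo B pt (sl k) (Ph k)
  csc : ∀ k ≤ n, Clo B pt (sl k) (cs k)
  degU : ∀ k ≤ n, ∀ ω, B ω → (U k ω).totalDegree ≤ D₀
  degP : ∀ k ≤ n, ∀ ω, B ω → (Ph k ω).totalDegree ≤ D₀
  ownU : ∀ k ≤ n, ∀ ω, B ω → |q2 (h3 (U k ω) (Y ω)) (X ω) (X ω)| ≤ s * EU k / ρ k ^ 2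
  ownP : ∀ k ≤ n, ∀ ω, B ω → |q2 (h3 (Ph k ω) (Y ω)) (X ω) (X ω)| ≤ s * EN k / ρ k ^ 2
  telU : ∀ j ≤ n, ∀ k ≤ n, j ≤ k → ∀ ω, B ω → ∀ b : Fin 3 → ℝ, (∀ i, |b i - ctr k ω i| ≤ ρ k) →
    |eval b (U k ω) - eval b (U j ω)| ≤ s * EU j
  telP : ∀ j ≤ n, ∀ k ≤ n, j ≤ k → ∀ ω, B ω → ∀ b : Fin 3 → ℝ, (∀ i, |b i - ctr k ω i| ≤ ρ k) →
    |eval b (Ph k ω) + (cs k ω - cs j ω) * eval b (U k ω) - eval b (Ph j ω)| ≤ s * EN j
  telc : ∀ j ≤ n, ∀ k ≤ n, j ≤ k → ∀ ω, B ω → |cs k ω - cs j ω| ≤ s * (EN j / EU j)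

/-- **The tube of the line** of the window `t ≤ n`, up to the window `n`. `xh`: the closed path of the
line, `Tu`: the closed tube polynomial of `u`, both functions of the code `sl t`. -/
structure Tub {Ω S : Type} (B : Ω → Prop) (sl : Ω → S) (Y X : Ω → Fin 3 → ℝ) (t n : ℕ)
    (ρ EU : ℕ → ℝ) (U : ℕ → Ω → MvPolynomial (Fin 3) ℝ) (xh : Ω → Fin 3 → Polynomial ℝ)
    (Tu : Ω → MvPolynomial (Fin 3) ℝ) (D₀ : ℕ) (δ s : ℝ) : Prop where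
  xc : ∀ ω ω', B ω → B ω' → sl ω = sl ω' → xh ω = xh ω'
  Tc : ∀ ω ω', B ω → B ω' → sl ω = sl ω' → Tu ω = Tu ω'
  x0 : ∀ ω, B ω → xh ω 0 = Polynomial.X
  xd : ∀ ω, B ω → ∀ i, (xh ω i).natDegree ≤ D₀
  Td : ∀ ω, B ω → (Tu ω).totalDegree ≤ D₀
  near : ∀ ω, B ω → ∀ τ : ℝ, |τ - Y ω 0| ≤ 2 * ρ t → ∀ i,
    |(xh ω i).eval τ - (Y ω i + (τ - Y ω 0) * X ω i)| ≤ δ
  val : ∀ j, t ≤ j → j ≤ n → ∀ ω, B ω → ∀ τ : ℝ, |τ - Y ω 0| ≤ 2 * ρ j →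
    |eval (fun i => (xh ω i).eval τ) (Tu ω) - eval (fun i => (xh ω i).eval τ) (U j ω)| ≤ s * EU j
  grd : ∀ j, t ≤ j → j ≤ n → ∀ ω, B ω → ∀ τ : ℝ, |τ - Y ω 0| ≤ 2 * ρ j → ∀ l : Fin 3, l ≠ 0 →
    |eval (fun i => (xh ω i).eval τ) (pderiv l (Tu ω)) -
      eval (fun i => (xh ω i).eval τ) (pderiv l (U j ω))| ≤ s * EU j / ρ j

end Pool.CNC76
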