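import Pool.Agent.H76.CNC.Det

/-!
# Families of closed polynomials on the ball

`rel_max`: a finite family of closed polynomials which is at most `ε` at the own points, with `ε` a
function of the sample, is at most `C 2 ^ h ε` on the ball, off an event of small mass. `pe_con`: the
conditional law.
-/

set_option autoImplicit false

namespace Pool.CNC76

open Finset MvPolynomial
open Pool.Agent.H49.Ent
open Pool.STK (IsLaw)
open Pool.K2S (Pe)
open Pool.CUB46 (q2 l1 h3)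
open Pool.D2G30 (nd)
open Pool.D2Con (NoHyp law_mono')
open Pool.JVE (pe_sum)

section mass

variable {Ω : Type} [Fintype Ω] {p : Ω → ℝ}

theorem pe_nn (hp : ∀ ω, 0 ≤ p ω) (A : Ω → Prop) : 0 ≤ Pe p A := law_nonneg hp _ _

theorem pe_mn (hp : ∀ ω, 0 ≤ p ω) {A B : Ω → Prop} (h : ∀ ω, A ω → B ω) : Pe p A ≤ Pe p B :=
  law_mono' hp fun ω _ => h ω

theorem pe_spl (hp : ∀ ω, 0 ≤ p ω) (A G : Ω → Prop) :
    Pe p A ≤ Pe p (fun ω => A ω ∧ G ω) + Pe p (fun ω => A ω ∧ ¬ G ω) := by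
  classical
  rw [pe_sum, pe_sum, pe_sum, ← Finset.sum_add_distrib]
  refine Finset.sum_le_sum fun ω _ => ?_
  by_cases h1 : A ω
  · by_cases h2 : G ω
    · simp [h1, h2]
    · simp [h1, h2]
  · simp [h1]

theorem pe_ex (A : Ω → Prop) (h : 0 < Pe p A) : ∃ ω, A ω := by
  classical
  by_contra hcon
  push Not at hcon
  rw [pe_sum] at h
  simp [hcon] at h

/-- The conditional law of an event. -/
theorem pe_con (hp : ∀ ω, 0 ≤ p ω) {A : Ω → Prop} (hA : 0 < Pe p A) (E : Ω → Prop) :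
    Pe p (fun ω => A ω ∧ E ω) = Pe p A * Pe (cond p A True) E := by
  classical
  rw [pe_sum p (fun ω => A ω ∧ E ω), pe_sum (cond p A True) E, Finset.mul_sum]
  refine Finset.sum_congr rfl fun ω _ => ?_
  unfold Pool.Agent.H49.Ent.cond
  by_cases h1 : A ω
  · have h2 : (A ω) = True := eq_true h1
    by_cases h3 : E ω
    · rw [if_pos ⟨h1, h3⟩, if_pos h3, if_pos h2]
      have : Pe p A ≠ 0 := hA.ne'
      field_simp
    · rw [if_neg (fun h => h3 h.2), if_neg h3, mul_zero]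
  · have h2 : (A ω) ≠ True := fun h => h1 (of_eq_true h)
    rw [if_neg (fun h => h1 h.1), if_neg h2]
    simp

theorem con_nn (hp : ∀ ω, 0 ≤ p ω) (A : Ω → Prop) (ω : Ω) : 0 ≤ cond p A True ω :=
  cond_nonneg hp A True ω

theorem con_pos {A : Ω → Prop} {ω : Ω} (h : 0 < cond p A True ω) : A ω := by
  classical
  unfold Pool.Agent.H49.Ent.cond at h
  by_contra h1
  have h2 : (A ω) ≠ True := fun h => h1 (of_eq_true h)
  rw [if_neg h2] at h
  exact lt_irrefl _ h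

end mass

/-- The maximum at the nodes. -/
noncomputable def nmx (K : ℕ) {ι : Type} [Fintype ι] (g : ι → MvPolynomial (Fin 3) ℝ) : ℝ :=
  ⨆ x : ι × (Fin 3 → Fin (K + 1)), |eval (nd K x.2) (g x.1)|

theorem nmx_ge (K : ℕ) {ι : Type} [Fintype ι] (g : ι → MvPolynomial (Fin 3) ℝ) (i : ι)
    (β : Fin 3 → Fin (K + 1)) : |eval (nd K β) (g i)| ≤ nmx K g :=
  le_ciSup (f := fun x : ι × (Fin 3 → Fin (K + 1)) => |eval (nd K x.2) (g x.1)|)
    (Set.finite_range _).bddAbove (i, β)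

theorem nmx_eq (K : ℕ) {ι : Type} [Fintype ι] [Nonempty ι] (g : ι → MvPolynomial (Fin 3) ℝ) :
    ∃ x : ι × (Fin 3 → Fin (K + 1)), |eval (nd K x.2) (g x.1)| = nmx K g := by
  obtain ⟨x, hx⟩ := exists_eq_ciSup_of_finite
    (f := fun x : ι × (Fin 3 → Fin (K + 1)) => |eval (nd K x.2) (g x.1)|)
  exact ⟨x, hx⟩

/-- A place of the maximum. -/
noncomputable def nax (K : ℕ) {ι : Type} [Fintype ι] [Nonempty ι]
    (g : ι → MvPolynomial (Fin 3) ℝ) : ι × (Fin 3 → Fin (K + 1)) := (nmx_eq K g).choose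

theorem nax_eq (K : ℕ) {ι : Type} [Fintype ι] [Nonempty ι] (g : ι → MvPolynomial (Fin 3) ℝ) :
    |eval (nd K (nax K g).2) (g (nax K g).1)| = nmx K g := (nmx_eq K g).choose_spec

/-- **A family of closed polynomials.** -/
theorem rel_max (K : ℕ) (hK : 1 ≤ K) : ∃ C : ℝ, 1 ≤ C ∧ ∀ {Ω P S S' : Type} [Fintype Ω]
    {p : Ω → ℝ} {B : Ω → Prop} {pt : Ω → P} {sl : Ω → S} {sd : Ω → S'} {y yc X : Ω → Fin 3 → ℝ}
    {D h Q : ℕ} {κ η c T : ℝ}, Bll p B pt sl sd y yc X D h Q κ η c T → K ≤ D →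
    ∀ {ι : Type} [Fintype ι] [Nonempty ι] {B' : Ω → Prop} (f : ι → Ω → MvPolynomial (Fin 3) ℝ)
      (ε : Ω → ℝ), (∀ ω, B' ω → B ω) → (∀ i, Clo B' pt sl (f i)) →
      (∀ i ω, B' ω → (f i ω).totalDegree ≤ K) →
      (∀ ω, B' ω → ∀ i, |eval (y ω) (f i ω)| ≤ ε ω) →
      ∃ B'' : Ω → Prop, (∀ ω, B'' ω → B' ω) ∧ Pe p B' ≤ Pe p B'' + κ * Pe p B ∧
        ∀ ω, B'' ω → ∀ i b, Bx b → |eval b (f i ω)| ≤ C * 2 ^ h * ε ω := by
  classical
  obtain ⟨C, hC, hsup⟩ := sup_nd K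
  refine ⟨2 * C, by linarith, ?_⟩
  intro Ω P S S' _ p B pt sl sd y yc X D h Q κ η c T W hKD ι _ _ B' f ε hB hcl hdeg hy
  have hp := W.law.nonneg
  obtain ⟨G, hG⟩ : ∃ G : Ω → Prop, G = fun ω => nmx K (fun i => f i ω) ≤ 2 * 2 ^ h * ε ω :=
    ⟨_, rfl⟩
  refine ⟨fun ω => B' ω ∧ G ω, fun ω h => h.1, ?_, ?_⟩
  · refine (pe_spl hp B' G).trans (add_le_add le_rfl ?_)
    by_contra hcon
    rw [not_le] at hcon
    obtain ⟨A, hA⟩ : ∃ A : Ω → Prop, A = fun ω => B' ω ∧ ¬ G ω := ⟨_, rfl⟩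
    rw [← hA] at hcon
    have hAB : ∀ ω, A ω → B' ω := fun ω hω => by
      rw [hA] at hω
      exact hω.1
    have hbig : ∀ ω, A ω → 2 * 2 ^ h * ε ω < nmx K (fun i => f i ω) := fun ω hω => by
      rw [hA, hG] at hω
      exact not_le.1 hω.2
    have hε : ∀ ω, A ω → 0 ≤ ε ω := fun ω hω =>
      (abs_nonneg _).trans (hy ω (hAB ω hω) (Classical.arbitrary ι))
    have hpos : ∀ ω, A ω → 0 < nmx K (fun i => f i ω) := fun ω hω =>
      lt_of_le_of_lt (mul_nonneg (by positivity) (hε ω hω)) (hbig ω hω)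
    obtain ⟨Φ, hΦ⟩ : ∃ Φ : (ι → MvPolynomial (Fin 3) ℝ) → MvPolynomial (Fin 3) ℝ,
      Φ = fun g => MvPolynomial.C (nmx K g)⁻¹ * g (nax K g).1 := ⟨_, rfl⟩
    have hclf : Clo A pt sl (fun ω => Φ (fun i => f i ω)) :=
      ((Clo.pi (f := f) hcl).sub hAB).map Φ
    obtain ⟨A', h1, h2, h3⟩ := W.rel A (fun ω hω => hB ω (hAB ω hω)) hcon.le
      (fun ω => Φ (fun i => f i ω)) hclf (fun ω hω => by
        rw [hΦ]
        refine (totalDegree_mul _ _).trans ?_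
        rw [totalDegree_C, zero_add]
        exact (hdeg _ ω (hAB ω hω)).trans hKD) (1 / (2 * 2 ^ h)) (by positivity) (fun ω hω => by
        have h0 := hpos ω hω
        rw [hΦ]
        simp only
        rw [map_mul, eval_C, abs_mul, abs_inv, abs_of_pos h0, inv_mul_le_iff₀ h0]
        refine (hy ω (hAB ω hω) _).trans ?_
        rw [mul_one_div, le_div_iff₀ (by positivity)]
        linarith [hbig ω hω])
    have h4 : 0 < Pe p A' := by
      have h5 : 0 ≤ κ * Pe p B := mul_nonneg W.κ0 (pe_nn hp _)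
      linarith
    obtain ⟨ω, hω⟩ := pe_ex A' h4
    have h0 := hpos ω (h1 ω hω)
    have h5 := h3 ω hω (nd K (nax K (fun i => f i ω)).2) (nd_bx hK _)
    rw [hΦ] at h5
    simp only at h5
    rw [map_mul, eval_C, abs_mul, nax_eq K (fun i => f i ω), abs_inv, abs_of_pos h0,
      inv_mul_cancel₀ h0.ne'] at h5
    have e : (2 : ℝ) ^ h * (1 / (2 * 2 ^ h)) = 1 / 2 := by
      field_simp
    rw [e] at h5
    norm_num at h5
  · intro ω hω i b hb
    obtain ⟨w1, w2⟩ := hω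
    rw [hG] at w2
    refine (hsup hK (hdeg i ω w1) (fun β => (nmx_ge K (fun i => f i ω) i β).trans w2) b hb).trans
      (le_of_eq ?_)
    ring

end Pool.CNC76
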