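import Pool.Agent.H76.CNC.Row

/-!
# Cubes of other centres and radii

`dil`: the polynomial in the unit coordinates of a cube. `der_cu`, `gro_cu`, `lip_cu`: derivatives,
growth and the Lipschitz bound on the cube `|b i - a i| ≤ ρ`.
-/

set_option autoImplicit false

namespace Pool.CNC76

open Finset MvPolynomial
open Pool.CUB46 (q2 l1 h3)
open Pool.D2G30 (nd lin eval_lin deriv_lin)
open Pool.GEN (totalDegree_pdσ)

/-- The cube. -/
def Cu (a : Fin 3 → ℝ) (ρ : ℝ) (b : Fin 3 → ℝ) : Prop := ∀ i, |b i - a i| ≤ ρ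

theorem eval_dil (a : Fin 3 → ℝ) (ρ : ℝ) (P : MvPolynomial (Fin 3) ℝ) (b : Fin 3 → ℝ) :
    eval b (dil a ρ P) = eval (fun i => a i + ρ * b i) P := by
  unfold dil
  rw [Pool.GEN.eval_aevalσ]
  congr 2
  funext i
  rw [map_add, map_mul, eval_C, eval_C, eval_X]

theorem pd_dil (a : Fin 3 → ℝ) (ρ : ℝ) (P : MvPolynomial (Fin 3) ℝ) (i : Fin 3) :
    pderiv i (dil a ρ P) = C ρ * dil a ρ (pderiv i P) := by
  classical
  unfold dil
  rw [Pool.GEN.pd_aeval, Finset.sum_eq_single i]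
  · rw [map_add, pderiv_C, zero_add, pderiv_C_mul, pderiv_X_self, mul_one, mul_comm]
  · intro j _ hj
    rw [map_add, pderiv_C, zero_add, pderiv_C_mul, pderiv_X_of_ne hj, mul_zero, mul_zero]
  · intro h
    exact absurd (Finset.mem_univ i) h

theorem deg_dil {K : ℕ} {P : MvPolynomial (Fin 3) ℝ} (h : P.totalDegree ≤ K) (a : Fin 3 → ℝ)
    (ρ : ℝ) : (dil a ρ P).totalDegree ≤ K := by
  have h1 := Pool.GEN.totalDegree_aevalσ (g := fun i : Fin 3 =>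
    (C (a i) + C ρ * X i : MvPolynomial (Fin 3) ℝ)) (d := 1) (fun i => by
      refine (totalDegree_add _ _).trans (max_le ?_ ?_)
      · rw [totalDegree_C]; exact Nat.zero_le _
      · refine (totalDegree_mul _ _).trans ?_
        rw [totalDegree_C, totalDegree_X]) h
  rw [one_mul] at h1
  exact h1

theorem h3_dil (a : Fin 3 → ℝ) (ρ : ℝ) (P : MvPolynomial (Fin 3) ℝ) (b : Fin 3 → ℝ)
    (i j : Fin 3) : h3 (dil a ρ P) b i j = ρ ^ 2 * h3 P (fun i => a i + ρ * b i) i j := by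
  unfold h3
  rw [pd_dil, pderiv_C_mul, pd_dil, map_mul, map_mul, eval_C, eval_dil]
  ring

theorem q2_mul (r : ℝ) (M : Fin 3 → Fin 3 → ℝ) (x : Fin 3 → ℝ) :
    q2 (fun i j => r * M i j) x x = r * q2 M x x := by
  unfold q2
  rw [Finset.mul_sum]
  refine Finset.sum_congr rfl fun i _ => ?_
  rw [Finset.mul_sum]
  refine Finset.sum_congr rfl fun j _ => ?_
  ring

theorem cu_unit {a b : Fin 3 → ℝ} {ρ : ℝ} (hρ : 0 < ρ) (hb : Cu a ρ b) :
    Bx (fun i => (b i - a i) / ρ) ∧ (fun i => a i + ρ * ((b i - a i) / ρ)) = b := by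
  refine ⟨fun i => ?_, funext fun i => ?_⟩
  · rw [abs_div, abs_of_pos hρ, div_le_one hρ]
    exact hb i
  · field_simp
    ring

theorem bx_cu {a b : Fin 3 → ℝ} {ρ : ℝ} (hρ : 0 ≤ ρ) (hb : Bx b) :
    Cu a ρ (fun i => a i + ρ * b i) := fun i => by
  rw [add_sub_cancel_left, abs_mul, abs_of_nonneg hρ]
  exact mul_le_of_le_one_right hρ (hb i)

/-- **Derivatives on a cube.** -/
theorem der_cu (K : ℕ) : ∃ C : ℝ, 1 ≤ C ∧ ∀ {P : MvPolynomial (Fin 3) ℝ} {M ρ : ℝ}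
    {a : Fin 3 → ℝ}, P.totalDegree ≤ K → 0 < ρ → (∀ b, Cu a ρ b → |eval b P| ≤ M) →
    ∀ i b, Cu a ρ b → |eval b (pderiv i P)| ≤ C * M / ρ := by
  obtain ⟨C, hC, h⟩ := der_bx K
  refine ⟨C, hC, ?_⟩
  intro P M ρ a hP hρ hM i b hb
  obtain ⟨h1, h2⟩ := cu_unit hρ hb
  have h3 := h (deg_dil hP a ρ) (M := M) (fun z hz => by
    rw [eval_dil]
    exact hM _ (bx_cu hρ.le hz)) i _ h1
  rw [pd_dil, map_mul, MvPolynomial.eval_C, eval_dil, h2, abs_mul, abs_of_pos hρ] at h3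
  rw [le_div_iff₀ hρ, mul_comm]
  exact h3

/-- **Second derivatives on a cube.** -/
theorem hes_cu (K : ℕ) : ∃ C : ℝ, 1 ≤ C ∧ ∀ {P : MvPolynomial (Fin 3) ℝ} {M ρ : ℝ}
    {a : Fin 3 → ℝ}, P.totalDegree ≤ K → 0 < ρ → (∀ b, Cu a ρ b → |eval b P| ≤ M) →
    ∀ i j b, Cu a ρ b → |h3 P b i j| ≤ C * M / ρ ^ 2 := by
  obtain ⟨C, hC, h⟩ := der_cu K
  refine ⟨C * C, one_le_mul_of_one_le_of_one_le hC hC, ?_⟩
  intro P M ρ a hP hρ hM i j b hb
  have h1 := h (totalDegree_pdσ hP j) hρ (h hP hρ hM j) i b hb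
  refine h1.trans (le_of_eq ?_)
  field_simp

/-- **Growth.** -/
theorem gro_out (K : ℕ) : ∃ C : ℝ, 1 ≤ C ∧ ∀ {P : MvPolynomial (Fin 3) ℝ} {A M : ℝ},
    P.totalDegree ≤ K → 1 ≤ M → (∀ b, Bx b → |eval b P| ≤ A) →
    ∀ b : Fin 3 → ℝ, (∀ i, |b i| ≤ M) → |eval b P| ≤ C * M ^ K * A := by
  classical
  obtain ⟨C, hC, h⟩ := Pool.Agent.H40.FR.unit_coef K
  refine ⟨C * (K + 1), by nlinarith [K.cast_nonneg (α := ℝ)], ?_⟩
  intro P A M hP hM hA b hb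
  have hM0 : 0 < M := by linarith
  obtain ⟨v, hv⟩ : ∃ v : Fin 3 → ℝ, v = fun j => b j / M := ⟨_, rfl⟩
  have hA0 : 0 ≤ A := (abs_nonneg _).trans (hA 0 fun i => by simp)
  have hq : ∀ t ∈ Set.Icc (0 : ℝ) 1, |(lin 0 v P).eval t| ≤ A := by
    intro t ht
    rw [eval_lin]
    refine hA _ fun j => ?_
    rw [hv]
    simp only [Pi.zero_apply, zero_add]
    rw [abs_mul, abs_div, abs_of_pos hM0, abs_of_nonneg ht.1]
    have h1 : |b j| / M ≤ 1 := (div_le_one hM0).2 (hb j)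
    have h2 : 0 ≤ |b j| / M := by positivity
    nlinarith [ht.1, ht.2]
  have h1 := h (lin 0 v P) A (natDegree_lin hP _ _) hq
  have h2 : eval b P = (lin 0 v P).eval M := by
    rw [eval_lin]
    congr 2
    funext j
    rw [hv]
    simp only [Pi.zero_apply, zero_add]
    field_simp
  rw [h2, Polynomial.eval_eq_sum_range' (n := K + 1)
    (lt_of_le_of_lt (natDegree_lin hP _ _) (Nat.lt_succ_self _))]
  refine (Finset.abs_sum_le_sum_abs _ _).trans ?_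
  have h3 : ∀ j ∈ range (K + 1), |(lin 0 v P).coeff j * M ^ j| ≤ C * A * M ^ K := by
    intro j hj
    rw [abs_mul, abs_of_nonneg (by positivity : (0 : ℝ) ≤ M ^ j)]
    exact mul_le_mul (h1 j) (pow_le_pow_right₀ hM (Nat.lt_succ_iff.1 (Finset.mem_range.1 hj)))
      (by positivity) (mul_nonneg (by linarith) hA0)
  refine (Finset.sum_le_sum h3).trans (le_of_eq ?_)
  rw [Finset.sum_const, Finset.card_range, nsmul_eq_mul]
  push_cast
  ring

/-- **Growth from a cube.** -/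
theorem gro_cu (K : ℕ) : ∃ C : ℝ, 1 ≤ C ∧ ∀ {P : MvPolynomial (Fin 3) ℝ} {A M ρ : ℝ}
    {a : Fin 3 → ℝ}, P.totalDegree ≤ K → 1 ≤ M → 0 < ρ → (∀ b, Cu a ρ b → |eval b P| ≤ A) →
    ∀ b : Fin 3 → ℝ, Cu a (M * ρ) b → |eval b P| ≤ C * M ^ K * A := by
  obtain ⟨C, hC, h⟩ := gro_out K
  refine ⟨C, hC, ?_⟩
  intro P A M ρ a hP hM hρ hA b hb
  have h1 := h (deg_dil hP a ρ) hM (A := A) (fun z hz => by
    rw [eval_dil]
    exact hA _ (bx_cu hρ.le hz)) (fun i => (b i - a i) / ρ) (fun i => by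
    rw [abs_div, abs_of_pos hρ, div_le_iff₀ hρ]
    exact hb i)
  rw [eval_dil] at h1
  have e : (fun i => a i + ρ * ((b i - a i) / ρ)) = b := by
    funext i
    field_simp
    ring
  rw [e] at h1
  exact h1

/-- **The Lipschitz bound on a cube.** -/
theorem lip_cu (K : ℕ) (hK : 1 ≤ K) : ∃ C : ℝ, 1 ≤ C ∧ ∀ {P : MvPolynomial (Fin 3) ℝ}
    {A δ ρ : ℝ} {a : Fin 3 → ℝ}, P.totalDegree ≤ K → 0 < ρ → 0 ≤ δ →
    (∀ b, Cu a ρ b → |eval b P| ≤ A) →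
    ∀ x y : Fin 3 → ℝ, Cu a ρ x → Cu a ρ y → (∀ i, |x i - y i| ≤ δ) →
    |eval x P - eval y P| ≤ C * A * (δ / ρ) := by
  obtain ⟨C, hC, h⟩ := lip_bx K
  refine ⟨C, hC, ?_⟩
  intro P A δ ρ a hP hρ hδ hA x y hx hy hxy
  obtain ⟨x1, x2⟩ := cu_unit hρ hx
  obtain ⟨y1, y2⟩ := cu_unit hρ hy
  have h1 := h hK (deg_dil hP a ρ) (M := A) (fun z hz => by
    rw [eval_dil]
    exact hA _ (bx_cu hρ.le hz)) (δ := δ / ρ) (by positivity) _ _ x1 y1 (fun i => by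
    have e : (x i - a i) / ρ - (y i - a i) / ρ = (x i - y i) / ρ := by ring
    rw [e, abs_div, abs_of_pos hρ]
    exact div_le_div_of_nonneg_right (hxy i) hρ.le)
  rw [eval_dil, eval_dil, x2, y2] at h1
  exact h1

end Pool.CNC76
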