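import Pool.Agent.H60.AFF.Afs
import Pool.Agent.H3.D2G.RecJ
import Pool.Agent.H91.FR.QpG

/-!
# The labels of degree one at almost every window

`aff_alt`: two monotone numbers at a point of differentiability. `AffQ`: near the window the thresholds
of the labels of degree one are below the levels, or they agree with them to first order; `her_aff`,
`aePG_aff`: it passes to subclasses and holds at almost every window.
-/

set_option autoImplicit false

namespace Pool.CNC76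

open Finset Real MvPolynomial
open MeasureTheory Filter Topology
open Pool.Agent.H49.Ent Pool.Agent.H32.Dense Pool.STK Pool.KA Pool.KSAT Pool.K2S Pool.PB Pool.S6C
open Pool.GEN Pool.CHT Pool.PKG Pool.AFF60
open Pool.LBT (LSys Slo Tri ThrOf)
open Pool.LEV (Law)
open Pool.LA91 (HerQ)
open Pool.TOP (TopS)

variable {m J : ℕ}

/-- **Two functions which touch have the same derivative.** -/
theorem der_eq {A F : ℝ → ℝ} {g α φ : ℝ} (hα : HasDerivAt A α g) (hφ : HasDerivAt F φ g)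
    (hle : ∀ y z : ℝ, 0 < y → y < z → z < 1 → A y ≤ F z) (hg0 : 0 < g) (hg1 : g < 1)
    (hAF : A g = F g) : φ = α := by
  have key : ∀ s : ℝ, s ≠ 0 → ∀ ε : ℝ, 0 < ε → α * s ≤ φ * (s + ε) := by
    intro s hs ε hε
    have h1 : Tendsto (fun x : ℝ => (A (g + x * s) - A g) / x) (𝓝[>] 0) (𝓝 (α * s)) := by
      have h2 : HasDerivAt (fun x : ℝ => A (g + x * s)) (α * s) 0 := by
        have h3 : HasDerivAt (fun x : ℝ => g + x * s) s 0 := by
          simpa using ((hasDerivAt_id (0 : ℝ)).mul_const s).const_add g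
        have h4 : HasDerivAt A α (g + 0 * s) := by simpa using hα
        exact h4.comp 0 h3
      have h5 := h2.tendsto_slope_zero_right
      refine h5.congr fun x => ?_
      simp [div_eq_inv_mul]
    have h1' : Tendsto (fun x : ℝ => (F (g + x * (s + ε)) - F g) / x) (𝓝[>] 0)
        (𝓝 (φ * (s + ε))) := by
      have h2 : HasDerivAt (fun x : ℝ => F (g + x * (s + ε))) (φ * (s + ε)) 0 := by
        have h3 : HasDerivAt (fun x : ℝ => g + x * (s + ε)) (s + ε) 0 := by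
          simpa using ((hasDerivAt_id (0 : ℝ)).mul_const (s + ε)).const_add g
        have h4 : HasDerivAt F φ (g + 0 * (s + ε)) := by simpa using hφ
        exact h4.comp 0 h3
      have h5 := h2.tendsto_slope_zero_right
      refine h5.congr fun x => ?_
      simp [div_eq_inv_mul]
    refine le_of_tendsto_of_tendsto h1 h1' ?_
    have hb : ∀ᶠ x : ℝ in 𝓝[>] 0, 0 < g + x * s ∧ g + x * (s + ε) < 1 := by
      have hc1 : Tendsto (fun x : ℝ => g + x * s) (𝓝[>] 0) (𝓝 g) := by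
        have : Tendsto (fun x : ℝ => g + x * s) (𝓝 0) (𝓝 (g + 0 * s)) := by
          refine Continuous.tendsto ?_ 0
          fun_prop
        rw [zero_mul, add_zero] at this
        exact this.mono_left nhdsWithin_le_nhds
      have hc2 : Tendsto (fun x : ℝ => g + x * (s + ε)) (𝓝[>] 0) (𝓝 g) := by
        have : Tendsto (fun x : ℝ => g + x * (s + ε)) (𝓝 0) (𝓝 (g + 0 * (s + ε))) := by
          refine Continuous.tendsto ?_ 0
          fun_prop
        rw [zero_mul, add_zero] at this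
        exact this.mono_left nhdsWithin_le_nhds
      exact (hc1.eventually (lt_mem_nhds hg0)).and (hc2.eventually (gt_mem_nhds hg1))
    filter_upwards [hb, self_mem_nhdsWithin] with x hx hx0
    have hx0' : (0 : ℝ) < x := hx0
    refine div_le_div_of_nonneg_right ?_ hx0'.le
    have := hle (g + x * s) (g + x * (s + ε)) hx.1 (by nlinarith) hx.2
    linarith
  have hlim : ∀ s : ℝ, s ≠ 0 → α * s ≤ φ * s := by
    intro s hs
    refine le_of_forall_pos_le_add fun ε hε => ?_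
    have h1 := key s hs (ε / (|φ| + 1)) (by positivity)
    have h2 : φ * (ε / (|φ| + 1)) ≤ ε := by
      have h3 := le_abs_self φ
      have h4 : (0 : ℝ) < |φ| + 1 := by positivity
      rw [mul_div_assoc', div_le_iff₀ h4]
      nlinarith
    linarith
  have h1 := hlim 1 one_ne_zero
  have h2 := hlim (-1) (by norm_num)
  linarith

/-- **The alternative at a point.** `B`: a common upper bound of `A` and `F`, equal to `F` at the
point. -/
theorem aff_alt {A F B : ℝ → ℝ} {g : ℝ} (hA : DifferentiableAt ℝ A g)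
    (hF : DifferentiableAt ℝ F g) (hB : DifferentiableAt ℝ B g)
    (hAB : ∀ y z : ℝ, 0 < y → y < z → z < 1 → A y ≤ B z)
    (hFB : ∀ y z : ℝ, 0 < y → y < z → z < 1 → F y ≤ B z) (hBF : B g ≤ F g)
    (hg0 : 0 < g) (hg1 : g < 1) :
    (∃ k₀ : ℕ, ∀ y : ℝ, |y - g| ≤ 1 / 2 ^ k₀ → A y + 1 / 2 ^ k₀ ≤ F y) ∨
      ∀ e : ℝ, 0 < e → ∃ k₀ : ℕ, ∀ y : ℝ, |y - g| ≤ 1 / 2 ^ k₀ → F y - A y ≤ e * |y - g| := by
  obtain ⟨D, hD⟩ : ∃ D : ℝ → ℝ, D = fun y => F y - A y := ⟨_, rfl⟩
  have hDd : DifferentiableAt ℝ D g := by rw [hD]; exact hF.sub hA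
  have hsm : ∀ δ : ℝ, 0 < δ → ∃ k : ℕ, 1 / (2 : ℝ) ^ k < δ := fun δ hδ => by
    obtain ⟨k, hk⟩ := exists_pow_lt_of_lt_one hδ (by norm_num : (1 / 2 : ℝ) < 1)
    exact ⟨k, by rw [one_div_pow] at hk; exact hk⟩
  rcases lt_or_ge 0 (D g) with h | h
  · left
    have h1 : ∀ᶠ y in 𝓝 g, D g / 2 < D y :=
      hDd.continuousAt.eventually (lt_mem_nhds (by linarith))
    obtain ⟨δ, hδ, h2⟩ := Metric.eventually_nhds_iff.1 h1
    obtain ⟨k, hk⟩ := hsm (min δ (D g / 2)) (lt_min hδ (by linarith))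
    refine ⟨k, fun y hy => ?_⟩
    have h3 := h2 (y := y) (by
      rw [Real.dist_eq]
      exact (hy.trans_lt hk).trans_le (min_le_left _ _))
    have h4 := hk.le.trans (min_le_right _ _)
    rw [hD] at h3 h4
    simp only at h3 h4
    linarith
  · right
    have hlim : ∀ {G : ℝ → ℝ}, (∀ y z : ℝ, 0 < y → y < z → z < 1 → G y ≤ B z) → G g ≤ B g := by
      intro G hG
      refine ge_of_tendsto (hB.continuousAt.tendsto.mono_left
        (nhdsWithin_le_nhds (s := Set.Ioi g))) ?_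
      filter_upwards [Ioo_mem_nhdsGT hg1] with z hz
      exact hG g z hg0 hz.1 hz.2
    have h1 := hlim hAB
    have h2 := hlim hFB
    have hg : D g = F g - A g := by rw [hD]
    have hAB' : A g = B g := by linarith
    have hFB' : F g = B g := by linarith
    have hD0 : D g = 0 := by linarith
    obtain ⟨α, hα⟩ : ∃ α, HasDerivAt A α g := ⟨_, hA.hasDerivAt⟩
    obtain ⟨φ, hφ⟩ : ∃ φ, HasDerivAt F φ g := ⟨_, hF.hasDerivAt⟩
    obtain ⟨β, hβ⟩ : ∃ β, HasDerivAt B β g := ⟨_, hB.hasDerivAt⟩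
    have e1 := der_eq hα hβ hAB hg0 hg1 hAB'
    have e2 := der_eq hφ hβ hFB hg0 hg1 hFB'
    intro e he
    have hDD : HasDerivAt D 0 g := by
      have := hφ.sub hα
      rw [← e1, ← e2, sub_self] at this
      rw [hD]
      exact this
    have h1 := (hasDerivAt_iff_isLittleO.1 hDD).def he
    obtain ⟨δ, hδ, h2⟩ := Metric.eventually_nhds_iff.1 h1
    obtain ⟨k, hk⟩ := hsm δ hδ
    refine ⟨k, fun y hy => ?_⟩
    have h3 := h2 (y := y) (by rw [Real.dist_eq]; exact hy.trans_lt hk)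
    rw [hD0, smul_zero, sub_zero, sub_zero, Real.norm_eq_abs, Real.norm_eq_abs] at h3
    have h4 := le_abs_self (D y)
    rw [hD] at h3 h4
    simp only at h3 h4
    linarith

/-- **Larger gradients, larger thresholds.** -/
theorem bet_mono {S : PCl m} {θ θ' : ℝ} {P P' : List (Fin m) × Fin m → ℝ → ℝ → ℝ} (hS : S.Ne)
    (hP : ThrOf (chsys m θ) S P) (hP' : ThrOf (chsys m θ') S P') (hθ : |θ| ≤ |θ'|)
    (i : List (Fin m) × Fin m) {y z : ℝ} (hy : 0 < y) (hyz : y < z) (hz : z < 1) :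
    P i y y ≤ P' i z z := by
  obtain ⟨q, hq1, hq2⟩ := exists_rat_btwn hyz
  have h1 : P i y y ≤ P' i q q := by
    refine Pool.LBT.thr_le' hS hP hP' (i := i) (i' := i) (fun K => ⟨K, ?_⟩) hy le_rfl hq1.le
      hq1.le le_rfl (by exact_mod_cast (hq2.trans hz).le)
    rintro a w Q J F A ⟨a₀, w₀, g, h1, h2, h3, h4, h5, G, H, h⟩
    refine ⟨a₀, w₀, g, h1, h2, h3, h4, h5, G, H, h.mono le_rfl (fun _ => le_rfl) le_rfl ?_⟩
    unfold lipE
    refine Nat.floor_le_floor ?_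
    have := mul_le_mul_of_nonneg_right hθ (Nat.cast_nonneg (α := ℝ) w)
    linarith
  exact h1.trans ((hP'.law i).mono (by linarith) le_rfl hq2.le hq2.le le_rfl hz.le)

/-- The threshold of degree one on the diagonal. -/
noncomputable def dgP {ι : Type} (P : ι → ℝ → ℝ → ℝ) (i : ι) (v : ℝ) : ℝ :=
  P i (max 0 (min v 1)) (max 0 (min v 1))

theorem dgP_eq {ι : Type} (P : ι → ℝ → ℝ → ℝ) (i : ι) {v : ℝ} (h0 : 0 ≤ v) (h1 : v ≤ 1) :
    dgP P i v = P i v v := by
  unfold dgP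
  rw [min_eq_left h1, max_eq_right h0]

theorem dgP_mono {L : LSys m} {S : PCl m} {P : L.ι → ℝ → ℝ → ℝ} (hP : ThrOf L S P) (i : L.ι) :
    Monotone (dgP P i) := by
  intro a b h
  unfold dgP
  have h1 : max 0 (min a 1) ≤ max 0 (min b 1) := max_le_max le_rfl (min_le_min h le_rfl)
  exact (hP.law i).mono (le_max_left _ _) le_rfl h1 h1 le_rfl (max_le zero_le_one (min_le_right _ _))

theorem dgP_diff {L : LSys m} {S : PCl m} {P : L.ι → ℝ → ℝ → ℝ} (hP : ThrOf L S P)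
    [Countable L.ι] : ∀ᵐ g : ℝ, ∀ i : L.ι, 0 < g → g < 1 →
      DifferentiableAt ℝ (fun v => P i v v) g := by
  refine ae_all_iff.2 fun i => ?_
  filter_upwards [(dgP_mono hP i).ae_differentiableAt] with g h2 h0 h1
  refine h2.congr_of_eventuallyEq ?_
  filter_upwards [Ioo_mem_nhds h0 h1] with v hv
  exact (dgP_eq P i hv.1.le hv.2.le).symm

/-- **The alternative for the labels of degree one** of the place `r`, at a window `x`. `p.1`: the
exponent of the gradients, `p.2.1`: the degree of the base, `p.2.2`: the accuracy; either the levels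
`L r` are above the thresholds of degree one near `x`, or they agree with them to first order. -/
def AffQ (r : ℕ) {n : ℕ} : PropG n (ℚ × ℕ × ℚ) :=
  fun p k₀ S _P _θ c _Pt _rt L _T _κ _G x => r + 1 < n → 0 ≤ p.1 → L r x x + p.1 * x < 1 →
    ∃ Pa : (ℚ × ℕ) × (List (Fin n) × Fin n) → ℝ → ℝ → ℝ, ThrOf (affsys n) S Pa ∧
      ((∀ y : ℝ, |y - x| ≤ 1 / 2 ^ k₀ → alt Pa p.1 p.2.1 c r y y + 1 / 2 ^ k₀ ≤ L r y y) ∨
        (0 < p.2.2 → ∀ y : ℝ, |y - x| ≤ 1 / 2 ^ k₀ →
          L r y y - alt Pa p.1 p.2.1 c r y y ≤ p.2.2 * |y - x|))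

theorem her_aff (r n : ℕ) : HerQ (AffQ r : PropG n (ℚ × ℕ × ℚ)) := by
  intro p k₀ S S' P θ c Pt rt L T κ G x hs h hr h1 h2
  obtain ⟨Pa, h3, h4⟩ := h hr h1 h2
  exact ⟨Pa, h3.sub hs, h4⟩

/-- **The alternative holds at almost every window.** -/
theorem aePG_aff (r n : ℕ) : AePG n (AffQ r : PropG n (ℚ × ℕ × ℚ)) := by
  intro hn S P rt P' Λ PB PQ H hTop hF o G hG hGs
  obtain ⟨S', Pa, hne, hs, hth⟩ := thr_affsys H.toPk.ne
  refine ⟨S', hne, hs, ?_⟩
  by_cases hr : r + 1 < n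
  swap
  · exact Eventually.of_forall fun g _ κ _ p => ⟨0, fun h => absurd h hr⟩
  have hthP : ThrOf (chsys n (tht o.2)) S' (P' o.2) := (H.cht o.2).sub hs
  have hthq : ∀ q : ℚ, ThrOf (chsys n (q : ℝ)) S' (PQ q) := fun q => (H.thq q).sub hs
  filter_upwards [dgP_diff hth, dgP_diff hthP, ae_all_iff.2 fun q : ℚ => dgP_diff (hthq q)]
    with g h1 h2 h2' hg κ hκ p
  have hgI : 0 < g ∧ g < 1 := by
    have := hGs hg
    exact ⟨this.1.1.1, this.1.1.2.1⟩
  obtain ⟨i, hi⟩ : ∃ i : List (Fin n) × Fin n,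
    i = ((List.range r).map (cc hn o.1.1), cc hn o.1.1 r) := ⟨_, rfl⟩
  have hL : ∀ y, LvL hn P P' o r y y = P' o.2 i y y := fun y => by
    rw [hi]
    exact LvL_lt o (by omega) y y
  by_cases hp1 : 0 ≤ p.1 ∧ LvL hn P P' o r g g + p.1 * g < 1
  swap
  · exact ⟨0, fun _ h3 h4 => absurd ⟨h3, h4⟩ hp1⟩
  have hp0 : (0 : ℝ) ≤ p.1 := by exact_mod_cast hp1.1
  have hAd : DifferentiableAt ℝ (fun y => alt Pa p.1 p.2.1 (cc hn o.1.1) r y y) g :=
    h1 ((p.1, p.2.1), ((List.range r).map (cc hn o.1.1), cc hn o.1.1 r)) hgI.1 hgI.2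
  have hLd : DifferentiableAt ℝ (fun y => P' o.2 i y y) g := h2 i hgI.1 hgI.2
  have hal : ∀ {θ : ℝ} {Q : List (Fin n) × Fin n → ℝ → ℝ → ℝ}, ThrOf (chsys n θ) S' Q →
      |(p.1 : ℝ)| ≤ |θ| → ∀ y z : ℝ, 0 < y → y < z → z < 1 →
        alt Pa p.1 p.2.1 (cc hn o.1.1) r y y ≤ Q i z z := by
    intro θ Q hQ hθ y z hy hyz hz
    obtain ⟨q, hq1, hq2⟩ := exists_rat_btwn hyz
    have h3 := alt_le hne hth hQ p.2.1 hθ (cc hn o.1.1) r (a := y) (w := y) (a' := q) (w' := q) hy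
      le_rfl hq1.le hq1.le le_rfl (by exact_mod_cast (hq2.trans hz).le)
    refine h3.trans ?_
    rw [hi]
    exact (hQ.law ((List.range r).map (cc hn o.1.1), cc hn o.1.1 r)).mono (by linarith) le_rfl
      hq2.le hq2.le le_rfl hz.le
  obtain ⟨B, hBd, hAB, hFB, hBF⟩ : ∃ B : ℝ → ℝ, DifferentiableAt ℝ B g ∧
      (∀ y z : ℝ, 0 < y → y < z → z < 1 → alt Pa p.1 p.2.1 (cc hn o.1.1) r y y ≤ B z) ∧
      (∀ y z : ℝ, 0 < y → y < z → z < 1 → P' o.2 i y y ≤ B z) ∧ B g ≤ P' o.2 i g g := by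
    rcases le_or_gt (p.1 : ℝ) (tht o.2) with h | h
    · refine ⟨fun y => P' o.2 i y y, hLd, hal hthP ?_, fun y z hy hyz hz =>
        (hthP.law i).mono hy.le le_rfl hyz.le hyz.le le_rfl hz.le, le_rfl⟩
      rw [abs_of_nonneg hp0, abs_of_pos (tht_pos o.2)]
      exact h
    · have hpp : (0 : ℝ) < p.1 := (tht_pos o.2).trans h
      have hle : |tht o.2| ≤ |(p.1 : ℝ)| := by
        rw [abs_of_nonneg hp0, abs_of_pos (tht_pos o.2)]
        exact h.le
      refine ⟨fun y => PQ p.1 i y y, h2' p.1 i hgI.1 hgI.2, hal (hthq p.1) le_rfl,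
        fun y z hy hyz hz => bet_mono hne hthP (hthq p.1) hle i hy hyz hz, ?_⟩
      have h3 := H.num hF (hGs hg) (p := p.1) (by exact_mod_cast hpp) (j := r) (by omega)
      have h4 := hp1.2
      rw [hL, hi] at h4
      rw [hi]
      exact h3 (by unfold bet; linarith)
  have hLv : ∀ y, LvL hn P P' o r y y = (fun y => P' o.2 i y y) y := hL
  rcases aff_alt hAd hLd hBd hAB hFB hBF hgI.1 hgI.2 with ⟨k₀, h3⟩ | h3
  · refine ⟨k₀, fun _ _ _ => ⟨Pa, hth, Or.inl fun y hy => ?_⟩⟩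
    rw [hLv]
    exact h3 y hy
  · by_cases hp : (0 : ℚ) < p.2.2
    · obtain ⟨k₀, h4⟩ := h3 (p.2.2 : ℝ) (by exact_mod_cast hp)
      refine ⟨k₀, fun _ _ _ => ⟨Pa, hth, Or.inr fun _ y hy => ?_⟩⟩
      rw [hLv]
      exact h4 y hy
    · exact ⟨0, fun _ _ _ => ⟨Pa, hth, Or.inr fun h => absurd h hp⟩⟩

end Pool.CNC76
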