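import Pool.Agent.H76.CNC.Rmx

/-!
# One multiplier on the ball: preparations

`nh K F`: the maximum of the second derivatives of `F` at the nodes. `vis_ball`: off a small event it
is at most `C 2 ^ h` times the second derivatives at the own point. `yc_ev`: the values at the closed
centre. `d_step`: if two closed forms are small at the direction, then they are proportional on the
ball. `s_step`: the ratio is constant.
-/

set_option autoImplicit false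

namespace Pool.CNC76

open Finset MvPolynomial
open Pool.Agent.H49.Ent
open Pool.STK (IsLaw)
open Pool.K2S (Pe)
open Pool.CUB46 (q2 l1 h3)
open Pool.D2G30 (nd)
open Pool.D2Con (NoHyp law_mono')
open Pool.GEN (totalDegree_pdσ)

/-- The second derivatives at the nodes. -/
noncomputable def nh (K : ℕ) (F : MvPolynomial (Fin 3) ℝ) : ℝ :=
  nmx K (fun x : Fin 3 × Fin 3 => pderiv x.1 (pderiv x.2 F))

theorem nh_ge (K : ℕ) (F : MvPolynomial (Fin 3) ℝ) (β : Fin 3 → Fin (K + 1)) (i j : Fin 3) :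
    |h3 F (nd K β) i j| ≤ nh K F :=
  nmx_ge K (fun x : Fin 3 × Fin 3 => pderiv x.1 (pderiv x.2 F)) (i, j) β

theorem nh_nn (K : ℕ) (F : MvPolynomial (Fin 3) ℝ) : 0 ≤ nh K F :=
  (abs_nonneg _).trans (nh_ge K F (fun _ => 0) 0 0)

/-- The place of the maximum. -/
noncomputable def nhx (K : ℕ) (F : MvPolynomial (Fin 3) ℝ) :
    (Fin 3 × Fin 3) × (Fin 3 → Fin (K + 1)) :=
  nax K (fun x : Fin 3 × Fin 3 => pderiv x.1 (pderiv x.2 F))

theorem nhx_eq (K : ℕ) (F : MvPolynomial (Fin 3) ℝ) :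
    |h3 F (nd K (nhx K F).2) (nhx K F).1.1 (nhx K F).1.2| = nh K F :=
  nax_eq K (fun x : Fin 3 × Fin 3 => pderiv x.1 (pderiv x.2 F))

/-- The largest entry. -/
noncomputable def mx3 (M : Fin 3 → Fin 3 → ℝ) : ℝ := ⨆ x : Fin 3 × Fin 3, |M x.1 x.2|

theorem mx3_ge (M : Fin 3 → Fin 3 → ℝ) (i j : Fin 3) : |M i j| ≤ mx3 M :=
  le_ciSup (f := fun x : Fin 3 × Fin 3 => |M x.1 x.2|) (Set.finite_range _).bddAbove (i, j)

theorem mx3_eq (M : Fin 3 → Fin 3 → ℝ) : ∃ i j, |M i j| = mx3 M := by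
  obtain ⟨x, hx⟩ := exists_eq_ciSup_of_finite (f := fun x : Fin 3 × Fin 3 => |M x.1 x.2|)
  exact ⟨x.1, x.2, hx⟩

theorem mx3_le {M : Fin 3 → Fin 3 → ℝ} {A : ℝ} (h : ∀ i j, |M i j| ≤ A) : mx3 M ≤ A := by
  obtain ⟨i, j, hij⟩ := mx3_eq M
  rw [← hij]
  exact h i j

/-- **The second derivatives are visible at the own point.** -/
theorem vis_ball (D₀ : ℕ) (hD₀ : 1 ≤ D₀) : ∃ C : ℝ, 1 ≤ C ∧ ∀ {Ω P S S' : Type} [Fintype Ω]
    {p : Ω → ℝ} {B : Ω → Prop} {pt : Ω → P} {sl : Ω → S} {sd : Ω → S'} {y yc X : Ω → Fin 3 → ℝ}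
    {D h Q : ℕ} {κ η c T : ℝ}, Bll p B pt sl sd y yc X D h Q κ η c T → D₀ ≤ D →
    ∀ {B' : Ω → Prop} (V : Ω → MvPolynomial (Fin 3) ℝ), (∀ ω, B' ω → B ω) → Clo B' pt sl V →
      (∀ ω, B' ω → (V ω).totalDegree ≤ D₀) →
      ∃ B'' : Ω → Prop, (∀ ω, B'' ω → B' ω) ∧ Pe p B' ≤ Pe p B'' + κ * Pe p B ∧
        ∀ ω, B'' ω → nh D₀ (V ω) ≤ C * 2 ^ h * mx3 (h3 (V ω) (y ω)) ∧
          ∀ b, Bx b → ∀ i j, |h3 (V ω) b i j| ≤ C * 2 ^ h * mx3 (h3 (V ω) (y ω)) := by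
  obtain ⟨C, hC, h⟩ := rel_max D₀ hD₀
  refine ⟨C, hC, ?_⟩
  intro Ω P S S' _ p B pt sl sd y yc X D h' Q κ η c T W hD B' V hB hV hdeg
  obtain ⟨B'', h1, h2, h3'⟩ := h W hD (B' := B')
    (fun (x : Fin 3 × Fin 3) ω => pderiv x.1 (pderiv x.2 (V ω)))
    (fun ω => mx3 (h3 (V ω) (y ω))) hB (fun x => hV.map fun F => pderiv x.1 (pderiv x.2 F))
    (fun x ω hω => deg_h (hdeg ω hω) _ _) (fun ω _ x => mx3_ge (h3 (V ω) (y ω)) x.1 x.2)
  refine ⟨B'', h1, h2, fun ω hω => ⟨?_, fun b hb i j => h3' ω hω (i, j) b hb⟩⟩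
  rw [← nhx_eq D₀ (V ω)]
  exact h3' ω hω (_, _) _ (nd_bx hD₀ _)

/-- A form at a bounded vector. -/
theorem q2_le {M : Fin 3 → Fin 3 → ℝ} {x : Fin 3 → ℝ} {A T : ℝ} (hM : ∀ i j, |M i j| ≤ A)
    (hx : ∀ i, |x i| ≤ T) : |q2 M x x| ≤ 9 * (A * T ^ 2) := by
  have hA : 0 ≤ A := (abs_nonneg _).trans (hM 0 0)
  have hT : 0 ≤ T := (abs_nonneg _).trans (hx 0)
  unfold q2
  refine (Finset.abs_sum_le_sum_abs _ _).trans ?_
  refine (Finset.sum_le_sum (g := fun _ => 3 * (A * T ^ 2)) fun i _ =>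
    (Finset.abs_sum_le_sum_abs _ _).trans ?_).trans (le_of_eq ?_)
  · refine (Finset.sum_le_sum (g := fun _ => A * (T * T)) fun j _ => ?_).trans (le_of_eq ?_)
    · rw [abs_mul, abs_mul]
      exact mul_le_mul (hM i j) (mul_le_mul (hx i) (hx j) (abs_nonneg _) hT) (by positivity) hA
    · rw [Finset.sum_const, Finset.card_univ, Fintype.card_fin, nsmul_eq_mul]
      push_cast
      ring
  · rw [Finset.sum_const, Finset.card_univ, Fintype.card_fin, nsmul_eq_mul]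
    push_cast
    ring

theorem q2_sb (M N : Fin 3 → Fin 3 → ℝ) (x : Fin 3 → ℝ) :
    q2 M x x - q2 N x x = q2 (fun i j => M i j - N i j) x x := by
  unfold q2
  rw [← Finset.sum_sub_distrib]
  refine Finset.sum_congr rfl fun i _ => ?_
  rw [← Finset.sum_sub_distrib]
  refine Finset.sum_congr rfl fun j _ => ?_
  ring

/-- **The values at the closed centre.** -/
theorem yc_ev (D₀ : ℕ) (hD₀ : 1 ≤ D₀) : ∃ C : ℝ, 1 ≤ C ∧ ∀ {F : MvPolynomial (Fin 3) ℝ}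
    {y yc X : Fin 3 → ℝ} {Q : ℕ} {T : ℝ}, F.totalDegree ≤ D₀ → Bx y → Bx yc →
    (∀ i, |y i - yc i| ≤ 1 / 2 ^ Q) → 1 ≤ T → (∀ i, |X i| ≤ T) →
    (∀ b, Bx b → ∀ i j, |h3 F b i j| ≤ C * nh D₀ F) ∧
    (∀ b, Bx b → ∀ m i j, |t3 F b m i j| ≤ C * nh D₀ F) ∧
    (∀ i j, |h3 F y i j - h3 F yc i j| ≤ C * nh D₀ F / 2 ^ Q) ∧
    |q2 (h3 F yc) X X| ≤ |q2 (h3 F y) X X| + C * nh D₀ F * T ^ 2 / 2 ^ Q := by
  obtain ⟨C₁, hC₁, hsup⟩ := sup_nd D₀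
  obtain ⟨C₂, hC₂, hlip⟩ := lip_bx D₀
  obtain ⟨C₃, hC₃, hder⟩ := der_bx D₀
  have h12 : 1 ≤ C₁ * C₂ := one_le_mul_of_one_le_of_one_le hC₁ hC₂
  have h13 : 1 ≤ C₁ * C₃ := one_le_mul_of_one_le_of_one_le hC₁ hC₃
  refine ⟨9 * (C₁ * C₂) + C₁ * C₃ + C₁, by linarith, ?_⟩
  intro F y yc X Q T hF hy hyc hyy hT hX
  have hn := nh_nn D₀ F
  have s1 : ∀ b, Bx b → ∀ i j, |h3 F b i j| ≤ C₁ * nh D₀ F := fun b hb i j =>
    hsup hD₀ (deg_h hF i j) (fun β => nh_ge D₀ F β i j) b hb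
  have s2 : ∀ b, Bx b → ∀ m i j, |t3 F b m i j| ≤ C₃ * (C₁ * nh D₀ F) := fun b hb m i j =>
    hder (deg_h hF i j) (fun b hb => s1 b hb i j) m b hb
  have s3 : ∀ i j, |h3 F y i j - h3 F yc i j| ≤ C₂ * (C₁ * nh D₀ F) * (1 / 2 ^ Q) := fun i j =>
    hlip hD₀ (deg_h hF i j) (fun b hb => s1 b hb i j) (by positivity) y yc hy hyc hyy
  have hQ : (0 : ℝ) < 2 ^ Q := by positivity
  have a1 : 0 ≤ C₁ * C₂ * nh D₀ F := mul_nonneg (by linarith) hn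
  have a2 : 0 ≤ C₁ * C₃ * nh D₀ F := mul_nonneg (by linarith) hn
  have a3 : 0 ≤ C₁ * nh D₀ F := mul_nonneg (by linarith) hn
  refine ⟨fun b hb i j => (s1 b hb i j).trans (by nlinarith), fun b hb m i j =>
    (s2 b hb m i j).trans (by nlinarith), fun i j => (s3 i j).trans ?_, ?_⟩
  · rw [mul_one_div]
    refine div_le_div_of_nonneg_right ?_ hQ.le
    nlinarith
  · have h1 := q2_le (A := C₂ * (C₁ * nh D₀ F) * (1 / 2 ^ Q)) (M := fun i j =>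
      h3 F yc i j - h3 F y i j) (fun i j => by rw [abs_sub_comm]; exact s3 i j) hX
    rw [← q2_sb] at h1
    have h2 : |q2 (h3 F yc) X X| ≤ |q2 (h3 F y) X X| +
        |q2 (h3 F yc) X X - q2 (h3 F y) X X| := by
      have := abs_add_le (q2 (h3 F y) X X) (q2 (h3 F yc) X X - q2 (h3 F y) X X)
      rwa [add_sub_cancel] at this
    refine h2.trans (add_le_add le_rfl (h1.trans ?_))
    have e : 9 * (C₂ * (C₁ * nh D₀ F) * (1 / 2 ^ Q) * T ^ 2) =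
        9 * (C₁ * C₂ * nh D₀ F) * T ^ 2 / 2 ^ Q := by ring
    rw [e]
    refine div_le_div_of_nonneg_right (mul_le_mul_of_nonneg_right ?_ (sq_nonneg T)) hQ.le
    nlinarith

/-- A step of the conditional law. -/
theorem nh_step {Ω : Type} [Fintype Ω] {p : Ω → ℝ} (hp : ∀ ω, 0 ≤ p ω) {A G : Ω → Prop} {c : ℝ}
    (hA : 0 < Pe p A) (h : law (cond p A True) (fun ω => A ω ∧ ¬ G ω) True ≤ c) :
    Pe p A ≤ Pe p (fun ω => A ω ∧ G ω) + c * Pe p A := by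
  refine (pe_spl hp A G).trans (add_le_add le_rfl ?_)
  have h1 : Pe p (fun ω => A ω ∧ ¬ G ω) ≤ Pe p (fun ω => A ω ∧ (A ω ∧ ¬ G ω)) :=
    pe_mn hp fun ω hω => ⟨hω.1, hω⟩
  refine h1.trans ?_
  rw [pe_con hp hA, mul_comm]
  exact mul_le_mul_of_nonneg_right h hA.le

end Pool.CNC76
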