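import Pool.Agent.H46.D2.T2l
import Pool.Agent.H23.D2.Nat
import Pool.Agent.H84.KBOX.BlkA

/-!
# Polynomials on the cube

Bounds for a polynomial on the cube `[-1, 1] ^ 3` from the nodes (`sup_nd`), for its derivatives
(`der_bx`), Lipschitz bounds (`lip_bx`), growth from a small cube (`gro_bx`).
-/

set_option autoImplicit false

namespace Pool.CNC76

open Finset MvPolynomial
open Pool.CUB46 (q2 l1 h3 node_box)
open Pool.D2G30 (ell nd lgC one_le_lgC ell_bd ell_interp ell_lip lin eval_lin deriv_lin)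

/-- The cube. -/
def Bx (b : Fin 3 → ℝ) : Prop := ∀ i, |b i| ≤ 1

theorem nd_bx {K : ℕ} (hK : 1 ≤ K) (β : Fin 3 → Fin (K + 1)) : Bx (nd K β) := by
  intro i
  have hK0 : (0 : ℝ) < K := by exact_mod_cast hK
  show |((β i : ℕ) : ℝ) / K| ≤ 1
  rw [abs_of_nonneg (by positivity), div_le_one hK0]
  exact_mod_cast Nat.lt_succ_iff.1 (β i).2

theorem natDegree_lin {K : ℕ} {P : MvPolynomial (Fin 3) ℝ} (h : P.totalDegree ≤ K)
    (a b : Fin 3 → ℝ) : (lin a b P).natDegree ≤ K := by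
  have h1 := Pool.KBX.natDegree_aeval_le P
    (fun i => Polynomial.C (a i) + Polynomial.C (b i) * Polynomial.X) (fun i => by
      refine (Polynomial.natDegree_add_le _ _).trans (max_le ?_ ?_)
      · rw [Polynomial.natDegree_C]; exact Nat.zero_le _
      · exact (Polynomial.natDegree_C_mul_le _ _).trans (Polynomial.natDegree_X_le)) h
  exact h1

/-- **Nodes.** -/
theorem sup_nd (K : ℕ) : ∃ C : ℝ, 1 ≤ C ∧ ∀ {P : MvPolynomial (Fin 3) ℝ} {M : ℝ}, 1 ≤ K →
    P.totalDegree ≤ K → (∀ β : Fin 3 → Fin (K + 1), |eval (nd K β) P| ≤ M) →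
    ∀ b, Bx b → |eval b P| ≤ C * M := by
  have hC := one_le_lgC K
  refine ⟨(K + 1) ^ 3 * lgC K ^ 3, ?_, ?_⟩
  · have h1 : (1 : ℝ) ≤ ((K : ℝ) + 1) ^ 3 := one_le_pow₀ (by linarith [K.cast_nonneg (α := ℝ)])
    have h2 : (1 : ℝ) ≤ lgC K ^ 3 := one_le_pow₀ hC
    nlinarith
  · intro P M hK hP hM b hb
    exact node_box hK hP hM hb

/-- **Derivatives.** -/
theorem der_bx (K : ℕ) : ∃ C : ℝ, 1 ≤ C ∧ ∀ {P : MvPolynomial (Fin 3) ℝ} {M : ℝ},
    P.totalDegree ≤ K → (∀ b, Bx b → |eval b P| ≤ M) →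
    ∀ i b, Bx b → |eval b (pderiv i P)| ≤ C * M := by
  classical
  obtain ⟨C, hC, h⟩ := Pool.D2R.der_one K
  refine ⟨C, hC, ?_⟩
  intro P M hP hM i b hb
  obtain ⟨s, hs, hsb⟩ : ∃ s : ℝ, |s| = 1 ∧ ∀ t ∈ Set.Icc (0 : ℝ) 1, |b i + s * t| ≤ 1 := by
    have h1 := abs_le.1 (hb i)
    rcases le_total (b i) 0 with h0 | h0
    · refine ⟨1, abs_one, fun t ht => ?_⟩
      rw [abs_le]
      constructor <;> linarith [ht.1, ht.2, h1.1]
    · refine ⟨-1, by rw [abs_neg, abs_one], fun t ht => ?_⟩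
      rw [abs_le]
      constructor <;> linarith [ht.1, ht.2, h1.2]
  obtain ⟨v, hv⟩ : ∃ v : Fin 3 → ℝ, v = fun j => if j = i then s else 0 := ⟨_, rfl⟩
  have hq : ∀ t ∈ Set.Icc (0 : ℝ) 1, |(lin b v P).eval t| ≤ M := by
    intro t ht
    rw [eval_lin]
    refine hM _ fun j => ?_
    rw [hv]
    by_cases hj : j = i
    · subst hj
      simpa using hsb t ht
    · simpa [hj] using hb j
  have h2 := h (lin b v P) M (natDegree_lin hP _ _) hq 0 (by norm_num)
  rw [deriv_lin, Polynomial.eval_finsetSum] at h2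
  have h3 : ∑ j, (Polynomial.C (v j) * lin b v (pderiv j P)).eval 0 =
      s * eval b (pderiv i P) := by
    rw [Finset.sum_eq_single i]
    · rw [Polynomial.eval_mul, Polynomial.eval_C, eval_lin, hv]
      simp
    · intro j _ hj
      rw [Polynomial.eval_mul, Polynomial.eval_C, hv]
      simp [hj]
    · intro h0
      exact absurd (Finset.mem_univ i) h0
  rw [h3, abs_mul, hs, one_mul] at h2
  exact h2

/-- **The Lipschitz bound.** -/
theorem lip_bx (K : ℕ) : ∃ C : ℝ, 1 ≤ C ∧ ∀ {P : MvPolynomial (Fin 3) ℝ} {M δ : ℝ}, 1 ≤ K →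
    P.totalDegree ≤ K → (∀ b, Bx b → |eval b P| ≤ M) → 0 ≤ δ →
    ∀ x y, Bx x → Bx y → (∀ i, |x i - y i| ≤ δ) → |eval x P - eval y P| ≤ C * M * δ := by
  have hC := one_le_lgC K
  refine ⟨(K + 1) ^ 3 * (3 * K ^ 2 * lgC K ^ 4) + 1, ?_, ?_⟩
  · have : 0 ≤ ((K : ℝ) + 1) ^ 3 * (3 * K ^ 2 * lgC K ^ 4) := by positivity
    linarith
  · intro P M δ hK hP hM hδ x y hx hy hxy
    have hM0 : 0 ≤ M := (abs_nonneg _).trans (hM x hx)
    rw [ell_interp hK P hP x, ell_interp hK P hP y, ← Finset.sum_sub_distrib]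
    refine (Finset.abs_sum_le_sum_abs _ _).trans ?_
    have h1 : ∀ β : Fin 3 → Fin (K + 1), |ell K β x * eval (nd K β) P -
        ell K β y * eval (nd K β) P| ≤ 3 * K ^ 2 * lgC K ^ 4 * δ * M := by
      intro β
      rw [← sub_mul, abs_mul]
      refine mul_le_mul ?_ (hM _ (nd_bx hK β)) (abs_nonneg _) (by positivity)
      have h2 := ell_lip (K := K) (d := 3) β (x := x) (y := y) (fun i => (abs_le.1 (hx i)).1)
        (fun i => (abs_le.1 (hx i)).2.trans (by norm_num)) (fun i => (abs_le.1 (hy i)).1)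
        (fun i => (abs_le.1 (hy i)).2.trans (by norm_num)) hδ hxy
      push_cast at h2
      exact h2
    refine (Finset.sum_le_sum fun β _ => h1 β).trans ?_
    rw [Finset.sum_const, Finset.card_univ, Fintype.card_fun, Fintype.card_fin, Fintype.card_fin,
      nsmul_eq_mul]
    push_cast
    have : 0 ≤ M * δ := mul_nonneg hM0 hδ
    nlinarith

/-- **Growth from a small cube.** -/
theorem gro_bx (K : ℕ) {N : ℝ} (hN : 1 ≤ N) : ∃ C : ℝ, 1 ≤ C ∧
    ∀ {P : MvPolynomial (Fin 3) ℝ} {M : ℝ} {x₀ : Fin 3 → ℝ}, P.totalDegree ≤ K → Bx x₀ →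
    (∀ b, Bx b → (∀ i, |b i - x₀ i| ≤ 1 / N) → |eval b P| ≤ M) →
    ∀ b, Bx b → |eval b P| ≤ C * M := by
  classical
  obtain ⟨C, hC, h⟩ := Pool.Agent.H40.FR.unit_coef K
  obtain ⟨A, hA⟩ : ∃ A : ℝ, A = ∑ j ∈ range (K + 1), (2 * N) ^ j := ⟨_, rfl⟩
  have hA1 : 1 ≤ A := by
    rw [hA, Finset.sum_range_succ']
    have : 0 ≤ ∑ j ∈ range K, (2 * N) ^ (j + 1) := Finset.sum_nonneg fun j _ => by positivity
    simpa using this
  refine ⟨C * A, by nlinarith, ?_⟩
  intro P M x₀ hP hx₀ hM b hb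
  have hN0 : 0 < N := by linarith
  obtain ⟨v, hv⟩ : ∃ v : Fin 3 → ℝ, v = fun j => (b j - x₀ j) / (2 * N) := ⟨_, rfl⟩
  have hq : ∀ t ∈ Set.Icc (0 : ℝ) 1, |(lin x₀ v P).eval t| ≤ M := by
    intro t ht
    rw [eval_lin]
    have hd : ∀ j, |b j - x₀ j| ≤ 2 := fun j => (abs_sub _ _).trans (by linarith [hb j, hx₀ j])
    refine hM _ (fun j => ?_) fun j => ?_
    · rw [hv]
      have e : x₀ j + (b j - x₀ j) / (2 * N) * t =
          (1 - t / (2 * N)) * x₀ j + (t / (2 * N)) * b j := by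
        field_simp
        ring
      simp only
      rw [e]
      have h1 : 0 ≤ t / (2 * N) := div_nonneg ht.1 (by positivity)
      have h2 : t / (2 * N) ≤ 1 := by
        rw [div_le_one (by positivity)]
        linarith [ht.2]
      refine (abs_add_le _ _).trans ?_
      rw [abs_mul, abs_mul, abs_of_nonneg h1, abs_of_nonneg (by linarith)]
      nlinarith [hb j, hx₀ j, abs_nonneg (b j), abs_nonneg (x₀ j)]
    · rw [hv]
      have e : x₀ j + (b j - x₀ j) / (2 * N) * t - x₀ j = (b j - x₀ j) * t / (2 * N) := by ring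
      simp only
      rw [e, abs_div, abs_mul, abs_of_pos (by positivity : (0 : ℝ) < 2 * N), abs_of_nonneg ht.1,
        div_le_div_iff₀ (by positivity) hN0]
      have h3 : |b j - x₀ j| * t ≤ 2 * 1 := mul_le_mul (hd j) ht.2 ht.1 (by norm_num)
      nlinarith
  have h1 := h (lin x₀ v P) M (natDegree_lin hP _ _) hq
  have h2 : eval b P = (lin x₀ v P).eval (2 * N) := by
    rw [eval_lin]
    congr 2
    funext j
    rw [hv]
    field_simp
    ring
  rw [h2, Polynomial.eval_eq_sum_range' (n := K + 1)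
    (lt_of_le_of_lt (natDegree_lin hP _ _) (Nat.lt_succ_self _))]
  refine (Finset.abs_sum_le_sum_abs _ _).trans ?_
  have h3 : ∀ j ∈ range (K + 1), |(lin x₀ v P).coeff j * (2 * N) ^ j| ≤ C * M * (2 * N) ^ j := by
    intro j _
    rw [abs_mul, abs_of_nonneg (by positivity : (0 : ℝ) ≤ (2 * N) ^ j)]
    exact mul_le_mul_of_nonneg_right (h1 j) (by positivity)
  refine (Finset.sum_le_sum h3).trans (le_of_eq ?_)
  rw [← Finset.mul_sum, ← hA]
  ring

end Pool.CNC76
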