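import Pool.Agent.H76.CNC.Sst

/-!
# One multiplier on the ball

`conic_ball`: let `V`, `R` be closed polynomials on the ball of one window, whose second derivatives
are small at the own direction, and let `V''` be visible. Then `R'' = lam V''` on the ball up to a small
error, with one closed number `lam`.
-/

set_option autoImplicit false

namespace Pool.CNC76

open Finset MvPolynomial
open Pool.Agent.H49.Ent
open Pool.STK (IsLaw)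
open Pool.K2S (Pe)
open Pool.CUB46 (q2 l1 h3)
open Pool.D2G30 (nd)
open Pool.D2Con (NoHyp law_mono')
open Pool.GEN (totalDegree_pdσ)

/-- The multiplier, as a function of the two polynomials. -/
noncomputable def lmb (K : ℕ) (V R : MvPolynomial (Fin 3) ℝ) : ℝ :=
  h3 R (nd K (nhx K V).2) (nhx K V).1.1 (nhx K V).1.2 /
    h3 V (nd K (nhx K V).2) (nhx K V).1.1 (nhx K V).1.2

/-- **One multiplier on the ball.** -/
theorem conic_ball (D₀ : ℕ) (hD₀ : 1 ≤ D₀) : ∃ C : ℝ, 1 ≤ C ∧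
    ∀ {Ω P S S' : Type} [Fintype Ω]
    {p : Ω → ℝ} {B : Ω → Prop} {pt : Ω → P} {sl : Ω → S} {sd : Ω → S'} {y yc X : Ω → Fin 3 → ℝ}
    {D h Q : ℕ} {κ η c T Y : ℝ}, Bll p B pt sl sd y yc X D h Q κ η c T → 2 * D₀ ≤ D →
    1 ≤ T → 2 ^ h ≤ Y → T ≤ Y → 0 < η → η ≤ 1 → 1 ≤ Y * η → 12 * c ≤ 1 →
    ∀ {B' : Ω → Prop} (V R : Ω → MvPolynomial (Fin 3) ℝ) {e₁ e₂ : ℝ}, (∀ ω, B' ω → B ω) →
      16 * (κ * Pe p B) ≤ Pe p B' → 0 < Pe p B' →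
      Clo B' pt sl V → Clo B' pt sl R →
      (∀ ω, B' ω → (V ω).totalDegree ≤ D₀) → (∀ ω, B' ω → (R ω).totalDegree ≤ D₀) →
      0 < e₁ → 0 < e₂ →
      (∀ ω, B' ω → |q2 (h3 (R ω) (y ω)) (X ω) (X ω)| ≤ e₁) →
      (∀ ω, B' ω → |q2 (h3 (V ω) (y ω)) (X ω) (X ω)| ≤ e₂) →
      (∀ ω, B' ω → ∃ i j, C * Y ^ 10 * e₂ ≤ |h3 (V ω) (y ω) i j|) →
      C * Y ≤ 2 ^ Q → (∀ ω, B' ω → ∀ i j, C * Y ^ 3 * |h3 (V ω) (y ω) i j| ≤ 2 ^ Q * e₂) →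
      (∀ ω, B' ω → ∀ i j, C * Y ^ 3 * |h3 (R ω) (y ω) i j| ≤ 2 ^ Q * e₁) →
      ∃ B'' : Ω → Prop, (∀ ω, B'' ω → B' ω) ∧ Pe p B' ≤ 2 * Pe p B'' ∧
        ∀ ω, B'' ω → nh D₀ (V ω) ≤ C * Y * mx3 (h3 (V ω) (y ω)) ∧
          (∀ b, Bx b → ∀ i j, |h3 (V ω) b i j| ≤ C * nh D₀ (V ω)) ∧
          ∀ b, Bx b → ∀ i j,
          |h3 (R ω) b i j - lmb D₀ (V ω) (R ω) * h3 (V ω) b i j| ≤
            C * Y ^ 10 * (e₁ + |lmb D₀ (V ω) (R ω)| * e₂) := by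
  classical
  obtain ⟨Cv, hCv, hvis⟩ := vis_ball D₀ hD₀
  obtain ⟨C₁, hC₁, hyc⟩ := yc_ev D₀ hD₀
  obtain ⟨Cd, hCd, hds⟩ := d_step D₀ hD₀ hCv
  obtain ⟨Cs, hCs, hss⟩ := s_step D₀ hD₀ hCv hCd
  obtain ⟨Ce, hCe, hdet⟩ := det_ball D₀ hD₀
  obtain ⟨K₁, hK₁⟩ : ∃ K₁ : ℝ, K₁ = Ce * (Cd + Cs) := ⟨_, rfl⟩
  have hK₁1 : 1 ≤ K₁ := by rw [hK₁]; nlinarith
  obtain ⟨C, hC⟩ : ∃ C : ℝ, C = C₁ * (2 * K₁ + Cs) + (Cd + Cs) * Cv + Cd + Cs + Cv + C₁ + 2 * K₁ :=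
    ⟨_, rfl⟩
  have a1 : 0 ≤ C₁ * (2 * K₁ + Cs) := mul_nonneg (by linarith) (by linarith)
  have a2 : 0 ≤ (Cd + Cs) * Cv := mul_nonneg (by linarith) (by linarith)
  have hC1 : 1 ≤ C := by rw [hC]; linarith
  refine ⟨C, hC1, ?_⟩
  intro Ω P S S' _ p B pt sl sd y yc X D h Q κ η c T Y W hD hT hhY hTY hη hη1 hYη hc B' V R e₁ e₂ hB
    hκ hpos hV hR dV dR he1 he2 q1 q2' hnf hQ1 hQ2 hQ3
  have hp := W.law.nonneg
  have hY1 : 1 ≤ Y := hT.trans hTY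
  have hY0 : 0 < Y := by linarith
  have hQ0 : (0 : ℝ) < 2 ^ Q := by positivity
  have nV0 : ∀ F, 0 ≤ nh D₀ F := nh_nn D₀
  have hκ0 : 0 ≤ κ * Pe p B := mul_nonneg W.κ0 (pe_nn hp _)
  have yb : ∀ ω, B' ω → Bx (y ω) := fun ω hω i => (W.y1 ω (hB ω hω) i).trans (by norm_num)
  have ev : ∀ ω, B' ω → ∀ {F : MvPolynomial (Fin 3) ℝ}, F.totalDegree ≤ D₀ → _ :=
    fun ω hω F hF => hyc (X := X ω) (T := T) hF (yb ω hω) (W.yc1 ω (hB ω hω)) (W.ycn ω (hB ω hω)) hT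
      (W.XT ω (hB ω hω))
  -- visible
  obtain ⟨B₁, b11, b12, b13⟩ := hvis W (by omega) V hB hV dV
  obtain ⟨B₂, b21, b22, b23⟩ := hvis W (by omega) R (fun ω hω => hB ω (b11 ω hω)) (hR.sub b11)
    (fun ω hω => dR ω (b11 ω hω))
  have hB2 : ∀ ω, B₂ ω → B' ω := fun ω hω => b11 ω (b21 ω hω)
  have hmV : ∀ ω, B₂ ω → nh D₀ (V ω) ≤ Cv * Y * mx3 (h3 (V ω) (y ω)) := fun ω hω => by
    refine (b13 ω (b21 ω hω)).1.trans (mul_le_mul_of_nonneg_right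
      (mul_le_mul_of_nonneg_left hhY (by linarith)) ?_)
    exact (abs_nonneg _).trans (mx3_ge _ 0 0)
  have hmR : ∀ ω, B₂ ω → nh D₀ (R ω) ≤ Cv * Y * mx3 (h3 (R ω) (y ω)) := fun ω hω => by
    refine (b23 ω hω).1.trans (mul_le_mul_of_nonneg_right
      (mul_le_mul_of_nonneg_left hhY (by linarith)) ?_)
    exact (abs_nonneg _).trans (mx3_ge _ 0 0)
  have hlow : ∀ ω, B' ω → (2 * K₁ + Cs) * Y ^ 10 * e₂ ≤ nh D₀ (V ω) := fun ω hω => by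
    obtain ⟨i, j, hij⟩ := hnf ω hω
    have h1 := (ev ω hω (dV ω hω)).1 _ (yb ω hω) i j
    have h2 : C₁ * ((2 * K₁ + Cs) * Y ^ 10 * e₂) ≤ C₁ * nh D₀ (V ω) := by
      refine le_trans ?_ (hij.trans h1)
      have e : C₁ * ((2 * K₁ + Cs) * Y ^ 10 * e₂) = C₁ * (2 * K₁ + Cs) * (Y ^ 10 * e₂) := by ring
      have e' : C * Y ^ 10 * e₂ = C * (Y ^ 10 * e₂) := by ring
      rw [e, e']
      refine mul_le_mul_of_nonneg_right ?_ (by positivity)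
      rw [hC]
      linarith
    exact le_of_mul_le_mul_left h2 (by linarith)
  have hVp : ∀ ω, B' ω → 0 < nh D₀ (V ω) := fun ω hω =>
    lt_of_lt_of_le (by positivity) (hlow ω hω)
  have cQ : ∀ ω, B₂ ω → (Cd + Cs) * Y ^ 2 * nh D₀ (V ω) ≤ 2 ^ Q * e₂ := fun ω hω => by
    obtain ⟨i, j, hij⟩ := mx3_eq (h3 (V ω) (y ω))
    have h1 := hQ2 ω (hB2 ω hω) i j
    rw [hij] at h1
    have hm0 : 0 ≤ mx3 (h3 (V ω) (y ω)) := (abs_nonneg _).trans (mx3_ge _ 0 0)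
    calc (Cd + Cs) * Y ^ 2 * nh D₀ (V ω) ≤
        (Cd + Cs) * Y ^ 2 * (Cv * Y * mx3 (h3 (V ω) (y ω))) :=
          mul_le_mul_of_nonneg_left (hmV ω hω) (mul_nonneg (by linarith) (sq_nonneg Y))
      _ = (Cd + Cs) * Cv * (Y ^ 3 * mx3 (h3 (V ω) (y ω))) := by ring
      _ ≤ C * (Y ^ 3 * mx3 (h3 (V ω) (y ω))) :=
          mul_le_mul_of_nonneg_right (by rw [hC]; linarith) (by positivity)
      _ = C * Y ^ 3 * mx3 (h3 (V ω) (y ω)) := by ring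
      _ ≤ _ := h1
  have cR : ∀ ω, B₂ ω → (Cd + Cs) * Y ^ 2 * nh D₀ (R ω) ≤ 2 ^ Q * e₁ := fun ω hω => by
    obtain ⟨i, j, hij⟩ := mx3_eq (h3 (R ω) (y ω))
    have h1 := hQ3 ω (hB2 ω hω) i j
    rw [hij] at h1
    have hm0 : 0 ≤ mx3 (h3 (R ω) (y ω)) := (abs_nonneg _).trans (mx3_ge _ 0 0)
    calc (Cd + Cs) * Y ^ 2 * nh D₀ (R ω) ≤
        (Cd + Cs) * Y ^ 2 * (Cv * Y * mx3 (h3 (R ω) (y ω))) :=
          mul_le_mul_of_nonneg_left (hmR ω hω) (mul_nonneg (by linarith) (sq_nonneg Y))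
      _ = (Cd + Cs) * Cv * (Y ^ 3 * mx3 (h3 (R ω) (y ω))) := by ring
      _ ≤ C * (Y ^ 3 * mx3 (h3 (R ω) (y ω))) :=
          mul_le_mul_of_nonneg_right (by rw [hC]; linarith) (by positivity)
      _ = C * Y ^ 3 * mx3 (h3 (R ω) (y ω)) := by ring
      _ ≤ _ := h1
  have hQY : (Cd + Cs) * Y ≤ 2 ^ Q := by
    refine le_trans (mul_le_mul_of_nonneg_right ?_ hY0.le) hQ1
    rw [hC]; linarith
  have hPe2 : 0 < Pe p B₂ ∧ κ * Pe p B ≤ Pe p B₂ := by constructor <;> linarith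
  -- proportional
  obtain ⟨B₃, b31, b32, b33⟩ := hds W hD hT hhY hTY hη hYη V R (fun ω hω => hB ω (hB2 ω hω))
    hPe2.2 hPe2.1 (hV.sub hB2) (hR.sub hB2) (fun ω hω => dV ω (hB2 ω hω))
    (fun ω hω => dR ω (hB2 ω hω)) he1.le he2.le (fun ω hω => q1 ω (hB2 ω hω))
    (fun ω hω => q2' ω (hB2 ω hω)) (fun ω hω => ⟨hVp ω (hB2 ω hω), hmV ω hω⟩)
    (le_trans (mul_le_mul_of_nonneg_right (by linarith) hY0.le) hQY)
    (fun ω hω => le_trans (mul_le_mul_of_nonneg_right (mul_le_mul_of_nonneg_right (by linarith)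
      (sq_nonneg Y)) (nV0 _)) (cQ ω hω))
    (fun ω hω => le_trans (mul_le_mul_of_nonneg_right (mul_le_mul_of_nonneg_right (by linarith)
      (sq_nonneg Y)) (nV0 _)) (cR ω hω))
  have hB3 : ∀ ω, B₃ ω → B' ω := fun ω hω => hB2 ω (b31 ω hω)
  have m2 : Pe p B₂ ≤ Pe p B' := pe_mn hp hB2
  have m3 : Pe p B₃ ≤ Pe p B' := pe_mn hp hB3
  have c2 : 2 * c * Pe p B₂ ≤ Pe p B' / 6 := by
    have h1 : 2 * c * Pe p B₂ ≤ 1 / 6 * Pe p B₂ :=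
      mul_le_mul_of_nonneg_right (by linarith) (pe_nn hp _)
    linarith
  have hPe3 : 0 < Pe p B₃ ∧ κ * Pe p B ≤ Pe p B₃ := by constructor <;> linarith
  -- constant ratio
  obtain ⟨B₄, b41, b42, b43⟩ := hss W hD hT hhY hTY hη hη1 hYη V R (fun ω hω => hB ω (hB3 ω hω))
    hPe3.2 hPe3.1 (hV.sub hB3) (hR.sub hB3) (fun ω hω => dV ω (hB3 ω hω))
    (fun ω hω => dR ω (hB3 ω hω)) he1 he2
    (fun ω hω => q2' ω (hB3 ω hω)) (fun ω hω => ⟨hVp ω (hB3 ω hω), hmV ω (b31 ω hω)⟩)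
    b33
    (le_trans (mul_le_mul_of_nonneg_right (by linarith) hY0.le) hQY)
    (fun ω hω => le_trans (mul_le_mul_of_nonneg_right (mul_le_mul_of_nonneg_right (by linarith)
      (sq_nonneg Y)) (nV0 _)) (cQ ω (b31 ω hω)))
    (fun ω hω => by
      refine le_trans ?_ (hlow ω (hB3 ω hω))
      have h1 : Y ^ 3 ≤ Y ^ 10 := pow_le_pow_right₀ hY1 (by norm_num)
      have h2 : Cs * Y ^ 3 ≤ (2 * K₁ + Cs) * Y ^ 10 :=
        mul_le_mul (by linarith) h1 (by positivity) (by linarith)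
      exact mul_le_mul_of_nonneg_right h2 he2.le)
  have c3 : c * Pe p B₃ ≤ Pe p B' / 12 := by
    have h1 : c * Pe p B₃ ≤ 1 / 12 * Pe p B₃ :=
      mul_le_mul_of_nonneg_right (by linarith) (pe_nn hp _)
    linarith
  refine ⟨B₄, fun ω hω => hB3 ω (b41 ω hω), by linarith, fun ω hω => ?_⟩
  have w3 := b41 ω hω
  have w' := hB3 ω w3
  obtain ⟨n1, hn1⟩ : ∃ n1, n1 = nh D₀ (V ω) := ⟨_, rfl⟩
  obtain ⟨n2, hn2⟩ : ∃ n2, n2 = nh D₀ (R ω) := ⟨_, rfl⟩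
  obtain ⟨lam, hlam⟩ : ∃ lam, lam = lmb D₀ (V ω) (R ω) := ⟨_, rfl⟩
  have hn1p : 0 < n1 := hn1 ▸ hVp ω w'
  have hn2p : 0 ≤ n2 := hn2 ▸ nV0 _
  have hmx0 : 0 ≤ mx3 (h3 (V ω) (y ω)) := (abs_nonneg _).trans (mx3_ge _ 0 0)
  refine ⟨(hmV ω (b31 ω w3)).trans (mul_le_mul_of_nonneg_right (mul_le_mul_of_nonneg_right
    (by rw [hC]; linarith) hY0.le) hmx0), fun b hb i j => ((ev ω w' (dV ω w')).1 b hb i j).trans
    (mul_le_mul_of_nonneg_right (by rw [hC]; linarith) (nV0 _)), ?_⟩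
  have key : ∀ b, Bx b → ∀ i j, |h3 (R ω) b i j - lam * h3 (V ω) b i j| ≤
      K₁ * Y ^ 10 * (e₁ + n2 / n1 * e₂) := by
    intro b hb i j
    have h1 := hdet (dV ω w') (dR ω w') (nd_bx hD₀ (nhx D₀ (V ω)).2) (hVp ω w')
      (nhx_eq D₀ (V ω)) (nh_ge D₀ (V ω)) (fun b hb k l => b33 ω w3 b hb _ _ k l)
      (fun b hb m => by rw [← eval_Sp]; exact b43 ω hω b hb m) b hb i j
    rw [← hn1, ← hn2] at h1
    rw [hlam]
    refine h1.trans ?_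
    rw [div_le_iff₀ hn1p]
    have e : K₁ * Y ^ 10 * (e₁ + n2 / n1 * e₂) * n1 = K₁ * (Y ^ 10 * (n2 * e₂ + n1 * e₁)) := by
      field_simp
      ring
    rw [e, hK₁]
    have hw : 0 ≤ n2 * e₂ + n1 * e₁ := by positivity
    have h2 : Cd * Y ^ 4 * (n2 * e₂ + n1 * e₁) ≤ Cd * (Y ^ 10 * (n2 * e₂ + n1 * e₁)) := by
      have h3 : Y ^ 4 ≤ Y ^ 10 := pow_le_pow_right₀ hY1 (by norm_num)
      have h4 : Y ^ 4 * (n2 * e₂ + n1 * e₁) ≤ Y ^ 10 * (n2 * e₂ + n1 * e₁) :=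
        mul_le_mul_of_nonneg_right h3 hw
      nlinarith
    have e2 : Cs * Y ^ 10 * (n2 * e₂ + n1 * e₁) = Cs * (Y ^ 10 * (n2 * e₂ + n1 * e₁)) := by ring
    rw [e2]
    have h5 : Ce * (Cd * Y ^ 4 * (n2 * e₂ + n1 * e₁) + Cs * (Y ^ 10 * (n2 * e₂ + n1 * e₁))) ≤
        Ce * (Cd * (Y ^ 10 * (n2 * e₂ + n1 * e₁)) + Cs * (Y ^ 10 * (n2 * e₂ + n1 * e₁))) :=
      mul_le_mul_of_nonneg_left (by linarith) (by linarith)
    refine h5.trans (le_of_eq ?_)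
    ring
  intro b hb i j
  rw [← hlam]
  refine (key b hb i j).trans ?_
  -- the size of `R`
  obtain ⟨u, hu⟩ : ∃ u, u = K₁ * Y ^ 10 := ⟨_, rfl⟩
  have hu0 : 0 < u := by rw [hu]; positivity
  have h1 : n2 ≤ |lam| * n1 + u * (e₁ + n2 / n1 * e₂) := by
    have h2 := key (nd D₀ (nhx D₀ (R ω)).2) (nd_bx hD₀ _) (nhx D₀ (R ω)).1.1 (nhx D₀ (R ω)).1.2
    have h3 := nhx_eq D₀ (R ω)
    have h4 := nh_ge D₀ (V ω) (nhx D₀ (R ω)).2 (nhx D₀ (R ω)).1.1 (nhx D₀ (R ω)).1.2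
    rw [← hn2] at h3
    rw [← hn1] at h4
    rw [← hu] at h2
    have h5 := abs_sub_abs_le_abs_sub
      (Pool.CUB46.h3 (R ω) (nd D₀ (nhx D₀ (R ω)).2) (nhx D₀ (R ω)).1.1 (nhx D₀ (R ω)).1.2)
      (lam * Pool.CUB46.h3 (V ω) (nd D₀ (nhx D₀ (R ω)).2) (nhx D₀ (R ω)).1.1 (nhx D₀ (R ω)).1.2)
    rw [h3, abs_mul] at h5
    have h6 := mul_le_mul_of_nonneg_left h4 (abs_nonneg lam)
    linarith
  have h2 : 2 * (u * e₂) ≤ n1 := by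
    have h3 := hlow ω w'
    rw [← hn1] at h3
    have h4 : 2 * K₁ * Y ^ 10 * e₂ ≤ (2 * K₁ + Cs) * Y ^ 10 * e₂ := by
      refine mul_le_mul_of_nonneg_right (mul_le_mul_of_nonneg_right (by linarith) (by positivity))
        he2.le
    rw [hu]
    linarith
  have h3 : u * (n2 / n1 * e₂) ≤ n2 / 2 := by
    have e : u * (n2 / n1 * e₂) = n2 * (2 * (u * e₂)) / (2 * n1) := by
      field_simp
    rw [e, div_le_div_iff₀ (by positivity) (by norm_num)]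
    nlinarith
  have h4 : n2 ≤ 2 * |lam| * n1 + 2 * u * e₁ := by nlinarith
  have h5 : n2 / n1 * e₂ ≤ 2 * |lam| * e₂ + e₁ := by
    have e : n2 / n1 * e₂ = n2 * e₂ / n1 := by ring
    rw [e, div_le_iff₀ hn1p]
    have h6 : n2 * e₂ ≤ (2 * |lam| * n1 + 2 * u * e₁) * e₂ := mul_le_mul_of_nonneg_right h4 he2.le
    nlinarith
  have h7 : K₁ * Y ^ 10 * (e₁ + n2 / n1 * e₂) ≤ K₁ * Y ^ 10 * (2 * (e₁ + |lam| * e₂)) :=
    mul_le_mul_of_nonneg_left (by linarith) (by positivity)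
  refine h7.trans ?_
  have e : K₁ * Y ^ 10 * (2 * (e₁ + |lam| * e₂)) = 2 * K₁ * (Y ^ 10 * (e₁ + |lam| * e₂)) := by ring
  have e' : C * Y ^ 10 * (e₁ + |lam| * e₂) = C * (Y ^ 10 * (e₁ + |lam| * e₂)) := by ring
  rw [e, e']
  refine mul_le_mul_of_nonneg_right (by rw [hC]; linarith) ?_
  have := abs_nonneg lam
  positivity

end Pool.CNC76
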