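import Pool.Agent.H76.CNC.Cbl

/-!
# One multiplier on the ball, without upper bounds

`conic_free`: as `conic_ball`, without upper bounds for the second derivatives: `conic_ball` is used
for `V / a2` and `E / a1`, `E = R - lam V`, where `a1`, `a2` are closed numbers.
-/

set_option autoImplicit false

namespace Pool.CNC76

open Finset MvPolynomial
open Pool.Agent.H49.Ent
open Pool.STK (IsLaw)
open Pool.K2S (Pe)
open Pool.CUB46 (q2 l1 h3)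
open Pool.D2G30 (nd)

theorem h3_sub (F G : MvPolynomial (Fin 3) ℝ) (b : Fin 3 → ℝ) (i j : Fin 3) :
    h3 (F - G) b i j = h3 F b i j - h3 G b i j := by
  unfold h3
  rw [map_sub, map_sub, map_sub]

theorem h3_add (F G : MvPolynomial (Fin 3) ℝ) (b : Fin 3 → ℝ) (i j : Fin 3) :
    h3 (F + G) b i j = h3 F b i j + h3 G b i j := by
  unfold h3
  rw [map_add, map_add, map_add]

theorem h3_Cmul (r : ℝ) (F : MvPolynomial (Fin 3) ℝ) (b : Fin 3 → ℝ) (i j : Fin 3) :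
    h3 (C r * F) b i j = r * h3 F b i j := by
  unfold h3
  rw [pderiv_C_mul, pderiv_C_mul, map_mul, eval_C]

theorem deg_Cmul {K : ℕ} {F : MvPolynomial (Fin 3) ℝ} (h : F.totalDegree ≤ K) (r : ℝ) :
    (C r * F).totalDegree ≤ K := by
  refine (totalDegree_mul _ _).trans ?_
  rw [totalDegree_C, zero_add]
  exact h

/-- A form of a combination. -/
theorem q2_cmb (A B : Fin 3 → Fin 3 → ℝ) (r : ℝ) (x : Fin 3 → ℝ) :
    q2 (fun i j => A i j - r * B i j) x x = q2 A x x - r * q2 B x x := by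
  unfold q2
  rw [Finset.mul_sum, ← Finset.sum_sub_distrib]
  refine Finset.sum_congr rfl fun i _ => ?_
  rw [Finset.mul_sum, ← Finset.sum_sub_distrib]
  refine Finset.sum_congr rfl fun j _ => ?_
  ring

theorem q2_sm (A : Fin 3 → Fin 3 → ℝ) (r : ℝ) (x : Fin 3 → ℝ) :
    q2 (fun i j => r * A i j) x x = r * q2 A x x := by
  unfold q2
  rw [Finset.mul_sum]
  refine Finset.sum_congr rfl fun i _ => ?_
  rw [Finset.mul_sum]
  refine Finset.sum_congr rfl fun j _ => ?_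
  ring

/-- **One multiplier on the ball**, without upper bounds. -/
theorem conic_free (D₀ : ℕ) (hD₀ : 1 ≤ D₀) : ∃ C : ℝ, 1 ≤ C ∧
    ∀ {Ω P S S' : Type} [Fintype Ω]
    {p : Ω → ℝ} {B : Ω → Prop} {pt : Ω → P} {sl : Ω → S} {sd : Ω → S'} {y yc X : Ω → Fin 3 → ℝ}
    {D h Q : ℕ} {κ η c T Y : ℝ}, Bll p B pt sl sd y yc X D h Q κ η c T → 2 * D₀ ≤ D →
    1 ≤ T → 2 ^ h ≤ Y → T ≤ Y → 0 < η → η ≤ 1 → 1 ≤ Y * η → 12 * c ≤ 1 →
    ∀ {B' : Ω → Prop} (V R : Ω → MvPolynomial (Fin 3) ℝ) {e₁ e₂ : ℝ}, (∀ ω, B' ω → B ω) →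
      32 * (κ * Pe p B) ≤ Pe p B' → 0 < Pe p B' →
      Clo B' pt sl V → Clo B' pt sl R →
      (∀ ω, B' ω → (V ω).totalDegree ≤ D₀) → (∀ ω, B' ω → (R ω).totalDegree ≤ D₀) →
      0 < e₁ → 0 < e₂ →
      (∀ ω, B' ω → |q2 (h3 (R ω) (y ω)) (X ω) (X ω)| ≤ e₁) →
      (∀ ω, B' ω → |q2 (h3 (V ω) (y ω)) (X ω) (X ω)| ≤ e₂) →
      (∀ ω, B' ω → ∃ i j, C * Y ^ 10 * e₂ ≤ |h3 (V ω) (y ω) i j|) →
      C * Y ^ 14 ≤ 2 ^ Q →
      ∃ (B'' : Ω → Prop) (lam : Ω → ℝ), (∀ ω, B'' ω → B' ω) ∧ Pe p B' ≤ 4 * Pe p B'' ∧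
        Clo B' pt sl lam ∧
        ∀ ω, B'' ω → nh D₀ (V ω) ≤ C * Y * mx3 (h3 (V ω) (y ω)) ∧
          (∀ b, Bx b → ∀ i j, |h3 (V ω) b i j| ≤ C * nh D₀ (V ω)) ∧
          ∀ b, Bx b → ∀ i j,
          |h3 (R ω) b i j - lam ω * h3 (V ω) b i j| ≤ C * Y ^ 10 * (e₁ + |lam ω| * e₂) := by
  classical
  obtain ⟨Cv, hCv, hvis⟩ := vis_ball D₀ hD₀
  obtain ⟨C₁, hC₁, hyc⟩ := yc_ev D₀ hD₀
  obtain ⟨Cb, hCb, hcb⟩ := conic_ball D₀ hD₀
  have p1 : 1 ≤ Cb ^ 2 * C₁ := one_le_mul_of_one_le_of_one_le (one_le_pow₀ hCb) hC₁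
  have p2 : 1 ≤ Cb ^ 2 * C₁ * Cv := one_le_mul_of_one_le_of_one_le p1 hCv
  obtain ⟨Cc, hCc⟩ : ∃ Cc : ℝ, Cc = 2 * Cb + 2 * (Cb ^ 2 * C₁ * Cv) + 2 * (Cb ^ 2 * C₁) + Cv + C₁ :=
    ⟨_, rfl⟩
  have hCc1 : 1 ≤ Cc := by rw [hCc]; linarith
  refine ⟨Cc, hCc1, ?_⟩
  intro Ω P S S' _ p B pt sl sd y yc X D h Q κ η c T Y W hD hT hhY hTY hη hη1 hYη hc B' V R e₁ e₂ hB
    hκ hpos hV hR dV dR he1 he2 q1 q2' hnf hQ
  have hp := W.law.nonneg
  have hY1 : 1 ≤ Y := hT.trans hTY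
  have hY0 : 0 < Y := by linarith
  have hQ0 : (0 : ℝ) < 2 ^ Q := by positivity
  have hκ0 : 0 ≤ κ * Pe p B := mul_nonneg W.κ0 (pe_nn hp _)
  have hnn : ∀ F, 0 ≤ nh D₀ F := nh_nn D₀
  -- the closed numbers
  obtain ⟨G, hG⟩ : ∃ G : ℝ, G = Cb * C₁ * Y ^ 3 / 2 ^ Q := ⟨_, rfl⟩
  have hG0 : 0 < G := by rw [hG]; positivity
  have hG1 : 2 * (Cb * Y ^ 10 * G) ≤ 1 := by
    have e : 2 * (Cb * Y ^ 10 * G) = 2 * (Cb ^ 2 * C₁) * Y ^ 13 / 2 ^ Q := by rw [hG]; ring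
    rw [e, div_le_one hQ0]
    refine le_trans ?_ hQ
    refine mul_le_mul (by rw [hCc]; linarith) (pow_le_pow_right₀ hY1 (by norm_num)) (by positivity)
      (by linarith)
  have hG2 : 2 * (Cb * Y ^ 10 * (G * (Cv * Y))) ≤ 1 := by
    have e : 2 * (Cb * Y ^ 10 * (G * (Cv * Y))) = 2 * (Cb ^ 2 * C₁ * Cv) * Y ^ 14 / 2 ^ Q := by
      rw [hG]; ring
    rw [e, div_le_one hQ0]
    refine le_trans ?_ hQ
    refine mul_le_mul_of_nonneg_right (by rw [hCc]; linarith) (by positivity)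
  obtain ⟨a2, ha2⟩ : ∃ a2 : MvPolynomial (Fin 3) ℝ → ℝ, ∀ F, a2 F = e₂ + G * nh D₀ F :=
    ⟨_, fun _ => rfl⟩
  have ha2p : ∀ F, 0 < a2 F := fun F => by
    rw [ha2]
    have := mul_nonneg hG0.le (hnn F)
    linarith
  obtain ⟨fV, hfV⟩ : ∃ fV : MvPolynomial (Fin 3) ℝ → MvPolynomial (Fin 3) ℝ,
    ∀ F, fV F = C (1 / a2 F) * F := ⟨_, fun _ => rfl⟩
  obtain ⟨fL, hfL⟩ : ∃ fL : MvPolynomial (Fin 3) ℝ → MvPolynomial (Fin 3) ℝ → ℝ,
    ∀ F F', fL F F' = lmb D₀ (fV F) F' := ⟨_, fun _ _ => rfl⟩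
  obtain ⟨fE, hfE⟩ : ∃ fE : MvPolynomial (Fin 3) ℝ → MvPolynomial (Fin 3) ℝ →
    MvPolynomial (Fin 3) ℝ, ∀ F F', fE F F' = F' - C (fL F F') * fV F := ⟨_, fun _ _ => rfl⟩
  obtain ⟨ff, hff⟩ : ∃ ff : MvPolynomial (Fin 3) ℝ → MvPolynomial (Fin 3) ℝ → ℝ,
    ∀ F F', ff F F' = e₁ + |fL F F'| * (e₂ / a2 F) := ⟨_, fun _ _ => rfl⟩
  have hffp : ∀ F F', 0 < ff F F' := fun F F' => by
    rw [hff]
    have := mul_nonneg (abs_nonneg (fL F F')) (div_nonneg he2.le (ha2p F).le)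
    linarith
  obtain ⟨a1, ha1⟩ : ∃ a1 : MvPolynomial (Fin 3) ℝ → MvPolynomial (Fin 3) ℝ → ℝ,
    ∀ F F', a1 F F' = ff F F' + G * nh D₀ (fE F F') := ⟨_, fun _ _ => rfl⟩
  have ha1p : ∀ F F', 0 < a1 F F' := fun F F' => by
    rw [ha1]
    have := mul_nonneg hG0.le (hnn (fE F F'))
    linarith [hffp F F']
  have hffa : ∀ F F', ff F F' ≤ a1 F F' := fun F F' => by
    rw [ha1]
    have := mul_nonneg hG0.le (hnn (fE F F'))
    linarith
  -- visible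
  obtain ⟨B₁, b11, b12, b13⟩ := hvis W (by omega) V hB hV dV
  have hyb : ∀ ω, B' ω → Bx (y ω) := fun ω hω i => (W.y1 ω (hB ω hω) i).trans (by norm_num)
  have hsup : ∀ ω, B' ω → ∀ {F : MvPolynomial (Fin 3) ℝ}, F.totalDegree ≤ D₀ →
      ∀ b, Bx b → ∀ i j, |h3 F b i j| ≤ C₁ * nh D₀ F := fun ω hω F hF =>
    (hyc (X := X ω) (T := T) hF (hyb ω hω) (W.yc1 ω (hB ω hω)) (W.ycn ω (hB ω hω)) hT
      (W.XT ω (hB ω hω))).1
  have hmV : ∀ ω, B₁ ω → nh D₀ (V ω) ≤ Cv * Y * mx3 (h3 (V ω) (y ω)) := fun ω hω => by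
    refine (b13 ω hω).1.trans (mul_le_mul_of_nonneg_right
      (mul_le_mul_of_nonneg_left hhY (by linarith)) ?_)
    exact (abs_nonneg _).trans (mx3_ge _ 0 0)
  -- the bound `a G nh` of the second derivatives
  have hGa : ∀ {n a : ℝ}, 0 < a → G * n ≤ a → Cb * Y ^ 3 * (1 / a * (C₁ * n)) ≤ 2 ^ Q * 1 := by
    intro n a ha h1
    have e : Cb * Y ^ 3 * (1 / a * (C₁ * n)) = 2 ^ Q * (G * n / a) := by
      rw [hG]
      field_simp
    rw [e]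
    exact mul_le_mul_of_nonneg_left ((div_le_one ha).2 h1) hQ0.le
  have dfV : ∀ {F : MvPolynomial (Fin 3) ℝ}, F.totalDegree ≤ D₀ → (fV F).totalDegree ≤ D₀ :=
    fun {F} h => by
    rw [hfV]
    exact deg_Cmul h _
  have dfE : ∀ {F F' : MvPolynomial (Fin 3) ℝ}, F.totalDegree ≤ D₀ → F'.totalDegree ≤ D₀ →
      (fE F F').totalDegree ≤ D₀ := fun {F F'} h h' => by
    rw [hfE]
    exact (totalDegree_sub _ _).trans (max_le h' (deg_Cmul (dfV h) _))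
  have hq1 : ∀ ω, B' ω → |q2 (h3 (fE (V ω) (R ω)) (y ω)) (X ω) (X ω)| ≤ ff (V ω) (R ω) :=
    fun ω hω => by
    have e : h3 (fE (V ω) (R ω)) (y ω) = fun i j => h3 (R ω) (y ω) i j -
        (fL (V ω) (R ω) * (1 / a2 (V ω))) * h3 (V ω) (y ω) i j := by
      funext i j
      rw [hfE, h3_sub, h3_Cmul, hfV, h3_Cmul]
      ring
    rw [e, q2_cmb]
    refine (abs_sub _ _).trans ?_
    rw [hff]
    refine add_le_add (q1 ω hω) ?_
    rw [abs_mul, abs_mul, abs_of_pos (div_pos one_pos (ha2p _)), mul_assoc]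
    refine mul_le_mul_of_nonneg_left ?_ (abs_nonneg _)
    rw [one_div, inv_mul_eq_div]
    exact div_le_div_of_nonneg_right (q2' ω hω) (ha2p _).le
  obtain ⟨B'', h1, h2, h3'⟩ := hcb W hD hT hhY hTY hη hη1 hYη hc (B' := B₁)
    (fun ω => fV (V ω)) (fun ω => C (1 / a1 (V ω) (R ω)) * fE (V ω) (R ω)) (e₁ := 1) (e₂ := 1)
    (fun ω hω => hB ω (b11 ω hω)) (by linarith) (by linarith)
    ((hV.sub b11).map fV)
    ((hV.sub b11).map2 (hR.sub b11) fun F F' => C (1 / a1 F F') * fE F F')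
    (fun ω hω => dfV (dV ω (b11 ω hω)))
    (fun ω hω => deg_Cmul (dfE (dV ω (b11 ω hω)) (dR ω (b11 ω hω))) _) one_pos one_pos
    (fun ω hω => by
      have e : h3 (C (1 / a1 (V ω) (R ω)) * fE (V ω) (R ω)) (y ω) = fun i j =>
          1 / a1 (V ω) (R ω) * h3 (fE (V ω) (R ω)) (y ω) i j := by
        funext i j
        rw [h3_Cmul]
      rw [e, q2_sm, abs_mul, abs_of_pos (div_pos one_pos (ha1p _ _)), one_div, inv_mul_eq_div,
        div_le_one (ha1p _ _)]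
      exact (hq1 ω (b11 ω hω)).trans (hffa _ _))
    (fun ω hω => by
      have e : h3 (fV (V ω)) (y ω) = fun i j => 1 / a2 (V ω) * h3 (V ω) (y ω) i j := by
        funext i j
        rw [hfV, h3_Cmul]
      rw [e, q2_sm, abs_mul, abs_of_pos (div_pos one_pos (ha2p _)), one_div, inv_mul_eq_div,
        div_le_one (ha2p _)]
      refine (q2' ω (b11 ω hω)).trans ?_
      rw [ha2]
      have := mul_nonneg hG0.le (hnn (V ω))
      linarith)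
    (fun ω hω => by
      obtain ⟨i, j, hij⟩ := mx3_eq (h3 (V ω) (y ω))
      refine ⟨i, j, ?_⟩
      rw [hfV, h3_Cmul, abs_mul, abs_of_pos (div_pos one_pos (ha2p _)), one_div, inv_mul_eq_div,
        mul_one, le_div_iff₀ (ha2p _), hij]
      obtain ⟨i', j', hij'⟩ := hnf ω (b11 ω hω)
      have k1 := hij'.trans (mx3_ge (h3 (V ω) (y ω)) i' j')
      have k2 := hmV ω hω
      obtain ⟨x, hx⟩ : ∃ x, x = mx3 (h3 (V ω) (y ω)) := ⟨_, rfl⟩
      rw [← hx] at k1 k2 ⊢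
      have hx0 : 0 ≤ x := le_trans (by positivity) k1
      rw [ha2, mul_add]
      have k3 : 2 * (Cb * Y ^ 10 * e₂) ≤ x := by
        refine le_trans ?_ k1
        have e : 2 * (Cb * Y ^ 10 * e₂) = 2 * Cb * Y ^ 10 * e₂ := by ring
        rw [e]
        refine mul_le_mul_of_nonneg_right (mul_le_mul_of_nonneg_right ?_ (by positivity)) he2.le
        rw [hCc]
        linarith
      have k4 : 2 * (Cb * Y ^ 10 * (G * nh D₀ (V ω))) ≤ x := by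
        have k5 : Cb * Y ^ 10 * (G * nh D₀ (V ω)) ≤ Cb * Y ^ 10 * (G * (Cv * Y * x)) :=
          mul_le_mul_of_nonneg_left (mul_le_mul_of_nonneg_left k2 hG0.le) (by positivity)
        have k6 := mul_le_mul_of_nonneg_right hG2 hx0
        have e : 2 * (Cb * Y ^ 10 * (G * (Cv * Y))) * x = 2 * (Cb * Y ^ 10 * (G * (Cv * Y * x))) := by
          ring
        rw [e, one_mul] at k6
        linarith
      linarith)
    (by
      refine le_trans ?_ hQ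
      calc Cb * Y ≤ Cc * Y := mul_le_mul_of_nonneg_right (by rw [hCc]; linarith) hY0.le
        _ = Cc * Y ^ 1 := by rw [pow_one]
        _ ≤ _ := mul_le_mul_of_nonneg_left (pow_le_pow_right₀ hY1 (by norm_num)) (by linarith))
    (fun ω hω i j => by
      rw [hfV, h3_Cmul, abs_mul, abs_of_pos (div_pos one_pos (ha2p _))]
      refine le_trans (mul_le_mul_of_nonneg_left (mul_le_mul_of_nonneg_left
        (hsup ω (b11 ω hω) (dV ω (b11 ω hω)) _ (hyb ω (b11 ω hω)) i j)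
        (div_nonneg zero_le_one (ha2p _).le)) (by positivity)) (hGa (ha2p _) ?_)
      rw [ha2]
      linarith)
    (fun ω hω i j => by
      rw [h3_Cmul, abs_mul, abs_of_pos (div_pos one_pos (ha1p _ _))]
      refine le_trans (mul_le_mul_of_nonneg_left (mul_le_mul_of_nonneg_left
        (hsup ω (b11 ω hω) (dfE (dV ω (b11 ω hω)) (dR ω (b11 ω hω))) _ (hyb ω (b11 ω hω)) i j)
        (div_nonneg zero_le_one (ha1p _ _).le)) (by positivity)) (hGa (ha1p _ _) ?_)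
      rw [ha1]
      linarith [hffp (V ω) (R ω)])
  refine ⟨B'', fun ω => fL (V ω) (R ω) / a2 (V ω), fun ω hω => b11 ω (h1 ω hω), by linarith,
    hV.map2 hR fun F F' => fL F F' / a2 F, fun ω hω => ?_⟩
  obtain ⟨-, -, k3⟩ := h3' ω hω
  have w1 := h1 ω hω
  have w' := b11 ω w1
  refine ⟨(hmV ω w1).trans (mul_le_mul_of_nonneg_right (mul_le_mul_of_nonneg_right
    (by rw [hCc]; linarith) hY0.le) ((abs_nonneg _).trans (mx3_ge _ 0 0))), fun b hb i j =>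
    (hsup ω w' (dV ω w') b hb i j).trans (mul_le_mul_of_nonneg_right (by rw [hCc]; linarith)
      (hnn _)), ?_⟩
  obtain ⟨F, hF⟩ : ∃ F, F = V ω := ⟨_, rfl⟩
  obtain ⟨F', hF'⟩ : ∃ F', F' = R ω := ⟨_, rfl⟩
  simp only [← hF, ← hF'] at k3 ⊢
  -- `V` is visible
  have hnV : 0 < nh D₀ (fV F) := by
    have m1 : 0 < nh D₀ F := by
      obtain ⟨i, j, hij⟩ := hnf ω w'
      have m2 := hij.trans (hsup ω w' (dV ω w') _ (hyb ω w') i j)
      rw [← hF] at m2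
      have m3 : 0 < C₁ * nh D₀ F := lt_of_lt_of_le (by positivity) m2
      by_contra hcon
      have m5 : nh D₀ F = 0 := le_antisymm (not_lt.1 hcon) (hnn F)
      rw [m5, mul_zero] at m3
      exact lt_irrefl _ m3
    have m4 := nh_ge D₀ (fV F) (nhx D₀ F).2 (nhx D₀ F).1.1 (nhx D₀ F).1.2
    rw [hfV, h3_Cmul, abs_mul, nhx_eq, ← hfV, abs_of_pos (div_pos one_pos (ha2p _))] at m4
    exact lt_of_lt_of_le (mul_pos (div_pos one_pos (ha2p _)) m1) m4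
  have hnd : h3 (fV F) (nd D₀ (nhx D₀ (fV F)).2) (nhx D₀ (fV F)).1.1 (nhx D₀ (fV F)).1.2 ≠ 0 := by
    rw [← abs_pos, nhx_eq]
    exact hnV
  have hl0 : lmb D₀ (fV F) (C (1 / a1 F F') * fE F F') = 0 := by
    unfold lmb
    rw [h3_Cmul, hfE, h3_sub, h3_Cmul, hfL]
    unfold lmb
    rw [div_mul_cancel₀ _ hnd, sub_self, mul_zero, zero_div]
  rw [hl0] at k3
  simp only [zero_mul, sub_zero, abs_zero, add_zero, mul_one] at k3
  have k4 : ∀ b, Bx b → ∀ i j, |h3 (fE F F') b i j| ≤ Cb * Y ^ 10 * a1 F F' := fun b hb i j => by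
    have m1 := k3 b hb i j
    rw [h3_Cmul, abs_mul, abs_of_pos (div_pos one_pos (ha1p _ _)), one_div, inv_mul_eq_div,
      div_le_iff₀ (ha1p _ _)] at m1
    exact m1
  have k5 : nh D₀ (fE F F') ≤ Cb * Y ^ 10 * a1 F F' := by
    rw [← nhx_eq D₀ (fE F F')]
    exact k4 _ (nd_bx hD₀ _) _ _
  have e1 : Cb * Y ^ 10 * a1 F F' = Cb * Y ^ 10 * ff F F' + Cb * Y ^ 10 * G * nh D₀ (fE F F') := by
    rw [ha1]
    ring
  have k6 : Cb * Y ^ 10 * G * nh D₀ (fE F F') ≤ 1 / 2 * nh D₀ (fE F F') :=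
    mul_le_mul_of_nonneg_right (by linarith) (hnn _)
  have k7 : Cb * Y ^ 10 * a1 F F' ≤ 2 * (Cb * Y ^ 10 * ff F F') := by linarith
  intro b hb i j
  have k8 := (k4 b hb i j).trans k7
  have e2 : h3 (fE F F') b i j = h3 F' b i j - fL F F' / a2 F * h3 F b i j := by
    rw [hfE, h3_sub, h3_Cmul, hfV, h3_Cmul]
    ring
  have e3 : ff F F' = e₁ + |fL F F' / a2 F| * e₂ := by
    rw [hff, abs_div, abs_of_pos (ha2p F)]
    ring
  rw [e2] at k8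
  rw [← e3]
  refine k8.trans ?_
  have e4 : 2 * (Cb * Y ^ 10 * ff F F') = 2 * Cb * Y ^ 10 * ff F F' := by ring
  rw [e4]
  refine mul_le_mul_of_nonneg_right (mul_le_mul_of_nonneg_right ?_ (by positivity)) (hffp _ _).le
  rw [hCc]
  linarith

end Pool.CNC76
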