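import Pool.Agent.H76.CNC.Dil
import Pool.Agent.H76.CNC.Cfr

/-!
# `conic_ball` and `conic_row` in the coordinates of the frame
-/

set_option autoImplicit false

namespace Pool.CNC76

open Finset MvPolynomial
open Pool.Agent.H49.Ent
open Pool.STK (IsLaw)
open Pool.K2S (Pe)
open Pool.CUB46 (q2 l1 h3)
open Pool.D2G30 (nd)

theorem unt_pt {Ω : Type} {Y ctr : Ω → Fin 3 → ℝ} {ρ : ℝ} (hρ : ρ ≠ 0) (ω : Ω) :
    (fun i => ctr ω i + ρ * unt Y ctr ρ ω i) = Y ω := by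
  funext i
  unfold unt
  field_simp
  ring

/-- **One multiplier on the cube of the window.** -/
theorem conic_cu (D₀ : ℕ) (hD₀ : 1 ≤ D₀) : ∃ C : ℝ, 1 ≤ C ∧
    ∀ {Ω P S S' : Type} [Fintype Ω]
    {p : Ω → ℝ} {B : Ω → Prop} {pt : Ω → P} {sl : Ω → S} {sd : Ω → S'}
    {Y Yc X ctr : Ω → Fin 3 → ℝ} {ρ : ℝ} {D h Q : ℕ} {κ η c T M : ℝ},
    Bll p B pt sl sd (unt Y ctr ρ) (unt Yc ctr ρ) X D h Q κ η c T → 2 * D₀ ≤ D →
    1 ≤ T → 2 ^ h ≤ M → T ≤ M → 0 < η → η ≤ 1 → 1 ≤ M * η → 12 * c ≤ 1 → 0 < ρ →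
    Clo B pt sl ctr →
    ∀ {B' : Ω → Prop} (V R : Ω → MvPolynomial (Fin 3) ℝ) {e₁ e₂ : ℝ}, (∀ ω, B' ω → B ω) →
      32 * (κ * Pe p B) ≤ Pe p B' → 0 < Pe p B' →
      Clo B' pt sl V → Clo B' pt sl R →
      (∀ ω, B' ω → (V ω).totalDegree ≤ D₀) → (∀ ω, B' ω → (R ω).totalDegree ≤ D₀) →
      0 < e₁ → 0 < e₂ →
      (∀ ω, B' ω → |q2 (h3 (R ω) (Y ω)) (X ω) (X ω)| ≤ e₁ / ρ ^ 2) →
      (∀ ω, B' ω → |q2 (h3 (V ω) (Y ω)) (X ω) (X ω)| ≤ e₂ / ρ ^ 2) →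
      (∀ ω, B' ω → ∃ i j, C * M ^ 10 * e₂ / ρ ^ 2 ≤ |h3 (V ω) (Y ω) i j|) →
      C * M ^ 14 ≤ 2 ^ Q →
      ∃ (B'' : Ω → Prop) (lam : Ω → ℝ), (∀ ω, B'' ω → B' ω) ∧ Pe p B' ≤ 4 * Pe p B'' ∧
        Clo B' pt sl lam ∧
        ∀ ω, B'' ω → (∃ i j, ∀ b, Cu (ctr ω) ρ b → ∀ k l, |h3 (V ω) b k l| ≤
          C * M * |h3 (V ω) (Y ω) i j|) ∧ ∀ b, Cu (ctr ω) ρ b → ∀ i j,
          |h3 (R ω) b i j - lam ω * h3 (V ω) b i j| ≤ C * M ^ 10 * (e₁ + |lam ω| * e₂) / ρ ^ 2 := by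
  obtain ⟨C, hC, hcb⟩ := conic_free D₀ hD₀
  refine ⟨C * C, one_le_mul_of_one_le_of_one_le hC hC, ?_⟩
  intro Ω P S S' _ p B pt sl sd Y Yc X ctr ρ D h Q κ η c T M W hD hT hhM hTM hη hη1 hMη hc hρ hctr
    B' V R e₁ e₂ hB hκ hpos hV hR dV dR he1 he2 q1 q2' hnf hQ1
  have hM1 : 1 ≤ M := hT.trans hTM
  have hM0 : 0 < M := by linarith
  have hρ2 : 0 < ρ ^ 2 := by positivity
  have hCC : C ≤ C * C := le_mul_of_one_le_left (by linarith) hC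
  have hvl : ∀ (F : MvPolynomial (Fin 3) ℝ) ω, h3 (dil (ctr ω) ρ F) (unt Y ctr ρ ω) =
      fun i j => ρ ^ 2 * h3 F (Y ω) i j := fun F ω => by
    funext i j
    rw [h3_dil, unt_pt hρ.ne']
  have hql : ∀ (F : MvPolynomial (Fin 3) ℝ) ω x, |q2 (h3 (dil (ctr ω) ρ F) (unt Y ctr ρ ω)) x x| =
      ρ ^ 2 * |q2 (h3 F (Y ω)) x x| := fun F ω x => by
    rw [hvl, q2_mul, abs_mul, abs_of_pos hρ2]
  have hal : ∀ (F : MvPolynomial (Fin 3) ℝ) ω i j, |h3 (dil (ctr ω) ρ F) (unt Y ctr ρ ω) i j| =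
      ρ ^ 2 * |h3 F (Y ω) i j| := fun F ω i j => by
    rw [hvl, abs_mul, abs_of_pos hρ2]
  have hVd : Clo B' pt sl (fun ω => dil (ctr ω) ρ (V ω)) :=
    (hctr.sub hB).map2 hV fun a F => dil a ρ F
  have hRd : Clo B' pt sl (fun ω => dil (ctr ω) ρ (R ω)) :=
    (hctr.sub hB).map2 hR fun a F => dil a ρ F
  obtain ⟨B'', lam, h1, h2, hlc, h3'⟩ := hcb W hD hT hhM hTM hη hη1 hMη hc (fun ω => dil (ctr ω) ρ (V ω))
    (fun ω => dil (ctr ω) ρ (R ω)) hB hκ hpos hVd hRd (fun ω hω => deg_dil (dV ω hω) _ _)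
    (fun ω hω => deg_dil (dR ω hω) _ _) he1 he2
    (fun ω hω => by
      rw [hql]
      have h1 := mul_le_mul_of_nonneg_left (q1 ω hω) hρ2.le
      rwa [mul_div_cancel₀ _ hρ2.ne'] at h1)
    (fun ω hω => by
      rw [hql]
      have h1 := mul_le_mul_of_nonneg_left (q2' ω hω) hρ2.le
      rwa [mul_div_cancel₀ _ hρ2.ne'] at h1)
    (fun ω hω => by
      obtain ⟨i, j, hij⟩ := hnf ω hω
      refine ⟨i, j, ?_⟩
      rw [hal]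
      have h1 := mul_le_mul_of_nonneg_left hij hρ2.le
      rw [mul_div_cancel₀ _ hρ2.ne'] at h1
      refine le_trans ?_ h1
      exact mul_le_mul_of_nonneg_right (mul_le_mul_of_nonneg_right hCC (by positivity)) he2.le)
    (le_trans (mul_le_mul_of_nonneg_right hCC (by positivity)) hQ1)
  refine ⟨B'', lam, h1, h2, hlc, fun ω hω => ?_⟩
  obtain ⟨a1, a2, a3⟩ := h3' ω hω
  have hcu : ∀ (F : MvPolynomial (Fin 3) ℝ) b, Cu (ctr ω) ρ b → ∀ i j,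
      h3 (dil (ctr ω) ρ F) (fun i => (b i - ctr ω i) / ρ) i j = ρ ^ 2 * h3 F b i j :=
    fun F b hb i j => by
    rw [h3_dil, (cu_unit hρ hb).2]
  constructor
  · obtain ⟨i, j, hij⟩ := mx3_eq (h3 (dil (ctr ω) ρ (V ω)) (unt Y ctr ρ ω))
    refine ⟨i, j, fun b hb k l => ?_⟩
    have h4 := a2 _ (cu_unit hρ hb).1 k l
    rw [hcu _ b hb] at h4
    rw [hal] at hij
    rw [← hij] at a1
    have h5 : ρ ^ 2 * |h3 (V ω) b k l| ≤ C * (C * M * (ρ ^ 2 * |h3 (V ω) (Y ω) i j|)) := by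
      have h6 : |ρ ^ 2 * h3 (V ω) b k l| = ρ ^ 2 * |h3 (V ω) b k l| := by
        rw [abs_mul, abs_of_pos hρ2]
      rw [← h6]
      exact h4.trans (mul_le_mul_of_nonneg_left a1 (by linarith))
    have h7 : ρ ^ 2 * |h3 (V ω) b k l| ≤ ρ ^ 2 * (C * C * M * |h3 (V ω) (Y ω) i j|) :=
      h5.trans (le_of_eq (by ring))
    exact le_of_mul_le_mul_left h7 hρ2
  · intro b hb i j
    have h4 := a3 _ (cu_unit hρ hb).1 i j
    rw [hcu _ b hb, hcu _ b hb] at h4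
    rw [le_div_iff₀ hρ2]
    obtain ⟨lm, hlm⟩ : ∃ lm, lm = lam ω := ⟨_, rfl⟩
    simp only [← hlm] at h4 ⊢
    have e : ρ ^ 2 * h3 (R ω) b i j - lm * (ρ ^ 2 * h3 (V ω) b i j) =
        (h3 (R ω) b i j - lm * h3 (V ω) b i j) * ρ ^ 2 := by ring
    rw [e, abs_mul, abs_of_pos hρ2] at h4
    refine h4.trans (mul_le_mul_of_nonneg_right (mul_le_mul_of_nonneg_right hCC (by positivity)) ?_)
    have := abs_nonneg lm
    positivity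

/-- **The row of the direction**, in the coordinates of the frame. -/
theorem row_cu (D₀ : ℕ) (hD₀ : 1 ≤ D₀) : ∃ C : ℝ, 1 ≤ C ∧
    ∀ {Ω P S S' : Type} [Fintype Ω]
    {p : Ω → ℝ} {B : Ω → Prop} {pt : Ω → P} {sl : Ω → S} {sd : Ω → S'}
    {Y Yc X ctr : Ω → Fin 3 → ℝ} {ρ : ℝ} {D h Q : ℕ} {κ η c T M : ℝ},
    Bll p B pt sl sd (unt Y ctr ρ) (unt Yc ctr ρ) X D h Q κ η c T → D₀ ≤ D →
    1 ≤ T → 2 ^ h ≤ M → T ≤ M → 0 < η → 1 ≤ M * η → 4 * c ≤ 1 → 0 < ρ →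
    Clo B pt sl ctr →
    ∀ {B' : Ω → Prop} (V : Ω → MvPolynomial (Fin 3) ℝ) {e₂ : ℝ}, (∀ ω, B' ω → B ω) →
      8 * (κ * Pe p B) ≤ Pe p B' → 0 < Pe p B' →
      Clo B' pt sl V → (∀ ω, B' ω → (V ω).totalDegree ≤ D₀) → 0 < e₂ →
      (∀ ω, B' ω → X ω 0 = 1) →
      (∀ ω, B' ω → |q2 (h3 (V ω) (Y ω)) (X ω) (X ω)| ≤ e₂ / ρ ^ 2) →
      (∀ ω, B' ω → ∃ i j, C * M ^ 2 * e₂ / ρ ^ 2 ≤ |h3 (V ω) (Y ω) i j|) →
      C * M ^ 3 ≤ 2 ^ Q →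
      ∃ B'' : Ω → Prop, (∀ ω, B'' ω → B' ω) ∧ Pe p B' ≤ 2 * Pe p B'' ∧
        ∀ ω, B'' ω → ∃ l : Fin 3, l ≠ 0 ∧ ∀ b, Cu (ctr ω) ρ b → ∀ i j, |h3 (V ω) b i j| ≤
          C * M ^ 3 * |∑ j, h3 (V ω) (Y ω) l j * X ω j| := by
  obtain ⟨C, hC, hcr⟩ := conic_row D₀ hD₀
  obtain ⟨C₁, hC₁, hyc⟩ := yc_ev D₀ hD₀
  refine ⟨C * C₁, one_le_mul_of_one_le_of_one_le hC hC₁, ?_⟩
  intro Ω P S S' _ p B pt sl sd Y Yc X ctr ρ D h Q κ η c T M W hD hT hhM hTM hη hMη hc hρ hctr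
    B' V e₂ hB hκ hpos hV dV he2 hX0 q2' hnf hQ1
  have hM1 : 1 ≤ M := hT.trans hTM
  have hM0 : 0 < M := by linarith
  have hρ2 : 0 < ρ ^ 2 := by positivity
  have hCC : C ≤ C * C₁ := le_mul_of_one_le_right (by linarith) hC₁
  have hvl : ∀ (F : MvPolynomial (Fin 3) ℝ) ω, h3 (dil (ctr ω) ρ F) (unt Y ctr ρ ω) =
      fun i j => ρ ^ 2 * h3 F (Y ω) i j := fun F ω => by
    funext i j
    rw [h3_dil, unt_pt hρ.ne']
  have hql : ∀ (F : MvPolynomial (Fin 3) ℝ) ω x, |q2 (h3 (dil (ctr ω) ρ F) (unt Y ctr ρ ω)) x x| =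
      ρ ^ 2 * |q2 (h3 F (Y ω)) x x| := fun F ω x => by
    rw [hvl, q2_mul, abs_mul, abs_of_pos hρ2]
  have hal : ∀ (F : MvPolynomial (Fin 3) ℝ) ω i j, |h3 (dil (ctr ω) ρ F) (unt Y ctr ρ ω) i j| =
      ρ ^ 2 * |h3 F (Y ω) i j| := fun F ω i j => by
    rw [hvl, abs_mul, abs_of_pos hρ2]
  have hVd : Clo B' pt sl (fun ω => dil (ctr ω) ρ (V ω)) :=
    (hctr.sub hB).map2 hV fun a F => dil a ρ F
  obtain ⟨B'', h1, h2, h3'⟩ := hcr W hD hT hhM hTM hη hMη hc (fun ω => dil (ctr ω) ρ (V ω))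
    hB hκ hpos hVd (fun ω hω => deg_dil (dV ω hω) _ _) he2 hX0
    (fun ω hω => by
      rw [hql]
      have h1 := mul_le_mul_of_nonneg_left (q2' ω hω) hρ2.le
      rwa [mul_div_cancel₀ _ hρ2.ne'] at h1)
    (fun ω hω => by
      obtain ⟨i, j, hij⟩ := hnf ω hω
      refine ⟨i, j, ?_⟩
      rw [hal]
      have h1 := mul_le_mul_of_nonneg_left hij hρ2.le
      rw [mul_div_cancel₀ _ hρ2.ne'] at h1
      refine le_trans ?_ h1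
      exact mul_le_mul_of_nonneg_right (mul_le_mul_of_nonneg_right hCC (by positivity)) he2.le)
    (le_trans (mul_le_mul_of_nonneg_right hCC (by positivity)) hQ1)
  refine ⟨B'', h1, h2, fun ω hω => ?_⟩
  obtain ⟨l, hl, h4⟩ := h3' ω hω
  refine ⟨l, hl, fun b hb i j => ?_⟩
  have w' := h1 ω hω
  have yb : Bx (unt Y ctr ρ ω) := fun i => (W.y1 ω (hB ω w') i).trans (by norm_num)
  have h5 := (hyc (X := X ω) (T := T) (deg_dil (dV ω w') (ctr ω) ρ) yb (W.yc1 ω (hB ω w'))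
    (W.ycn ω (hB ω w')) hT (W.XT ω (hB ω w'))).1 _ (cu_unit hρ hb).1 i j
  rw [h3_dil, (cu_unit hρ hb).2, abs_mul, abs_of_pos hρ2] at h5
  have e : ∑ j, h3 (dil (ctr ω) ρ (V ω)) (unt Y ctr ρ ω) l j * X ω j =
      ρ ^ 2 * ∑ j, h3 (V ω) (Y ω) l j * X ω j := by
    rw [hvl, Finset.mul_sum]
    exact Finset.sum_congr rfl fun j _ => by ring
  rw [e, abs_mul, abs_of_pos hρ2] at h4
  have h6 : ρ ^ 2 * |h3 (V ω) b i j| ≤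
      ρ ^ 2 * (C * C₁ * M ^ 3 * |∑ j, h3 (V ω) (Y ω) l j * X ω j|) := by
    refine h5.trans ((mul_le_mul_of_nonneg_left h4 (by linarith)).trans (le_of_eq ?_))
    ring
  exact le_of_mul_le_mul_left h6 hρ2

end Pool.CNC76
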