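import Pool.Agent.H46.D2.Cub
import Mathlib.Analysis.Matrix.Spectrum

/-!
# Two ternary quadratic forms which are small on the same directions

`deg_split`: a degenerate symmetric form is at least the square of the smaller of two linear forms.
`pencil`: every real pencil of ternary forms has a degenerate member. `conic_pure`: for two
normalised forms there are two linear forms such that either the two forms are proportional up to
`C ε / η ^ 2`, or at every vector at which both forms are at most `ε` one of the two linear forms is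
at most `η`.
-/

set_option autoImplicit false

namespace Pool.CNC76

open Finset Matrix
open Pool.CUB46 (q2 l1)

/-- **A degenerate form** is at least the square of one of two linear forms. -/
theorem deg_split {N : Fin 3 → Fin 3 → ℝ} (hN : ∀ i j, N i j = N j i)
    (hdet : (Matrix.of N).det = 0) {n : ℝ} (hn : 0 < n) (hmax : ∃ i j, n ≤ |N i j|) :
    ∃ h₁ h₂ : Fin 3 → ℝ, (1 ≤ ∑ j, h₁ j ^ 2) ∧ (1 ≤ ∑ j, h₂ j ^ 2) ∧ (∑ j, h₁ j ^ 2 ≤ 2) ∧
      (∑ j, h₂ j ^ 2 ≤ 2) ∧ ∀ x : Fin 3 → ℝ, n * (|l1 h₁ x| * |l1 h₂ x|) ≤ |q2 N x x| := by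
  have hH : (Matrix.of N).IsHermitian := by
    ext i j
    simp [Matrix.conjTranspose_apply, hN i j]
  obtain ⟨lam, hlam⟩ : ∃ lam : Fin 3 → ℝ, lam = hH.eigenvalues := ⟨_, rfl⟩
  obtain ⟨v, hv⟩ : ∃ v : Fin 3 → Fin 3 → ℝ, v = fun k i => (hH.eigenvectorBasis k) i := ⟨_, rfl⟩
  -- orthonormality
  have hon : ∀ k l, ∑ i, v k i * v l i = if k = l then 1 else 0 := by
    intro k l
    have h1 := hH.eigenvectorBasis.orthonormal
    rw [orthonormal_iff_ite] at h1
    have h2 := h1 k l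
    rw [← h2]
    simp only [PiLp.inner_apply, hv]
    refine Finset.sum_congr rfl fun i _ => ?_
    simp [mul_comm]
  have heig : ∀ k i, ∑ j, N i j * v k j = lam k * v k i := by
    intro k i
    have h1 := congrFun (hH.mulVec_eigenvectorBasis k) i
    simp only [Matrix.mulVec, dotProduct, Matrix.of_apply, Pi.smul_apply, smul_eq_mul] at h1
    rw [hlam, hv]
    exact h1
  -- completeness
  have hcomp : ∀ (x : Fin 3 → ℝ) (i : Fin 3), x i = ∑ k, l1 (v k) x * v k i := by
    intro x i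
    have h1 := hH.eigenvectorBasis.sum_repr (WithLp.toLp 2 x)
    have h2 := congrArg (fun y : EuclideanSpace ℝ (Fin 3) => y i) h1
    simp only at h2
    have h3 : x i = (WithLp.toLp 2 x : EuclideanSpace ℝ (Fin 3)) i := rfl
    rw [h3]
    refine h2.symm.trans ?_
    rw [WithLp.ofLp_sum, Finset.sum_apply]
    refine Finset.sum_congr rfl fun k _ => ?_
    rw [PiLp.smul_apply, smul_eq_mul, OrthonormalBasis.repr_apply_apply, PiLp.inner_apply]
    congr 1
    · unfold l1
      rw [hv]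
      refine Finset.sum_congr rfl fun j _ => ?_
      simp [mul_comm]
    · rw [hv]
  have hq : ∀ x : Fin 3 → ℝ, q2 N x x = ∑ k, lam k * l1 (v k) x ^ 2 := by
    intro x
    have e1 : ∀ i, ∑ j, N i j * x j = ∑ k, l1 (v k) x * (lam k * v k i) := by
      intro i
      have : ∀ j, N i j * x j = ∑ k, l1 (v k) x * (N i j * v k j) := fun j => by
        rw [hcomp x j, Finset.mul_sum]
        refine Finset.sum_congr rfl fun k _ => ?_
        ring
      rw [Finset.sum_congr rfl fun j _ => this j, Finset.sum_comm]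
      refine Finset.sum_congr rfl fun k _ => ?_
      rw [← heig k i, Finset.mul_sum]
    have e2 : q2 N x x = ∑ i, x i * ∑ j, N i j * x j := by
      unfold q2
      refine Finset.sum_congr rfl fun i _ => ?_
      rw [Finset.mul_sum]
      refine Finset.sum_congr rfl fun j _ => ?_
      ring
    rw [e2]
    have e3 : ∀ i, x i * ∑ j, N i j * x j = ∑ k, lam k * l1 (v k) x * (v k i * x i) := fun i => by
      rw [e1 i, Finset.mul_sum]
      refine Finset.sum_congr rfl fun k _ => ?_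
      ring
    rw [Finset.sum_congr rfl fun i _ => e3 i, Finset.sum_comm]
    refine Finset.sum_congr rfl fun k _ => ?_
    rw [← Finset.mul_sum]
    unfold l1
    ring
  -- the rows are unit vectors
  have hrow : ∀ i j, |∑ k, v k i * v k j| ≤ 1 := by
    intro i j
    have h1 := hcomp (Pool.CUB46.eb i) j
    have h2 : ∀ k, l1 (v k) (Pool.CUB46.eb i) = v k i := fun k => by
      unfold l1 Pool.CUB46.eb
      simp
    rw [Finset.sum_congr rfl fun k _ => by rw [h2 k]] at h1
    rw [← h1]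
    exact Pool.CUB46.eb_le i j
  have hrow1 : ∀ i, ∑ k, v k i ^ 2 = 1 := by
    intro i
    have h1 := hcomp (Pool.CUB46.eb i) i
    have h2 : ∀ k, l1 (v k) (Pool.CUB46.eb i) = v k i := fun k => by
      unfold l1 Pool.CUB46.eb
      simp
    rw [Finset.sum_congr rfl fun k _ => by rw [h2 k]] at h1
    have h3 : Pool.CUB46.eb i i = 1 := by unfold Pool.CUB46.eb; simp
    rw [h3] at h1
    rw [h1]
    refine Finset.sum_congr rfl fun k _ => ?_
    ring
  have hNe : ∀ i j, N i j = ∑ k, lam k * (v k i * v k j) := by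
    intro i j
    have h1 : N i j = ∑ l, N i l * Pool.CUB46.eb j l := by
      unfold Pool.CUB46.eb
      simp
    have h2 : ∀ l, Pool.CUB46.eb j l = ∑ k, v k j * v k l := fun l => by
      have h3 := hcomp (Pool.CUB46.eb j) l
      have h4 : ∀ k, l1 (v k) (Pool.CUB46.eb j) = v k j := fun k => by
        unfold l1 Pool.CUB46.eb
        simp
      rw [Finset.sum_congr rfl fun k _ => by rw [h4 k]] at h3
      exact h3
    rw [h1, Finset.sum_congr rfl fun l _ => by rw [h2 l, Finset.mul_sum], Finset.sum_comm]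
    refine Finset.sum_congr rfl fun k _ => ?_
    have h5 : ∀ l, N i l * (v k j * v k l) = v k j * (N i l * v k l) := fun l => by ring
    rw [Finset.sum_congr rfl fun l _ => h5 l, ← Finset.mul_sum, heig k i]
    ring
  obtain ⟨a, -, ha⟩ := Finset.exists_max_image (Finset.univ : Finset (Fin 3)) (fun k => |lam k|)
    ⟨0, Finset.mem_univ _⟩
  have ha' : ∀ k, |lam k| ≤ |lam a| := fun k => ha k (Finset.mem_univ k)
  have hna : n ≤ |lam a| := by
    obtain ⟨i, j, hij⟩ := hmax
    refine hij.trans ?_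
    rw [hNe i j]
    refine (Finset.abs_sum_le_sum_abs _ _).trans ?_
    have h1 : ∀ k, |lam k * (v k i * v k j)| ≤ |lam a| * ((v k i ^ 2 + v k j ^ 2) / 2) := fun k => by
      rw [abs_mul]
      refine mul_le_mul (ha' k) ?_ (abs_nonneg _) (abs_nonneg _)
      rw [abs_le]
      constructor <;> nlinarith [sq_nonneg (v k i + v k j), sq_nonneg (v k i - v k j)]
    refine (Finset.sum_le_sum fun k _ => h1 k).trans ?_
    rw [← Finset.mul_sum, ← Finset.sum_div, Finset.sum_add_distrib, hrow1, hrow1]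
    norm_num
  have hla : lam a ≠ 0 := by
    intro h0
    rw [h0, abs_zero] at hna
    linarith
  obtain ⟨k₀, hk₀⟩ : ∃ k₀, lam k₀ = 0 := by
    have h1 := hH.det_eq_prod_eigenvalues
    rw [hdet] at h1
    have h2 : ∏ i, lam i = 0 := by
      rw [hlam]
      have h3 : (0 : ℝ) = ∏ i, ((hH.eigenvalues i : ℝ)) := by exact_mod_cast h1
      exact h3.symm
    obtain ⟨k, -, hk⟩ := Finset.prod_eq_zero_iff.1 h2
    exact ⟨k, hk⟩
  have hak : a ≠ k₀ := by
    intro h0
    rw [h0] at hla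
    exact hla hk₀
  obtain ⟨b, hba, hb⟩ : ∃ b, a ≠ b ∧ ∀ f : Fin 3 → ℝ, ∑ k, f k = f a + f b + f k₀ := by
    have key : ∀ a k₀ : Fin 3, a ≠ k₀ → ∃ b, a ≠ b ∧ b ≠ k₀ := by decide
    have key2 : ∀ a b k₀ : Fin 3, a ≠ k₀ → a ≠ b → b ≠ k₀ →
        (Finset.univ : Finset (Fin 3)) = {a, b, k₀} := by decide
    obtain ⟨b, h1, h2⟩ := key a k₀ hak
    refine ⟨b, h1, fun f => ?_⟩
    rw [key2 a b k₀ hak h1 h2, Finset.sum_insert (by simp [h1, hak]),
      Finset.sum_insert (by simp [h2]), Finset.sum_singleton]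
    ring
  obtain ⟨r, hr⟩ : ∃ r, r = -(lam b) / lam a := ⟨_, rfl⟩
  obtain ⟨μ, hμ⟩ : ∃ μ, μ = Real.sqrt (max 0 r) := ⟨_, rfl⟩
  have hμ2 : μ ^ 2 = max 0 r := by rw [hμ]; exact Real.sq_sqrt (le_max_left _ _)
  have hr1 : r ≤ 1 := by
    have h1 : |r| ≤ 1 := by
      rw [hr, abs_div, abs_neg, div_le_one (abs_pos.2 hla)]
      exact ha' b
    exact (abs_le.1 h1).2
  have hμ1 : μ ^ 2 ≤ 1 := by rw [hμ2]; exact max_le zero_le_one hr1
  have oaa := hon a a
  have obb := hon b b
  have oab := hon a b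
  rw [if_pos rfl] at oaa obb
  rw [if_neg hba] at oab
  have hs1 : ∑ j, (v a j - μ * v b j) ^ 2 = 1 + μ ^ 2 := by
    have h1 : ∀ j, (v a j - μ * v b j) ^ 2 =
        v a j * v a j - 2 * μ * (v a j * v b j) + μ ^ 2 * (v b j * v b j) := fun j => by ring
    rw [Finset.sum_congr rfl fun j _ => h1 j, Finset.sum_add_distrib, Finset.sum_sub_distrib,
      ← Finset.mul_sum, ← Finset.mul_sum, oaa, obb, oab]
    ring
  have hs2 : ∑ j, (v a j + μ * v b j) ^ 2 = 1 + μ ^ 2 := by
    have h1 : ∀ j, (v a j + μ * v b j) ^ 2 =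
        v a j * v a j + 2 * μ * (v a j * v b j) + μ ^ 2 * (v b j * v b j) := fun j => by ring
    rw [Finset.sum_congr rfl fun j _ => h1 j, Finset.sum_add_distrib, Finset.sum_add_distrib,
      ← Finset.mul_sum, ← Finset.mul_sum, oaa, obb, oab]
    ring
  refine ⟨fun j => v a j - μ * v b j, fun j => v a j + μ * v b j, ?_, ?_, ?_, ?_, ?_⟩
  · rw [hs1]; linarith [sq_nonneg μ]
  · rw [hs2]; linarith [sq_nonneg μ]
  · rw [hs1]; linarith
  · rw [hs2]; linarith
  · intro x
    have e1 : l1 (fun j => v a j - μ * v b j) x = l1 (v a) x - μ * l1 (v b) x := by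
      unfold l1
      rw [Finset.mul_sum, ← Finset.sum_sub_distrib]
      refine Finset.sum_congr rfl fun j _ => ?_
      ring
    have e2 : l1 (fun j => v a j + μ * v b j) x = l1 (v a) x + μ * l1 (v b) x := by
      unfold l1
      rw [Finset.mul_sum, ← Finset.sum_add_distrib]
      refine Finset.sum_congr rfl fun j _ => ?_
      ring
    obtain ⟨y, hy⟩ : ∃ y, y = l1 (v a) x := ⟨_, rfl⟩
    obtain ⟨z, hz⟩ : ∃ z, z = l1 (v b) x := ⟨_, rfl⟩
    rw [e1, e2, ← abs_mul, hq x, hb fun k => lam k * l1 (v k) x ^ 2, hk₀, zero_mul, add_zero,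
      ← hy, ← hz]
    have e3 : (y - μ * z) * (y + μ * z) = y ^ 2 - max 0 r * z ^ 2 := by rw [← hμ2]; ring
    have e4 : lam a * y ^ 2 + lam b * z ^ 2 = lam a * (y ^ 2 - r * z ^ 2) := by
      rw [hr]
      field_simp
      ring
    rw [e3, e4, abs_mul]
    refine mul_le_mul hna ?_ (abs_nonneg _) (abs_nonneg _)
    rcases le_total 0 r with h0 | h0
    · rw [max_eq_right h0]
    · rw [max_eq_left h0, zero_mul, sub_zero, abs_of_nonneg (sq_nonneg y)]
      refine le_trans ?_ (le_abs_self _)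
      nlinarith [sq_nonneg z]

/-- **Every real pencil of ternary forms has a degenerate member.** -/
theorem pencil (M₁ M₂ : Fin 3 → Fin 3 → ℝ) :
    ∃ c s : ℝ, c ^ 2 + s ^ 2 = 1 ∧ (Matrix.of fun i j => c * M₁ i j + s * M₂ i j).det = 0 := by
  obtain ⟨f, hf⟩ : ∃ f : ℝ → ℝ, f = fun θ =>
    (Matrix.of fun i j => Real.cos θ * M₁ i j + Real.sin θ * M₂ i j : Matrix _ _ ℝ).det := ⟨_, rfl⟩
  have hc : Continuous f := by
    rw [hf]
    refine Continuous.matrix_det ?_
    refine continuous_matrix fun i j => ?_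
    simp only [Matrix.of_apply]
    exact (Real.continuous_cos.mul continuous_const).add (Real.continuous_sin.mul continuous_const)
  have h1 : f Real.pi = -f 0 := by
    rw [hf]
    simp only [Real.cos_pi, Real.sin_pi, Real.cos_zero, Real.sin_zero]
    rw [Matrix.det_fin_three, Matrix.det_fin_three]
    simp only [Matrix.of_apply]
    ring
  have h0 : (0 : ℝ) ∈ Set.uIcc (f 0) (f Real.pi) := by
    rw [h1, Set.mem_uIcc]
    rcases le_total (f 0) 0 with h | h
    · left; exact ⟨h, by linarith⟩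
    · right; exact ⟨by linarith, h⟩
  obtain ⟨θ, -, hθ⟩ := intermediate_value_uIcc (f := f) (a := 0) (b := Real.pi) hc.continuousOn h0
  refine ⟨Real.cos θ, Real.sin θ, Real.cos_sq_add_sin_sq θ, ?_⟩
  rw [hf] at hθ
  exact hθ

/-- **Two forms which are small on the same vectors.** -/
theorem conic_pure {M₁ M₂ : Fin 3 → Fin 3 → ℝ} (h1 : ∀ i j, M₁ i j = M₁ j i)
    (h2 : ∀ i j, M₂ i j = M₂ j i) (b1 : ∀ i j, |M₁ i j| ≤ 1) (b2 : ∀ i j, |M₂ i j| ≤ 1)
    (m1 : ∃ i j, |M₁ i j| = 1) {ε η : ℝ} (hε : 0 ≤ ε) (hη : 0 < η) :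
    ∃ g₁ g₂ : Fin 3 → ℝ, ((∀ j, |g₁ j| ≤ 1) ∧ ∃ j, |g₁ j| = 1) ∧
      ((∀ j, |g₂ j| ≤ 1) ∧ ∃ j, |g₂ j| = 1) ∧
      ((∃ t : ℝ, ∀ i j, |M₂ i j - t * M₁ i j| ≤ 18 * ε / η ^ 2) ∨
        ∀ x : Fin 3 → ℝ, |q2 M₁ x x| ≤ ε → |q2 M₂ x x| ≤ ε → |l1 g₁ x| ≤ η ∨ |l1 g₂ x| ≤ η) := by
  obtain ⟨c, s, hcs, hdet⟩ := pencil M₁ M₂
  obtain ⟨N, hN⟩ : ∃ N : Fin 3 → Fin 3 → ℝ, N = fun i j => c * M₁ i j + s * M₂ i j := ⟨_, rfl⟩
  have hc1 : |c| ≤ 1 := by
    rw [abs_le]; constructor <;> nlinarith [sq_nonneg s]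
  have hs1 : |s| ≤ 1 := by
    rw [abs_le]; constructor <;> nlinarith [sq_nonneg c]
  have hsy : ∀ i j, N i j = N j i := fun i j => by rw [hN]; simp only; rw [h1 i j, h2 i j]
  have hq : ∀ x, q2 N x x = c * q2 M₁ x x + s * q2 M₂ x x := fun x => by
    rw [hN]
    unfold q2
    rw [Finset.mul_sum, Finset.mul_sum, ← Finset.sum_add_distrib]
    refine Finset.sum_congr rfl fun i _ => ?_
    rw [Finset.mul_sum, Finset.mul_sum, ← Finset.sum_add_distrib]
    refine Finset.sum_congr rfl fun j _ => ?_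
    ring
  obtain ⟨n, hn⟩ : ∃ n, n = 6 * ε / η ^ 2 := ⟨_, rfl⟩
  have hn0 : 0 ≤ n := by rw [hn]; positivity
  by_cases hbig : ∃ i j, n < |N i j|
  · obtain ⟨i₀, j₀, hij⟩ := hbig
    obtain ⟨n', hn'⟩ : ∃ n', n' = |N i₀ j₀| := ⟨_, rfl⟩
    rw [← hn'] at hij
    have hn'0 : 0 < n' := lt_of_le_of_lt hn0 hij
    obtain ⟨g₁, g₂, p1, p2, p3, p4, p5⟩ := deg_split hsy (by rw [hN]; exact hdet) hn'0
      ⟨i₀, j₀, hn'.le⟩
    -- normalisation
    have nrm : ∀ g : Fin 3 → ℝ, 1 ≤ ∑ j, g j ^ 2 → ∃ g' : Fin 3 → ℝ, ((∀ j, |g' j| ≤ 1) ∧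
        ∃ j, |g' j| = 1) ∧ ∀ x, |l1 g' x| ^ 2 ≤ 3 * |l1 g x| ^ 2 := by
      intro g hg
      obtain ⟨j, -, hj⟩ := Finset.exists_max_image (Finset.univ : Finset (Fin 3)) (fun j => |g j|)
        ⟨0, Finset.mem_univ _⟩
      have hj' : ∀ k, |g k| ≤ |g j| := fun k => hj k (Finset.mem_univ k)
      have hgj : 1 ≤ 3 * |g j| ^ 2 := by
        refine hg.trans ?_
        have h3 : ∀ k, g k ^ 2 ≤ |g j| ^ 2 := fun k => by
          rw [← sq_abs (g k)]
          exact pow_le_pow_left₀ (abs_nonneg _) (hj' k) 2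
        refine (Finset.sum_le_sum fun k _ => h3 k).trans ?_
        simp
      have hgj0 : 0 < |g j| := by
        by_contra hcon
        have : |g j| = 0 := le_antisymm (not_lt.1 hcon) (abs_nonneg _)
        rw [this] at hgj
        norm_num at hgj
      refine ⟨fun k => g k / |g j|, ⟨fun k => ?_, j, ?_⟩, fun x => ?_⟩
      · rw [abs_div, abs_abs, div_le_one hgj0]
        exact hj' k
      · rw [abs_div, abs_abs, div_self hgj0.ne']
      · have e1 : l1 (fun k => g k / |g j|) x = l1 g x / |g j| := by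
          unfold l1
          rw [Finset.sum_div]
          refine Finset.sum_congr rfl fun k _ => ?_
          ring
        rw [e1, abs_div, abs_abs, div_pow, div_le_iff₀ (by positivity)]
        nlinarith [sq_nonneg (|l1 g x|)]
    obtain ⟨k₁, q1, r1⟩ := nrm g₁ p1
    obtain ⟨k₂, q2', r2⟩ := nrm g₂ p2
    refine ⟨k₁, k₂, q1, q2', Or.inr fun x hx1 hx2 => ?_⟩
    by_contra hcon
    push Not at hcon
    obtain ⟨c1, c2⟩ := hcon
    have t1 : |q2 N x x| ≤ 2 * ε := by
      rw [hq x]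
      refine (abs_add_le _ _).trans ?_
      rw [abs_mul, abs_mul]
      have := mul_le_mul hc1 hx1 (abs_nonneg _) zero_le_one
      have := mul_le_mul hs1 hx2 (abs_nonneg _) zero_le_one
      linarith
    have t2 := (p5 x).trans t1
    have u1 : η ^ 2 < 3 * |l1 g₁ x| ^ 2 :=
      lt_of_lt_of_le (pow_lt_pow_left₀ c1 hη.le two_ne_zero) (r1 x)
    have u2 : η ^ 2 < 3 * |l1 g₂ x| ^ 2 :=
      lt_of_lt_of_le (pow_lt_pow_left₀ c2 hη.le two_ne_zero) (r2 x)
    obtain ⟨A, hA⟩ : ∃ A, A = |l1 g₁ x| := ⟨_, rfl⟩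
    obtain ⟨B, hB⟩ : ∃ B, B = |l1 g₂ x| := ⟨_, rfl⟩
    have hA0 : 0 ≤ A := hA ▸ abs_nonneg _
    have hB0 : 0 ≤ B := hB ▸ abs_nonneg _
    rw [← hA] at u1
    rw [← hB] at u2
    rw [← hA, ← hB] at t2
    have u3 : (η ^ 2) * (η ^ 2) < (3 * A ^ 2) * (3 * B ^ 2) :=
      mul_lt_mul u1 u2.le (by positivity) (by positivity)
    have u4 : η ^ 2 < 3 * (A * B) := by
      by_contra hcon
      have h3 := not_lt.1 hcon
      have h4 : (3 * (A * B)) * (3 * (A * B)) ≤ η ^ 2 * η ^ 2 :=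
        mul_le_mul h3 h3 (by positivity) (by positivity)
      nlinarith
    have u5 : n * (A * B) ≤ 2 * ε :=
      (mul_le_mul_of_nonneg_right hij.le (by positivity)).trans t2
    have u6 : n' * (η ^ 2) < n' * (3 * (A * B)) := mul_lt_mul_of_pos_left u4 hn'0
    have u7 : n * η ^ 2 = 6 * ε := by
      rw [hn]
      field_simp
    have u8 : n * η ^ 2 < n' * η ^ 2 := mul_lt_mul_of_pos_right hij (by positivity)
    nlinarith
  · push Not at hbig
    have e0 : ∃ g : Fin 3 → ℝ, ((∀ j, |g j| ≤ 1) ∧ ∃ j, |g j| = 1) :=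
      ⟨fun _ => 1, fun _ => by simp, 0, by simp⟩
    obtain ⟨g, hg⟩ := e0
    refine ⟨g, g, hg, hg, Or.inl ?_⟩
    have e1 : 18 * ε / η ^ 2 = 3 * n := by rw [hn]; ring
    rw [e1]
    by_cases hn3 : 1 / 3 ≤ n
    · refine ⟨0, fun i j => ?_⟩
      rw [zero_mul, sub_zero]
      linarith [b2 i j]
    · have hn3' := not_le.1 hn3
      have hs2 : 1 / 2 ≤ |s| := by
        by_contra hcon
        have hs3 := not_le.1 hcon
        obtain ⟨i, j, hij⟩ := m1
        have f1 := hbig i j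
        have f2 : |c| * 1 - |s| * 1 ≤ |N i j| := by
          have f3 : |c * M₁ i j| - |s * M₂ i j| ≤ |c * M₁ i j + s * M₂ i j| := by
            have := abs_sub_abs_le_abs_sub (c * M₁ i j) (-(s * M₂ i j))
            rw [abs_neg, sub_neg_eq_add] at this
            exact this
          rw [abs_mul, abs_mul, hij] at f3
          have f4 : |s| * |M₂ i j| ≤ |s| * 1 := mul_le_mul_of_nonneg_left (b2 i j) (abs_nonneg _)
          rw [hN]
          linarith
        have f5 : 5 / 6 < |c| := by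
          by_contra hcon
          have f6 := not_lt.1 hcon
          have f7 : c ^ 2 ≤ (5 / 6) ^ 2 := by
            rw [← sq_abs]; exact pow_le_pow_left₀ (abs_nonneg _) f6 2
          have f8 : s ^ 2 < (1 / 2) ^ 2 := by
            rw [← sq_abs]; exact pow_lt_pow_left₀ hs3 (abs_nonneg _) two_ne_zero
          nlinarith
        linarith
      have hs0 : s ≠ 0 := by
        intro h0
        rw [h0, abs_zero] at hs2
        norm_num at hs2
      refine ⟨-(c / s), fun i j => ?_⟩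
      have f1 : M₂ i j - -(c / s) * M₁ i j = N i j / s := by
        rw [hN]
        field_simp
        ring
      rw [f1, abs_div, div_le_iff₀ (by linarith)]
      have f2 := hbig i j
      nlinarith

end Pool.CNC76
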