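import Pool.Agent.H76.CNC.Bll
import Pool.Agent.H46.D2.T2c

/-!
# The multiplier, deterministic part

`det_ball`: two polynomials `V`, `P` with second derivatives which are proportional at every point of
the cube, and such that the ratio has a small derivative: `P'' = lam V''` up to a small error, with one
number `lam`. `sym_id`: the identity for the derivatives.
-/

set_option autoImplicit false

namespace Pool.CNC76

open Finset MvPolynomial
open Pool.CUB46 (q2 l1 h3)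
open Pool.D2G30 (nd lin eval_lin deriv_lin)
open Pool.GEN (totalDegree_pdσ)

/-- The third derivatives. -/
noncomputable def t3 (F : MvPolynomial (Fin 3) ℝ) (b : Fin 3 → ℝ) (m i j : Fin 3) : ℝ :=
  eval b (pderiv m (pderiv i (pderiv j F)))

theorem deg_h {F : MvPolynomial (Fin 3) ℝ} {K : ℕ} (h : F.totalDegree ≤ K) (i j : Fin 3) :
    (pderiv i (pderiv j F)).totalDegree ≤ K := totalDegree_pdσ (totalDegree_pdσ h j) i

theorem h3_symm (F : MvPolynomial (Fin 3) ℝ) (b : Fin 3 → ℝ) (i j : Fin 3) :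
    h3 F b i j = h3 F b j i := by
  unfold h3
  rw [Pool.CUB46.pd_commσ]

theorem t3_symm (F : MvPolynomial (Fin 3) ℝ) (b : Fin 3 → ℝ) (m k l : Fin 3) :
    t3 F b m k l = t3 F b k m l := by
  unfold t3
  rw [Pool.CUB46.pd_commσ]

/-- **Third derivatives are symmetric.** -/
theorem sym_id (V P : MvPolynomial (Fin 3) ℝ) (b : Fin 3 → ℝ) (i j m k l : Fin 3) :
    (h3 V b i j * t3 P b m i j - h3 P b i j * t3 V b m i j) * h3 V b k l -
      (h3 V b i j * t3 P b k i j - h3 P b i j * t3 V b k i j) * h3 V b m l =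
    t3 V b m i j * (h3 P b k l * h3 V b i j - h3 P b i j * h3 V b k l) -
      h3 V b i j * (t3 P b m k l * h3 V b i j + h3 P b k l * t3 V b m i j -
        (t3 P b m i j * h3 V b k l + h3 P b i j * t3 V b m k l)) -
      (t3 V b k i j * (h3 P b m l * h3 V b i j - h3 P b i j * h3 V b m l) -
      h3 V b i j * (t3 P b k m l * h3 V b i j + h3 P b m l * t3 V b k i j -
        (t3 P b k i j * h3 V b m l + h3 P b i j * t3 V b k m l))) := by
  rw [t3_symm P b k m l, t3_symm V b k m l]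
  ring

/-- **The multiplier.** -/
theorem det_ball (D₀ : ℕ) (hD₀ : 1 ≤ D₀) : ∃ C : ℝ, 1 ≤ C ∧
    ∀ {V P : MvPolynomial (Fin 3) ℝ} {S ε₃ ε₄ : ℝ} {i₀ j₀ : Fin 3} {x₀ : Fin 3 → ℝ},
    V.totalDegree ≤ D₀ → P.totalDegree ≤ D₀ → Bx x₀ → 0 < S → |h3 V x₀ i₀ j₀| = S →
    (∀ (β : Fin 3 → Fin (D₀ + 1)) i j, |h3 V (nd D₀ β) i j| ≤ S) →
    (∀ b, Bx b → ∀ k l, |h3 P b k l * h3 V b i₀ j₀ - h3 P b i₀ j₀ * h3 V b k l| ≤ ε₃) →
    (∀ b, Bx b → ∀ m, |h3 V b i₀ j₀ * t3 P b m i₀ j₀ - h3 P b i₀ j₀ * t3 V b m i₀ j₀| ≤ ε₄) →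
    ∀ b, Bx b → ∀ k l, |h3 P b k l - h3 P x₀ i₀ j₀ / h3 V x₀ i₀ j₀ * h3 V b k l| ≤
      C * (ε₃ + ε₄) / S := by
  classical
  obtain ⟨C₁, hC₁, hsup⟩ := sup_nd D₀
  obtain ⟨C₂, hC₂, hlip⟩ := lip_bx D₀
  obtain ⟨N, hN⟩ : ∃ N : ℝ, N = 2 * C₂ * C₁ := ⟨_, rfl⟩
  have hN1 : 1 ≤ N := by rw [hN]; nlinarith
  obtain ⟨C₃, hC₃, hgro⟩ := gro_bx D₀ hN1
  refine ⟨C₃ * (26 * C₁ ^ 2), by nlinarith [one_le_pow₀ hC₁ (n := 2)], ?_⟩
  intro V P S ε₃ ε₄ i₀ j₀ x₀ hV hP hx₀ hS hSa hnd h3' h4' b hb k l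
  have hVb : ∀ b, Bx b → ∀ i j, |h3 V b i j| ≤ C₁ * S := fun b hb i j =>
    hsup hD₀ (deg_h hV i j) (fun β => hnd β i j) b hb
  obtain ⟨lam, hlam⟩ : ∃ lam, lam = h3 P x₀ i₀ j₀ / h3 V x₀ i₀ j₀ := ⟨_, rfl⟩
  have he3 : 0 ≤ ε₃ := (abs_nonneg _).trans (h3' x₀ hx₀ 0 0)
  have he4 : 0 ≤ ε₄ := (abs_nonneg _).trans (h4' x₀ hx₀ 0)
  rw [← hlam]
  have hN0 : 0 < N := by linarith
  -- the small cube
  have key : ∀ x, Bx x → (∀ i, |x i - x₀ i| ≤ 1 / N) →
      |h3 P x k l - lam * h3 V x k l| ≤ 26 * C₁ ^ 2 * (ε₃ + ε₄) / S := by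
    intro x hx hxx
    have hlow : ∀ z, Bx z → (∀ i, |z i - x₀ i| ≤ 1 / N) → S / 2 ≤ |h3 V z i₀ j₀| := by
      intro z hz hzx
      have h1 := hlip hD₀ (deg_h hV i₀ j₀) (fun b hb => hVb b hb i₀ j₀) (by positivity) z x₀ hz hx₀
        hzx
      have e : C₂ * (C₁ * S) * (1 / N) = S / 2 := by
        rw [hN]
        field_simp
      rw [e] at h1
      have h2 : |h3 V x₀ i₀ j₀| - |h3 V z i₀ j₀| ≤ |h3 V z i₀ j₀ - h3 V x₀ i₀ j₀| := by
        rw [abs_sub_comm]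
        exact abs_sub_abs_le_abs_sub _ _
      have h3 : |h3 V z i₀ j₀ - h3 V x₀ i₀ j₀| ≤ S / 2 := h1
      rw [hSa] at h2
      linarith
    obtain ⟨v, hv⟩ : ∃ v : Fin 3 → ℝ, v = fun i => x i - x₀ i := ⟨_, rfl⟩
    obtain ⟨pl, hpl⟩ : ∃ pl, pl = lin x₀ v (pderiv i₀ (pderiv j₀ P)) := ⟨_, rfl⟩
    obtain ⟨al, hal⟩ : ∃ al, al = lin x₀ v (pderiv i₀ (pderiv j₀ V)) := ⟨_, rfl⟩
    have hz : ∀ t ∈ Set.Icc (0 : ℝ) 1, Bx (fun i => x₀ i + v i * t) ∧
        ∀ i, |(x₀ i + v i * t) - x₀ i| ≤ 1 / N := by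
      intro t ht
      refine ⟨fun i => ?_, fun i => ?_⟩
      · rw [hv]
        have e : x₀ i + (x i - x₀ i) * t = (1 - t) * x₀ i + t * x i := by ring
        simp only
        rw [e]
        refine (abs_add_le _ _).trans ?_
        rw [abs_mul, abs_mul, abs_of_nonneg ht.1, abs_of_nonneg (by linarith [ht.2])]
        nlinarith [hx i, hx₀ i, ht.1, ht.2, abs_nonneg (x i), abs_nonneg (x₀ i)]
      · rw [add_sub_cancel_left, abs_mul, abs_of_nonneg ht.1, hv]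
        exact (mul_le_mul_of_nonneg_left ht.2 (abs_nonneg _)).trans ((mul_one _).le.trans (hxx i))
    have eP : ∀ t, pl.eval t = h3 P (fun i => x₀ i + v i * t) i₀ j₀ := fun t => by
      rw [hpl, eval_lin]; rfl
    have eA : ∀ t, al.eval t = h3 V (fun i => x₀ i + v i * t) i₀ j₀ := fun t => by
      rw [hal, eval_lin]; rfl
    have dP : ∀ t, pl.derivative.eval t = ∑ m, v m * t3 P (fun i => x₀ i + v i * t) m i₀ j₀ :=
      fun t => by
      rw [hpl, deriv_lin, Polynomial.eval_finsetSum]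
      refine Finset.sum_congr rfl fun m _ => ?_
      rw [Polynomial.eval_mul, Polynomial.eval_C, eval_lin]
      rfl
    have dA : ∀ t, al.derivative.eval t = ∑ m, v m * t3 V (fun i => x₀ i + v i * t) m i₀ j₀ :=
      fun t => by
      rw [hal, deriv_lin, Polynomial.eval_finsetSum]
      refine Finset.sum_congr rfl fun m _ => ?_
      rw [Polynomial.eval_mul, Polynomial.eval_C, eval_lin]
      rfl
    have hA0 : ∀ t ∈ Set.Icc (0 : ℝ) 1, S / 2 ≤ |al.eval t| := fun t ht => by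
      rw [eA]
      exact hlow _ (hz t ht).1 (hz t ht).2
    have hder : ∀ t ∈ Set.Icc (0 : ℝ) 1, HasDerivWithinAt (fun t => pl.eval t / al.eval t)
        ((pl.derivative.eval t * al.eval t - pl.eval t * al.derivative.eval t) / al.eval t ^ 2)
        (Set.Icc 0 1) t := by
      intro t ht
      have h0 : al.eval t ≠ 0 := abs_pos.1 (lt_of_lt_of_le (by linarith) (hA0 t ht))
      exact ((pl.hasDerivAt t).div (al.hasDerivAt t) h0).hasDerivWithinAt
    have hbd : ∀ t ∈ Set.Icc (0 : ℝ) 1,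
        ‖(pl.derivative.eval t * al.eval t - pl.eval t * al.derivative.eval t) / al.eval t ^ 2‖ ≤
          12 * ε₄ / S ^ 2 := by
      intro t ht
      obtain ⟨z, hz'⟩ : ∃ z : Fin 3 → ℝ, z = fun i => x₀ i + v i * t := ⟨_, rfl⟩
      have hzz := hz t ht
      rw [← hz'] at hzz
      have e : pl.derivative.eval t * al.eval t - pl.eval t * al.derivative.eval t =
          ∑ m, v m * (h3 V z i₀ j₀ * t3 P z m i₀ j₀ - h3 P z i₀ j₀ * t3 V z m i₀ j₀) := by
        rw [dP, dA, eP, eA, ← hz', Finset.sum_mul, Finset.mul_sum, ← Finset.sum_sub_distrib]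
        refine Finset.sum_congr rfl fun m _ => ?_
        ring
      rw [Real.norm_eq_abs, abs_div, e, abs_pow]
      have hA := hA0 t ht
      have h1 : |∑ m, v m * (h3 V z i₀ j₀ * t3 P z m i₀ j₀ - h3 P z i₀ j₀ * t3 V z m i₀ j₀)| ≤
          3 * ε₄ := by
        refine (Finset.abs_sum_le_sum_abs _ _).trans ?_
        refine (Finset.sum_le_sum (g := fun _ => 1 * ε₄) fun m _ => ?_).trans (le_of_eq ?_)
        · rw [abs_mul]
          refine mul_le_mul ?_ (h4' z hzz.1 m) (abs_nonneg _) zero_le_one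
          rw [hv]
          exact (hxx m).trans ((div_le_one hN0).2 hN1)
        · simp
      have h2 : S ^ 2 / 4 ≤ |al.eval t| ^ 2 := by nlinarith
      rw [div_le_div_iff₀ (by nlinarith) (by positivity)]
      calc |∑ m, v m * (h3 V z i₀ j₀ * t3 P z m i₀ j₀ - h3 P z i₀ j₀ * t3 V z m i₀ j₀)| * S ^ 2
          ≤ 3 * ε₄ * S ^ 2 := mul_le_mul_of_nonneg_right h1 (by positivity)
        _ = 12 * ε₄ * (S ^ 2 / 4) := by ring
        _ ≤ 12 * ε₄ * |al.eval t| ^ 2 := mul_le_mul_of_nonneg_left h2 (by linarith)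
    have hmv := Convex.norm_image_sub_le_of_norm_hasDerivWithin_le hder hbd (convex_Icc 0 1)
      (Set.left_mem_Icc.2 zero_le_one) (Set.right_mem_Icc.2 zero_le_one)
    have ex : (fun i => x₀ i + v i * (1 : ℝ)) = x := by
      funext i
      rw [hv]
      ring
    have ex0 : (fun i => x₀ i + v i * (0 : ℝ)) = x₀ := by
      funext i
      ring
    replace hmv : ‖pl.eval 1 / al.eval 1 - pl.eval 0 / al.eval 0‖ ≤
      12 * ε₄ / S ^ 2 * ‖(1 : ℝ) - 0‖ := hmv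
    rw [eP, eP, eA, eA, ex, ex0, sub_zero, norm_one, mul_one, ← hlam, Real.norm_eq_abs] at hmv
    have ha0 := hlow x hx hxx
    have hane : h3 V x i₀ j₀ ≠ 0 := abs_pos.1 (lt_of_lt_of_le (by linarith) ha0)
    have hr : |h3 P x i₀ j₀ - lam * h3 V x i₀ j₀| ≤ 12 * ε₄ / S ^ 2 * (C₁ * S) := by
      have e : h3 P x i₀ j₀ - lam * h3 V x i₀ j₀ =
          (h3 P x i₀ j₀ / h3 V x i₀ j₀ - lam) * h3 V x i₀ j₀ := by
        field_simp
      rw [e, abs_mul]
      exact mul_le_mul hmv (hVb x hx i₀ j₀) (abs_nonneg _) (by positivity)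
    have e1 : h3 P x k l - lam * h3 V x k l =
        ((h3 P x k l * h3 V x i₀ j₀ - h3 P x i₀ j₀ * h3 V x k l) +
          (h3 P x i₀ j₀ - lam * h3 V x i₀ j₀) * h3 V x k l) / h3 V x i₀ j₀ := by
      field_simp
      ring
    rw [e1, abs_div, div_le_div_iff₀ (lt_of_lt_of_le (by linarith) ha0) hS]
    have h5 : |(h3 P x k l * h3 V x i₀ j₀ - h3 P x i₀ j₀ * h3 V x k l) +
        (h3 P x i₀ j₀ - lam * h3 V x i₀ j₀) * h3 V x k l| ≤
        ε₃ + 12 * ε₄ / S ^ 2 * (C₁ * S) * (C₁ * S) := by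
      refine (abs_add_le _ _).trans (add_le_add (h3' x hx k l) ?_)
      rw [abs_mul]
      exact mul_le_mul hr (hVb x hx k l) (abs_nonneg _) (by positivity)
    have e2 : ε₃ + 12 * ε₄ / S ^ 2 * (C₁ * S) * (C₁ * S) = ε₃ + 12 * C₁ ^ 2 * ε₄ := by
      field_simp
    rw [e2] at h5
    refine (mul_le_mul_of_nonneg_right h5 hS.le).trans ?_
    have e3 : 26 * C₁ ^ 2 * (ε₃ + ε₄) * (S / 2) ≤ 26 * C₁ ^ 2 * (ε₃ + ε₄) * |h3 V x i₀ j₀| :=
      mul_le_mul_of_nonneg_left ha0 (by positivity)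
    refine le_trans ?_ e3
    have h6 : 1 ≤ C₁ ^ 2 := one_le_pow₀ hC₁
    have h7 : ε₃ ≤ C₁ ^ 2 * ε₃ := le_mul_of_one_le_left he3 h6
    have h8 : 0 ≤ C₁ ^ 2 * ε₄ := by positivity
    nlinarith [mul_le_mul_of_nonneg_right h7 hS.le, mul_nonneg h8 hS.le,
      mul_nonneg (mul_nonneg (sq_nonneg C₁) he3) hS.le]
  -- growth
  have hgr := hgro (P := pderiv k (pderiv l P) - C lam * pderiv k (pderiv l V))
    (M := 26 * C₁ ^ 2 * (ε₃ + ε₄) / S) (x₀ := x₀) (by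
      refine (totalDegree_sub _ _).trans (max_le (deg_h hP k l) ?_)
      refine (totalDegree_mul _ _).trans ?_
      rw [totalDegree_C, zero_add]
      exact deg_h hV k l) hx₀ (fun x hx hxx => by
        rw [map_sub, map_mul, eval_C]
        exact key x hx hxx) b hb
  rw [map_sub, map_mul, eval_C] at hgr
  refine (le_of_eq rfl).trans (hgr.trans (le_of_eq ?_))
  ring

end Pool.CNC76
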