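import Pool.Agent.H76.CNC.Bal

/-!
# One multiplier on the ball: the forms are proportional on the ball

`d_step`: let `V`, `R` be closed polynomials whose second derivatives are small at the own direction.
Then `R'' V''_ij - R''_ij V''` is small on the whole ball.
-/

set_option autoImplicit false

namespace Pool.CNC76

open Finset MvPolynomial
open Pool.Agent.H49.Ent
open Pool.STK (IsLaw)
open Pool.K2S (Pe)
open Pool.CUB46 (q2 l1 h3)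
open Pool.D2G30 (nd)
open Pool.D2Con (NoHyp law_mono')
open Pool.GEN (totalDegree_pdσ)

theorem d_ar {Y η A C₁ nV nR e₁ e₂ : ℝ} (hY : 1 ≤ Y) (hη : 0 < η) (hYη : 1 ≤ Y * η) (hA : 1 ≤ A)
    (hC : 1 ≤ C₁) (hV : 0 < nV) (hR : 0 ≤ nR) (h1 : 0 ≤ e₁) (h2 : 0 ≤ e₂) :
    2 * (18 * (C₁ * nR * (2 * e₂ / (nV / (2 * A * Y))) + 2 * e₁) / η ^ 2) * (C₁ * nV) ≤
      144 * A * C₁ ^ 2 * Y ^ 3 * (nR * e₂ + nV * e₁) := by
  have hη2 : 1 / η ^ 2 ≤ Y ^ 2 := by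
    rw [div_le_iff₀ (by positivity), ← mul_pow]
    exact one_le_pow₀ hYη
  have e : 2 * (18 * (C₁ * nR * (2 * e₂ / (nV / (2 * A * Y))) + 2 * e₁) / η ^ 2) * (C₁ * nV) =
      (144 * A * C₁ ^ 2 * Y * (nR * e₂) + 72 * C₁ * (nV * e₁)) * (1 / η ^ 2) := by
    field_simp
    ring
  rw [e]
  have h3 : 0 ≤ nR * e₂ := mul_nonneg hR h2
  have h4 : 0 ≤ nV * e₁ := mul_nonneg hV.le h1
  have h5 : 72 * C₁ * (nV * e₁) ≤ 144 * A * C₁ ^ 2 * Y * (nV * e₁) := by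
    refine mul_le_mul_of_nonneg_right ?_ h4
    have : C₁ ≤ A * C₁ ^ 2 * Y := by
      have a1 : 1 ≤ A * C₁ * Y := one_le_mul_of_one_le_of_one_le
        (one_le_mul_of_one_le_of_one_le hA hC) hY
      nlinarith
    linarith
  have h6 : 0 ≤ 144 * A * C₁ ^ 2 * Y * (nR * e₂ + nV * e₁) := by positivity
  calc (144 * A * C₁ ^ 2 * Y * (nR * e₂) + 72 * C₁ * (nV * e₁)) * (1 / η ^ 2)
      ≤ (144 * A * C₁ ^ 2 * Y * (nR * e₂ + nV * e₁)) * (Y ^ 2) := by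
        refine mul_le_mul (by nlinarith) hη2 (by positivity) h6
    _ = _ := by ring

/-- The polynomial of two pairs of entries. -/
noncomputable def Dp (V R : MvPolynomial (Fin 3) ℝ) (x : (Fin 3 × Fin 3) × (Fin 3 × Fin 3)) :
    MvPolynomial (Fin 3) ℝ :=
  pderiv x.2.1 (pderiv x.2.2 R) * pderiv x.1.1 (pderiv x.1.2 V) -
    pderiv x.1.1 (pderiv x.1.2 R) * pderiv x.2.1 (pderiv x.2.2 V)

theorem eval_Dp (V R : MvPolynomial (Fin 3) ℝ) (b : Fin 3 → ℝ) (i j k l : Fin 3) :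
    eval b (Dp V R ((i, j), (k, l))) = h3 R b k l * h3 V b i j - h3 R b i j * h3 V b k l := by
  unfold Dp h3
  rw [map_sub, map_mul, map_mul]

theorem deg_Dp {V R : MvPolynomial (Fin 3) ℝ} {K : ℕ} (hV : V.totalDegree ≤ K)
    (hR : R.totalDegree ≤ K) (x : (Fin 3 × Fin 3) × (Fin 3 × Fin 3)) :
    (Dp V R x).totalDegree ≤ 2 * K := by
  unfold Dp
  refine (totalDegree_sub _ _).trans (max_le ?_ ?_)
  · refine (totalDegree_mul _ _).trans ?_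
    have := deg_h hR x.2.1 x.2.2
    have := deg_h hV x.1.1 x.1.2
    omega
  · refine (totalDegree_mul _ _).trans ?_
    have := deg_h hR x.1.1 x.1.2
    have := deg_h hV x.2.1 x.2.2
    omega

/-- **The forms are proportional on the ball.** -/
theorem d_step (D₀ : ℕ) (hD₀ : 1 ≤ D₀) {A : ℝ} (hA : 1 ≤ A) : ∃ C : ℝ, 1 ≤ C ∧
    ∀ {Ω P S S' : Type} [Fintype Ω]
    {p : Ω → ℝ} {B : Ω → Prop} {pt : Ω → P} {sl : Ω → S} {sd : Ω → S'} {y yc X : Ω → Fin 3 → ℝ}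
    {D h Q : ℕ} {κ η c T Y : ℝ}, Bll p B pt sl sd y yc X D h Q κ η c T → 2 * D₀ ≤ D →
    1 ≤ T → 2 ^ h ≤ Y → T ≤ Y → 0 < η → 1 ≤ Y * η →
    ∀ {B' : Ω → Prop} (V R : Ω → MvPolynomial (Fin 3) ℝ) {e₁ e₂ : ℝ}, (∀ ω, B' ω → B ω) →
      κ * Pe p B ≤ Pe p B' → 0 < Pe p B' →
      Clo B' pt sl V → Clo B' pt sl R →
      (∀ ω, B' ω → (V ω).totalDegree ≤ D₀) → (∀ ω, B' ω → (R ω).totalDegree ≤ D₀) →
      0 ≤ e₁ → 0 ≤ e₂ →
      (∀ ω, B' ω → |q2 (h3 (R ω) (y ω)) (X ω) (X ω)| ≤ e₁) →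
      (∀ ω, B' ω → |q2 (h3 (V ω) (y ω)) (X ω) (X ω)| ≤ e₂) →
      (∀ ω, B' ω → 0 < nh D₀ (V ω) ∧ nh D₀ (V ω) ≤ A * Y * mx3 (h3 (V ω) (y ω))) →
      C * Y ≤ 2 ^ Q → (∀ ω, B' ω → C * Y ^ 2 * nh D₀ (V ω) ≤ 2 ^ Q * e₂) →
      (∀ ω, B' ω → C * Y ^ 2 * nh D₀ (R ω) ≤ 2 ^ Q * e₁) →
      ∃ B'' : Ω → Prop, (∀ ω, B'' ω → B' ω) ∧
        Pe p B' ≤ Pe p B'' + κ * Pe p B + 2 * c * Pe p B' ∧
        ∀ ω, B'' ω → ∀ b, Bx b → ∀ i j k l,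
          |h3 (R ω) b k l * h3 (V ω) b i j - h3 (R ω) b i j * h3 (V ω) b k l| ≤
            C * Y ^ 4 * (nh D₀ (R ω) * e₂ + nh D₀ (V ω) * e₁) := by
  classical
  obtain ⟨C₁, hC₁, hyc⟩ := yc_ev D₀ hD₀
  obtain ⟨C₂, hC₂, hrel⟩ := rel_max (2 * D₀) (by omega)
  obtain ⟨C₃, hC₃, hlip⟩ := lip_bx (2 * D₀)
  obtain ⟨Cg, hCg⟩ : ∃ Cg : ℝ, Cg = 144 * A * C₁ ^ 2 + 2 * C₃ * C₁ ^ 2 := ⟨_, rfl⟩
  have hC12 : 1 ≤ C₁ ^ 2 := one_le_pow₀ hC₁
  have hAC : 1 ≤ A * C₁ ^ 2 := one_le_mul_of_one_le_of_one_le hA hC12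
  have hCC : 1 ≤ C₃ * C₁ ^ 2 := one_le_mul_of_one_le_of_one_le hC₃ hC12
  have hCg1 : 1 ≤ Cg := by rw [hCg]; linarith
  have hC2g : 1 ≤ C₂ * Cg := one_le_mul_of_one_le_of_one_le hC₂ hCg1
  have hAC1 : 1 ≤ A * C₁ := one_le_mul_of_one_le_of_one_le hA hC₁
  refine ⟨C₂ * Cg + 2 * (A * C₁) + C₁, by linarith, ?_⟩
  intro Ω P S S' _ p B pt sl sd y yc X D h Q κ η c T Y W hD hT hhY hTY hη hYη B' V R e₁ e₂ hB hκ hpos
    hV hR dV dR he1 he2 q1 q2' hvis hQ1 hQ2 hQ3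
  have hp := W.law.nonneg
  have hY1 : 1 ≤ Y := hT.trans hTY
  have hY0 : 0 < Y := by linarith
  have hQ0 : (0 : ℝ) < 2 ^ Q := by positivity
  have yb : ∀ ω, B' ω → Bx (y ω) := fun ω hω i => (W.y1 ω (hB ω hω) i).trans (by norm_num)
  have ev : ∀ ω, B' ω → ∀ {F : MvPolynomial (Fin 3) ℝ}, F.totalDegree ≤ D₀ → _ :=
    fun ω hω F hF => hyc (X := X ω) (T := T) hF (yb ω hω) (W.yc1 ω (hB ω hω)) (W.ycn ω (hB ω hω)) hT
      (W.XT ω (hB ω hω))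
  obtain ⟨Z, hZ⟩ : ∃ Z : Ω → MvPolynomial (Fin 3) ℝ × MvPolynomial (Fin 3) ℝ × (Fin 3 → ℝ),
    Z = fun ω => (V ω, R ω, yc ω) := ⟨_, rfl⟩
  have hsl : ∀ ω ω', B' ω → B' ω' → sd ω = sd ω' → sl ω = sl ω' := fun ω ω' h1 h2 =>
    W.sls ω ω' (hB ω h1) (hB ω' h2)
  have hZc : Clo B' pt sd Z := by
    rw [hZ]
    exact (hV.fine hsl).map2 ((hR.fine hsl).map2 (W.ycc.sub hB) Prod.mk) Prod.mk
  have hno := W.nhy B' hB hκ Z hZc
  obtain ⟨G, hG⟩ : ∃ G : Ω → Prop, G = fun ω => ∃ t : ℝ, ∀ i j,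
    |h3 (R ω) (yc ω) i j - t * h3 (V ω) (yc ω) i j| ≤
      18 * (C₁ * nh D₀ (R ω) * (2 * e₂ / (nh D₀ (V ω) / (2 * A * Y))) + 2 * e₁) / η ^ 2 := ⟨_, rfl⟩
  have nV0 : ∀ F, 0 ≤ nh D₀ F := nh_nn D₀
  have hlaw := conic_law (q := Pool.Agent.H49.Ent.cond p B' True) (X := X) (z := Z)
    (con_nn hp B') hno hη
    (Q₁ := fun w => h3 w.1 w.2.2) (Q₂ := fun w => h3 w.2.1 w.2.2)
    (k := fun w => nh D₀ w.1 / (2 * A * Y)) (K := fun w => C₁ * nh D₀ w.2.1)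
    (e₁ := fun _ => 2 * e₂) (e₂ := fun _ => 2 * e₁) B'
    (fun ω _ i j => h3_symm _ _ i j) (fun ω _ i j => h3_symm _ _ i j)
    (fun ω hω => by
      rw [hZ]
      obtain ⟨v1, v2⟩ := hvis ω hω
      refine ⟨by positivity, ?_⟩
      obtain ⟨i, j, hij⟩ := mx3_eq (h3 (V ω) (y ω))
      refine ⟨i, j, ?_⟩
      have h1 := (ev ω hω (dV ω hω)).2.2.1 i j
      have h2 : nh D₀ (V ω) / (A * Y) ≤ |h3 (V ω) (y ω) i j| := by
        rw [hij, div_le_iff₀ (by positivity)]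
        linarith
      have h3 : C₁ * nh D₀ (V ω) / 2 ^ Q ≤ nh D₀ (V ω) / (2 * A * Y) := by
        rw [div_le_div_iff₀ hQ0 (by positivity)]
        have h4 : 2 * (A * C₁) * Y ≤ 2 ^ Q := by nlinarith
        nlinarith
      have h4 : nh D₀ (V ω) / (A * Y) = 2 * (nh D₀ (V ω) / (2 * A * Y)) := by
        field_simp
      have h5 := abs_sub_abs_le_abs_sub (Pool.CUB46.h3 (V ω) (y ω) i j)
        (Pool.CUB46.h3 (V ω) (yc ω) i j)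
      show nh D₀ (V ω) / (2 * A * Y) ≤ |Pool.CUB46.h3 (V ω) (yc ω) i j|
      linarith)
    (fun ω hω i j => by
      rw [hZ]
      exact (ev ω hω (dR ω hω)).1 _ (W.yc1 ω (hB ω hω)) i j)
    (fun ω hω => by
      rw [hZ]
      refine (ev ω hω (dV ω hω)).2.2.2.trans ?_
      have h1 : C₁ * nh D₀ (V ω) * T ^ 2 / 2 ^ Q ≤ e₂ := by
        rw [div_le_iff₀ hQ0]
        have h2 : C₁ * nh D₀ (V ω) * T ^ 2 ≤ C₁ * nh D₀ (V ω) * Y ^ 2 :=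
          mul_le_mul_of_nonneg_left (pow_le_pow_left₀ (by linarith) hTY 2)
            (mul_nonneg (by linarith) (nV0 _))
        have h3 := hQ2 ω hω
        have h4 : C₁ * nh D₀ (V ω) * Y ^ 2 ≤ (C₂ * Cg + 2 * (A * C₁) + C₁) * Y ^ 2 *
            nh D₀ (V ω) := by
          have : 0 ≤ Y ^ 2 * nh D₀ (V ω) := mul_nonneg (sq_nonneg Y) (nV0 _)
          nlinarith
        linarith
      linarith [q2' ω hω])
    (fun ω hω => by
      rw [hZ]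
      refine (ev ω hω (dR ω hω)).2.2.2.trans ?_
      have h1 : C₁ * nh D₀ (R ω) * T ^ 2 / 2 ^ Q ≤ e₁ := by
        rw [div_le_iff₀ hQ0]
        have h2 : C₁ * nh D₀ (R ω) * T ^ 2 ≤ C₁ * nh D₀ (R ω) * Y ^ 2 :=
          mul_le_mul_of_nonneg_left (pow_le_pow_left₀ (by linarith) hTY 2)
            (mul_nonneg (by linarith) (nV0 _))
        have h3 := hQ3 ω hω
        have h4 : C₁ * nh D₀ (R ω) * Y ^ 2 ≤ (C₂ * Cg + 2 * (A * C₁) + C₁) * Y ^ 2 *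
            nh D₀ (R ω) := by
          have : 0 ≤ Y ^ 2 * nh D₀ (R ω) := mul_nonneg (sq_nonneg Y) (nV0 _)
          nlinarith
        linarith
      linarith [q1 ω hω])
  have hlaw' : law (Pool.Agent.H49.Ent.cond p B' True) (fun ω => B' ω ∧ ¬ G ω) True ≤ 2 * c := by
    rw [hG]
    rw [hZ] at hlaw
    exact hlaw
  have hm1 := nh_step hp hpos hlaw'
  have hBG : ∀ ω, (B' ω ∧ G ω) → B' ω := fun ω h => h.1
  obtain ⟨B'', g1, g2, g3⟩ := hrel W hD (B' := fun ω => B' ω ∧ G ω)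
    (fun (x : (Fin 3 × Fin 3) × (Fin 3 × Fin 3)) ω => Dp (V ω) (R ω) x)
    (fun ω => Cg * Y ^ 3 * (nh D₀ (R ω) * e₂ + nh D₀ (V ω) * e₁)) (fun ω hω => hB ω hω.1)
    (fun x => (hV.sub hBG).map2 (hR.sub hBG) fun F F' => Dp F F' x)
    (fun x ω hω => deg_Dp (dV ω hω.1) (dR ω hω.1) x) (by
      rintro ω ⟨hω, hGω⟩ ⟨⟨i, j⟩, ⟨k, l⟩⟩
      rw [hG] at hGω
      obtain ⟨t, ht⟩ := hGω
      obtain ⟨v1, v2⟩ := hvis ω hω
      obtain ⟨a1, -, -, -⟩ := ev ω hω (dV ω hω)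
      obtain ⟨b1, -, -, -⟩ := ev ω hω (dR ω hω)
      have hyc' := W.yc1 ω (hB ω hω)
      obtain ⟨E, hE⟩ : ∃ E, E = 18 * (C₁ * nh D₀ (R ω) *
        (2 * e₂ / (nh D₀ (V ω) / (2 * A * Y))) + 2 * e₁) / η ^ 2 := ⟨_, rfl⟩
      rw [← hE] at ht
      have hE0 : 0 ≤ E := (abs_nonneg _).trans (ht 0 0)
      -- at the closed centre
      have c1 : |eval (yc ω) (Dp (V ω) (R ω) ((i, j), (k, l)))| ≤ 2 * E * (C₁ * nh D₀ (V ω)) := by
        rw [eval_Dp]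
        have e : h3 (R ω) (yc ω) k l * h3 (V ω) (yc ω) i j -
            h3 (R ω) (yc ω) i j * h3 (V ω) (yc ω) k l =
            (h3 (R ω) (yc ω) k l - t * h3 (V ω) (yc ω) k l) * h3 (V ω) (yc ω) i j -
            (h3 (R ω) (yc ω) i j - t * h3 (V ω) (yc ω) i j) * h3 (V ω) (yc ω) k l := by ring
        rw [e]
        refine (abs_sub _ _).trans ?_
        rw [abs_mul, abs_mul]
        have d1 := mul_le_mul (ht k l) (a1 _ hyc' i j) (abs_nonneg _) hE0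
        have d2 := mul_le_mul (ht i j) (a1 _ hyc' k l) (abs_nonneg _) hE0
        linarith
      -- the Lipschitz bound
      have hsup : ∀ b, Bx b → |eval b (Dp (V ω) (R ω) ((i, j), (k, l)))| ≤
          2 * C₁ ^ 2 * (nh D₀ (V ω) * nh D₀ (R ω)) := by
        intro b hb
        rw [eval_Dp]
        refine (abs_sub _ _).trans ?_
        rw [abs_mul, abs_mul]
        have d1 := mul_le_mul (b1 b hb k l) (a1 b hb i j) (abs_nonneg _)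
          (mul_nonneg (by linarith) (nV0 _))
        have d2 := mul_le_mul (b1 b hb i j) (a1 b hb k l) (abs_nonneg _)
          (mul_nonneg (by linarith) (nV0 _))
        nlinarith
      have c2 := hlip (by omega) (deg_Dp (dV ω hω) (dR ω hω) ((i, j), (k, l))) hsup
        (δ := 1 / 2 ^ Q) (by positivity) (y ω) (yc ω) (yb ω hω) hyc' (W.ycn ω (hB ω hω))
      have c3 : C₃ * (2 * C₁ ^ 2 * (nh D₀ (V ω) * nh D₀ (R ω))) * (1 / 2 ^ Q) ≤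
          2 * C₃ * C₁ ^ 2 * (nh D₀ (R ω) * e₂) := by
        have d1 : nh D₀ (V ω) ≤ 2 ^ Q * e₂ := by
          have d2 := hQ2 ω hω
          have d3 : 1 ≤ Y ^ 2 := one_le_pow₀ hY1
          have d4 : (1 : ℝ) ≤ (C₂ * Cg + 2 * (A * C₁) + C₁) * Y ^ 2 :=
            one_le_mul_of_one_le_of_one_le (by linarith) d3
          have d5 := le_mul_of_one_le_left v1.le d4
          linarith
        have e : C₃ * (2 * C₁ ^ 2 * (nh D₀ (V ω) * nh D₀ (R ω))) * (1 / 2 ^ Q) =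
            2 * C₃ * C₁ ^ 2 * (nh D₀ (R ω) * (nh D₀ (V ω) / 2 ^ Q)) := by ring
        rw [e]
        refine mul_le_mul_of_nonneg_left (mul_le_mul_of_nonneg_left ?_ (nV0 _)) (by positivity)
        rw [div_le_iff₀ hQ0]
        linarith
      have c4 := d_ar hY1 hη hYη hA hC₁ v1 (nV0 (R ω)) he1 he2
      rw [← hE] at c4
      have c5 : |eval (y ω) (Dp (V ω) (R ω) ((i, j), (k, l)))| ≤
          |eval (yc ω) (Dp (V ω) (R ω) ((i, j), (k, l)))| +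
          |eval (y ω) (Dp (V ω) (R ω) ((i, j), (k, l))) -
            eval (yc ω) (Dp (V ω) (R ω) ((i, j), (k, l)))| := by
        have := abs_add_le (eval (yc ω) (Dp (V ω) (R ω) ((i, j), (k, l))))
          (eval (y ω) (Dp (V ω) (R ω) ((i, j), (k, l))) -
            eval (yc ω) (Dp (V ω) (R ω) ((i, j), (k, l))))
        rwa [add_sub_cancel] at this
      have c6 : 2 * C₃ * C₁ ^ 2 * (nh D₀ (R ω) * e₂) ≤
          2 * C₃ * C₁ ^ 2 * Y ^ 3 * (nh D₀ (R ω) * e₂ + nh D₀ (V ω) * e₁) := by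
        have d1 : 0 ≤ nh D₀ (R ω) * e₂ := mul_nonneg (nV0 _) he2
        have d2 : 0 ≤ nh D₀ (V ω) * e₁ := mul_nonneg (nV0 _) he1
        have d3 : 1 ≤ Y ^ 3 := one_le_pow₀ hY1
        calc 2 * C₃ * C₁ ^ 2 * (nh D₀ (R ω) * e₂) ≤
            2 * C₃ * C₁ ^ 2 * (nh D₀ (R ω) * e₂ + nh D₀ (V ω) * e₁) :=
              mul_le_mul_of_nonneg_left (by linarith) (by positivity)
          _ ≤ (2 * C₃ * C₁ ^ 2 * (nh D₀ (R ω) * e₂ + nh D₀ (V ω) * e₁)) * Y ^ 3 :=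
              le_mul_of_one_le_right (by positivity) d3
          _ = _ := by ring
      show |eval (y ω) (Dp (V ω) (R ω) ((i, j), (k, l)))| ≤
        Cg * Y ^ 3 * (nh D₀ (R ω) * e₂ + nh D₀ (V ω) * e₁)
      rw [hCg]
      linarith)
  refine ⟨B'', fun ω hω => (g1 ω hω).1, by linarith, fun ω hω b hb i j k l => ?_⟩
  have h1 := g3 ω hω ((i, j), (k, l)) b hb
  rw [eval_Dp] at h1
  refine h1.trans ?_
  have hw : 0 ≤ nh D₀ (R ω) * e₂ + nh D₀ (V ω) * e₁ :=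
    add_nonneg (mul_nonneg (nV0 _) he2) (mul_nonneg (nV0 _) he1)
  have h2 : C₂ * 2 ^ h * (Cg * Y ^ 3 * (nh D₀ (R ω) * e₂ + nh D₀ (V ω) * e₁)) ≤
      C₂ * Y * (Cg * Y ^ 3 * (nh D₀ (R ω) * e₂ + nh D₀ (V ω) * e₁)) :=
    mul_le_mul_of_nonneg_right (mul_le_mul_of_nonneg_left hhY (by linarith)) (by positivity)
  refine h2.trans ?_
  have e : C₂ * Y * (Cg * Y ^ 3 * (nh D₀ (R ω) * e₂ + nh D₀ (V ω) * e₁)) =
      C₂ * Cg * (Y ^ 4 * (nh D₀ (R ω) * e₂ + nh D₀ (V ω) * e₁)) := by ring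
  have e' : (C₂ * Cg + 2 * (A * C₁) + C₁) * Y ^ 4 *
      (nh D₀ (R ω) * e₂ + nh D₀ (V ω) * e₁) =
      (C₂ * Cg + 2 * (A * C₁) + C₁) * (Y ^ 4 * (nh D₀ (R ω) * e₂ + nh D₀ (V ω) * e₁)) := by ring
  rw [e, e']
  refine mul_le_mul_of_nonneg_right (by linarith) (by positivity)

end Pool.CNC76
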