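import Pool.Agent.H76.CNC.Stb

/-!
# The conic theorem, static form

`conic_fin`: in a chain of windows `Chn` with the tube of the line of the window `t`, whose chart of
`u` is visible at the window `0`: on a part of the event either there is a closed number `K` near all
`cs j`, `j ≤ k`, or there is a polynomial, a function of the line and its window at `t`, near the chart
of `u` on the cube of the window `n`.
-/

set_option autoImplicit false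

namespace Pool.CNC76

open Finset MvPolynomial
open Pool.Agent.H49.Ent
open Pool.STK (IsLaw)
open Pool.K2S (Pe)
open Pool.CUB46 (q2 l1 h3)
open Pool.D2G30 (nd)

/-- **The conic theorem.** -/
theorem conic_fin (D₀ : ℕ) (hD₀ : 1 ≤ D₀) : ∃ C : ℝ, 1 ≤ C ∧
    ∀ {Ω P S S' : Type} [Fintype Ω] {p : Ω → ℝ} {B : Ω → Prop} {pt : Ω → P} {sl : ℕ → Ω → S}
    {sd : Ω → S'} {Y Yc X : Ω → Fin 3 → ℝ} {n : ℕ} {ctr : ℕ → Ω → Fin 3 → ℝ} {ρ EU EN : ℕ → ℝ}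
    {U Ph : ℕ → Ω → MvPolynomial (Fin 3) ℝ} {cs : ℕ → Ω → ℝ} {D h Q D' k t : ℕ}
    {κ η c T s s' M Γ Λ τ δ : ℝ} {xh : Ω → Fin 3 → Polynomial ℝ} {Tu : Ω → MvPolynomial (Fin 3) ℝ},
    Chn p B pt sl sd Y Yc X n ctr ρ EU EN U Ph cs D₀ D h Q κ η c T s →
    Tub B (sl t) Y X t n ρ EU U xh Tu D₀ δ s' → (∀ ω, B ω → Pth (xh ω) (Y ω) (X ω)) →
    k ≤ t → t ≤ n → 2 * D₀ ≤ D →
    1 ≤ T → 2 ^ h ≤ M → T ≤ M → C ≤ M → 0 < s → s ≤ M → 0 < s' → s' ≤ M → 0 < η → η ≤ 1 →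
    1 ≤ M * η → 12 * c ≤ 1 →
    1 ≤ Γ → (∀ j ≤ n, ρ 0 ≤ Γ * ρ j) → M ^ 13 * Γ ^ 2 ≤ Λ →
    M ^ 13 * Γ ^ 2 * EN 0 ≤ Λ * τ * EU 0 → EN k ≤ EN 0 →
    2 * (EN k / ρ k ^ 2) ≤ τ * (EU t / ρ t ^ 2) → 2 * (EN k / ρ k ^ 2) ≤ τ * (EU n / ρ n ^ 2) →
    8 * T * ρ t ≤ ρ k → M ^ 7 * (ρ t / ρ k) ≤ 1 →
    EU t / ρ t ^ 2 * (M ^ 7 * (ρ t / ρ k)) ^ (D' + 1) ≤ EU n / ρ n ^ 2 → M ^ 15 ≤ 2 ^ Q →
    ∀ {B' : Ω → Prop}, (∀ ω, B' ω → B ω) → 4096 * (κ * Pe p B) ≤ Pe p B' → 0 < Pe p B' →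
      (∀ ω, B' ω → ∃ i j, Λ * EU 0 / ρ 0 ^ 2 ≤ |h3 (U 0 ω) (Y ω) i j|) →
      ∃ B'' : Ω → Prop, (∀ ω, B'' ω → B' ω) ∧ Pe p B' ≤ 512 * Pe p B'' ∧
        ((∃ K : Ω → ℝ, Clo B'' pt (sl 0) K ∧
          ∀ ω, B'' ω → ∀ j ≤ k, |K ω - cs j ω| ≤ τ + s * (EN j / EU j)) ∨
        ∃ Hp : Ω → MvPolynomial (Fin 3) ℝ,
          (∀ ω ω', B'' ω → B'' ω' → sl t ω = sl t ω' → Hp ω = Hp ω') ∧
          (∀ ω, B'' ω → (Hp ω).totalDegree ≤ (D' + 3) * (D₀ * D₀)) ∧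
          ∀ ω, B'' ω → ∀ b, Cu (ctr n ω) (ρ n) b →
            |eval b (Hp ω) - eval b (U n ω)| ≤ M ^ (D₀ + 21) * EU n) := by
  classical
  obtain ⟨C₁, hC₁, hA⟩ := thm_a D₀ hD₀
  obtain ⟨C₂, hC₂, hcv⟩ := cas_vis D₀ hC₁
  obtain ⟨C₃, hC₃, hol⟩ := one_lam D₀ hD₀
  obtain ⟨C₄, hC₄, hrk⟩ := row_k D₀ hD₀
  obtain ⟨C₅, hC₅, hsd⟩ := sta_det D₀ hD₀
  refine ⟨2 * (C₁ + C₂ + C₃ + C₄ + C₅), by linarith, ?_⟩
  intro Ω P S S' _ p B pt sl sd Y Yc X n ctr ρ EU EN U Ph cs D h Q D' k t κ η c T s s' M Γ Λ τ δ xh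
    Tu H HT hP hkt htn hD hT hhM hTM hCM hs0 hsM hs'0 hs'M hη hη1 hMη hc hΓ hρΓ hΛ1 hΛ2 hENk hτt hτn
    h8 hθ htail hQ B' hB hmass hpos hvis
  have hM1 : 1 ≤ M := hT.trans hTM
  have hM0 : 0 < M := by linarith
  have hn0 : 0 ≤ n := Nat.zero_le n
  have hkn : k ≤ n := hkt.trans htn
  have hρ0 := (H.ρ0 0 hn0).1
  have hρk := (H.ρ0 k hkn).1
  have hρt := (H.ρ0 t htn).1
  have hρn := (H.ρ0 n le_rfl).1
  have hU0 := H.EU0 0 hn0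
  have hUt := H.EU0 t htn
  have hUn := H.EU0 n le_rfl
  have hN0 := H.EN0 0 hn0
  have hNk := H.EN0 k hkn
  have hC1M : C₁ ≤ M := by linarith
  have hC2M : C₂ ≤ M := by linarith
  have hC3M : C₃ ≤ M := by linarith
  have hC4M : C₄ ≤ M := by linarith
  have hC5M : C₅ ≤ M := by linarith
  have hnn : ∀ ω, 0 ≤ p ω := (H.bll 0 hn0).law.1
  have hκP : 0 ≤ κ * Pe p B := mul_nonneg (H.bll 0 hn0).κ0 (pe_nn hnn _)
  have hΓ2 : 1 ≤ Γ ^ 2 := one_le_pow₀ hΓ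
  have hpw : ∀ {C : ℝ}, C ≤ M → ∀ a : ℕ, C * M ^ a ≤ M ^ (a + 1) := fun {C} hC a => by
    rw [pow_succ']
    exact mul_le_mul_of_nonneg_right hC (by positivity)
  have hle : ∀ {a b : ℕ}, a ≤ b → M ^ a ≤ M ^ b := fun h => pow_le_pow_right₀ hM1 h
  have hτ0 : 0 < τ := by
    by_contra hcon
    have h1 : τ * (EU t / ρ t ^ 2) ≤ 0 := mul_nonpos_of_nonpos_of_nonneg (not_lt.1 hcon)
      (by positivity)
    have h2 : 0 < 2 * (EN k / ρ k ^ 2) := by positivity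
    linarith
  have hΛ0 : 0 < Λ := lt_of_lt_of_le (by positivity) hΛ1
  -- the numeric conditions of the steps
  have hQC : ∀ {C : ℝ}, C ≤ M → C * M ^ 14 ≤ 2 ^ Q := fun {C} hC => (hpw hC 14).trans hQ
  have hQC3 : ∀ {C : ℝ}, C ≤ M → C * M ^ 3 ≤ 2 ^ Q := fun {C} hC =>
    ((hpw hC 3).trans (hle (by norm_num))).trans hQ
  have hΛ1' : M ^ 12 ≤ Λ := by
    refine le_trans ?_ hΛ1
    calc M ^ 12 ≤ M ^ 13 := hle (by norm_num)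
      _ ≤ M ^ 13 * Γ ^ 2 := le_mul_of_one_le_right (by positivity) hΓ2
  -- Theorem A
  obtain ⟨B1, K, hB1, hm1, hKc, hKb⟩ := hA H hD hT hhM hTM hs0 hsM hη hη1 hMη hc hB
    (by linarith) hpos
    (fun ω hω => by
      obtain ⟨i, j, hij⟩ := hvis ω hω
      refine ⟨i, j, le_trans (div_le_div_of_nonneg_right ?_ (by positivity)) hij⟩
      exact mul_le_mul_of_nonneg_right ((hpw hC1M 11).trans hΛ1') hU0.le)
    (hQC hC1M)
  -- the split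
  have hsp := pe_spl hnn B1 (fun ω => τ ≤ |K ω - cs k ω|)
  by_cases hcase : Pe p B1 ≤ 2 * Pe p (fun ω => B1 ω ∧ ¬ τ ≤ |K ω - cs k ω|)
  · refine ⟨fun ω => B1 ω ∧ ¬ τ ≤ |K ω - cs k ω|, fun ω hω => hB1 ω hω.1, ?_, Or.inl
      ⟨K, hKc.sub fun ω hω => hB1 ω hω.1, fun ω hω j hj => ?_⟩⟩
    · have h1 := pe_nn hnn (fun ω => B1 ω ∧ ¬ τ ≤ |K ω - cs k ω|)
      linarith
    · have h1 := not_le.1 hω.2
      have h2 := H.telc j (hj.trans hkn) k hkn hj ω (hB ω (hB1 ω hω.1))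
      have h3 := abs_add_le (K ω - cs k ω) (cs k ω - cs j ω)
      rw [sub_add_sub_cancel] at h3
      linarith
  -- the visible case
  obtain ⟨B2, hB2⟩ : ∃ B2 : Ω → Prop, B2 = fun ω => B1 ω ∧ τ ≤ |K ω - cs k ω| := ⟨_, rfl⟩
  have hm2 : Pe p B1 ≤ 2 * Pe p B2 := by
    rw [hB2]
    have := not_le.1 hcase
    linarith
  have hB21 : ∀ ω, B2 ω → B1 ω := fun ω hω => by
    rw [hB2] at hω
    exact hω.1
  have hB2' : ∀ ω, B2 ω → B' ω := fun ω hω => hB1 ω (hB21 ω hω)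
  have hB2B : ∀ ω, B2 ω → B ω := fun ω hω => hB ω (hB2' ω hω)
  -- visibility
  have hV : ∀ ω, B2 ω → ∃ i l, M ^ 12 * EN k / ρ k ^ 2 ≤ |h3 (Ph k ω) (Y ω) i l| ∧
      (EN k / ρ k ^ 2 * |h3 (U t ω) (Y ω) i l| ≤ |h3 (Ph k ω) (Y ω) i l| * (EU t / ρ t ^ 2)) ∧
      (EN k / ρ k ^ 2 * |h3 (U n ω) (Y ω) i l| ≤
        |h3 (Ph k ω) (Y ω) i l| * (EU n / ρ n ^ 2)) := fun ω hω => by
    obtain ⟨i, l, hil⟩ := hvis ω (hB2' ω hω)
    refine ⟨i, l, ?_⟩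
    have hτω : τ ≤ |K ω - cs k ω| := by
      rw [hB2] at hω
      exact hω.2
    obtain ⟨c1, c2⟩ := hcv (K := K ω) (τ := τ) H hM1 hsM hΓ hρΓ
      ((mul_le_mul_of_nonneg_right (hpw hC2M 12) (by positivity)).trans hΛ1)
      ((mul_le_mul_of_nonneg_right (mul_le_mul_of_nonneg_right (hpw hC2M 12) (by positivity))
        hN0.le).trans hΛ2) (hB2B ω hω) hil
    have c3 := c2 k hkn hτω (hKb ω (hB21 ω hω) k hkn (Y ω) (H.own hkn (hB2B ω hω)) i l)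
    obtain ⟨u, hu⟩ : ∃ u, u = |h3 (U 0 ω) (Y ω) i l| := ⟨_, rfl⟩
    rw [← hu] at c1 c3 hil
    have hu0 : 0 ≤ u := hu ▸ abs_nonneg _
    have c4 : 5 / 8 * (τ * u) ≤ |h3 (Ph k ω) (Y ω) i l| :=
      le_trans (by
        have := mul_le_mul_of_nonneg_right hτω hu0
        linarith) c3
    have c5 : ∀ j ≤ n, |h3 (U j ω) (Y ω) i l| ≤ 9 / 8 * u := fun j hj => by
      have h1 := c1 j hj
      have h2 := abs_sub_abs_le_abs_sub (h3 (U j ω) (Y ω) i l) (h3 (U 0 ω) (Y ω) i l)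
      rw [← hu] at h2
      linarith
    have c6 : ∀ j ≤ n, 2 * (EN k / ρ k ^ 2) ≤ τ * (EU j / ρ j ^ 2) →
        EN k / ρ k ^ 2 * |h3 (U j ω) (Y ω) i l| ≤
          |h3 (Ph k ω) (Y ω) i l| * (EU j / ρ j ^ 2) := fun j hj h => by
      have hρj := (H.ρ0 j hj).1
      have hUj := H.EU0 j hj
      have e0 : 0 ≤ EU j / ρ j ^ 2 := by positivity
      have e1 : 0 ≤ EN k / ρ k ^ 2 := by positivity
      refine le_trans (mul_le_mul_of_nonneg_left (c5 j hj) e1) ?_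
      refine le_trans ?_ (mul_le_mul_of_nonneg_right c4 e0)
      have e2 := mul_le_mul_of_nonneg_right h hu0
      nlinarith
    refine ⟨?_, c6 t htn hτt, c6 n le_rfl hτn⟩
    refine le_trans ?_ c4
    have h1 : τ * (Λ * EU 0 / ρ 0 ^ 2) ≤ τ * u := mul_le_mul_of_nonneg_left hil hτ0.le
    have h2 : M ^ 13 * Γ ^ 2 * EN 0 / ρ 0 ^ 2 ≤ τ * (Λ * EU 0 / ρ 0 ^ 2) := by
      rw [← mul_div_assoc]
      refine div_le_div_of_nonneg_right ?_ (by positivity)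
      linarith [hΛ2]
    have h3 : 1 / ρ k ^ 2 ≤ Γ ^ 2 / ρ 0 ^ 2 := by
      rw [div_le_div_iff₀ (by positivity) (by positivity), one_mul, ← mul_pow]
      exact pow_le_pow_left₀ hρ0.le (hρΓ k hkn) 2
    have h4 : M ^ 13 * EN k / ρ k ^ 2 ≤ M ^ 13 * Γ ^ 2 * EN 0 / ρ 0 ^ 2 := by
      have e1 : M ^ 13 * EN k / ρ k ^ 2 = M ^ 13 * EN k * (1 / ρ k ^ 2) := by ring
      have e2 : M ^ 13 * Γ ^ 2 * EN 0 / ρ 0 ^ 2 = M ^ 13 * EN 0 * (Γ ^ 2 / ρ 0 ^ 2) := by ring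
      rw [e1, e2]
      exact mul_le_mul (mul_le_mul_of_nonneg_left hENk (by positivity)) h3 (by positivity)
        (by positivity)
    have h5 : 2 * (M ^ 12 * EN k / ρ k ^ 2) ≤ M ^ 13 * EN k / ρ k ^ 2 := by
      have hM2 : 2 ≤ M := by linarith
      have e1 : M ^ 13 * EN k / ρ k ^ 2 = M * (M ^ 12 * EN k / ρ k ^ 2) := by ring
      rw [e1]
      exact mul_le_mul_of_nonneg_right hM2 (by positivity)
    have h6 : 0 ≤ τ * u := mul_nonneg hτ0.le hu0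
    linarith
  have hVC : ∀ {C : ℝ}, C ≤ M → C * M ^ 11 * EN k / ρ k ^ 2 ≤ M ^ 12 * EN k / ρ k ^ 2 :=
    fun {C} hC => div_le_div_of_nonneg_right (mul_le_mul_of_nonneg_right (hpw hC 11) hNk.le)
      (by positivity)
  -- the multiplier at `t`
  obtain ⟨B3, lt, hB3, hm3, hltc, hltb⟩ := hol H hD hT hhM hTM hs0 hsM hη hη1 hMη hc hkt htn hB2B
    (by linarith) (by linarith)
    (fun ω hω => by
      obtain ⟨i, l, v1, v2, -⟩ := hV ω hω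
      exact ⟨i, l, (hVC hC3M).trans v1, v2⟩)
    (hQC hC3M)
  -- the multiplier at `n`
  obtain ⟨B4, ln, hB4, hm4', -, hlnb⟩ := hol H hD hT hhM hTM hs0 hsM hη hη1 hMη hc hkn le_rfl
    (fun ω hω => hB2B ω (hB3 ω hω)) (by linarith) (by linarith)
    (fun ω hω => by
      obtain ⟨i, l, v1, -, v2⟩ := hV ω (hB3 ω hω)
      exact ⟨i, l, (hVC hC3M).trans v1, v2⟩)
    (hQC hC3M)
  -- the row
  obtain ⟨B5, hB5, hm5, hrow⟩ := hrk H (by omega : D₀ ≤ D) hT hhM hTM hs0 hsM hη hMη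
    (by linarith) hkn (B' := B4) (fun ω hω => hB2B ω (hB3 ω (hB4 ω hω))) (by linarith) (by linarith)
    (fun ω hω => by
      obtain ⟨i, l, v1, -, -⟩ := hV ω (hB3 ω (hB4 ω hω))
      refine ⟨i, l, le_trans ?_ v1⟩
      refine div_le_div_of_nonneg_right (mul_le_mul_of_nonneg_right ?_ hNk.le) (by positivity)
      exact (hpw hC4M 3).trans (hle (by norm_num)))
    (hQC3 hC4M)
  -- the row number
  have hsp5 := pe_spl hnn B5 (fun ω => ∀ b, Cu (ctr k ω) (ρ k) b → ∀ i j,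
    |h3 (Ph k ω) b i j| ≤ C₄ * M ^ 3 * |∑ j, h3 (Ph k ω) (Y ω) 1 j * X ω j|)
  obtain ⟨l, hl, B6, hB6, hm6, hrow6⟩ : ∃ l : Fin 3, l ≠ 0 ∧ ∃ B6 : Ω → Prop, (∀ ω, B6 ω → B5 ω) ∧
      Pe p B5 ≤ 2 * Pe p B6 ∧ ∀ ω, B6 ω → ∀ b, Cu (ctr k ω) (ρ k) b → ∀ i j,
        |h3 (Ph k ω) b i j| ≤ C₄ * M ^ 3 * |∑ j, h3 (Ph k ω) (Y ω) l j * X ω j| := by
    by_cases h1 : Pe p B5 ≤ 2 * Pe p (fun ω => B5 ω ∧ ∀ b, Cu (ctr k ω) (ρ k) b → ∀ i j,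
        |h3 (Ph k ω) b i j| ≤ C₄ * M ^ 3 * |∑ j, h3 (Ph k ω) (Y ω) 1 j * X ω j|)
    · exact ⟨1, by decide, _, fun ω hω => hω.1, h1, fun ω hω => hω.2⟩
    · refine ⟨2, by decide, fun ω => B5 ω ∧ ¬ ∀ b, Cu (ctr k ω) (ρ k) b → ∀ i j,
        |h3 (Ph k ω) b i j| ≤ C₄ * M ^ 3 * |∑ j, h3 (Ph k ω) (Y ω) 1 j * X ω j|,
        fun ω hω => hω.1, by linarith [not_le.1 h1], fun ω hω => ?_⟩
      obtain ⟨l, hl0, hlb⟩ := hrow ω hω.1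
      have hl2 : l = 2 := by
        fin_cases l
        · exact absurd rfl hl0
        · exact absurd hlb hω.2
        · rfl
      rw [← hl2]
      exact hlb
  have hB65 : ∀ ω, B6 ω → B4 ω := fun ω hω => hB5 ω (hB6 ω hω)
  have hB62 : ∀ ω, B6 ω → B2 ω := fun ω hω => hB3 ω (hB4 ω (hB65 ω hω))
  have hB6B : ∀ ω, B6 ω → B ω := fun ω hω => hB2B ω (hB62 ω hω)
  refine ⟨B6, fun ω hω => hB2' ω (hB62 ω hω), by linarith, Or.inr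
    ⟨fun ω => Hpf (xh ω) (Tu ω) (Ph k ω) (lt ω) l (ctr t ω 0) D', fun ω ω' hω hω' e => ?_,
      fun ω hω => ?_, fun ω hω b hb => ?_⟩⟩
  · have hωB := hB6B ω hω
    have hωB' := hB6B ω' hω'
    have e1 := HT.xc ω ω' hωB hωB' e
    have e2 := HT.Tc ω ω' hωB hωB' e
    have e3 := (H.Phc k hkn).2 ω ω' hωB hωB' (H.slm k hkn t htn hkt ω ω' hωB hωB' e)
    have e4 := hltc.2 ω ω' (hB62 ω hω) (hB62 ω' hω') e
    have e5 := (H.ctrc t htn).2 ω ω' hωB hωB' e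
    show Hpf (xh ω) (Tu ω) (Ph k ω) (lt ω) l (ctr t ω 0) D' =
      Hpf (xh ω') (Tu ω') (Ph k ω') (lt ω') l (ctr t ω' 0) D'
    rw [e1, e2, e3, e4, e5]
  · exact deg_Hpf hD₀ (HT.xd ω (hB6B ω hω)) (HT.Td ω (hB6B ω hω)) (H.degP k hkn ω (hB6B ω hω)) _ _
      _ _
  · have hωB := hB6B ω hω
    obtain ⟨i₀, l₀, v1, -, -⟩ := hV ω (hB62 ω hω)
    obtain ⟨S₀, hS₀⟩ : ∃ S₀, S₀ = |∑ j, h3 (Ph k ω) (Y ω) l j * X ω j| := ⟨_, rfl⟩
    have hr := hrow6 ω hω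
    rw [← hS₀] at hr
    have hS0 : 0 < S₀ := by
      have h1 := hr (Y ω) (H.own hkn hωB) i₀ l₀
      have h2 : 0 < M ^ 12 * EN k / ρ k ^ 2 := by positivity
      have h3 : 0 < C₄ * M ^ 3 * S₀ := by linarith
      by_contra hcon
      have h4 : S₀ = 0 := le_antisymm (not_lt.1 hcon) (hS₀ ▸ abs_nonneg _)
      rw [h4, mul_zero] at h3
      exact lt_irrefl _ h3
    have hY := fun {j} hj => H.half (k := j) hj hωB
    have h0 := hY htn 0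
    have hfin := hsd (D' := D') (V := Ph k ω) (Ut := U t ω) (Un := U n ω) (Tu := Tu ω) (xh := xh ω)
      (Y := Y ω) (X := X ω) (ak := ctr k ω) (at' := ctr t ω) (an := ctr n ω) (ρk := ρ k) (ρt := ρ t)
      (ρn := ρ n) (Et := EU t) (En := EU n) (s := s') (T := T) (M := M)
      (εt := C₃ * M ^ 11 * (EU t / ρ t ^ 2)) (εn := C₃ * M ^ 11 * (EU n / ρ n ^ 2)) (lt := lt ω)
      (ln := ln ω) (S := S₀) (A := C₄ * M ^ 3 * S₀) (τr := ctr t ω 0) (l := l)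
      (H.degP k hkn ω hωB) (H.degU t htn ω hωB) (H.degU n le_rfl ω hωB) (HT.Td ω hωB)
      (HT.xd ω hωB) (hP ω hωB) (H.X0 ω hωB) hT ((H.bll 0 hn0).XT ω hωB) hTM hs'0 hs'M hUt hUn hρn
      (H.ρle htn le_rfl htn) h8 (hY hkn) (hY htn) (hY le_rfl)
      (by rw [abs_sub_comm]; linarith) hr hS0
      (mul_le_mul_of_nonneg_right (hpw hC4M 3) hS0.le) hS₀ hl
      (hltb ω (hB4 ω (hB65 ω hω))) (hlnb ω (hB65 ω hω))
      (fun τ hτ => HT.val n htn le_rfl ω hωB τ hτ)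
      (fun τ hτ => HT.grd t le_rfl htn ω hωB τ hτ l hl)
      (fun τ hτ i hi => HT.grd n htn le_rfl ω hωB τ hτ i hi)
      (le_trans (mul_le_mul_of_nonneg_right (hpw hC5M 6) (by positivity)) hθ) (by
        have e1 : EU t / ρ t ^ 2 + C₃ * M ^ 11 * (EU t / ρ t ^ 2) =
            (1 + C₃ * M ^ 11) * (EU t / ρ t ^ 2) := by ring
        have e2 : EU n / ρ n ^ 2 + C₃ * M ^ 11 * (EU n / ρ n ^ 2) =
            (1 + C₃ * M ^ 11) * (EU n / ρ n ^ 2) := by ring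
        rw [e1, e2, mul_assoc]
        refine mul_le_mul_of_nonneg_left ?_ (by positivity)
        refine le_trans (mul_le_mul_of_nonneg_left ?_ (by positivity)) htail
        exact pow_le_pow_left₀ (by positivity)
          (mul_le_mul_of_nonneg_right (hpw hC5M 6) (by positivity)) _) b hb
    refine hfin.trans ?_
    have e3 : EU n + C₃ * M ^ 11 * (EU n / ρ n ^ 2) * ρ n ^ 2 = (1 + C₃ * M ^ 11) * EU n := by
      field_simp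
    rw [e3, ← mul_assoc]
    refine mul_le_mul_of_nonneg_right ?_ hUn.le
    have h6 : 1 + C₃ * M ^ 11 ≤ M ^ 12 := by
      have h7 : (C₃ + 1) * M ^ 11 ≤ M ^ 12 := hpw (by linarith : C₃ + 1 ≤ M) 11
      have h8 : 1 ≤ M ^ 11 := one_le_pow₀ hM1
      linarith
    calc C₅ * M ^ (D₀ + 8) * (1 + C₃ * M ^ 11) ≤ M ^ (D₀ + 8 + 1) * M ^ 12 :=
          mul_le_mul (hpw hC5M _) h6 (by positivity) (by positivity)
      _ = M ^ (D₀ + 21) := by rw [← pow_add]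

end Pool.CNC76
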