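import Pool.Agent.H76.CNC.Sta

/-!
# The first jets

`jet_ev`: when the second derivatives of the chart of the window are natural at the own points, the
first jet along the closed path of the line is the chart, and it is a function of the code of the line
of the tube.
-/

set_option autoImplicit false

namespace Pool.CNC76

open Finset MvPolynomial
open Pool.Agent.H49.Ent
open Pool.STK (IsLaw)
open Pool.K2S (Pe)
open Pool.CUB46 (q2 l1 h3)
open Pool.D2G30 (nd)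
open Pool.D2Con (NoHyp law_mono')
open Pool.GEN (totalDegree_pdσ)

/-- **One point.** -/
theorem jet_one (D : ℕ) (hD : 1 ≤ D) : ∃ C : ℝ, 1 ≤ C ∧ ∀ {U Tu : MvPolynomial (Fin 3) ℝ}
    {xh : Fin 3 → Polynomial ℝ} {Y X a : Fin 3 → ℝ} {r T s E A : ℝ},
    U.totalDegree ≤ D → xh 0 = Polynomial.X → Pth xh Y X → (∀ i, |X i| ≤ T) → 1 ≤ T → 0 < r →
    0 ≤ s → 0 ≤ E → (∀ i, |Y i - a i| ≤ r / 2) →
    (∀ b, Cu a r b → ∀ i j, |h3 U b i j| ≤ A / r ^ 2) →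
    (∀ τ : ℝ, |τ - Y 0| ≤ 2 * r →
      |eval (fun i => (xh i).eval τ) Tu - eval (fun i => (xh i).eval τ) U| ≤ s * E) →
    (∀ τ : ℝ, |τ - Y 0| ≤ 2 * r → ∀ l : Fin 3, l ≠ 0 →
      |eval (fun i => (xh i).eval τ) (pderiv l Tu) -
        eval (fun i => (xh i).eval τ) (pderiv l U)| ≤ s * E / r) →
    ∀ b, Cu a r b → |eval b (jet xh Tu) - eval b U| ≤ 7 * T * s * E + C * T ^ (D + 2) * A := by
  classical
  obtain ⟨C, hC, hgro⟩ := gro_cu D
  refine ⟨81 * 2 ^ D * C, ?_, ?_⟩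
  · have : (1 : ℝ) ≤ 2 ^ D := one_le_pow₀ one_le_two
    nlinarith
  intro U Tu xh Y X a r T s E A hU hx0 hP hX hT hr hs hE hY hh hval hgrd b hb
  obtain ⟨x, hx⟩ : ∃ x : Fin 3 → ℝ, x = fun i => (xh i).eval (b 0) := ⟨_, rfl⟩
  have hb0 : |b 0 - Y 0| ≤ 3 / 2 * r := by
    have h1 := hb 0
    have h2 := hY 0
    rw [abs_le] at h1 h2 ⊢
    constructor <;> linarith
  have hb0' : |b 0 - Y 0| ≤ 2 * r := hb0.trans (by linarith)
  have hx00 : x 0 = b 0 := by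
    rw [hx]
    simp only
    rw [hx0, Polynomial.eval_X]
  have hxi : ∀ i, |x i - a i| ≤ 2 * T * r := by
    intro i
    have e : x i - a i = (Y i - a i) + (b 0 - Y 0) * X i := by
      rw [hx]
      simp only
      rw [hP i]
      ring
    rw [e]
    have h1 : |(b 0 - Y 0) * X i| ≤ 3 / 2 * r * T := by
      rw [abs_mul]
      exact mul_le_mul hb0 (hX i) (abs_nonneg _) (by positivity)
    have h2 := hY i
    have h3 := abs_add_le (Y i - a i) ((b 0 - Y 0) * X i)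
    have h4 : r ≤ T * r := le_mul_of_one_le_left hr.le hT
    nlinarith
  have hbi : ∀ i, |b i - a i| ≤ 2 * T * r := fun i => (hb i).trans (by nlinarith)
  have hδ : ∀ i, |b i - x i| ≤ 3 * T * r := by
    intro i
    have h1 := hxi i
    have h2 := hb i
    have h4 : r ≤ T * r := le_mul_of_one_le_left hr.le hT
    rw [abs_le] at h1 h2 ⊢
    constructor <;> nlinarith
  have hA0 : 0 ≤ A / r ^ 2 := (abs_nonneg _).trans (hh b hb 0 0)
  have hA : 0 ≤ A := by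
    have h1 : A = A / r ^ 2 * r ^ 2 := by field_simp
    rw [h1]
    positivity
  have hG : ∀ t ∈ Set.Icc (0 : ℝ) 1, ∀ i j,
      |h3 U (fun i => x i + (b i - x i) * t) i j| ≤ C * (2 * T) ^ D * (A / r ^ 2) := by
    intro t ht i j
    refine hgro (P := pderiv i (pderiv j U)) (totalDegree_pdσ (totalDegree_pdσ hU j) i)
      (by linarith : (1 : ℝ) ≤ 2 * T) hr (fun b hb => hh b hb i j) _ fun k => ?_
    have h1 := hxi k
    have h2 := hbi k
    have e : x k + (b k - x k) * t - a k = (1 - t) * (x k - a k) + t * (b k - a k) := by ring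
    rw [e]
    refine (abs_add_le _ _).trans ?_
    rw [abs_mul, abs_mul, abs_of_nonneg ht.1, abs_of_nonneg (by linarith [ht.2] : 0 ≤ 1 - t)]
    have h3 := mul_le_mul_of_nonneg_left h1 (by linarith [ht.2] : 0 ≤ 1 - t)
    have h4 := mul_le_mul_of_nonneg_left h2 ht.1
    linarith
  have h1 := tay2 hG hδ
  have h2 := hval (b 0) hb0'
  have h3 : ∀ l : Fin 3, l ≠ 0 → |(eval x (pderiv l Tu) - eval x (pderiv l U)) * (b l - x l)| ≤
      3 * T * s * E := by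
    intro l hl
    rw [abs_mul]
    have h4 := hgrd (b 0) hb0' l hl
    rw [← hx] at h4
    refine (mul_le_mul h4 (hδ l) (abs_nonneg _) (by positivity)).trans (le_of_eq ?_)
    field_simp
  rw [← hx] at h2
  have e1 : eval b (jet xh Tu) = eval x Tu + ∑ i, eval x (pderiv i Tu) * (b i - x i) := by
    rw [eval_jet, ← hx]
    congr 1
    refine Finset.sum_congr rfl fun i _ => ?_
    rw [hx]
  have e2 : eval b (jet xh Tu) - eval b U = (eval x Tu - eval x U) +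
      (eval x (pderiv 1 Tu) - eval x (pderiv 1 U)) * (b 1 - x 1) +
      (eval x (pderiv 2 Tu) - eval x (pderiv 2 U)) * (b 2 - x 2) -
      (eval b U - eval x U - ∑ i, eval x (pderiv i U) * (b i - x i)) := by
    rw [e1, Fin.sum_univ_three, Fin.sum_univ_three, hx00]
    ring
  rw [e2]
  have h5 := h3 1 (by decide)
  have h6 := h3 2 (by decide)
  have h7 : 9 * (C * (2 * T) ^ D * (A / r ^ 2) * (3 * T * r) ^ 2) =
      81 * 2 ^ D * C * T ^ (D + 2) * A := by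
    rw [mul_pow, pow_add]
    field_simp
    ring
  rw [h7] at h1
  have h8 : s * E ≤ T * s * E := by
    have : 0 ≤ s * E := mul_nonneg hs hE
    nlinarith
  rw [abs_le] at h1 h2 h5 h6 ⊢
  constructor <;> linarith

/-- **The first jets.** -/
theorem jet_ev (D : ℕ) (hD : 1 ≤ D) : ∃ C : ℕ, ∀ {Ω P S S' S'' : Type} [Fintype Ω] {p : Ω → ℝ}
    {B : Ω → Prop} {pt : Ω → P} {sl : Ω → S''} {sn : Ω → S} {sd : Ω → S'}
    {Y Yc X : Ω → Fin 3 → ℝ} {ctr : Ω → Fin 3 → ℝ} {t n : ℕ}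
    {ρ : ℕ → ℝ} {EU : ℕ → ℝ} {U : ℕ → Ω → MvPolynomial (Fin 3) ℝ} {DB h Q m₀ z : ℕ}
    {κ η c T s' δ : ℝ} {xh : Ω → Fin 3 → Polynomial ℝ} {Tu : Ω → MvPolynomial (Fin 3) ℝ},
    Bll p B pt sn sd (unt Y ctr (ρ n)) (unt Yc ctr (ρ n)) X DB h Q κ η c T → D ≤ DB → t ≤ n →
    Clo B pt sn (U n) → Clo B pt sn ctr → (∀ ω, B ω → (U n ω).totalDegree ≤ D) →
    0 < ρ n → 0 < EU n → 2 * κ ≤ 1 →
    Tub B sl Y X t n ρ EU U xh Tu D δ s' → (∀ ω, B ω → Pth (xh ω) (Y ω) (X ω)) →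
    C ≤ m₀ → h ≤ m₀ → 1 ≤ T → T ≤ 2 ^ m₀ → 0 < s' → s' ≤ 2 ^ m₀ →
    (∀ ω, B ω → ∀ i j, |h3 (U n ω) (Y ω) i j| ≤ 2 ^ z * EU n / ρ n ^ 2) →
    ∃ B' : Ω → Prop, (∀ ω, B' ω → B ω) ∧ Pe p B ≤ 2 * Pe p B' ∧
      ∃ Hp : Ω → MvPolynomial (Fin 3) ℝ,
        (∀ ω ω', B' ω → B' ω' → sl ω = sl ω' → Hp ω = Hp ω') ∧
        (∀ ω, B' ω → (Hp ω).totalDegree ≤ D * D + D) ∧
        ∀ ω, B' ω → ∀ b : Fin 3 → ℝ, (∀ i, |b i - ctr ω i| ≤ ρ n) →
          |eval b (Hp ω) - eval b (U n ω)| ≤ 2 ^ (z + (D + 4) * m₀) * EU n := by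
  classical
  obtain ⟨C₁, hC₁, hrel⟩ := rel_max D hD
  obtain ⟨C₂, hC₂, hone⟩ := jet_one D hD
  obtain ⟨C₀, hC₀⟩ := pow_unbounded_of_one_lt (7 + C₂ * C₁) (one_lt_two : (1 : ℝ) < 2)
  refine ⟨C₀, ?_⟩
  intro Ω P S S' S'' _ p B pt sl sn sd Y Yc X ctr t n ρ EU U DB h Q m₀ z κ η c T s' δ xh Tu W hDB htn
    hUc hcc hdU hρ hE hκ hTub hPth hm hhm hT hTm hs' hsm hh
  have hp := W.law.nonneg
  have hmm : 7 + C₂ * C₁ ≤ 2 ^ m₀ := hC₀.le.trans (pow_le_pow_right₀ one_le_two hm)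
  have hclo : ∀ i : Fin 3 × Fin 3, Clo B pt sn
      (fun ω => dil (ctr ω) (ρ n) (pderiv i.1 (pderiv i.2 (U n ω)))) := fun i =>
    hcc.map2 hUc (fun a P => dil a (ρ n) (pderiv i.1 (pderiv i.2 P)))
  have hun : ∀ ω, (fun i => ctr ω i + ρ n * unt Y ctr (ρ n) ω i) = Y ω := by
    intro ω
    funext i
    unfold unt
    field_simp
    ring
  obtain ⟨B', h1, h2, h3'⟩ := hrel W hDB (B' := B)
    (fun (i : Fin 3 × Fin 3) ω => dil (ctr ω) (ρ n) (pderiv i.1 (pderiv i.2 (U n ω))))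
    (fun _ => 2 ^ z * EU n / ρ n ^ 2) (fun _ h => h) hclo
    (fun i ω hω => deg_dil (totalDegree_pdσ (totalDegree_pdσ (hdU ω hω) _) _) _ _)
    (fun ω hω i => by
      rw [eval_dil, hun]
      exact hh ω hω i.1 i.2)
  refine ⟨B', h1, ?_, fun ω => jet (xh ω) (Tu ω), ?_, ?_, ?_⟩
  · have h4 : 0 ≤ Pe p B := pe_nn hp _
    nlinarith
  · intro ω ω' hω hω' e
    simp only
    rw [hTub.xc ω ω' (h1 ω hω) (h1 ω' hω') e, hTub.Tc ω ω' (h1 ω hω) (h1 ω' hω') e]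
  · intro ω hω
    exact deg_jet hD (hTub.xd ω (h1 ω hω)) (hTub.Td ω (h1 ω hω))
  · intro ω hω b hb
    have hY : ∀ i, |Y ω i - ctr ω i| ≤ ρ n / 2 := by
      intro i
      have h4 := W.y1 ω (h1 ω hω) i
      unfold unt at h4
      rw [abs_div, abs_of_pos hρ, div_le_iff₀ hρ] at h4
      linarith
    have hA : ∀ b, Cu (ctr ω) (ρ n) b → ∀ i j, |h3 (U n ω) b i j| ≤
        (C₁ * 2 ^ h * (2 ^ z * EU n)) / ρ n ^ 2 := by
      intro b hb i j
      obtain ⟨u1, u2⟩ := cu_unit hρ hb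
      have h5 := h3' ω hω (i, j) _ u1
      rw [eval_dil, u2] at h5
      refine h5.trans (le_of_eq ?_)
      ring
    refine (hone (hdU ω (h1 ω hω)) (hTub.x0 ω (h1 ω hω)) (hPth ω (h1 ω hω)) (W.XT ω (h1 ω hω))
      hT hρ hs'.le hE.le hY hA (hTub.val n htn le_rfl ω (h1 ω hω))
      (hTub.grd n htn le_rfl ω (h1 ω hω)) b hb).trans ?_
    have e0 : (2 : ℝ) ^ (z + (D + 4) * m₀) = 2 ^ z * (2 ^ m₀) ^ (D + 3) * 2 ^ m₀ := by
      rw [← pow_mul, ← pow_add, ← pow_add]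
      congr 1
      ring
    obtain ⟨Mm, hMm⟩ : ∃ Mm : ℝ, Mm = 2 ^ m₀ := ⟨_, rfl⟩
    have hM1 : 1 ≤ Mm := by rw [hMm]; exact one_le_pow₀ one_le_two
    have hz1 : (1 : ℝ) ≤ 2 ^ z := one_le_pow₀ one_le_two
    have hhM : (2 : ℝ) ^ h ≤ Mm := by
      rw [hMm]; exact pow_le_pow_right₀ one_le_two hhm
    rw [e0, ← hMm]
    rw [← hMm] at hTm hsm hmm
    have a1 : T * s' ≤ Mm * Mm := mul_le_mul hTm hsm hs'.le (by linarith)
    have a2 : Mm * Mm ≤ Mm ^ (D + 3) := by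
      rw [← pow_two]
      exact pow_le_pow_right₀ hM1 (by omega)
    have a3 : T ^ (D + 2) * 2 ^ h ≤ Mm ^ (D + 3) := by
      rw [pow_succ Mm (D + 2)]
      exact mul_le_mul (pow_le_pow_left₀ (by linarith) hTm _) hhM (by positivity) (by positivity)
    have a4 : 7 * T * s' * EU n ≤ 7 * (2 ^ z * Mm ^ (D + 3)) * EU n := by
      refine mul_le_mul_of_nonneg_right ?_ hE.le
      have : Mm ^ (D + 3) ≤ 2 ^ z * Mm ^ (D + 3) := le_mul_of_one_le_left (by positivity) hz1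
      linarith
    have a5 : C₂ * T ^ (D + 2) * (C₁ * 2 ^ h * (2 ^ z * EU n)) ≤
        C₂ * C₁ * (2 ^ z * Mm ^ (D + 3)) * EU n := by
      have h0 : 0 ≤ C₂ * C₁ * 2 ^ z * EU n := by positivity
      have h6 := mul_le_mul_of_nonneg_left a3 h0
      linarith
    have a6 : (7 + C₂ * C₁) * ((2 ^ z * Mm ^ (D + 3)) * EU n) ≤
        Mm * ((2 ^ z * Mm ^ (D + 3)) * EU n) :=
      mul_le_mul_of_nonneg_right hmm (by positivity)
    linarith

end Pool.CNC76
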