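import Pool.Agent.H28.CNC.Nev

/-!
# The charts of the windows, without aliveness

`Np0`: the charts of the windows, no condition on the slope. `np0_wg`: from `WG`.
-/

set_option autoImplicit false

namespace Pool.CNC76

open Finset Real MvPolynomial
open Pool.Agent.H49.Ent Pool.Agent.H32.Dense Pool.STK Pool.KA Pool.KSAT Pool.K2S Pool.PB Pool.S6C
open Pool.GEN Pool.CHT Pool.CHX Pool.ISO Pool.D2R Pool.D2G30 Pool.V1E Pool.CR99
open Pool.CNC28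

variable {m J : ℕ}

/-- **The charts of the windows**, without any condition on the slope. -/
structure Np0 (F : Fam m J) (c : ℕ → Fin m) (B : F.Ω → Prop) (n D Dr ν μ e hr : ℕ) (κ : ℝ)
    (w : ℕ → ℕ) (g : ℕ → ℕ → ℕ) (G : ℕ → PtT F → ℕ → MvPolynomial (Option (Fin m)) ℝ)
    (H : ℕ → LnT F → ℕ → MvPolynomial (Option (Fin m)) ℝ) : Prop where
  νμ : ν ≤ μ
  wJ : ∀ k ≤ n, w k ≤ J
  wm : ∀ j ≤ n, ∀ k ≤ n, j ≤ k → w j ≤ w k
  deg : ∀ k ≤ n, ∀ y i, (G k y i).totalDegree ≤ D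
  degH : ∀ k ≤ n, ∀ y i, (H k y i).totalDegree ≤ D
  dep : ∀ k ≤ n, ∀ y i, DepC c i (G k y i)
  depH : ∀ k ≤ n, ∀ y i, DepC c i (H k y i)
  cls : ∀ k ≤ n, Clsd F 4 (w k) B (G k) (H k)
  own : ∀ k ≤ n, ∀ ω, B ω → ∀ l ≤ 3, ∀ τ ∈ Set.Icc (0 : ℝ) 1,
    |ptw F (w k) ω τ (some (c l)) - eval (ptw F (w k) ω τ) (G k (ptr F J ω) l)| ≤
      2 ^ ν / 2 ^ g k l
  slf : ∀ k ≤ n, ∀ ω, B ω → ∀ l ≤ 3,
    |F.x ω (c l) - eval (bt F ω) (G k (ptr F J ω) l)| ≤ 1 / 2 ^ g k l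
  lip : ∀ k ≤ n, ∀ ω, B ω → ∀ b : Option (Fin m) → ℝ,
    NBx c (G k (ptr F J ω)) (g k) (w k) (F.t ω) 3 b →
    |eval b (pderiv (some (c 2)) (G k (ptr F J ω) 3))| ≤ 2 ^ (e + (g k 2 - g k 3))
  bal : ∀ j ≤ n, ∀ k ≤ n, j ≤ k → ∀ ω, B ω → ∀ l, 2 ≤ l → l ≤ 3 → ∀ b : Option (Fin m) → ℝ,
    NBx c (G k (ptr F J ω)) (g k) (w k) (F.t ω) l b →
    |eval b (G j (ptr F J ω) l) - eval b (G k (ptr F J ω) l)| ≤ 2 ^ μ / 2 ^ g j l
  stp : ∀ i < n, g (i + 1) 2 ≤ g i 2 + μ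
  exc : ∀ j ≤ n, ∀ k ≤ n, j ≤ k → g k 2 + g j 3 ≤ g j 2 + g k 3 + μ
  mon : ∀ j ≤ n, ∀ k ≤ n, j ≤ k → ∀ l, 2 ≤ l → l ≤ 3 → g j l ≤ g k l + μ
  rel : ∀ k ≤ n, RelvF F c 3 (w k) (w k) (g k) Dr hr κ B (G k)

/-- **`Np0` from `WG`** (`ix k`, `k ≤ n`: the windows). -/
theorem np0_wg (D : ℕ) : ∃ C₁ : ℕ, 1 ≤ C₁ ∧ ∀ {m J : ℕ} {c : ℕ → Fin m} {Dr N N₂ : ℕ}
    {R : ℕ → Prop} {C a Eb ε₀ η₀ : ℝ} {Pt : ℝ → ℝ → ℝ} {o : ℕ → ℝ} {lv be : ℕ → ℕ → ℝ}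
    {F : Fam m J} {b : ℕ → ℕ → ℝ} {κ : ℝ} {z : ℕ → ℕ → ℕ} {B : F.Ω → Prop}
    {gc gT g₀ : ℕ → ℕ → ℕ} {G : ℕ → PtT F → ℕ → MvPolynomial (Option (Fin m)) ℝ}
    {H : ℕ → LnT F → ℕ → MvPolynomial (Option (Fin m)) ℝ}
    {T : ℕ → PtT F → ℕ → MvPolynomial (Option (Fin m)) ℝ}
    {TH : ℕ → LnT F → ℕ → MvPolynomial (Option (Fin m)) ℝ}
    {Gt : ℕ → PtT F → MvPolynomial (Option (Fin m)) ℝ}
    {Ht : ℕ → LnT F → MvPolynomial (Option (Fin m)) ℝ},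
    WG c 3 D Dr N N₂ R C a Eb ε₀ η₀ Pt o lv be F b κ z B gc gT g₀ G H T TH Gt Ht →
    0 ≤ η₀ → ∀ {ix : ℕ → ℕ} {δ : ℝ} {n μ : ℕ}, C₁ ≤ C * (η₀ * J) → 0 ≤ δ →
    (∀ k ≤ n, ix k ≤ N₂ ∧ ⌊o (ix k) * J⌋₊ ≤ J) →
    (∀ j ≤ n, ∀ k ≤ n, j < k → o (ix j) + η₀ ≤ o (ix k)) →
    (∀ j ≤ n, ∀ k ≤ n, j ≤ k → ∀ l, 2 ≤ l → l ≤ 3 → lv (ix j) l ≤ lv (ix k) l + δ) →
    (∀ i < n, lv (ix (i + 1)) 2 ≤ lv (ix i) 2 + δ) →
    (∀ j ≤ n, ∀ k ≤ n, j ≤ k →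
      lv (ix k) 2 + lv (ix j) 3 ≤ lv (ix j) 2 + lv (ix k) 3 + δ) →
    (C₁ * (C * η₀) + δ) * J ≤ μ →
    Np0 F c B n D Dr (⌊C * (η₀ * J)⌋₊ + 1) μ ⌊(Eb + η₀ + η₀) * J⌋₊ ⌊η₀ * J⌋₊ κ
      (fun k => ⌊o (ix k) * J⌋₊) (fun k => g₀ (ix k)) (fun k => G (ix k)) (fun k => H (ix k)) := by

  classical
  refine ⟨8, by omega, ?_⟩
  intro m J c Dr N N₂ R C a Eb ε₀ η₀ Pt o lv be F b κ z B gc gT g₀ G H T TH Gt Ht W hη ix δ n μ
    hCJ hδ hnum hord hmon hst hexc hμ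
  have hJ0 : (0 : ℝ) ≤ J := Nat.cast_nonneg J
  have h2 : (0 : ℝ) < 2 := by norm_num
  have hC1 : 1 ≤ C := W.win.C1
  push_cast at hCJ hμ
  have hηJ : 0 ≤ η₀ * J := mul_nonneg hη hJ0
  obtain ⟨x, hx⟩ : ∃ x : ℝ, x = C * (η₀ * J) := ⟨_, rfl⟩
  have hηx : η₀ * J ≤ x := by rw [hx]; exact le_mul_of_one_le_left hηJ hC1
  have hx0 : 0 ≤ x := hηJ.trans hηx
  rw [← hx] at hCJ
  have hδJ : 0 ≤ δ * J := mul_nonneg hδ hJ0
  have hμ' : 8 * x + δ * J ≤ μ := by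
    refine le_trans (le_of_eq ?_) hμ
    rw [hx]
    ring
  have hfl : (⌊C * (η₀ * J)⌋₊ : ℝ) ≤ x := by
    rw [hx]
    exact Nat.floor_le (by rw [← hx]; exact hx0)
  have hev := fun k (hk : k ≤ n) => W.wb.ev (ix k) (hnum k hk).1
  have gn := fun k (hk : k ≤ n) l (hl : l ≤ 3) => W.wb.g_num (hnum k hk).1 (l := l) hl
  have hmul : ∀ {p q : ℝ}, p ≤ q → p * J ≤ q * J := fun h => mul_le_mul_of_nonneg_right h hJ0
  refine ⟨?_, fun k hk => (hnum k hk).2, ?_, fun k hk => (hev k hk).ball.degG,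
    fun k hk => (hev k hk).ball.degH, fun k hk => (hev k hk).ball.depG,
    fun k hk => (hev k hk).ball.depH, fun k hk => (hev k hk).cls, ?_,
    fun k hk ω hω l hl => (hev k hk).ball.pos ω hω l (by omega), ?_, ?_, ?_, ?_, ?_,
    fun k hk => (hev k hk).relb⟩
  · have : ((⌊C * (η₀ * J)⌋₊ + 1 : ℕ) : ℝ) ≤ μ := by
      push_cast
      linarith
    exact_mod_cast this
  · intro j hj k hk hjk
    refine Nat.floor_le_floor (hmul ?_)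
    rcases Nat.lt_or_ge j k with h | h
    · linarith [hord j hj k hk h]
    · rw [le_antisymm hjk h]
  · intro k hk ω hω l hl τ hτ
    have h5 := W.own (ix k) (hnum k hk).1 ω hω l hl τ hτ
    have h6 : (dv ⌊o (ix k) * J⌋₊ (fun s _ => H (ix k) s l) (c l)
        (slam F ⌊o (ix k) * J⌋₊ ω)).eval τ = ptw F ⌊o (ix k) * J⌋₊ ω τ (some (c l)) -
        eval (ptw F ⌊o (ix k) * J⌋₊ ω τ) (G (ix k) (ptr F J ω) l) := by
      rw [(hev k hk).cls ω hω l (by omega)]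
      unfold dv
      rw [Polynomial.eval_sub, aeval_lc]
      rfl
    rw [h6] at h5
    exact h5
  · intro k hk ω hω b hb
    have h5 := (hev k hk).ball.lip ω hω 3 (by omega) b hb 2 (by omega)
    have e : nlp (g₀ (ix k)) 2 3 = g₀ (ix k) 2 - g₀ (ix k) 3 := by
      unfold nlp
      have h6 : Finset.Icc 2 3 = {2, 3} := by decide
      rw [h6, Finset.sup_insert, Finset.sup_singleton]
      rcases Nat.le_total (g₀ (ix k) 2) (g₀ (ix k) 3) with h | h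
      · rw [sup_eq_right.2 h]
        omega
      · rw [sup_eq_left.2 h]
    rw [e] at h5
    exact h5
  · intro j hj k hk hjk ω hω l hl2 hl3 b' hb'
    rcases Nat.lt_or_ge j k with h | h
    swap
    · have e : j = k := le_antisymm hjk h
      subst e
      rw [sub_self, abs_zero]
      positivity
    · have ho := hord j hj k hk h
      have hz := W.zz (ix j) (hnum j hj).1 (ix k) (hnum k hk).1 ho
      have hle : ⌊o (ix j) * J⌋₊ ≤ ⌊o (ix k) * J⌋₊ :=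
        Nat.floor_le_floor (hmul (by linarith))
      have h5 := W.wb.bal (ix j) (hnum j hj).1 (ix k) (hnum k hk).1 (ix k) (hnum k hk).1 hle hz ω
        hω l hl3 b' hb'
      have h6 := (hev j hj).near ω hω l hl3 b'
      obtain ⟨u1, u2, u3, u4⟩ := gn j hj l hl3
      obtain ⟨-, -, v3, v4⟩ := gn k hk l hl3
      have hml := hmul (hmon j hj k hk hjk l hl2 hl3)
      obtain ⟨M, hM⟩ : ∃ M : ℕ, M = min (⌊b (ix j) l * J⌋₊ + (⌊o (ix k) * J⌋₊ -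
        ⌊o (ix j) * J⌋₊)) (g₀ (ix k) l) := ⟨_, rfl⟩
      rw [← hM] at h5
      have hMg : (g₀ (ix j) l : ℝ) ≤ M + (x + 1 + δ * J) := by
        rcases Nat.le_total (⌊b (ix j) l * J⌋₊ + (⌊o (ix k) * J⌋₊ - ⌊o (ix j) * J⌋₊))
          (g₀ (ix k) l) with hh | hh
        · have : M = ⌊b (ix j) l * J⌋₊ + (⌊o (ix k) * J⌋₊ - ⌊o (ix j) * J⌋₊) := by
            rw [hM]
            exact min_eq_left hh
          rw [this]
          push_cast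
          have : (0 : ℝ) ≤ ((⌊o (ix k) * J⌋₊ - ⌊o (ix j) * J⌋₊ : ℕ) : ℝ) := Nat.cast_nonneg _
          linarith
        · have : M = g₀ (ix k) l := by
            rw [hM]
            exact min_eq_right hh
          rw [this]
          have e5 : (lv (ix k) l + δ) * J = lv (ix k) l * J + δ * J := by ring
          linarith
      have h7 : (2 : ℝ) ^ ⌊C * (η₀ * J)⌋₊ / 2 ^ M ≤ 2 ^ μ / 2 / 2 ^ g₀ (ix j) l := by
        rw [div_div, div_le_div_iff₀ (by positivity) (by positivity), ← Real.rpow_natCast,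
          ← Real.rpow_natCast 2 (g₀ (ix j) l), ← Real.rpow_natCast 2 μ, ← Real.rpow_natCast 2 M]
        have e6 : (2 : ℝ) ^ ((⌊C * (η₀ * J)⌋₊ : ℕ) : ℝ) * (2 * 2 ^ ((g₀ (ix j) l : ℕ) : ℝ)) =
            2 ^ ((⌊C * (η₀ * J)⌋₊ : ℝ) + (1 + (g₀ (ix j) l : ℝ))) := by
          rw [Real.rpow_add h2, Real.rpow_add h2, Real.rpow_one]
        rw [e6, ← Real.rpow_add h2]
        refine Real.rpow_le_rpow_of_exponent_le (by norm_num) ?_
        nlinarith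
      have h8 : (2 : ℝ) / 2 ^ g₀ (ix j) l ≤ 2 ^ μ / 2 / 2 ^ g₀ (ix j) l := by
        refine div_le_div_of_nonneg_right ?_ (by positivity)
        rw [le_div_iff₀ h2]
        calc (2 : ℝ) * 2 = 2 ^ 2 := by norm_num
          _ ≤ 2 ^ μ := by
            refine pow_le_pow_right₀ (by norm_num) ?_
            have : ((2 : ℕ) : ℝ) ≤ μ := by
              push_cast
              nlinarith
            exact_mod_cast this
      have e7 : eval b' (G (ix j) (ptr F J ω) l) - eval b' (G (ix k) (ptr F J ω) l) =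
          (eval b' (Gno (c l) J J (fun y => G (ix j) y l) (ptr F J ω)) -
            eval b' (G (ix k) (ptr F J ω) l)) -
          (eval b' (Gno (c l) J J (fun y => G (ix j) y l) (ptr F J ω)) -
            eval b' (G (ix j) (ptr F J ω) l)) := by ring
      rw [e7]
      refine (abs_sub _ _).trans ((add_le_add (h5.trans h7) (h6.trans h8)).trans (le_of_eq ?_))
      ring
  · intro i hi
    obtain ⟨-, -, u3, u4⟩ := gn i hi.le 2 (by norm_num)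
    obtain ⟨-, -, v3, v4⟩ := gn (i + 1) hi 2 (by norm_num)
    have h5 := hmul (hst i hi)
    have : ((g₀ (ix (i + 1)) 2 : ℕ) : ℝ) ≤ ((g₀ (ix i) 2 + μ : ℕ) : ℝ) := by
      push_cast
      nlinarith
    exact_mod_cast this
  · intro j hj k hk hjk
    obtain ⟨-, -, u3, u4⟩ := gn j hj 2 (by norm_num)
    obtain ⟨-, -, v3, v4⟩ := gn k hk 2 (by norm_num)
    obtain ⟨-, -, s3, s4⟩ := gn j hj 3 le_rfl
    obtain ⟨-, -, t3, t4⟩ := gn k hk 3 le_rfl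
    have h5 := hmul (hexc j hj k hk hjk)
    have : ((g₀ (ix k) 2 + g₀ (ix j) 3 : ℕ) : ℝ) ≤ ((g₀ (ix j) 2 + g₀ (ix k) 3 + μ : ℕ) : ℝ) := by
      push_cast
      nlinarith
    exact_mod_cast this
  · intro j hj k hk hjk l hl2 hl3
    obtain ⟨-, -, u3, u4⟩ := gn j hj l hl3
    obtain ⟨-, -, v3, v4⟩ := gn k hk l hl3
    have h5 := hmul (hmon j hj k hk hjk l hl2 hl3)
    have : ((g₀ (ix j) l : ℕ) : ℝ) ≤ ((g₀ (ix k) l + μ : ℕ) : ℝ) := by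
      push_cast
      nlinarith
    exact_mod_cast this

end Pool.CNC76
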