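import Pool.Agent.H76.CNC.ThA

/-!
# The visible case: preparation of the static case

`cas_vis`: if `|K - cs k|` is not small then `Ph k` is visible. `one_lam`: the chart of `u` of a deeper
window `j` is a multiple of `V = Ph k` on the cube `j`, up to its natural error. `row_k`: the row of
the direction.
-/

set_option autoImplicit false

namespace Pool.CNC76

open Finset MvPolynomial
open Pool.Agent.H49.Ent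
open Pool.STK (IsLaw)
open Pool.K2S (Pe)
open Pool.CUB46 (q2 l1 h3)
open Pool.D2G30 (nd)

/-- **Visible.** -/
theorem cas_vis (D₀ : ℕ) {C₀ : ℝ} (hC₀ : 1 ≤ C₀) : ∃ C : ℝ, 1 ≤ C ∧
    ∀ {Ω P S S' : Type} [Fintype Ω] {p : Ω → ℝ} {B : Ω → Prop} {pt : Ω → P} {sl : ℕ → Ω → S}
    {sd : Ω → S'} {Y Yc X : Ω → Fin 3 → ℝ} {n : ℕ} {ctr : ℕ → Ω → Fin 3 → ℝ} {ρ EU EN : ℕ → ℝ}
    {U Ph : ℕ → Ω → MvPolynomial (Fin 3) ℝ} {cs : ℕ → Ω → ℝ} {D h Q : ℕ} {κ η c T s M Γ Λ τ K : ℝ},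
    Chn p B pt sl sd Y Yc X n ctr ρ EU EN U Ph cs D₀ D h Q κ η c T s → 1 ≤ M → s ≤ M → 1 ≤ Γ →
    (∀ k ≤ n, ρ 0 ≤ Γ * ρ k) → C * M ^ 12 * Γ ^ 2 ≤ Λ → C * M ^ 12 * Γ ^ 2 * EN 0 ≤ Λ * τ * EU 0 →
    ∀ {ω : Ω}, B ω → ∀ {i j : Fin 3}, Λ * EU 0 / ρ 0 ^ 2 ≤ |h3 (U 0 ω) (Y ω) i j| →
    (∀ k ≤ n, |h3 (U k ω) (Y ω) i j - h3 (U 0 ω) (Y ω) i j| ≤ |h3 (U 0 ω) (Y ω) i j| / 8) ∧
    ∀ k ≤ n, τ ≤ |K - cs k ω| →
      |h3 (Ph k ω) (Y ω) i j - (K - cs k ω) * h3 (U k ω) (Y ω) i j| ≤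
            C₀ * M ^ 12 * (EN 0 + |K - cs k ω| * EU 0) / ρ k ^ 2 →
      5 / 8 * (|K - cs k ω| * |h3 (U 0 ω) (Y ω) i j|) ≤ |h3 (Ph k ω) (Y ω) i j| := by
  obtain ⟨C₂, hC₂, htel⟩ := tel_h D₀
  refine ⟨8 * C₀ + 8 * C₂, by linarith, ?_⟩
  intro Ω P S S' _ p B pt sl sd Y Yc X n ctr ρ EU EN U Ph cs D h Q κ η c T s M Γ Λ τ K H hM hsM hΓ
    hρΓ hΛ1 hΛ2 ω hω i j hij
  have hn0 : 0 ≤ n := Nat.zero_le n
  have hρ0 := (H.ρ0 0 hn0).1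
  have hU0 := H.EU0 0 hn0
  have hN0 := H.EN0 0 hn0
  have hM0 : 0 < M := by linarith
  obtain ⟨u, hu⟩ : ∃ u, u = |h3 (U 0 ω) (Y ω) i j| := ⟨_, rfl⟩
  have hΓρ : ∀ k ≤ n, 1 / ρ k ^ 2 ≤ Γ ^ 2 / ρ 0 ^ 2 := fun k hk => by
    have hρk := (H.ρ0 k hk).1
    rw [div_le_div_iff₀ (by positivity) (by positivity), one_mul, ← mul_pow]
    exact pow_le_pow_left₀ hρ0.le (hρΓ k hk) 2
  rw [← hu] at hij
  have hM12 : M ≤ M ^ 12 := by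
    calc M = M ^ 1 := (pow_one M).symm
      _ ≤ M ^ 12 := pow_le_pow_right₀ hM (by norm_num)
  have k1 : ∀ k ≤ n, |h3 (U k ω) (Y ω) i j - h3 (U 0 ω) (Y ω) i j| ≤ u / 8 := fun k hk => by
    have h1 := (htel H hn0 hk (Nat.zero_le k) hω (Y ω) (H.own hk hω) i j).1
    refine h1.trans ?_
    have h2 : C₂ * (s * EU 0) / ρ k ^ 2 ≤ C₂ * M ^ 12 * Γ ^ 2 * EU 0 / ρ 0 ^ 2 := by
      have e1 : C₂ * (s * EU 0) / ρ k ^ 2 = C₂ * EU 0 * s * (1 / ρ k ^ 2) := by ring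
      have e2 : C₂ * M ^ 12 * Γ ^ 2 * EU 0 / ρ 0 ^ 2 =
          C₂ * EU 0 * M ^ 12 * (Γ ^ 2 / ρ 0 ^ 2) := by ring
      rw [e1, e2]
      refine mul_le_mul (mul_le_mul_of_nonneg_left (hsM.trans hM12) (by positivity)) (hΓρ k hk)
        (by have := (H.ρ0 k hk).1; positivity) (by positivity)
    refine h2.trans ?_
    have h3 : 8 * (C₂ * M ^ 12 * Γ ^ 2 * EU 0 / ρ 0 ^ 2) ≤ Λ * EU 0 / ρ 0 ^ 2 := by
      rw [← mul_div_assoc]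
      refine div_le_div_of_nonneg_right ?_ (by positivity)
      have h4 : 8 * C₂ * (M ^ 12 * Γ ^ 2) ≤ (8 * C₀ + 8 * C₂) * (M ^ 12 * Γ ^ 2) :=
        mul_le_mul_of_nonneg_right (by linarith) (by positivity)
      calc 8 * (C₂ * M ^ 12 * Γ ^ 2 * EU 0) = 8 * C₂ * (M ^ 12 * Γ ^ 2) * EU 0 := by ring
        _ ≤ (8 * C₀ + 8 * C₂) * (M ^ 12 * Γ ^ 2) * EU 0 := mul_le_mul_of_nonneg_right h4 hU0.le
        _ = (8 * C₀ + 8 * C₂) * M ^ 12 * Γ ^ 2 * EU 0 := by ring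
        _ ≤ Λ * EU 0 := mul_le_mul_of_nonneg_right hΛ1 hU0.le
    linarith
  refine ⟨fun k hk => by rw [← hu]; exact k1 k hk, fun k hk hτ hPh => ?_⟩
  rw [← hu]
  obtain ⟨μ, hμ⟩ : ∃ μ, μ = K - cs k ω := ⟨_, rfl⟩
  rw [← hμ] at hτ hPh ⊢
  have hρk := (H.ρ0 k hk).1
  have hμ0 := abs_nonneg μ
  have h1 : 7 / 8 * u ≤ |h3 (U k ω) (Y ω) i j| := by
    have h2 := k1 k hk
    have h3 := abs_sub_abs_le_abs_sub (Pool.CUB46.h3 (U 0 ω) (Y ω) i j)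
      (Pool.CUB46.h3 (U k ω) (Y ω) i j)
    rw [abs_sub_comm, ← hu] at h3
    linarith
  have h2 : C₀ * M ^ 12 * (EN 0 + |μ| * EU 0) / ρ k ^ 2 ≤ 1 / 4 * (|μ| * u) := by
    have e1 : C₀ * M ^ 12 * (EN 0 + |μ| * EU 0) / ρ k ^ 2 =
        C₀ * M ^ 12 * (EN 0 + |μ| * EU 0) * (1 / ρ k ^ 2) := by ring
    rw [e1]
    refine (mul_le_mul_of_nonneg_left (hΓρ k hk) (by positivity)).trans ?_
    have h3 : 8 * (C₀ * M ^ 12 * Γ ^ 2 * EN 0) ≤ Λ * |μ| * EU 0 := by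
      have h4 : 8 * (C₀ * M ^ 12 * Γ ^ 2 * EN 0) ≤ (8 * C₀ + 8 * C₂) * M ^ 12 * Γ ^ 2 * EN 0 := by
        have : 0 ≤ M ^ 12 * Γ ^ 2 * EN 0 := by positivity
        nlinarith
      refine h4.trans (hΛ2.trans ?_)
      have hΛ0 : 0 ≤ Λ := le_trans (by positivity) hΛ1
      exact mul_le_mul_of_nonneg_right (mul_le_mul_of_nonneg_left hτ hΛ0) hU0.le
    have h4 : 8 * (C₀ * M ^ 12 * Γ ^ 2 * (|μ| * EU 0)) ≤ Λ * |μ| * EU 0 := by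
      have h5 : 8 * (C₀ * M ^ 12 * Γ ^ 2) ≤ Λ := by
        refine le_trans ?_ hΛ1
        have : 0 ≤ M ^ 12 * Γ ^ 2 := by positivity
        nlinarith
      have h6 := mul_le_mul_of_nonneg_right h5 (by positivity : 0 ≤ |μ| * EU 0)
      linarith
    have h5 : C₀ * M ^ 12 * (EN 0 + |μ| * EU 0) * (Γ ^ 2 / ρ 0 ^ 2) =
        (C₀ * M ^ 12 * Γ ^ 2 * EN 0 + C₀ * M ^ 12 * Γ ^ 2 * (|μ| * EU 0)) / ρ 0 ^ 2 := by ring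
    rw [h5]
    have h6 : (C₀ * M ^ 12 * Γ ^ 2 * EN 0 + C₀ * M ^ 12 * Γ ^ 2 * (|μ| * EU 0)) / ρ 0 ^ 2 ≤
        1 / 4 * (Λ * |μ| * EU 0) / ρ 0 ^ 2 :=
      div_le_div_of_nonneg_right (by linarith) (by positivity)
    refine h6.trans ?_
    have h7 := mul_le_mul_of_nonneg_left hij hμ0
    calc 1 / 4 * (Λ * |μ| * EU 0) / ρ 0 ^ 2 = 1 / 4 * (|μ| * (Λ * EU 0 / ρ 0 ^ 2)) := by ring
      _ ≤ _ := by linarith
  have h3 := abs_sub_abs_le_abs_sub (μ * Pool.CUB46.h3 (U k ω) (Y ω) i j)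
    (Pool.CUB46.h3 (Ph k ω) (Y ω) i j)
  rw [abs_sub_comm, abs_mul] at h3
  have h4 := mul_le_mul_of_nonneg_left h1 hμ0
  linarith

/-- **The chart of `u` is a multiple of `V`** on the cube of a deeper window. -/
theorem one_lam (D₀ : ℕ) (hD₀ : 1 ≤ D₀) : ∃ C : ℝ, 1 ≤ C ∧
    ∀ {Ω P S S' : Type} [Fintype Ω] {p : Ω → ℝ} {B : Ω → Prop} {pt : Ω → P} {sl : ℕ → Ω → S}
    {sd : Ω → S'} {Y Yc X : Ω → Fin 3 → ℝ} {n : ℕ} {ctr : ℕ → Ω → Fin 3 → ℝ} {ρ EU EN : ℕ → ℝ}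
    {U Ph : ℕ → Ω → MvPolynomial (Fin 3) ℝ} {cs : ℕ → Ω → ℝ} {D h Q : ℕ} {κ η c T s M : ℝ},
    Chn p B pt sl sd Y Yc X n ctr ρ EU EN U Ph cs D₀ D h Q κ η c T s → 2 * D₀ ≤ D →
    1 ≤ T → 2 ^ h ≤ M → T ≤ M → 0 < s → s ≤ M → 0 < η → η ≤ 1 → 1 ≤ M * η → 12 * c ≤ 1 →
    ∀ {k j : ℕ}, k ≤ j → j ≤ n → ∀ {B' : Ω → Prop}, (∀ ω, B' ω → B ω) →
      32 * (κ * Pe p B) ≤ Pe p B' → 0 < Pe p B' →
      (∀ ω, B' ω → ∃ i l, C * M ^ 11 * EN k / ρ k ^ 2 ≤ |h3 (Ph k ω) (Y ω) i l| ∧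
        EN k / ρ k ^ 2 * |h3 (U j ω) (Y ω) i l| ≤ |h3 (Ph k ω) (Y ω) i l| * (EU j / ρ j ^ 2)) →
      C * M ^ 14 ≤ 2 ^ Q →
      ∃ (B'' : Ω → Prop) (lam : Ω → ℝ), (∀ ω, B'' ω → B' ω) ∧ Pe p B' ≤ 4 * Pe p B'' ∧
        Clo B' pt (sl j) lam ∧
        ∀ ω, B'' ω → ∀ b, Cu (ctr j ω) (ρ j) b → ∀ i l,
          |h3 (U j ω) b i l - lam ω * h3 (Ph k ω) b i l| ≤ C * M ^ 11 * (EU j / ρ j ^ 2) := by
  obtain ⟨C₁, hC₁, hcc⟩ := conic_cu D₀ hD₀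
  refine ⟨4 * C₁, by linarith, ?_⟩
  intro Ω P S S' _ p B pt sl sd Y Yc X n ctr ρ EU EN U Ph cs D h Q κ η c T s M H hD hT hhM hTM hs0
    hsM hη hη1 hMη hc k j hkj hj B' hB hκ hpos hvis hQ1
  have hM1 : 1 ≤ M := hT.trans hTM
  have hM0 : 0 < M := by linarith
  have hk : k ≤ n := hkj.trans hj
  have hρk := (H.ρ0 k hk).1
  have hρj := (H.ρ0 j hj).1
  have hUj := H.EU0 j hj
  have hNk := H.EN0 k hk
  have hC1' : C₁ ≤ 4 * C₁ := by linarith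
  have hρk2 : 0 < ρ k ^ 2 := by positivity
  have hρj2 : 0 < ρ j ^ 2 := by positivity
  have hPc : Clo B' pt (sl j) (Ph k) :=
    ((H.Phc k hk).sub hB).fine fun ω ω' h1 h2 => H.slm k hk j hj hkj ω ω' (hB ω h1) (hB ω' h2)
  obtain ⟨B'', lam, h1, h2, h3', h4⟩ := hcc (H.bll j hj) hD hT hhM hTM hη hη1 hMη hc hρj
    (H.ctrc j hj) (Ph k) (U j) (e₁ := s * EU j) (e₂ := s * EN k * ρ j ^ 2 / ρ k ^ 2) hB hκ hpos
    hPc ((H.Uc j hj).sub hB)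
    (fun ω hω => H.degP k hk ω (hB ω hω)) (fun ω hω => H.degU j hj ω (hB ω hω))
    (by positivity) (by positivity) (fun ω hω => H.ownU j hj ω (hB ω hω))
    (fun ω hω => (H.ownP k hk ω (hB ω hω)).trans (le_of_eq (by field_simp)))
    (fun ω hω => by
      obtain ⟨i, l, hil, -⟩ := hvis ω hω
      refine ⟨i, l, ?_⟩
      have e : C₁ * M ^ 10 * (s * EN k * ρ j ^ 2 / ρ k ^ 2) / ρ j ^ 2 =
          C₁ * M ^ 10 * EN k * s / ρ k ^ 2 := by field_simp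
      rw [e]
      refine le_trans (div_le_div_of_nonneg_right ?_ hρk2.le) hil
      calc C₁ * M ^ 10 * EN k * s ≤ C₁ * M ^ 10 * EN k * M :=
            mul_le_mul_of_nonneg_left hsM (by positivity)
        _ = C₁ * (M ^ 11 * EN k) := by ring
        _ ≤ 4 * C₁ * (M ^ 11 * EN k) := mul_le_mul_of_nonneg_right hC1' (by positivity)
        _ = _ := by ring)
    (le_trans (mul_le_mul_of_nonneg_right hC1' (by positivity)) hQ1)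
  refine ⟨B'', lam, h1, h2, h3', fun ω hω b hb i l => ?_⟩
  have hB'ω := h1 ω hω
  have hBω := hB ω hB'ω
  obtain ⟨i₀, l₀, v1, v2⟩ := hvis ω hB'ω
  obtain ⟨L, hL⟩ : ∃ L, L = |lam ω| := ⟨_, rfl⟩
  have hL0 : 0 ≤ L := hL ▸ abs_nonneg _
  obtain ⟨v, hv⟩ : ∃ v, v = |h3 (Ph k ω) (Y ω) i₀ l₀| := ⟨_, rfl⟩
  obtain ⟨u, hu⟩ : ∃ u, u = |h3 (U j ω) (Y ω) i₀ l₀| := ⟨_, rfl⟩
  obtain ⟨A, hA⟩ : ∃ A, A = EU j / ρ j ^ 2 := ⟨_, rfl⟩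
  obtain ⟨N, hN⟩ : ∃ N, N = EN k / ρ k ^ 2 := ⟨_, rfl⟩
  have hA0 : 0 < A := by rw [hA]; positivity
  have hN0 : 0 < N := by rw [hN]; positivity
  have e1 : C₁ * M ^ 10 * (s * EU j + |lam ω| * (s * EN k * ρ j ^ 2 / ρ k ^ 2)) / ρ j ^ 2 =
      C₁ * M ^ 10 * (A + L * N) * s := by
    rw [hA, hN, hL]
    field_simp
  have hbd : ∀ b, Cu (ctr j ω) (ρ j) b → ∀ i l,
      |h3 (U j ω) b i l - lam ω * h3 (Ph k ω) b i l| ≤ C₁ * M ^ 11 * (A + L * N) := by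
    intro b hb i l
    have h5 := (h4 ω hω).2 b hb i l
    rw [e1] at h5
    refine h5.trans ((mul_le_mul_of_nonneg_left hsM (by positivity)).trans (le_of_eq ?_))
    ring
  have hL2 : L * N ≤ 3 * A := by
    have h5 := hbd (Y ω) (H.own hj hBω) i₀ l₀
    have h6 := abs_sub_abs_le_abs_sub (lam ω * Pool.CUB46.h3 (Ph k ω) (Y ω) i₀ l₀)
      (Pool.CUB46.h3 (U j ω) (Y ω) i₀ l₀)
    rw [abs_sub_comm, abs_mul, ← hL, ← hv, ← hu] at h6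
    rw [← hv] at v1 v2
    rw [← hu, ← hN, ← hA] at v2
    have e2 : 4 * C₁ * M ^ 11 * EN k / ρ k ^ 2 = 4 * (C₁ * M ^ 11 * N) := by rw [hN]; ring
    rw [e2] at v1
    have hv0 : 0 < v := lt_of_lt_of_le (by positivity) v1
    -- `L v ≤ u + C₁ M ^ 11 (A + L N)`
    have h7 : L * v ≤ u + C₁ * M ^ 11 * (A + L * N) := by linarith
    have h8 : L * (4 * (C₁ * M ^ 11 * N)) ≤ L * v := mul_le_mul_of_nonneg_left v1 hL0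
    have h9 : 3 / 4 * (L * v) ≤ u + C₁ * M ^ 11 * A := by nlinarith
    have h10 : 3 / 4 * (L * v) * N ≤ (u + C₁ * M ^ 11 * A) * N :=
      mul_le_mul_of_nonneg_right h9 hN0.le
    have h11 : C₁ * M ^ 11 * A * N ≤ v * A / 4 := by
      have := mul_le_mul_of_nonneg_right v1 hA0.le
      nlinarith
    have h12 : 3 / 4 * (L * N) * v ≤ (5 / 4 * A) * v := by nlinarith
    have h13 := le_of_mul_le_mul_right h12 hv0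
    linarith
  refine (hbd b hb i l).trans ?_
  calc C₁ * M ^ 11 * (A + L * N) ≤ C₁ * M ^ 11 * (4 * A) :=
        mul_le_mul_of_nonneg_left (by linarith) (by positivity)
    _ = 4 * C₁ * M ^ 11 * (EU j / ρ j ^ 2) := by rw [hA]; ring

/-- **The row of the direction** for `V = Ph k`. -/
theorem row_k (D₀ : ℕ) (hD₀ : 1 ≤ D₀) : ∃ C : ℝ, 1 ≤ C ∧
    ∀ {Ω P S S' : Type} [Fintype Ω] {p : Ω → ℝ} {B : Ω → Prop} {pt : Ω → P} {sl : ℕ → Ω → S}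
    {sd : Ω → S'} {Y Yc X : Ω → Fin 3 → ℝ} {n : ℕ} {ctr : ℕ → Ω → Fin 3 → ℝ} {ρ EU EN : ℕ → ℝ}
    {U Ph : ℕ → Ω → MvPolynomial (Fin 3) ℝ} {cs : ℕ → Ω → ℝ} {D h Q : ℕ} {κ η c T s M : ℝ},
    Chn p B pt sl sd Y Yc X n ctr ρ EU EN U Ph cs D₀ D h Q κ η c T s → D₀ ≤ D →
    1 ≤ T → 2 ^ h ≤ M → T ≤ M → 0 < s → s ≤ M → 0 < η → 1 ≤ M * η → 4 * c ≤ 1 →
    ∀ {k : ℕ}, k ≤ n → ∀ {B' : Ω → Prop}, (∀ ω, B' ω → B ω) →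
      8 * (κ * Pe p B) ≤ Pe p B' → 0 < Pe p B' →
      (∀ ω, B' ω → ∃ i l, C * M ^ 3 * EN k / ρ k ^ 2 ≤ |h3 (Ph k ω) (Y ω) i l|) →
      C * M ^ 3 ≤ 2 ^ Q →
      ∃ B'' : Ω → Prop, (∀ ω, B'' ω → B' ω) ∧ Pe p B' ≤ 2 * Pe p B'' ∧
        ∀ ω, B'' ω → ∃ l : Fin 3, l ≠ 0 ∧ ∀ b, Cu (ctr k ω) (ρ k) b → ∀ i j,
          |h3 (Ph k ω) b i j| ≤ C * M ^ 3 * |∑ j, h3 (Ph k ω) (Y ω) l j * X ω j| := by
  obtain ⟨C₁, hC₁, hrc⟩ := row_cu D₀ hD₀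
  refine ⟨C₁, hC₁, ?_⟩
  intro Ω P S S' _ p B pt sl sd Y Yc X n ctr ρ EU EN U Ph cs D h Q κ η c T s M H hD hT hhM hTM hs0
    hsM hη hMη hc k hk B' hB hκ hpos hvis hQ1
  have hM1 : 1 ≤ M := hT.trans hTM
  have hM0 : 0 < M := by linarith
  have hNk := H.EN0 k hk
  have hρk := (H.ρ0 k hk).1
  exact hrc (H.bll k hk) hD hT hhM hTM hη hMη hc hρk (H.ctrc k hk) (Ph k) (e₂ := s * EN k) hB hκ hpos
    ((H.Phc k hk).sub hB) (fun ω hω => H.degP k hk ω (hB ω hω)) (by positivity)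
    (fun ω hω => H.X0 ω (hB ω hω)) (fun ω hω => H.ownP k hk ω (hB ω hω))
    (fun ω hω => by
      obtain ⟨i, l, hil⟩ := hvis ω hω
      refine ⟨i, l, le_trans (div_le_div_of_nonneg_right ?_ (by positivity)) hil⟩
      have e : C₁ * M ^ 2 * (s * EN k) = C₁ * M ^ 2 * EN k * s := by ring
      rw [e]
      refine (mul_le_mul_of_nonneg_left hsM (by positivity)).trans (le_of_eq ?_)
      ring) hQ1

end Pool.CNC76
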