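import Pool.Agent.H76.CNC.Cbl

/-!
# The row of the direction is visible

`conic_row`: let `V` be a closed polynomial whose second derivatives are visible and small at the own
direction `X`, `X 0 = 1`. Then off a small event one of the numbers `(V'' X)_l`, `l = 1, 2`, is
comparable to the second derivatives of `V`.
-/

set_option autoImplicit false

namespace Pool.CNC76

open Finset MvPolynomial
open Pool.Agent.H49.Ent
open Pool.STK (IsLaw)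
open Pool.K2S (Pe)
open Pool.CUB46 (q2 l1 h3)
open Pool.D2G30 (nd)
open Pool.D2Con (NoHyp law_mono')
open Pool.GEN (totalDegree_pdσ)

/-- A normalised row. -/
theorem row_nrm (r : Fin 3 → ℝ) (k η : ℝ) (hη : 0 ≤ η) : ∃ n : Fin 3 → ℝ, ((∀ j, |n j| ≤ 1) ∧
    ∃ j, |n j| = 1) ∧ (0 < k → (∃ j, k ≤ |r j|) → ∀ x : Fin 3 → ℝ, |∑ j, r j * x j| ≤ k * η →
      |∑ j, n j * x j| ≤ η) := by
  by_cases h : 0 < k ∧ ∃ j, k ≤ |r j|
  · obtain ⟨hk, j₀, hj₀⟩ := h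
    obtain ⟨j, -, hj⟩ := Finset.exists_max_image (Finset.univ : Finset (Fin 3)) (fun j => |r j|)
      ⟨0, Finset.mem_univ 0⟩
    have hj' : ∀ i, |r i| ≤ |r j| := fun i => hj i (Finset.mem_univ i)
    have hM : k ≤ |r j| := hj₀.trans (hj' j₀)
    have hM0 : 0 < |r j| := hk.trans_le hM
    refine ⟨fun i => r i / |r j|, ⟨fun i => ?_, j, ?_⟩, fun _ _ x hx => ?_⟩
    · rw [abs_div, abs_abs, div_le_one hM0]
      exact hj' i
    · rw [abs_div, abs_abs, div_self hM0.ne']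
    · have e : ∑ i, r i / |r j| * x i = (∑ i, r i * x i) / |r j| := by
        rw [Finset.sum_div]
        exact Finset.sum_congr rfl fun i _ => by ring
      rw [e, abs_div, abs_abs, div_le_iff₀ hM0]
      exact hx.trans (by rw [mul_comm]; exact mul_le_mul_of_nonneg_left hM hη)
  · refine ⟨fun _ => 1, ⟨fun _ => by simp, 0, by simp⟩, fun h1 h2 => absurd ⟨h1, h2⟩ h⟩

/-- **The row of the direction.** -/
theorem conic_row (D₀ : ℕ) (hD₀ : 1 ≤ D₀) : ∃ C : ℝ, 1 ≤ C ∧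
    ∀ {Ω P S S' : Type} [Fintype Ω]
    {p : Ω → ℝ} {B : Ω → Prop} {pt : Ω → P} {sl : Ω → S} {sd : Ω → S'} {y yc X : Ω → Fin 3 → ℝ}
    {D h Q : ℕ} {κ η c T Y : ℝ}, Bll p B pt sl sd y yc X D h Q κ η c T → D₀ ≤ D →
    1 ≤ T → 2 ^ h ≤ Y → T ≤ Y → 0 < η → 1 ≤ Y * η → 4 * c ≤ 1 →
    ∀ {B' : Ω → Prop} (V : Ω → MvPolynomial (Fin 3) ℝ) {e₂ : ℝ}, (∀ ω, B' ω → B ω) →
      8 * (κ * Pe p B) ≤ Pe p B' → 0 < Pe p B' →
      Clo B' pt sl V → (∀ ω, B' ω → (V ω).totalDegree ≤ D₀) → 0 < e₂ →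
      (∀ ω, B' ω → X ω 0 = 1) →
      (∀ ω, B' ω → |q2 (h3 (V ω) (y ω)) (X ω) (X ω)| ≤ e₂) →
      (∀ ω, B' ω → ∃ i j, C * Y ^ 2 * e₂ ≤ |h3 (V ω) (y ω) i j|) → C * Y ^ 3 ≤ 2 ^ Q →
      ∃ B'' : Ω → Prop, (∀ ω, B'' ω → B' ω) ∧ Pe p B' ≤ 2 * Pe p B'' ∧
        ∀ ω, B'' ω → ∃ l : Fin 3, l ≠ 0 ∧
          nh D₀ (V ω) ≤ C * Y ^ 3 * |∑ j, h3 (V ω) (y ω) l j * X ω j| := by
  classical
  obtain ⟨A, hA, hvis⟩ := vis_ball D₀ hD₀
  obtain ⟨C₁, hC₁, hyc⟩ := yc_ev D₀ hD₀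
  have hAC : 1 ≤ A * C₁ := one_le_mul_of_one_le_of_one_le hA hC₁
  refine ⟨16 * (A * C₁), by linarith, ?_⟩
  intro Ω P S S' _ p B pt sl sd y yc X D h Q κ η c T Y W hD hT hhY hTY hη hYη hc B' V e₂ hB hκ hpos
    hV dV he2 hX0 q2' hnf hQ
  have hp := W.law.nonneg
  have hY1 : 1 ≤ Y := hT.trans hTY
  have hY0 : 0 < Y := by linarith
  have hQ0 : (0 : ℝ) < 2 ^ Q := by positivity
  have nV0 : ∀ F, 0 ≤ nh D₀ F := nh_nn D₀
  have hκ0 : 0 ≤ κ * Pe p B := mul_nonneg W.κ0 (pe_nn hp _)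
  have yb : ∀ ω, B' ω → Bx (y ω) := fun ω hω i => (W.y1 ω (hB ω hω) i).trans (by norm_num)
  have ev : ∀ ω, B' ω → ∀ {F : MvPolynomial (Fin 3) ℝ}, F.totalDegree ≤ D₀ → _ :=
    fun ω hω F hF => hyc (X := X ω) (T := T) hF (yb ω hω) (W.yc1 ω (hB ω hω)) (W.ycn ω (hB ω hω)) hT
      (W.XT ω (hB ω hω))
  obtain ⟨B₁, b11, b12, b13⟩ := hvis W hD V hB hV dV
  have hmV : ∀ ω, B₁ ω → nh D₀ (V ω) ≤ A * Y * mx3 (h3 (V ω) (y ω)) := fun ω hω => by
    refine (b13 ω hω).1.trans (mul_le_mul_of_nonneg_right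
      (mul_le_mul_of_nonneg_left hhY (by linarith)) ?_)
    exact (abs_nonneg _).trans (mx3_ge _ 0 0)
  have hlow : ∀ ω, B' ω → 16 * A * Y ^ 2 * e₂ ≤ nh D₀ (V ω) := fun ω hω => by
    obtain ⟨i, j, hij⟩ := hnf ω hω
    have h1 := (ev ω hω (dV ω hω)).1 _ (yb ω hω) i j
    have h2 : C₁ * (16 * A * Y ^ 2 * e₂) ≤ C₁ * nh D₀ (V ω) := by
      refine le_trans (le_of_eq ?_) (hij.trans h1)
      ring
    exact le_of_mul_le_mul_left h2 (by linarith)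
  have hVp : ∀ ω, B' ω → 0 < nh D₀ (V ω) := fun ω hω =>
    lt_of_lt_of_le (by positivity) (hlow ω hω)
  have hPe1 : 0 < Pe p B₁ ∧ κ * Pe p B ≤ Pe p B₁ := by constructor <;> linarith
  obtain ⟨Z, hZ⟩ : ∃ Z : Ω → MvPolynomial (Fin 3) ℝ × (Fin 3 → ℝ), Z = fun ω => (V ω, yc ω) :=
    ⟨_, rfl⟩
  have hB1 : ∀ ω, B₁ ω → B ω := fun ω hω => hB ω (b11 ω hω)
  have hsl : ∀ ω ω', B₁ ω → B₁ ω' → sd ω = sd ω' → sl ω = sl ω' := fun ω ω' h1 h2 =>
    W.sls ω ω' (hB1 ω h1) (hB1 ω' h2)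
  have hZc : Clo B₁ pt sd Z := by
    rw [hZ]
    exact ((hV.sub b11).fine hsl).map2 (W.ycc.sub hB1) Prod.mk
  have hno := W.nhy B₁ hB1 hPe1.2 Z hZc
  -- the place of the maximum at the centre
  have hex : ∀ w : MvPolynomial (Fin 3) ℝ × (Fin 3 → ℝ), ∃ i, ∃ j, |h3 w.1 w.2 i j| =
      mx3 (h3 w.1 w.2) := fun w => mx3_eq _
  choose ii hii using hex
  have hkey := fun w : MvPolynomial (Fin 3) ℝ × (Fin 3 → ℝ) =>
    row_nrm (fun j => h3 w.1 w.2 (ii w) j) (nh D₀ w.1 / (2 * A * Y)) η hη.le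
  choose n hn1 hn2 using hkey
  have hlaw := hno n fun ω _ => hn1 _
  obtain ⟨G, hG⟩ : ∃ G : Ω → Prop, G = fun ω =>
    nh D₀ (V ω) / (2 * A * Y) * η < |∑ j, h3 (V ω) (yc ω) (ii (Z ω)) j * X ω j| := ⟨_, rfl⟩
  have hQ1 : 2 * (A * C₁) * Y ≤ 2 ^ Q := by
    refine le_trans ?_ hQ
    have h1 : Y ≤ Y ^ 3 := by
      calc Y = Y ^ 1 := (pow_one Y).symm
        _ ≤ Y ^ 3 := pow_le_pow_right₀ hY1 (by norm_num)
    exact mul_le_mul (by linarith) h1 hY0.le (by linarith)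
  have hvy : ∀ ω, B₁ ω → 0 < nh D₀ (V ω) / (2 * A * Y) ∧
      ∃ i j, nh D₀ (V ω) / (2 * A * Y) ≤ |h3 (V ω) (yc ω) i j| := fun ω hω =>
    vis_yc hA hY1 (hVp ω (b11 ω hω)) (hmV ω hω) (ev ω (b11 ω hω) (dV ω (b11 ω hω))).2.2.1 hQ1
  have hlaw' : law (Pool.Agent.H49.Ent.cond p B₁ True) (fun ω => B₁ ω ∧ ¬ G ω) True ≤ c := by
    refine le_trans (law_mono' (con_nn hp B₁) fun ω _ hω => ?_) hlaw
    obtain ⟨w1, w2⟩ := hω
    rw [hG] at w2
    rw [not_lt] at w2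
    obtain ⟨v1, i, j, v2⟩ := hvy ω w1
    refine hn2 (Z ω) ?_ ?_ (X ω) ?_
    · rw [hZ]; exact v1
    · obtain ⟨j', hj'⟩ := hii (Z ω)
      refine ⟨j', ?_⟩
      rw [hj']
      rw [hZ]
      exact v2.trans (mx3_ge _ i j)
    · rw [hZ] at w2 ⊢
      exact w2
  have hm1 := nh_step hp hPe1.1 hlaw'
  have m1 : Pe p B₁ ≤ Pe p B' := pe_mn hp b11
  have c1 : c * Pe p B₁ ≤ Pe p B' / 4 := by
    have h1 : c * Pe p B₁ ≤ 1 / 4 * Pe p B₁ :=
      mul_le_mul_of_nonneg_right (by linarith) (pe_nn hp _)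
    linarith
  refine ⟨fun ω => B₁ ω ∧ G ω, fun ω hω => b11 ω hω.1, by linarith, ?_⟩
  rintro ω ⟨hω, hGω⟩
  have w' := b11 ω hω
  rw [hG] at hGω
  obtain ⟨r, hr⟩ : ∃ r : Fin 3 → ℝ, r = fun l => ∑ j, h3 (V ω) (y ω) l j * X ω j := ⟨_, rfl⟩
  obtain ⟨n1, hn1'⟩ : ∃ n1, n1 = nh D₀ (V ω) := ⟨_, rfl⟩
  have hn1p : 0 < n1 := hn1' ▸ hVp ω w'
  obtain ⟨i, hi⟩ : ∃ i, i = ii (Z ω) := ⟨_, rfl⟩
  rw [← hi, ← hn1'] at hGω
  -- the row at the own point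
  have hrow : n1 / (4 * A * Y ^ 2) ≤ |r i| := by
    have h1 : n1 / (2 * A * Y ^ 2) ≤ n1 / (2 * A * Y) * η := by
      rw [div_mul_eq_mul_div, div_le_div_iff₀ (by positivity) (by positivity)]
      have h2 : n1 * (2 * A * Y) * 1 ≤ n1 * (2 * A * Y) * (Y * η) :=
        mul_le_mul_of_nonneg_left hYη (by positivity)
      nlinarith
    have h2 : |∑ j, h3 (V ω) (yc ω) i j * X ω j - r i| ≤ n1 / (4 * A * Y ^ 2) := by
      rw [hr]
      simp only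
      rw [← Finset.sum_sub_distrib]
      refine (Finset.abs_sum_le_sum_abs _ _).trans ?_
      refine (Finset.sum_le_sum (g := fun _ => C₁ * n1 / 2 ^ Q * T) fun j _ => ?_).trans ?_
      · rw [← sub_mul, abs_mul, abs_sub_comm]
        refine mul_le_mul ?_ (W.XT ω (hB ω w') j) (abs_nonneg _) ?_
        · rw [hn1']
          exact (ev ω w' (dV ω w')).2.2.1 i j
        · have : 0 ≤ C₁ * n1 := mul_nonneg (by linarith) hn1p.le
          positivity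
      · rw [Finset.sum_const, Finset.card_univ, Fintype.card_fin, nsmul_eq_mul]
        push_cast
        have h3 : C₁ * n1 / 2 ^ Q * T ≤ C₁ * n1 / 2 ^ Q * Y :=
          mul_le_mul_of_nonneg_left hTY (by
            have : 0 ≤ C₁ * n1 := mul_nonneg (by linarith) hn1p.le
            positivity)
        have h4 : 3 * (C₁ * n1 / 2 ^ Q * Y) ≤ n1 / (4 * A * Y ^ 2) := by
          have e : 3 * (C₁ * n1 / 2 ^ Q * Y) = 3 * C₁ * n1 * Y / 2 ^ Q := by ring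
          rw [e, div_le_div_iff₀ hQ0 (by positivity)]
          have h5 : 3 * C₁ * Y * (4 * A * Y ^ 2) ≤ 2 ^ Q := by
            refine le_trans ?_ hQ
            have : 0 ≤ A * C₁ * Y ^ 3 := by positivity
            nlinarith
          calc 3 * C₁ * n1 * Y * (4 * A * Y ^ 2) = n1 * (3 * C₁ * Y * (4 * A * Y ^ 2)) := by ring
            _ ≤ n1 * 2 ^ Q := mul_le_mul_of_nonneg_left h5 hn1p.le
        linarith
    have h3 : n1 / (2 * A * Y ^ 2) = 2 * (n1 / (4 * A * Y ^ 2)) := by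
      field_simp
      ring
    have h4 := abs_sub_abs_le_abs_sub (∑ j, Pool.CUB46.h3 (V ω) (yc ω) i j * X ω j) (r i)
    linarith
  have hfin : ∀ l : Fin 3, n1 / (16 * A * Y ^ 3) ≤ |r l| →
      n1 ≤ 16 * (A * C₁) * Y ^ 3 * |∑ j, h3 (V ω) (y ω) l j * X ω j| := by
    intro l hl
    rw [div_le_iff₀ (by positivity)] at hl
    have e : |∑ j, h3 (V ω) (y ω) l j * X ω j| = |r l| := by rw [hr]
    rw [e]
    refine hl.trans ?_
    have h1 : 0 ≤ |r l| * (16 * A * Y ^ 3) := by positivity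
    calc |r l| * (16 * A * Y ^ 3) ≤ (|r l| * (16 * A * Y ^ 3)) * C₁ := le_mul_of_one_le_right h1 hC₁
      _ = _ := by ring
  have h16 : n1 / (16 * A * Y ^ 3) ≤ n1 / (4 * A * Y ^ 2) := by
    rw [div_le_div_iff₀ (by positivity) (by positivity)]
    have : n1 * (4 * A * Y ^ 2) * 1 ≤ n1 * (4 * A * Y ^ 2) * (4 * Y) :=
      mul_le_mul_of_nonneg_left (by linarith) (by positivity)
    nlinarith
  by_cases hi0 : i = 0
  · -- the time row
    subst hi0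
    have hq : q2 (h3 (V ω) (y ω)) (X ω) (X ω) = r 0 + (X ω 1 * r 1 + X ω 2 * r 2) := by
      rw [hr]
      unfold q2
      simp only [Fin.sum_univ_three]
      rw [hX0 ω w']
      ring
    have h1 := q2' ω w'
    rw [hq] at h1
    have h2 : |r 0| ≤ e₂ + Y * (|r 1| + |r 2|) := by
      have h3 := abs_sub_abs_le_abs_sub (r 0) (-(X ω 1 * r 1 + X ω 2 * r 2))
      rw [sub_neg_eq_add, abs_neg] at h3
      have h4 : |X ω 1 * r 1 + X ω 2 * r 2| ≤ Y * (|r 1| + |r 2|) := by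
        refine (abs_add_le _ _).trans ?_
        rw [abs_mul, abs_mul, mul_add]
        exact add_le_add (mul_le_mul_of_nonneg_right ((W.XT ω (hB ω w') 1).trans hTY)
          (abs_nonneg _)) (mul_le_mul_of_nonneg_right ((W.XT ω (hB ω w') 2).trans hTY)
          (abs_nonneg _))
      linarith
    have h3 : e₂ ≤ n1 / (8 * A * Y ^ 2) := by
      rw [le_div_iff₀ (by positivity)]
      have := hlow ω w'
      rw [← hn1'] at this
      have h4 : 0 ≤ A * Y ^ 2 * e₂ := by positivity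
      nlinarith
    have h4 : n1 / (4 * A * Y ^ 2) = n1 / (8 * A * Y ^ 2) + n1 / (8 * A * Y ^ 2) := by
      field_simp
      ring
    have h5 : n1 / (8 * A * Y ^ 2) ≤ Y * (|r 1| + |r 2|) := by linarith
    have h6 : n1 / (8 * A * Y ^ 2) = 2 * Y * (n1 / (16 * A * Y ^ 3)) := by
      field_simp
      ring
    rw [h6] at h5
    have h7 : 2 * (n1 / (16 * A * Y ^ 3)) ≤ |r 1| + |r 2| := by
      have : Y * (2 * (n1 / (16 * A * Y ^ 3))) ≤ Y * (|r 1| + |r 2|) := by linarith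
      exact le_of_mul_le_mul_left this hY0
    rcases le_total (n1 / (16 * A * Y ^ 3)) |r 1| with h8 | h8
    · exact ⟨1, by decide, by rw [← hn1']; exact hfin 1 h8⟩
    · exact ⟨2, by decide, by rw [← hn1']; exact hfin 2 (by linarith)⟩
  · exact ⟨i, hi0, by rw [← hn1']; exact hfin i (h16.trans hrow)⟩

end Pool.CNC76
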