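import Pool.Agent.H76.CNC.Dst

/-!
# One multiplier on the ball: the ratio is constant

`s_step`: if `R'' V''_ij - R''_ij V''` is small on the ball then the ratio of `R''` and `V''` has a
small derivative on the ball.
-/

set_option autoImplicit false

namespace Pool.CNC76

open Finset MvPolynomial
open Pool.Agent.H49.Ent
open Pool.STK (IsLaw)
open Pool.K2S (Pe)
open Pool.CUB46 (q2 l1 h3)
open Pool.D2G30 (nd)
open Pool.D2Con (NoHyp law_mono')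
open Pool.GEN (totalDegree_pdσ)

/-- The derivative of the ratio, times the square of the denominator. -/
noncomputable def Sp (K : ℕ) (V R : MvPolynomial (Fin 3) ℝ) (m : Fin 3) : MvPolynomial (Fin 3) ℝ :=
  pderiv (nhx K V).1.1 (pderiv (nhx K V).1.2 V) *
      pderiv m (pderiv (nhx K V).1.1 (pderiv (nhx K V).1.2 R)) -
    pderiv (nhx K V).1.1 (pderiv (nhx K V).1.2 R) *
      pderiv m (pderiv (nhx K V).1.1 (pderiv (nhx K V).1.2 V))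

theorem eval_Sp (K : ℕ) (V R : MvPolynomial (Fin 3) ℝ) (m : Fin 3) (b : Fin 3 → ℝ) :
    eval b (Sp K V R m) = h3 V b (nhx K V).1.1 (nhx K V).1.2 * t3 R b m (nhx K V).1.1 (nhx K V).1.2 -
      h3 R b (nhx K V).1.1 (nhx K V).1.2 * t3 V b m (nhx K V).1.1 (nhx K V).1.2 := by
  unfold Sp h3 t3
  rw [map_sub, map_mul, map_mul]

theorem deg_Sp {V R : MvPolynomial (Fin 3) ℝ} {K : ℕ} (hV : V.totalDegree ≤ K)
    (hR : R.totalDegree ≤ K) (m : Fin 3) : (Sp K V R m).totalDegree ≤ 2 * K := by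
  unfold Sp
  refine (totalDegree_sub _ _).trans (max_le ?_ ?_)
  · refine (totalDegree_mul _ _).trans ?_
    have := deg_h hV (nhx K V).1.1 (nhx K V).1.2
    have := totalDegree_pdσ (deg_h hR (nhx K V).1.1 (nhx K V).1.2) m
    omega
  · refine (totalDegree_mul _ _).trans ?_
    have := deg_h hR (nhx K V).1.1 (nhx K V).1.2
    have := totalDegree_pdσ (deg_h hV (nhx K V).1.1 (nhx K V).1.2) m
    omega

theorem eval_pd_Dp (V R : MvPolynomial (Fin 3) ℝ) (b : Fin 3 → ℝ) (m i j k l : Fin 3) :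
    eval b (pderiv m (Dp V R ((i, j), (k, l)))) =
      t3 R b m k l * h3 V b i j + h3 R b k l * t3 V b m i j -
        (t3 R b m i j * h3 V b k l + h3 R b i j * t3 V b m k l) := by
  unfold Dp h3 t3
  rw [map_sub, pderiv_mul, pderiv_mul, map_sub, map_add, map_add, map_mul, map_mul, map_mul,
    map_mul]

/-- The form is visible at the closed centre. -/
theorem vis_yc {D₀ : ℕ} {V : MvPolynomial (Fin 3) ℝ} {y yc : Fin 3 → ℝ} {Q : ℕ} {A C₁ Y : ℝ}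
    (hA : 1 ≤ A) (hY : 1 ≤ Y) (v1 : 0 < nh D₀ V) (v2 : nh D₀ V ≤ A * Y * mx3 (h3 V y))
    (h : ∀ i j, |h3 V y i j - h3 V yc i j| ≤ C₁ * nh D₀ V / 2 ^ Q)
    (hQ : 2 * (A * C₁) * Y ≤ 2 ^ Q) :
    0 < nh D₀ V / (2 * A * Y) ∧ ∃ i j, nh D₀ V / (2 * A * Y) ≤ |h3 V yc i j| := by
  have hQ0 : (0 : ℝ) < 2 ^ Q := by positivity
  refine ⟨by positivity, ?_⟩
  obtain ⟨i, j, hij⟩ := mx3_eq (h3 V y)
  refine ⟨i, j, ?_⟩
  have h1 := h i j
  have h2 : nh D₀ V / (A * Y) ≤ |h3 V y i j| := by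
    rw [hij, div_le_iff₀ (by positivity)]
    linarith
  have h3 : C₁ * nh D₀ V / 2 ^ Q ≤ nh D₀ V / (2 * A * Y) := by
    rw [div_le_div_iff₀ hQ0 (by positivity)]
    nlinarith
  have h4 : nh D₀ V / (A * Y) = 2 * (nh D₀ V / (2 * A * Y)) := by
    field_simp
  have h5 := abs_sub_abs_le_abs_sub (Pool.CUB46.h3 V y i j) (Pool.CUB46.h3 V yc i j)
  linarith

/-- **The ratio is constant.** -/
theorem s_step (D₀ : ℕ) (hD₀ : 1 ≤ D₀) {A A₃ : ℝ} (hA : 1 ≤ A) (hA₃ : 1 ≤ A₃) : ∃ C : ℝ, 1 ≤ C ∧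
    ∀ {Ω P S S' : Type} [Fintype Ω]
    {p : Ω → ℝ} {B : Ω → Prop} {pt : Ω → P} {sl : Ω → S} {sd : Ω → S'} {y yc X : Ω → Fin 3 → ℝ}
    {D h Q : ℕ} {κ η c T Y : ℝ}, Bll p B pt sl sd y yc X D h Q κ η c T → 2 * D₀ ≤ D →
    1 ≤ T → 2 ^ h ≤ Y → T ≤ Y → 0 < η → η ≤ 1 → 1 ≤ Y * η →
    ∀ {B' : Ω → Prop} (V R : Ω → MvPolynomial (Fin 3) ℝ) {e₁ e₂ : ℝ}, (∀ ω, B' ω → B ω) →
      κ * Pe p B ≤ Pe p B' → 0 < Pe p B' →
      Clo B' pt sl V → Clo B' pt sl R →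
      (∀ ω, B' ω → (V ω).totalDegree ≤ D₀) → (∀ ω, B' ω → (R ω).totalDegree ≤ D₀) →
      0 < e₁ → 0 < e₂ →
      (∀ ω, B' ω → |q2 (h3 (V ω) (y ω)) (X ω) (X ω)| ≤ e₂) →
      (∀ ω, B' ω → 0 < nh D₀ (V ω) ∧ nh D₀ (V ω) ≤ A * Y * mx3 (h3 (V ω) (y ω))) →
      (∀ ω, B' ω → ∀ b, Bx b → ∀ i j k l,
          |h3 (R ω) b k l * h3 (V ω) b i j - h3 (R ω) b i j * h3 (V ω) b k l| ≤
            A₃ * Y ^ 4 * (nh D₀ (R ω) * e₂ + nh D₀ (V ω) * e₁)) →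
      C * Y ≤ 2 ^ Q → (∀ ω, B' ω → C * Y ^ 2 * nh D₀ (V ω) ≤ 2 ^ Q * e₂) →
      (∀ ω, B' ω → C * Y ^ 3 * e₂ ≤ nh D₀ (V ω)) →
      ∃ B'' : Ω → Prop, (∀ ω, B'' ω → B' ω) ∧
        Pe p B' ≤ Pe p B'' + κ * Pe p B + c * Pe p B' ∧
        ∀ ω, B'' ω → ∀ b, Bx b → ∀ m, |eval b (Sp D₀ (V ω) (R ω) m)| ≤
            C * Y ^ 10 * (nh D₀ (R ω) * e₂ + nh D₀ (V ω) * e₁) := by
  classical
  obtain ⟨C₁, hC₁, hyc⟩ := yc_ev D₀ hD₀
  obtain ⟨C₂, hC₂, hrel⟩ := rel_max (2 * D₀) (by omega)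
  obtain ⟨C₃, hC₃, hlip⟩ := lip_bx (2 * D₀)
  obtain ⟨C₄, hC₄, hder⟩ := der_bx (2 * D₀)
  obtain ⟨Cd, hCd⟩ : ∃ Cd : ℝ, Cd = 4 * C₁ * C₄ := ⟨_, rfl⟩
  have h14 : 1 ≤ C₁ * C₄ := one_le_mul_of_one_le_of_one_le hC₁ hC₄
  have hCd1 : 1 ≤ Cd := by rw [hCd]; linarith
  obtain ⟨Cg, hCg⟩ : ∃ Cg : ℝ, Cg = 72 * A * Cd * A₃ + 2 * C₃ * C₁ ^ 2 := ⟨_, rfl⟩
  have hC12 : 1 ≤ C₁ ^ 2 := one_le_pow₀ hC₁
  have hAC : 1 ≤ A * Cd * A₃ := one_le_mul_of_one_le_of_one_le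
    (one_le_mul_of_one_le_of_one_le hA hCd1) hA₃
  have hCC : 1 ≤ C₃ * C₁ ^ 2 := one_le_mul_of_one_le_of_one_le hC₃ hC12
  have hCg1 : 1 ≤ Cg := by rw [hCg]; linarith
  have hC2g : 1 ≤ C₂ * Cg := one_le_mul_of_one_le_of_one_le hC₂ hCg1
  have hAC1 : 1 ≤ A * C₁ := one_le_mul_of_one_le_of_one_le hA hC₁
  refine ⟨C₂ * Cg + 2 * (A * C₁) + C₁ + 16 * A, by linarith, ?_⟩
  intro Ω P S S' _ p B pt sl sd y yc X D h Q κ η c T Y W hD hT hhY hTY hη hη1 hYη B' V R e₁ e₂ hB hκ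
    hpos hV hR dV dR he1 he2 q2' hvis hD3 hQ1 hQ2 hfl
  have hp := W.law.nonneg
  have hY1 : 1 ≤ Y := hT.trans hTY
  have hY0 : 0 < Y := by linarith
  have hT0 : 0 < T := by linarith
  have hQ0 : (0 : ℝ) < 2 ^ Q := by positivity
  have nV0 : ∀ F, 0 ≤ nh D₀ F := nh_nn D₀
  have yb : ∀ ω, B' ω → Bx (y ω) := fun ω hω i => (W.y1 ω (hB ω hω) i).trans (by norm_num)
  have ev : ∀ ω, B' ω → ∀ {F : MvPolynomial (Fin 3) ℝ}, F.totalDegree ≤ D₀ → _ :=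
    fun ω hω F hF => hyc (X := X ω) (T := T) hF (yb ω hω) (W.yc1 ω (hB ω hω)) (W.ycn ω (hB ω hω)) hT
      (W.XT ω (hB ω hω))
  obtain ⟨Z, hZ⟩ : ∃ Z : Ω → MvPolynomial (Fin 3) ℝ × MvPolynomial (Fin 3) ℝ × (Fin 3 → ℝ),
    Z = fun ω => (V ω, R ω, yc ω) := ⟨_, rfl⟩
  have hsl : ∀ ω ω', B' ω → B' ω' → sd ω = sd ω' → sl ω = sl ω' := fun ω ω' h1 h2 =>
    W.sls ω ω' (hB ω h1) (hB ω' h2)
  have hZc : Clo B' pt sd Z := by
    rw [hZ]
    exact (hV.fine hsl).map2 ((hR.fine hsl).map2 (W.ycc.sub hB) Prod.mk) Prod.mk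
  have hno := W.nhy B' hB hκ Z hZc
  -- the scaled direction
  have hno' : NoHyp (Pool.Agent.H49.Ent.cond p B' True) (fun ω i => X ω i / T) Z (η / T) c := by
    intro n hn
    refine le_trans (law_mono' (con_nn hp B') fun ω _ hω => ?_) (hno n hn)
    have e : ∑ j, n (Z ω) j * (X ω j / T) = (∑ j, n (Z ω) j * X ω j) / T := by
      rw [Finset.sum_div]
      exact Finset.sum_congr rfl fun j _ => by ring
    rw [e, abs_div, abs_of_pos hT0, div_le_div_iff_of_pos_right hT0] at hω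
    exact hω
  obtain ⟨w, hw⟩ : ∃ w : MvPolynomial (Fin 3) ℝ × MvPolynomial (Fin 3) ℝ × (Fin 3 → ℝ) → ℝ,
    w = fun z => nh D₀ z.2.1 * e₂ + nh D₀ z.1 * e₁ := ⟨_, rfl⟩
  have hwp : ∀ ω, B' ω → 0 < nh D₀ (R ω) * e₂ + nh D₀ (V ω) * e₁ := fun ω hω =>
    add_pos_of_nonneg_of_pos (mul_nonneg (nV0 _) he2.le) (mul_pos (hvis ω hω).1 he1)
  -- the symmetric identity on the cube
  have hsym : ∀ ω, B' ω → ∀ b, Bx b → ∀ m k l,
      |eval b (Sp D₀ (V ω) (R ω) m) * h3 (V ω) b k l -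
        eval b (Sp D₀ (V ω) (R ω) k) * h3 (V ω) b m l| ≤
      Cd * nh D₀ (V ω) * (A₃ * Y ^ 4 * (nh D₀ (R ω) * e₂ + nh D₀ (V ω) * e₁)) := by
    intro ω hω b hb m k l
    obtain ⟨a1, a2, -, -⟩ := ev ω hω (dV ω hω)
    obtain ⟨E, hE⟩ : ∃ E, E = A₃ * Y ^ 4 * (nh D₀ (R ω) * e₂ + nh D₀ (V ω) * e₁) := ⟨_, rfl⟩
    have hE0 : 0 ≤ E := by
      rw [hE]
      have := (hwp ω hω).le
      positivity
    have d1 : ∀ i j k l, ∀ b, Bx b → |eval b (Dp (V ω) (R ω) ((i, j), (k, l)))| ≤ E :=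
      fun i j k l b hb => by
      rw [eval_Dp, hE]
      exact hD3 ω hω b hb i j k l
    have d2 : ∀ i j k l m, ∀ b, Bx b →
        |eval b (pderiv m (Dp (V ω) (R ω) ((i, j), (k, l))))| ≤ C₄ * E := fun i j k l m b hb =>
      hder (deg_Dp (dV ω hω) (dR ω hω) _) (d1 i j k l) m b hb
    obtain ⟨i, hi⟩ : ∃ i, i = (nhx D₀ (V ω)).1.1 := ⟨_, rfl⟩
    obtain ⟨j, hj⟩ : ∃ j, j = (nhx D₀ (V ω)).1.2 := ⟨_, rfl⟩
    rw [eval_Sp, eval_Sp, ← hi, ← hj, sym_id, ← eval_Dp, ← eval_Dp, ← eval_pd_Dp, ← eval_pd_Dp,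
      ← hE]
    have n1 : 0 ≤ C₁ * nh D₀ (V ω) := mul_nonneg (by linarith) (nV0 _)
    have t1 := mul_le_mul (a2 b hb m i j) (d1 i j k l b hb) (abs_nonneg _) n1
    have t2 := mul_le_mul (a1 b hb i j) (d2 i j k l m b hb) (abs_nonneg _) n1
    have t3' := mul_le_mul (a2 b hb k i j) (d1 i j m l b hb) (abs_nonneg _) n1
    have t4 := mul_le_mul (a1 b hb i j) (d2 i j m l k b hb) (abs_nonneg _) n1
    rw [← abs_mul] at t1 t2 t3' t4
    have e1 : C₁ * nh D₀ (V ω) * E ≤ C₁ * C₄ * (nh D₀ (V ω) * E) := by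
      have : 0 ≤ C₁ * (nh D₀ (V ω) * E) := mul_nonneg (by linarith) (mul_nonneg (nV0 _) hE0)
      nlinarith
    have e2 : C₁ * nh D₀ (V ω) * (C₄ * E) = C₁ * C₄ * (nh D₀ (V ω) * E) := by ring
    have e3 : Cd * nh D₀ (V ω) * E = 4 * (C₁ * C₄ * (nh D₀ (V ω) * E)) := by rw [hCd]; ring
    rw [e3]
    rw [e2] at t2 t4
    rw [abs_le] at t1 t2 t3' t4 ⊢
    constructor <;> linarith [t1.1, t1.2, t2.1, t2.2, t3'.1, t3'.2, t4.1, t4.2]
  obtain ⟨de, hde⟩ : ∃ de : MvPolynomial (Fin 3) ℝ × MvPolynomial (Fin 3) ℝ × (Fin 3 → ℝ) → ℝ,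
    de = fun z => Cd * nh D₀ z.1 * (A₃ * Y ^ 4 * w z) := ⟨_, rfl⟩
  obtain ⟨kk, hkk⟩ : ∃ kk : MvPolynomial (Fin 3) ℝ × MvPolynomial (Fin 3) ℝ × (Fin 3 → ℝ) → ℝ,
    kk = fun z => nh D₀ z.1 / (2 * A * Y) := ⟨_, rfl⟩
  obtain ⟨si, hsi⟩ : ∃ si : MvPolynomial (Fin 3) ℝ × MvPolynomial (Fin 3) ℝ × (Fin 3 → ℝ) → ℝ,
    si = fun z => 36 * de z / (kk z * (η / T) ^ 2) := ⟨_, rfl⟩
  have hvy : ∀ ω, B' ω → 0 < nh D₀ (V ω) / (2 * A * Y) ∧
      ∃ i j, nh D₀ (V ω) / (2 * A * Y) ≤ |h3 (V ω) (yc ω) i j| := fun ω hω =>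
    vis_yc hA hY1 (hvis ω hω).1 (hvis ω hω).2 (ev ω hω (dV ω hω)).2.2.1 (by
      refine le_trans (mul_le_mul_of_nonneg_right ?_ hY0.le) hQ1
      linarith)
  have hdep : ∀ ω, B' ω → 0 < de (Z ω) := fun ω hω => by
    rw [hde, hw, hZ]
    have h1 := (hvis ω hω).1
    have h2 := hwp ω hω
    have h3 : (0 : ℝ) < Cd := by linarith
    have h4 : (0 : ℝ) < A₃ := by linarith
    positivity
  have hrank := rank_law (q := Pool.Agent.H49.Ent.cond p B' True) (X := fun ω i => X ω i / T)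
    (z := Z) (con_nn hp B') hno' (by positivity) (by
      rw [div_le_one hT0]
      linarith) (s := fun z m => eval z.2.2 (Sp D₀ z.1 z.2.1 m)) (S := fun z => h3 z.1 z.2.2)
    (δ := de) (k := kk) (σ := si) B' (fun ω _ i j => h3_symm _ _ i j)
    (fun ω hω => by
      rw [hkk, hZ]
      exact hvy ω hω)
    (fun ω hω i j l => by
      rw [hde, hw, hZ]
      exact hsym ω hω _ (W.yc1 ω (hB ω hω)) i j l)
    (fun ω hω => by
      have h1 := hdep ω hω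
      have h2 := (hvy ω hω).1
      have h3 : 0 < kk (Z ω) := by rw [hkk, hZ]; exact h2
      rw [hsi]
      refine ⟨by positivity, le_of_eq ?_⟩
      have : kk (Z ω) * (η / T) ^ 2 ≠ 0 := by positivity
      field_simp)
    (fun ω hω j => by
      rw [abs_div, abs_of_pos hT0, div_le_one hT0]
      exact W.XT ω (hB ω hω) j)
    (fun ω hω => by
      rw [hkk, hZ]
      have e : q2 (h3 (V ω) (yc ω)) (fun i => X ω i / T) (fun i => X ω i / T) =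
          q2 (h3 (V ω) (yc ω)) (X ω) (X ω) / T ^ 2 := by
        unfold q2
        rw [Finset.sum_div]
        refine Finset.sum_congr rfl fun i _ => ?_
        rw [Finset.sum_div]
        refine Finset.sum_congr rfl fun j _ => ?_
        field_simp
      show |q2 (h3 (V ω) (yc ω)) (fun i => X ω i / T) (fun i => X ω i / T)| ≤
        nh D₀ (V ω) / (2 * A * Y) * (η / T) ^ 2 / 4
      rw [e, abs_div, abs_of_pos (by positivity : (0 : ℝ) < T ^ 2)]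
      have h1 : |q2 (h3 (V ω) (yc ω)) (X ω) (X ω)| ≤ 2 * e₂ := by
        refine (ev ω hω (dV ω hω)).2.2.2.trans ?_
        have h1 : C₁ * nh D₀ (V ω) * T ^ 2 / 2 ^ Q ≤ e₂ := by
          rw [div_le_iff₀ hQ0]
          have h2 : C₁ * nh D₀ (V ω) * T ^ 2 ≤ C₁ * nh D₀ (V ω) * Y ^ 2 :=
            mul_le_mul_of_nonneg_left (pow_le_pow_left₀ (by linarith) hTY 2)
              (mul_nonneg (by linarith) (nV0 _))
          have h3 := hQ2 ω hω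
          have h4 : C₁ * nh D₀ (V ω) * Y ^ 2 ≤ (C₂ * Cg + 2 * (A * C₁) + C₁ + 16 * A) * Y ^ 2 *
              nh D₀ (V ω) := by
            have : 0 ≤ Y ^ 2 * nh D₀ (V ω) := mul_nonneg (sq_nonneg Y) (nV0 _)
            nlinarith
          linarith
        linarith [q2' ω hω]
      have e2 : nh D₀ (V ω) / (2 * A * Y) * (η / T) ^ 2 / 4 =
          (nh D₀ (V ω) * η ^ 2 / (8 * A * Y)) / T ^ 2 := by
        field_simp
        ring
      rw [e2]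
      refine div_le_div_of_nonneg_right (h1.trans ?_) (by positivity)
      rw [le_div_iff₀ (by positivity)]
      have h5 := hfl ω hω
      have h6 : 16 * A * Y ^ 3 * e₂ ≤ nh D₀ (V ω) := by
        refine le_trans ?_ h5
        have : 0 ≤ Y ^ 3 * e₂ := by positivity
        nlinarith
      have h7 : 1 ≤ Y ^ 2 * η ^ 2 := by
        rw [← mul_pow]
        exact one_le_pow₀ hYη
      have h8 : 2 * e₂ * (8 * A * Y) ≤ (2 * e₂ * (8 * A * Y)) * (Y ^ 2 * η ^ 2) :=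
        le_mul_of_one_le_right (by positivity) h7
      have h9 : 16 * A * Y ^ 3 * e₂ * η ^ 2 ≤ nh D₀ (V ω) * η ^ 2 :=
        mul_le_mul_of_nonneg_right h6 (by positivity)
      nlinarith)
  obtain ⟨G, hG⟩ : ∃ G : Ω → Prop, G = fun ω => ∀ m,
    |eval (yc ω) (Sp D₀ (V ω) (R ω) m)| < si (Z ω) := ⟨_, rfl⟩
  have hlaw' : law (Pool.Agent.H49.Ent.cond p B' True) (fun ω => B' ω ∧ ¬ G ω) True ≤ c := by
    refine le_trans (law_mono' (con_nn hp B') fun ω _ hω => ?_) hrank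
    refine ⟨hω.1, ?_⟩
    have h1 := hω.2
    rw [hG] at h1
    push Not at h1
    obtain ⟨m, hm⟩ := h1
    refine ⟨m, hm.trans (le_of_eq ?_)⟩
    rw [hZ]
  have hm1 := nh_step hp hpos hlaw'
  have hBG : ∀ ω, (B' ω ∧ G ω) → B' ω := fun ω h => h.1
  obtain ⟨B'', g1, g2, g3⟩ := hrel W hD (B' := fun ω => B' ω ∧ G ω)
    (fun (m : Fin 3) ω => Sp D₀ (V ω) (R ω) m)
    (fun ω => Cg * Y ^ 9 * (nh D₀ (R ω) * e₂ + nh D₀ (V ω) * e₁)) (fun ω hω => hB ω hω.1)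
    (fun x => (hV.sub hBG).map2 (hR.sub hBG) fun F F' => Sp D₀ F F' x)
    (fun x ω hω => deg_Sp (dV ω hω.1) (dR ω hω.1) x) (by
      rintro ω ⟨hω, hGω⟩ m
      rw [hG] at hGω
      obtain ⟨v1, v2⟩ := hvis ω hω
      obtain ⟨a1, a2, -, -⟩ := ev ω hω (dV ω hω)
      obtain ⟨b1, b2, -, -⟩ := ev ω hω (dR ω hω)
      have hyc' := W.yc1 ω (hB ω hω)
      have hwω := hwp ω hω
      -- at the closed centre
      have c1 : |eval (yc ω) (Sp D₀ (V ω) (R ω) m)| ≤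
          72 * A * Cd * A₃ * Y ^ 9 * (nh D₀ (R ω) * e₂ + nh D₀ (V ω) * e₁) := by
        refine (hGω m).le.trans ?_
        rw [hsi, hde, hkk, hw, hZ]
        show 36 * (Cd * nh D₀ (V ω) * (A₃ * Y ^ 4 * (nh D₀ (R ω) * e₂ + nh D₀ (V ω) * e₁))) /
          (nh D₀ (V ω) / (2 * A * Y) * (η / T) ^ 2) ≤ _
        obtain ⟨u, hu⟩ : ∃ u, u = nh D₀ (R ω) * e₂ + nh D₀ (V ω) * e₁ := ⟨_, rfl⟩
        rw [← hu] at hwω ⊢
        have e : 36 * (Cd * nh D₀ (V ω) * (A₃ * Y ^ 4 * u)) /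
            (nh D₀ (V ω) / (2 * A * Y) * (η / T) ^ 2) =
            72 * A * Cd * A₃ * Y ^ 5 * u * (T ^ 2 * (1 / η ^ 2)) := by
          field_simp
          ring
        rw [e]
        have h1 : T ^ 2 * (1 / η ^ 2) ≤ Y ^ 2 * Y ^ 2 := by
          refine mul_le_mul (pow_le_pow_left₀ hT0.le hTY 2) ?_ (by positivity) (by positivity)
          rw [div_le_iff₀ (by positivity), ← mul_pow]
          exact one_le_pow₀ hYη
        have h2 : 0 ≤ 72 * A * Cd * A₃ * Y ^ 5 * u := by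
          have : (0 : ℝ) ≤ Cd := by linarith
          positivity
        calc 72 * A * Cd * A₃ * Y ^ 5 * u * (T ^ 2 * (1 / η ^ 2)) ≤
            72 * A * Cd * A₃ * Y ^ 5 * u * (Y ^ 2 * Y ^ 2) := mul_le_mul_of_nonneg_left h1 h2
          _ = _ := by ring
      -- the Lipschitz bound
      have hsup : ∀ b, Bx b → |eval b (Sp D₀ (V ω) (R ω) m)| ≤
          2 * C₁ ^ 2 * (nh D₀ (V ω) * nh D₀ (R ω)) := by
        intro b hb
        rw [eval_Sp]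
        refine (abs_sub _ _).trans ?_
        rw [abs_mul, abs_mul]
        have d1 := mul_le_mul (a1 b hb (nhx D₀ (V ω)).1.1 (nhx D₀ (V ω)).1.2)
          (b2 b hb m (nhx D₀ (V ω)).1.1 (nhx D₀ (V ω)).1.2) (abs_nonneg _)
          (mul_nonneg (by linarith) (nV0 _))
        have d2 := mul_le_mul (b1 b hb (nhx D₀ (V ω)).1.1 (nhx D₀ (V ω)).1.2)
          (a2 b hb m (nhx D₀ (V ω)).1.1 (nhx D₀ (V ω)).1.2) (abs_nonneg _)
          (mul_nonneg (by linarith) (nV0 _))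
        nlinarith
      have c2 := hlip (by omega) (deg_Sp (dV ω hω) (dR ω hω) m) hsup
        (δ := 1 / 2 ^ Q) (by positivity) (y ω) (yc ω) (yb ω hω) hyc' (W.ycn ω (hB ω hω))
      have c3 : C₃ * (2 * C₁ ^ 2 * (nh D₀ (V ω) * nh D₀ (R ω))) * (1 / 2 ^ Q) ≤
          2 * C₃ * C₁ ^ 2 * (nh D₀ (R ω) * e₂) := by
        have d1 : nh D₀ (V ω) ≤ 2 ^ Q * e₂ := by
          have d2 := hQ2 ω hω
          have d3 : 1 ≤ Y ^ 2 := one_le_pow₀ hY1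
          have d4 : (1 : ℝ) ≤ (C₂ * Cg + 2 * (A * C₁) + C₁ + 16 * A) * Y ^ 2 :=
            one_le_mul_of_one_le_of_one_le (by linarith) d3
          have d5 := le_mul_of_one_le_left v1.le d4
          linarith
        have e : C₃ * (2 * C₁ ^ 2 * (nh D₀ (V ω) * nh D₀ (R ω))) * (1 / 2 ^ Q) =
            2 * C₃ * C₁ ^ 2 * (nh D₀ (R ω) * (nh D₀ (V ω) / 2 ^ Q)) := by ring
        rw [e]
        refine mul_le_mul_of_nonneg_left (mul_le_mul_of_nonneg_left ?_ (nV0 _)) (by positivity)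
        rw [div_le_iff₀ hQ0]
        linarith
      have c5 : |eval (y ω) (Sp D₀ (V ω) (R ω) m)| ≤
          |eval (yc ω) (Sp D₀ (V ω) (R ω) m)| +
          |eval (y ω) (Sp D₀ (V ω) (R ω) m) - eval (yc ω) (Sp D₀ (V ω) (R ω) m)| := by
        have := abs_add_le (eval (yc ω) (Sp D₀ (V ω) (R ω) m))
          (eval (y ω) (Sp D₀ (V ω) (R ω) m) - eval (yc ω) (Sp D₀ (V ω) (R ω) m))
        rwa [add_sub_cancel] at this
      have c6 : 2 * C₃ * C₁ ^ 2 * (nh D₀ (R ω) * e₂) ≤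
          2 * C₃ * C₁ ^ 2 * Y ^ 9 * (nh D₀ (R ω) * e₂ + nh D₀ (V ω) * e₁) := by
        have d1 : 0 ≤ nh D₀ (R ω) * e₂ := mul_nonneg (nV0 _) he2.le
        have d2 : 0 ≤ nh D₀ (V ω) * e₁ := mul_nonneg (nV0 _) he1.le
        have d3 : 1 ≤ Y ^ 9 := one_le_pow₀ hY1
        calc 2 * C₃ * C₁ ^ 2 * (nh D₀ (R ω) * e₂) ≤
            2 * C₃ * C₁ ^ 2 * (nh D₀ (R ω) * e₂ + nh D₀ (V ω) * e₁) :=
              mul_le_mul_of_nonneg_left (by linarith) (by positivity)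
          _ ≤ (2 * C₃ * C₁ ^ 2 * (nh D₀ (R ω) * e₂ + nh D₀ (V ω) * e₁)) * Y ^ 9 :=
              le_mul_of_one_le_right (by positivity) d3
          _ = _ := by ring
      show |eval (y ω) (Sp D₀ (V ω) (R ω) m)| ≤
        Cg * Y ^ 9 * (nh D₀ (R ω) * e₂ + nh D₀ (V ω) * e₁)
      rw [hCg]
      linarith)
  refine ⟨B'', fun ω hω => (g1 ω hω).1, by linarith, fun ω hω b hb m => ?_⟩
  refine (g3 ω hω m b hb).trans ?_
  have hw' := (hwp ω (g1 ω hω).1).le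
  have h2 : C₂ * 2 ^ h * (Cg * Y ^ 9 * (nh D₀ (R ω) * e₂ + nh D₀ (V ω) * e₁)) ≤
      C₂ * Y * (Cg * Y ^ 9 * (nh D₀ (R ω) * e₂ + nh D₀ (V ω) * e₁)) :=
    mul_le_mul_of_nonneg_right (mul_le_mul_of_nonneg_left hhY (by linarith)) (by positivity)
  refine h2.trans ?_
  have e : C₂ * Y * (Cg * Y ^ 9 * (nh D₀ (R ω) * e₂ + nh D₀ (V ω) * e₁)) =
      C₂ * Cg * (Y ^ 10 * (nh D₀ (R ω) * e₂ + nh D₀ (V ω) * e₁)) := by ring
  have e' : (C₂ * Cg + 2 * (A * C₁) + C₁ + 16 * A) * Y ^ 10 *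
      (nh D₀ (R ω) * e₂ + nh D₀ (V ω) * e₁) =
      (C₂ * Cg + 2 * (A * C₁) + C₁ + 16 * A) *
        (Y ^ 10 * (nh D₀ (R ω) * e₂ + nh D₀ (V ω) * e₁)) := by ring
  rw [e, e']
  refine mul_le_mul_of_nonneg_right (by linarith) (by positivity)

end Pool.CNC76
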