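import Pool.Agent.H76.CNC.Tay

/-!
# The static case, deterministic part

`Hpf`: the closed polynomial `jet Tu + lam (time) * (V - jet V)`. `sta_det`: it is near the chart `Un`
on the cube of the deep window.
-/

set_option autoImplicit false

namespace Pool.CNC76

open Finset MvPolynomial
open Pool.CUB46 (q2 l1 h3)
open Pool.D2G30 (nd lin eval_lin deriv_lin)
open Pool.GEN (totalDegree_pdσ)

/-- The row of `V`, on the path. -/
noncomputable def nP (xh : Fin 3 → Polynomial ℝ) (V : MvPolynomial (Fin 3) ℝ) (l : Fin 3) :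
    Polynomial ℝ := (cpp xh (pderiv l V)).derivative

/-- The multiplier as a polynomial in the time. -/
noncomputable def lmP (xh : Fin 3 → Polynomial ℝ) (Tu V : MvPolynomial (Fin 3) ℝ) (lt : ℝ)
    (l : Fin 3) (τr : ℝ) (D' : ℕ) : Polynomial ℝ :=
  Polynomial.C lt + ((cpp xh (pderiv l Tu)).derivative - Polynomial.C lt * nP xh V l) *
    (Polynomial.C (1 / (nP xh V l).eval τr) *
      ∑ i ∈ range (D' + 1), (1 - nP xh V l * Polynomial.C (1 / (nP xh V l).eval τr)) ^ i)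

/-- **The closed polynomial.** -/
noncomputable def Hpf (xh : Fin 3 → Polynomial ℝ) (Tu V : MvPolynomial (Fin 3) ℝ) (lt : ℝ)
    (l : Fin 3) (τr : ℝ) (D' : ℕ) : MvPolynomial (Fin 3) ℝ :=
  jet xh Tu + tm (lmP xh Tu V lt l τr D') * (V - jet xh V)

theorem deg_nP {K : ℕ} {xh : Fin 3 → Polynomial ℝ} (hx : ∀ i, (xh i).natDegree ≤ K)
    {V : MvPolynomial (Fin 3) ℝ} (hV : V.totalDegree ≤ K) (l : Fin 3) :
    (nP xh V l).natDegree ≤ K * K :=
  (Polynomial.natDegree_derivative_le _).trans ((Nat.sub_le _ _).trans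
    (deg_cpp hx (totalDegree_pdσ hV l)))

theorem deg_lmP {K : ℕ} {xh : Fin 3 → Polynomial ℝ} (hx : ∀ i, (xh i).natDegree ≤ K)
    {Tu V : MvPolynomial (Fin 3) ℝ} (hT : Tu.totalDegree ≤ K) (hV : V.totalDegree ≤ K) (lt : ℝ)
    (l : Fin 3) (τr : ℝ) (D' : ℕ) : (lmP xh Tu V lt l τr D').natDegree ≤ (D' + 1) * (K * K) := by
  have hn := deg_nP hx hV l
  have hm : (cpp xh (pderiv l Tu)).derivative.natDegree ≤ K * K :=
    (Polynomial.natDegree_derivative_le _).trans ((Nat.sub_le _ _).trans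
      (deg_cpp hx (totalDegree_pdσ hT l)))
  unfold lmP
  refine (Polynomial.natDegree_add_le _ _).trans (max_le ?_ ?_)
  · rw [Polynomial.natDegree_C]
    exact Nat.zero_le _
  · refine Polynomial.natDegree_mul_le.trans ?_
    have h1 : ((cpp xh (pderiv l Tu)).derivative - Polynomial.C lt * nP xh V l).natDegree ≤
        K * K := (Polynomial.natDegree_sub_le _ _).trans (max_le hm
          ((Polynomial.natDegree_C_mul_le _ _).trans hn))
    have h2 : (1 - nP xh V l * Polynomial.C (1 / (nP xh V l).eval τr)).natDegree ≤ K * K := by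
      refine (Polynomial.natDegree_sub_le _ _).trans (max_le ?_ ?_)
      · rw [Polynomial.natDegree_one]
        exact Nat.zero_le _
      · rw [mul_comm]
        exact (Polynomial.natDegree_C_mul_le _ _).trans hn
    have h3 : (Polynomial.C (1 / (nP xh V l).eval τr) *
        ∑ i ∈ range (D' + 1), (1 - nP xh V l * Polynomial.C (1 / (nP xh V l).eval τr)) ^
          i).natDegree ≤ D' * (K * K) := by
      refine (Polynomial.natDegree_C_mul_le _ _).trans ?_
      refine Polynomial.natDegree_sum_le_of_forall_le _ _ fun i hi => ?_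
      refine Polynomial.natDegree_pow_le.trans ?_
      exact Nat.mul_le_mul (Nat.lt_succ_iff.1 (Finset.mem_range.1 hi)) h2
    calc _ ≤ K * K + D' * (K * K) := Nat.add_le_add h1 h3
      _ = (D' + 1) * (K * K) := by ring

theorem deg_Hpf {K : ℕ} (hK : 1 ≤ K) {xh : Fin 3 → Polynomial ℝ}
    (hx : ∀ i, (xh i).natDegree ≤ K)
    {Tu V : MvPolynomial (Fin 3) ℝ} (hT : Tu.totalDegree ≤ K) (hV : V.totalDegree ≤ K) (lt : ℝ)
    (l : Fin 3) (τr : ℝ) (D' : ℕ) : (Hpf xh Tu V lt l τr D').totalDegree ≤ (D' + 3) * (K * K) := by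
  have hKK : K ≤ K * K := Nat.le_mul_of_pos_left K (by omega)
  unfold Hpf
  have h1 := deg_jet hK hx hT
  have h2 := deg_jet hK hx hV
  have h3 := deg_tm (deg_lmP hx hT hV lt l τr D')
  have e : (D' + 3) * (K * K) = (D' + 1) * (K * K) + (K * K + K * K) := by ring
  rw [e]
  refine (totalDegree_add _ _).trans (max_le ?_ ?_)
  · omega
  · refine (totalDegree_mul _ _).trans ?_
    have h4 := (totalDegree_sub V (jet xh V)).trans (max_le (hV.trans
      (by omega : K ≤ K * K + K)) h2)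
    omega

/-- The geometric series. -/
theorem geo_id {n₀ v : ℝ} (h0 : n₀ ≠ 0) (hv : v ≠ 0) (N : ℕ) :
    (1 / n₀) * ∑ i ∈ range N, (1 - v * (1 / n₀)) ^ i = (1 - (1 - v * (1 / n₀)) ^ N) / v := by
  have h1 := mul_neg_geom_sum (1 - v * (1 / n₀)) N
  rw [eq_div_iff hv, ← h1]
  field_simp
  ring

/-- The path of the line. -/
def Pth (xh : Fin 3 → Polynomial ℝ) (Y X : Fin 3 → ℝ) : Prop :=
  ∀ i τ, (xh i).eval τ = Y i + (τ - Y 0) * X i

theorem Pth.der {xh : Fin 3 → Polynomial ℝ} {Y X : Fin 3 → ℝ} (h : Pth xh Y X) (i : Fin 3) (τ : ℝ) :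
    (xh i).derivative.eval τ = X i := by
  have e : xh i = Polynomial.C (Y i - Y 0 * X i) + Polynomial.C (X i) * Polynomial.X := by
    refine Polynomial.funext fun τ => ?_
    rw [h i τ, Polynomial.eval_add, Polynomial.eval_mul, Polynomial.eval_C, Polynomial.eval_C,
      Polynomial.eval_X]
    ring
  rw [e]
  simp

/-- The derivative of the gradient on the path. -/
theorem Pth.row {xh : Fin 3 → Polynomial ℝ} {Y X : Fin 3 → ℝ} (h : Pth xh Y X)
    (F : MvPolynomial (Fin 3) ℝ) (l : Fin 3) (τ : ℝ) :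
    (cpp xh (pderiv l F)).derivative.eval τ =
      ∑ i, h3 F (fun i => (xh i).eval τ) l i * X i := by
  rw [deriv_cpp, Polynomial.eval_finsetSum]
  refine Finset.sum_congr rfl fun i _ => ?_
  rw [Polynomial.eval_mul, eval_cpp, h.der]
  congr 1
  exact h3_symm F _ i l

/-- The gradient path of a chart. -/
theorem grd_win (D₀ : ℕ) : ∃ C : ℝ, 1 ≤ C ∧ ∀ {V U Tu : MvPolynomial (Fin 3) ℝ}
    {xh : Fin 3 → Polynomial ℝ} {Y X a : Fin 3 → ℝ} {ρ E s T lam ε : ℝ} {l : Fin 3},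
    V.totalDegree ≤ D₀ → U.totalDegree ≤ D₀ → Tu.totalDegree ≤ D₀ →
    (∀ i, (xh i).natDegree ≤ D₀) → Pth xh Y X → 1 ≤ T → (∀ i, |X i| ≤ T) → 0 < ρ →
    Cu a (ρ / 2) Y →
    (∀ b, Cu a ρ b → ∀ i j, |h3 U b i j - lam * h3 V b i j| ≤ ε) →
    (∀ τ, |τ - Y 0| ≤ 2 * ρ → |eval (fun i => (xh i).eval τ) (pderiv l Tu) -
      eval (fun i => (xh i).eval τ) (pderiv l U)| ≤ s * E / ρ) →
    ∀ τ, |τ - Y 0| ≤ 2 * ρ →
      |(cpp xh (pderiv l Tu)).derivative.eval τ - lam * (nP xh V l).eval τ| ≤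
        C * T ^ (D₀ + 1) * (s * E / ρ ^ 2 + ε) := by
  obtain ⟨C₁, hC₁, hiv⟩ := der_iv (D₀ * D₀)
  obtain ⟨C₂, hC₂, hgro⟩ := gro_cu D₀
  obtain ⟨C₃, hC₃⟩ : ∃ C₃ : ℝ, C₃ = 3 * (C₂ * 3 ^ D₀) := ⟨_, rfl⟩
  have h3D : (1 : ℝ) ≤ 3 ^ D₀ := one_le_pow₀ (by norm_num)
  have hC₃1 : 1 ≤ C₃ := by rw [hC₃]; nlinarith
  refine ⟨C₁ + C₃, by linarith, ?_⟩
  intro V U Tu xh Y X a ρ E s T lam ε l dV dU dT dx hP hT hX hρ hY hUV hgrd τ hτ
  have hε : 0 ≤ ε := (abs_nonneg _).trans (hUV a (fun i => by simp [hρ.le]) 0 0)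
  have hT0 : 0 < T := by linarith
  have hsE : 0 ≤ s * E / ρ := (abs_nonneg _).trans (hgrd τ hτ)
  -- Markov
  have k1 := hiv (q := cpp xh (pderiv l Tu) - cpp xh (pderiv l U)) (A := s * E / ρ) (a := Y 0)
    (r := 2 * ρ) ((Polynomial.natDegree_sub_le _ _).trans (max_le
      (deg_cpp dx (totalDegree_pdσ dT l)) (deg_cpp dx (totalDegree_pdσ dU l)))) (by positivity)
    (fun τ hτ => by
      rw [Polynomial.eval_sub, eval_cpp, eval_cpp]
      exact hgrd τ hτ) τ hτ
  rw [Polynomial.derivative_sub, Polynomial.eval_sub] at k1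
  -- the second derivatives
  have hxc : Cu a (3 * T * ρ) (fun i => (xh i).eval τ) := fun i => by
    have h1 := hY i
    have h2 : |(τ - Y 0) * X i| ≤ 2 * ρ * T := by
      rw [abs_mul]
      exact mul_le_mul hτ (hX i) (abs_nonneg _) (by positivity)
    have e : (xh i).eval τ - a i = (Y i - a i) + (τ - Y 0) * X i := by rw [hP i τ]; ring
    rw [e]
    refine (abs_add_le _ _).trans ?_
    nlinarith
  have k2 : ∀ i j, |h3 U (fun i => (xh i).eval τ) i j - lam * h3 V (fun i => (xh i).eval τ) i j| ≤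
      C₂ * (3 * T) ^ D₀ * ε := fun i j => by
    have h1 := hgro (P := pderiv i (pderiv j (U - C lam * V))) (A := ε) (M := 3 * T) (ρ := ρ) (a := a)
      (deg_h ((totalDegree_sub _ _).trans (max_le dU (deg_Cmul dV lam))) i j)
      (by linarith) hρ (fun b hb => by
        have h2 := hUV b hb i j
        rw [← h3_Cmul, ← h3_sub] at h2
        exact h2) _ hxc
    have h2 : eval (fun i => (xh i).eval τ) (pderiv i (pderiv j (U - C lam * V))) =
        h3 U (fun i => (xh i).eval τ) i j - lam * h3 V (fun i => (xh i).eval τ) i j := by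
      rw [← h3_Cmul, ← h3_sub]
      rfl
    rw [h2] at h1
    exact h1
  have k3 : |(cpp xh (pderiv l U)).derivative.eval τ - lam * (nP xh V l).eval τ| ≤
      3 * (C₂ * (3 * T) ^ D₀ * ε * T) := by
    unfold nP
    rw [hP.row, hP.row, Finset.mul_sum, ← Finset.sum_sub_distrib]
    refine (Finset.abs_sum_le_sum_abs _ _).trans ?_
    refine (Finset.sum_le_sum (g := fun _ => C₂ * (3 * T) ^ D₀ * ε * T) fun j _ => ?_).trans
      (le_of_eq ?_)
    · have e : h3 U (fun i => (xh i).eval τ) l j * X j -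
          lam * (h3 V (fun i => (xh i).eval τ) l j * X j) =
          (h3 U (fun i => (xh i).eval τ) l j - lam * h3 V (fun i => (xh i).eval τ) l j) * X j := by
        ring
      rw [e, abs_mul]
      exact mul_le_mul (k2 l j) (hX j) (abs_nonneg _) (by positivity)
    · rw [Finset.sum_const, Finset.card_univ, Fintype.card_fin, nsmul_eq_mul]
      push_cast
      ring
  have k4 := abs_add_le ((cpp xh (pderiv l Tu)).derivative.eval τ -
    (cpp xh (pderiv l U)).derivative.eval τ) ((cpp xh (pderiv l U)).derivative.eval τ -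
      lam * (nP xh V l).eval τ)
  rw [sub_add_sub_cancel] at k4
  refine k4.trans ((add_le_add k1 k3).trans ?_)
  have hTD : 1 ≤ T ^ (D₀ + 1) := one_le_pow₀ hT
  have e1 : C₁ * (s * E / ρ) / (2 * ρ) = (1 / 2) * (C₁ * (s * E / ρ ^ 2)) := by
    field_simp
  have e2 : 3 * (C₂ * (3 * T) ^ D₀ * ε * T) = C₃ * T ^ (D₀ + 1) * ε := by
    rw [hC₃, mul_pow, pow_succ T D₀]
    ring
  have hsE2 : 0 ≤ s * E / ρ ^ 2 := by
    have : s * E / ρ ^ 2 = (s * E / ρ) / ρ := by field_simp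
    rw [this]
    positivity
  rw [e1, e2]
  have h1 : (1 / 2) * (C₁ * (s * E / ρ ^ 2)) ≤ C₁ * T ^ (D₀ + 1) * (s * E / ρ ^ 2) := by
    have h2 : C₁ * (s * E / ρ ^ 2) ≤ C₁ * (s * E / ρ ^ 2) * T ^ (D₀ + 1) :=
      le_mul_of_one_le_right (by positivity) hTD
    have h3 : 0 ≤ C₁ * (s * E / ρ ^ 2) := by positivity
    nlinarith
  have h2 : 0 ≤ C₃ * T ^ (D₀ + 1) * (s * E / ρ ^ 2) := by positivity
  have h3 : 0 ≤ C₁ * T ^ (D₀ + 1) * ε := by positivity
  nlinarith

end Pool.CNC76
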