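import Pool.Agent.H76.CNC.Sta

/-!
# The closed polynomial is near the deep chart
-/

set_option autoImplicit false

namespace Pool.CNC76

open Finset MvPolynomial
open Pool.CUB46 (q2 l1 h3)
open Pool.D2G30 (nd lin eval_lin deriv_lin)
open Pool.GEN (totalDegree_pdσ)

/-- The row of `V` on the window. -/
theorem row_win (D₀ : ℕ) (hD₀ : 1 ≤ D₀) : ∃ C : ℝ, 1 ≤ C ∧ ∀ {V : MvPolynomial (Fin 3) ℝ}
    {xh : Fin 3 → Polynomial ℝ} {Y X ak : Fin 3 → ℝ} {ρk ρt T A : ℝ} {l : Fin 3},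
    V.totalDegree ≤ D₀ → Pth xh Y X → 1 ≤ T → (∀ i, |X i| ≤ T) → 0 < ρt → 8 * T * ρt ≤ ρk →
    Cu ak (ρk / 2) Y → (∀ b, Cu ak ρk b → ∀ i j, |h3 V b i j| ≤ A) →
    (∀ τ, |τ - Y 0| ≤ 2 * ρt → Cu ak ρk (fun i => (xh i).eval τ)) ∧
    ∀ τ, |τ - Y 0| ≤ 2 * ρt → |(nP xh V l).eval τ - (nP xh V l).eval (Y 0)| ≤
      C * T ^ 2 * A * (ρt / ρk) := by
  obtain ⟨C₁, hC₁, hlip⟩ := lip_cu D₀ hD₀
  refine ⟨6 * C₁, by linarith, ?_⟩
  intro V xh Y X ak ρk ρt T A l dV hP hT hX hρt hρ hY hA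
  have hT0 : 0 < T := by linarith
  have hρk : 0 < ρk := lt_of_lt_of_le (by positivity) hρ
  have hA0 : 0 ≤ A := (abs_nonneg _).trans (hA ak (fun i => by simp [hρk.le]) 0 0)
  have hcu : ∀ τ, |τ - Y 0| ≤ 2 * ρt → Cu ak ρk (fun i => (xh i).eval τ) := fun τ hτ i => by
    have h1 := hY i
    have h2 : |(τ - Y 0) * X i| ≤ 2 * ρt * T := by
      rw [abs_mul]
      exact mul_le_mul hτ (hX i) (abs_nonneg _) (by positivity)
    have e : (xh i).eval τ - ak i = (Y i - ak i) + (τ - Y 0) * X i := by rw [hP i τ]; ring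
    rw [e]
    refine (abs_add_le _ _).trans ?_
    nlinarith
  refine ⟨hcu, fun τ hτ => ?_⟩
  have h0 : |Y 0 - Y 0| ≤ 2 * ρt := by rw [sub_self, abs_zero]; positivity
  unfold nP
  rw [hP.row, hP.row, ← Finset.sum_sub_distrib]
  refine (Finset.abs_sum_le_sum_abs _ _).trans ?_
  refine (Finset.sum_le_sum (g := fun _ => C₁ * A * (2 * ρt * T / ρk) * T) fun j _ => ?_).trans
    (le_of_eq ?_)
  · rw [← sub_mul, abs_mul]
    refine mul_le_mul ?_ (hX j) (abs_nonneg _) (by positivity)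
    exact hlip (deg_h dV l j) hρk (by positivity) (fun b hb => hA b hb l j) _ _ (hcu τ hτ)
      (hcu _ h0) (fun i => by
        have e : (xh i).eval τ - (xh i).eval (Y 0) = (τ - Y 0) * X i := by
          rw [hP i τ, hP i (Y 0)]; ring
        show |(xh i).eval τ - (xh i).eval (Y 0)| ≤ 2 * ρt * T
        rw [e, abs_mul]
        exact mul_le_mul hτ (hX i) (abs_nonneg _) (by positivity))
  · rw [Finset.sum_const, Finset.card_univ, Fintype.card_fin, nsmul_eq_mul]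
    push_cast
    ring

/-- **The multiplier at the deep window.** -/
theorem lam_near {m' v lt ln n₀ S E₁ E₂ θ G : ℝ} {N : ℕ} (hS : 0 < S) (hv : S / 2 ≤ |v|)
    (hn : S / 2 ≤ |n₀|) (hx : |1 - v * (1 / n₀)| ≤ θ) (h1 : |m' - ln * v| ≤ E₁)
    (h2 : |m' - lt * v| ≤ E₂) (hE : E₂ * θ ^ N ≤ G) (hG : E₁ ≤ G) :
    |lt + (m' - lt * v) * ((1 / n₀) * ∑ i ∈ range N, (1 - v * (1 / n₀)) ^ i) - ln| ≤ 4 * G / S := by
  have hn0 : n₀ ≠ 0 := abs_pos.1 (lt_of_lt_of_le (by positivity) hn)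
  have hv0 : v ≠ 0 := abs_pos.1 (lt_of_lt_of_le (by positivity) hv)
  rw [geo_id hn0 hv0]
  obtain ⟨x, hx'⟩ : ∃ x, x = 1 - v * (1 / n₀) := ⟨_, rfl⟩
  rw [← hx'] at hx ⊢
  have e : lt + (m' - lt * v) * ((1 - x ^ N) / v) - ln =
      ((m' - ln * v) - (m' - lt * v) * x ^ N) / v := by
    field_simp
    ring
  have hθ : 0 ≤ θ := (abs_nonneg _).trans hx
  have hE2 : 0 ≤ E₂ := (abs_nonneg _).trans h2
  rw [e, abs_div, div_le_div_iff₀ (abs_pos.2 hv0) hS]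
  have h3 : |(m' - ln * v) - (m' - lt * v) * x ^ N| ≤ 2 * G := by
    refine (abs_sub _ _).trans ?_
    have h4 : |(m' - lt * v) * x ^ N| ≤ E₂ * θ ^ N := by
      rw [abs_mul, abs_pow]
      exact mul_le_mul h2 (pow_le_pow_left₀ (abs_nonneg _) hx N) (by positivity) hE2
    linarith
  have hG0 : 0 ≤ G := ((abs_nonneg _).trans h1).trans hG
  calc |(m' - ln * v) - (m' - lt * v) * x ^ N| * S ≤ 2 * G * S :=
        mul_le_mul_of_nonneg_right h3 hS.le
    _ = 4 * G * (S / 2) := by ring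
    _ ≤ 4 * G * |v| := mul_le_mul_of_nonneg_left hv (by positivity)

/-- **The closed polynomial is near the chart of the deep window.** -/
theorem sta_det (D₀ : ℕ) (hD₀ : 1 ≤ D₀) : ∃ C : ℝ, 1 ≤ C ∧ ∀ {D' : ℕ}
    {V Ut Un Tu : MvPolynomial (Fin 3) ℝ} {xh : Fin 3 → Polynomial ℝ}
    {Y X ak at' an : Fin 3 → ℝ} {ρk ρt ρn Et En s T M εt εn lt ln S A τr : ℝ} {l : Fin 3},
    V.totalDegree ≤ D₀ → Ut.totalDegree ≤ D₀ → Un.totalDegree ≤ D₀ → Tu.totalDegree ≤ D₀ →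
    (∀ i, (xh i).natDegree ≤ D₀) → Pth xh Y X → X 0 = 1 → 1 ≤ T → (∀ i, |X i| ≤ T) → T ≤ M →
    0 < s → s ≤ M → 0 < Et → 0 < En → 0 < ρn → ρn ≤ ρt → 8 * T * ρt ≤ ρk →
    Cu ak (ρk / 2) Y → Cu at' (ρt / 2) Y → Cu an (ρn / 2) Y → |τr - Y 0| ≤ 2 * ρt →
    (∀ b, Cu ak ρk b → ∀ i j, |h3 V b i j| ≤ A) → 0 < S → A ≤ M ^ 4 * S →
    S = |∑ j, h3 V Y l j * X j| → l ≠ 0 →
    (∀ b, Cu at' ρt b → ∀ i j, |h3 Ut b i j - lt * h3 V b i j| ≤ εt) →
    (∀ b, Cu an ρn b → ∀ i j, |h3 Un b i j - ln * h3 V b i j| ≤ εn) →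
    (∀ τ, |τ - Y 0| ≤ 2 * ρn → |eval (fun i => (xh i).eval τ) Tu -
      eval (fun i => (xh i).eval τ) Un| ≤ s * En) →
    (∀ τ, |τ - Y 0| ≤ 2 * ρt → |eval (fun i => (xh i).eval τ) (pderiv l Tu) -
      eval (fun i => (xh i).eval τ) (pderiv l Ut)| ≤ s * Et / ρt) →
    (∀ τ, |τ - Y 0| ≤ 2 * ρn → ∀ i : Fin 3, i ≠ 0 → |eval (fun i => (xh i).eval τ) (pderiv i Tu) -
      eval (fun i => (xh i).eval τ) (pderiv i Un)| ≤ s * En / ρn) →
    C * M ^ 6 * (ρt / ρk) ≤ 1 →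
    (Et / ρt ^ 2 + εt) * (C * M ^ 6 * (ρt / ρk)) ^ (D' + 1) ≤ En / ρn ^ 2 + εn →
    ∀ b, Cu an ρn b → |eval b (Hpf xh Tu V lt l τr D') - eval b Un| ≤
      C * M ^ (D₀ + 8) * (En + εn * ρn ^ 2) := by
  classical
  obtain ⟨C₁, hC₁, hgw⟩ := grd_win D₀
  obtain ⟨C₂, hC₂, hrw⟩ := row_win D₀ hD₀
  obtain ⟨C₃, hC₃, hgro⟩ := gro_cu D₀
  obtain ⟨C₄, hC₄⟩ : ∃ C₄ : ℝ, C₄ = 9 + 144 * (C₃ * 3 ^ D₀) + 1152 * C₁ := ⟨_, rfl⟩
  have h3D : (1 : ℝ) ≤ 3 ^ D₀ := one_le_pow₀ (by norm_num)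
  have hC33 : 1 ≤ C₃ * 3 ^ D₀ := one_le_mul_of_one_le_of_one_le hC₃ h3D
  refine ⟨C₄ + 8 * C₂, by rw [hC₄]; linarith, ?_⟩
  intro D' V Ut Un Tu xh Y X ak at' an ρk ρt ρn Et En s T M εt εn lt ln S A τr l dV dUt dUn dT dx hP
    hX0 hT hX hTM hs0 hsM hEt hEn hρn hρnt hρtk hYk hYt hYn hτr hA hS hAS hSe hl hlt hln hval hgt hgn
    hθ htail b hb
  have hM1 : 1 ≤ M := hT.trans hTM
  have hM0 : 0 < M := by linarith
  have hT0 : 0 < T := by linarith
  have hρt : 0 < ρt := hρn.trans_le hρnt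
  have hρk : 0 < ρk := lt_of_lt_of_le (by positivity) hρtk
  have hA0 : 0 ≤ A := (abs_nonneg _).trans (hA ak (fun i => by simp [hρk.le]) 0 0)
  have hεt : 0 ≤ εt := (abs_nonneg _).trans (hlt at' (fun i => by simp [hρt.le]) 0 0)
  have hεn : 0 ≤ εn := (abs_nonneg _).trans (hln an (fun i => by simp [hρn.le]) 0 0)
  obtain ⟨hcu, hvar⟩ := hrw (l := l) dV hP hT hX hρt hρtk hYk hA
  -- the value at the own point
  have hn0 : |(nP xh V l).eval (Y 0)| = S := by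
    unfold nP
    rw [hP.row, hSe]
    congr 1
    refine Finset.sum_congr rfl fun j _ => ?_
    have e : (fun i => (xh i).eval (Y 0)) = Y := by
      funext i
      rw [hP i (Y 0)]
      ring
    rw [e]
  obtain ⟨θ, hθd⟩ : ∃ θ, θ = (C₄ + 8 * C₂) * M ^ 6 * (ρt / ρk) := ⟨_, rfl⟩
  rw [← hθd] at hθ htail
  have hvS : C₂ * T ^ 2 * A * (ρt / ρk) ≤ θ / 8 * S := by
    have h1 : C₂ * T ^ 2 * A ≤ C₂ * M ^ 2 * (M ^ 4 * S) :=
      mul_le_mul (mul_le_mul_of_nonneg_left (pow_le_pow_left₀ hT0.le hTM 2) (by linarith)) hAS hA0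
        (by positivity)
    have h2 : 0 ≤ ρt / ρk := by positivity
    have h3 : C₂ * T ^ 2 * A * (ρt / ρk) ≤ C₂ * M ^ 2 * (M ^ 4 * S) * (ρt / ρk) :=
      mul_le_mul_of_nonneg_right h1 h2
    refine h3.trans ?_
    rw [hθd]
    have h4 : 0 ≤ M ^ 6 * (ρt / ρk) * S := by positivity
    have h5 : 8 * C₂ ≤ C₄ + 8 * C₂ := by rw [hC₄]; linarith
    calc C₂ * M ^ 2 * (M ^ 4 * S) * (ρt / ρk) = (8 * C₂) * (M ^ 6 * (ρt / ρk) * S) / 8 := by ring
      _ ≤ (C₄ + 8 * C₂) * (M ^ 6 * (ρt / ρk) * S) / 8 :=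
          div_le_div_of_nonneg_right (mul_le_mul_of_nonneg_right h5 h4) (by norm_num)
      _ = _ := by ring
  have hvar' : ∀ τ, |τ - Y 0| ≤ 2 * ρt → |(nP xh V l).eval τ - (nP xh V l).eval (Y 0)| ≤
      θ / 8 * S := fun τ hτ => (hvar τ hτ).trans hvS
  have hlow : ∀ τ, |τ - Y 0| ≤ 2 * ρt → 7 / 8 * S ≤ |(nP xh V l).eval τ| := fun τ hτ => by
    have h1 := hvar' τ hτ
    have h2 := abs_sub_abs_le_abs_sub ((nP xh V l).eval (Y 0)) ((nP xh V l).eval τ)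
    rw [abs_sub_comm, hn0] at h2
    nlinarith
  obtain ⟨n₀, hn₀⟩ : ∃ n₀, n₀ = (nP xh V l).eval τr := ⟨_, rfl⟩
  have hn₀l : 7 / 8 * S ≤ |n₀| := hn₀ ▸ hlow τr hτr
  have hθ0 : 0 ≤ θ := by
    rw [hθd]
    have : 0 ≤ C₄ + 8 * C₂ := by rw [hC₄]; linarith
    positivity
  have hn₀0 : n₀ ≠ 0 := abs_pos.1 (lt_of_lt_of_le (by positivity) hn₀l)
  have hxθ : ∀ τ, |τ - Y 0| ≤ 2 * ρt → |1 - (nP xh V l).eval τ * (1 / n₀)| ≤ θ := fun τ hτ => by
    have e : 1 - (nP xh V l).eval τ * (1 / n₀) = (n₀ - (nP xh V l).eval τ) / n₀ := by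
      field_simp
    rw [e, abs_div, div_le_iff₀ (abs_pos.2 hn₀0)]
    have h1 := hvar' τ hτ
    have h2 := hvar' τr hτr
    rw [← hn₀] at h2
    have h3 : |n₀ - (nP xh V l).eval τ| ≤ θ / 4 * S := by
      have e2 : n₀ - (nP xh V l).eval τ = (n₀ - (nP xh V l).eval (Y 0)) -
          ((nP xh V l).eval τ - (nP xh V l).eval (Y 0)) := by ring
      rw [e2]
      refine (abs_sub _ _).trans ?_
      linarith
    have h4 : θ * (7 / 8 * S) ≤ θ * |n₀| := mul_le_mul_of_nonneg_left hn₀l hθ0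
    have h5 : 0 ≤ θ * S := by positivity
    linarith
  -- the time
  have hb0 : |b 0 - Y 0| ≤ 2 * ρn := by
    have h1 := hb 0
    have h2 := hYn 0
    rw [abs_le] at h1 h2 ⊢
    constructor <;> linarith [h1.1, h1.2, h2.1, h2.2]
  have hb0t : |b 0 - Y 0| ≤ 2 * ρt := hb0.trans (by linarith)
  obtain ⟨x, hx⟩ : ∃ x : Fin 3 → ℝ, x = fun i => (xh i).eval (b 0) := ⟨_, rfl⟩
  have hx0 : x 0 = b 0 := by
    rw [hx]
    show (xh 0).eval (b 0) = b 0
    rw [hP 0 (b 0), hX0]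
    ring
  -- the gradient path
  have g1 := hgw dV dUt dT dx hP hT hX hρt hYt hlt hgt (b 0) hb0t
  have g2 := hgw dV dUn dT dx hP hT hX hρn hYn hln (fun τ hτ => hgn τ hτ l hl) (b 0) hb0
  obtain ⟨W, hW⟩ : ∃ W, W = C₁ * M ^ (D₀ + 2) := ⟨_, rfl⟩
  have hW0 : 0 < W := by rw [hW]; positivity
  have hTM1 : T ^ (D₀ + 1) ≤ M ^ (D₀ + 1) := pow_le_pow_left₀ hT0.le hTM _
  have hEt2 : 0 ≤ Et / ρt ^ 2 := by positivity
  have hEn2 : 0 ≤ En / ρn ^ 2 := by positivity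
  have gb : ∀ {E r ε : ℝ}, 0 ≤ E / r ^ 2 → 0 ≤ ε → C₁ * T ^ (D₀ + 1) * (s * E / r ^ 2 + ε) ≤
      W * (E / r ^ 2 + ε) := by
    intro E r ε h1 h2
    have e : s * E / r ^ 2 = s * (E / r ^ 2) := by ring
    rw [e]
    have h3 : s * (E / r ^ 2) + ε ≤ M * (E / r ^ 2 + ε) := by
      have := mul_le_mul_of_nonneg_right hsM h1
      nlinarith
    have h4 : 0 ≤ s * (E / r ^ 2) + ε := by positivity
    calc C₁ * T ^ (D₀ + 1) * (s * (E / r ^ 2) + ε)
        ≤ C₁ * M ^ (D₀ + 1) * (M * (E / r ^ 2 + ε)) :=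
          mul_le_mul (mul_le_mul_of_nonneg_left hTM1 (by linarith)) h3 h4 (by positivity)
      _ = W * (E / r ^ 2 + ε) := by rw [hW, pow_succ M (D₀ + 1)]; ring
  have hlam := lam_near (m' := (cpp xh (pderiv l Tu)).derivative.eval (b 0))
    (v := (nP xh V l).eval (b 0)) (lt := lt) (ln := ln) (n₀ := n₀) (S := S)
    (E₁ := W * (En / ρn ^ 2 + εn)) (E₂ := W * (Et / ρt ^ 2 + εt)) (θ := θ)
    (G := W * (En / ρn ^ 2 + εn)) (N := D' + 1) hS
    (by linarith [hlow (b 0) hb0t]) (by linarith) (hxθ (b 0) hb0t)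
    (g2.trans (gb hEn2 hεn)) (g1.trans (gb hEt2 hεt))
    (by
      have := mul_le_mul_of_nonneg_left htail hW0.le
      linarith) le_rfl
  have hlmP : (lmP xh Tu V lt l τr D').eval (b 0) = lt +
      ((cpp xh (pderiv l Tu)).derivative.eval (b 0) - lt * (nP xh V l).eval (b 0)) *
        ((1 / n₀) * ∑ i ∈ range (D' + 1), (1 - (nP xh V l).eval (b 0) * (1 / n₀)) ^ i) := by
    unfold lmP
    rw [← hn₀]
    simp only [Polynomial.eval_add, Polynomial.eval_mul, Polynomial.eval_sub, Polynomial.eval_C,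
      Polynomial.eval_finsetSum, Polynomial.eval_pow, Polynomial.eval_one]
  rw [← hlmP] at hlam
  obtain ⟨L, hL⟩ : ∃ L, L = (lmP xh Tu V lt l τr D').eval (b 0) := ⟨_, rfl⟩
  rw [← hL] at hlam
  -- the positions
  have hbx : ∀ i, |b i - x i| ≤ 4 * T * ρn := fun i => by
    have h1 := hb i
    have h2 := hYn i
    have h3 : |(b 0 - Y 0) * X i| ≤ 2 * ρn * T := by
      rw [abs_mul]
      exact mul_le_mul hb0 (hX i) (abs_nonneg _) (by positivity)
    have e : b i - x i = (b i - an i) - (Y i - an i) - (b 0 - Y 0) * X i := by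
      rw [hx]
      show b i - (xh i).eval (b 0) = _
      rw [hP i (b 0)]
      ring
    rw [e]
    refine (abs_sub _ _).trans ((add_le_add (abs_sub _ _) le_rfl).trans ?_)
    nlinarith
  have hseg : ∀ t ∈ Set.Icc (0 : ℝ) 1, Cu an (3 * T * ρn) (fun i => x i + (b i - x i) * t) ∧
      Cu ak ρk (fun i => x i + (b i - x i) * t) := by
    intro t ht
    have hxk := hcu (b 0) hb0t
    rw [← hx] at hxk
    have hxn : Cu an (3 * T * ρn) x := fun i => by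
      have h2 := hYn i
      have h3 : |(b 0 - Y 0) * X i| ≤ 2 * ρn * T := by
        rw [abs_mul]
        exact mul_le_mul hb0 (hX i) (abs_nonneg _) (by positivity)
      have e : x i - an i = (Y i - an i) + (b 0 - Y 0) * X i := by
        rw [hx]
        show (xh i).eval (b 0) - an i = _
        rw [hP i (b 0)]
        ring
      rw [e]
      refine (abs_add_le _ _).trans ?_
      nlinarith
    have hbn : Cu an (3 * T * ρn) b := fun i => (hb i).trans (by nlinarith)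
    have hbk : Cu ak ρk b := fun i => by
      have h1 := hb i
      have h2 := hYn i
      have h3 := hYk i
      have h4 : ρn ≤ ρk / 8 := by nlinarith
      rw [abs_le] at h1 h2 h3 ⊢
      constructor <;> linarith [h1.1, h1.2, h2.1, h2.2, h3.1, h3.2]
    have hcv : ∀ {a : Fin 3 → ℝ} {r : ℝ}, Cu a r x → Cu a r b →
        Cu a r (fun i => x i + (b i - x i) * t) := fun {a r} h1 h2 i => by
      have e : x i + (b i - x i) * t - a i = (1 - t) * (x i - a i) + t * (b i - a i) := by ring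
      show |x i + (b i - x i) * t - a i| ≤ r
      rw [e]
      refine (abs_add_le _ _).trans ?_
      rw [abs_mul, abs_mul, abs_of_nonneg ht.1, abs_of_nonneg (by linarith [ht.2])]
      nlinarith [h1 i, h2 i, ht.1, ht.2]
    exact ⟨hcv hxn hbn, hcv hxk hbk⟩
  -- Taylor
  have t1 := tay2 (F := Un - C ln * V) (x := x) (b := b) (A := C₃ * (3 * T) ^ D₀ * εn)
    (δ := 4 * T * ρn) (fun t ht i j => by
      have h1 := hgro (P := pderiv i (pderiv j (Un - C ln * V))) (A := εn) (M := 3 * T) (ρ := ρn)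
        (a := an) (deg_h ((totalDegree_sub _ _).trans (max_le dUn (deg_Cmul dV ln))) i j)
        (by linarith) hρn (fun b hb => by
          have h2 := hln b hb i j
          rw [← h3_Cmul, ← h3_sub] at h2
          exact h2) _ (hseg t ht).1
      exact h1) hbx
  have t2 := tay2 (F := V) (x := x) (b := b) (A := A) (δ := 4 * T * ρn)
    (fun t ht i j => hA _ (hseg t ht).2 i j) hbx
  -- the difference
  have eH : eval b (Hpf xh Tu V lt l τr D') = (eval x Tu + ∑ i, eval x (pderiv i Tu) *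
      (b i - x i)) + L * (eval b V - (eval x V + ∑ i, eval x (pderiv i V) * (b i - x i))) := by
    unfold Hpf
    have hxi : ∀ i, (xh i).eval (b 0) = x i := fun i => by rw [hx]
    rw [map_add, map_mul, map_sub, eval_jet, eval_jet, eval_tm, ← hL, ← hx]
    simp only [hxi]
    try ring
  have eS : eval b (Un - C ln * V) - eval x (Un - C ln * V) -
      ∑ i, eval x (pderiv i (Un - C ln * V)) * (b i - x i) =
      (eval b Un - eval x Un - ∑ i, eval x (pderiv i Un) * (b i - x i)) -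
        ln * (eval b V - eval x V - ∑ i, eval x (pderiv i V) * (b i - x i)) := by
    simp only [map_sub, map_mul, eval_C, pderiv_C_mul, sub_mul, Finset.sum_sub_distrib]
    have : ∑ i, ln * eval x (pderiv i V) * (b i - x i) =
        ln * ∑ i, eval x (pderiv i V) * (b i - x i) := by
      rw [Finset.mul_sum]
      exact Finset.sum_congr rfl fun i _ => by ring
    rw [this]
    ring
  rw [eS] at t1
  have hv1 := hval (b 0) hb0
  rw [← hx] at hv1
  have hg1 : |∑ i, (eval x (pderiv i Tu) - eval x (pderiv i Un)) * (b i - x i)| ≤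
      8 * (s * En) * T := by
    rw [Fin.sum_univ_three, hx0, sub_self, mul_zero, zero_add]
    have h1 := hgn (b 0) hb0 1 (by decide)
    have h2 := hgn (b 0) hb0 2 (by decide)
    rw [← hx] at h1 h2
    have h3 : 0 ≤ s * En / ρn := by positivity
    have k1 := mul_le_mul h1 (hbx 1) (abs_nonneg _) h3
    have k2 := mul_le_mul h2 (hbx 2) (abs_nonneg _) h3
    rw [← abs_mul] at k1 k2
    have e : s * En / ρn * (4 * T * ρn) = 4 * (s * En) * T := by field_simp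
    rw [e] at k1 k2
    refine (abs_add_le _ _).trans ?_
    linarith
  have key : eval b (Hpf xh Tu V lt l τr D') - eval b Un =
      (eval x Tu - eval x Un) + ∑ i, (eval x (pderiv i Tu) - eval x (pderiv i Un)) * (b i - x i) -
      ((eval b Un - eval x Un - ∑ i, eval x (pderiv i Un) * (b i - x i)) -
        ln * (eval b V - eval x V - ∑ i, eval x (pderiv i V) * (b i - x i))) +
      (L - ln) * (eval b V - eval x V - ∑ i, eval x (pderiv i V) * (b i - x i)) := by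
    rw [eH]
    simp only [sub_mul, Finset.sum_sub_distrib]
    ring
  rw [key]
  obtain ⟨R, hR⟩ : ∃ R, R = eval b V - eval x V - ∑ i, eval x (pderiv i V) * (b i - x i) :=
    ⟨_, rfl⟩
  rw [← hR] at t1 t2 ⊢
  obtain ⟨Z, hZ⟩ : ∃ Z, Z = (eval b Un - eval x Un - ∑ i, eval x (pderiv i Un) * (b i - x i)) -
    ln * R := ⟨_, rfl⟩
  rw [← hZ] at t1 ⊢
  have f1 : |(L - ln) * R| ≤ 4 * (W * (En / ρn ^ 2 + εn)) / S * (9 * (A * (4 * T * ρn) ^ 2)) := by
    rw [abs_mul]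
    exact mul_le_mul hlam t2 (abs_nonneg _) (by positivity)
  have f2 : 4 * (W * (En / ρn ^ 2 + εn)) / S * (9 * (A * (4 * T * ρn) ^ 2)) ≤
      1152 * C₁ * (M ^ (D₀ + 8) * (En + εn * ρn ^ 2)) := by
    have h1 : A / S ≤ M ^ 4 := (div_le_iff₀ hS).2 hAS
    have e : 4 * (W * (En / ρn ^ 2 + εn)) / S * (9 * (A * (4 * T * ρn) ^ 2)) =
        576 * W * (En + εn * ρn ^ 2) * (T ^ 2 * (A / S)) := by
      field_simp
      ring
    rw [e]
    have h2 : T ^ 2 * (A / S) ≤ M ^ 2 * M ^ 4 :=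
      mul_le_mul (pow_le_pow_left₀ hT0.le hTM 2) h1 (by positivity) (by positivity)
    have h3 : 0 ≤ 576 * W * (En + εn * ρn ^ 2) := by positivity
    refine (mul_le_mul_of_nonneg_left h2 h3).trans ?_
    have e2 : 576 * W * (En + εn * ρn ^ 2) * (M ^ 2 * M ^ 4) =
        576 * C₁ * (M ^ (D₀ + 8) * (En + εn * ρn ^ 2)) := by
      rw [hW]
      ring
    rw [e2]
    have h4 : 0 ≤ M ^ (D₀ + 8) * (En + εn * ρn ^ 2) := by positivity
    exact mul_le_mul_of_nonneg_right (by linarith) h4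
  have hM2 : ∀ k, k ≤ D₀ + 8 → M ^ k ≤ M ^ (D₀ + 8) := fun k hk => pow_le_pow_right₀ hM1 hk
  have f3 : 9 * (C₃ * (3 * T) ^ D₀ * εn * (4 * T * ρn) ^ 2) ≤
      144 * (C₃ * 3 ^ D₀) * (M ^ (D₀ + 8) * (εn * ρn ^ 2)) := by
    have e : 9 * (C₃ * (3 * T) ^ D₀ * εn * (4 * T * ρn) ^ 2) =
        144 * (C₃ * 3 ^ D₀) * (T ^ (D₀ + 2) * (εn * ρn ^ 2)) := by
      rw [mul_pow]
      ring
    rw [e]
    refine mul_le_mul_of_nonneg_left (mul_le_mul_of_nonneg_right ?_ (by positivity)) (by positivity)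
    exact (pow_le_pow_left₀ hT0.le hTM _).trans (hM2 _ (by omega))
  have f4 : s * En + 8 * (s * En) * T ≤ 9 * (M ^ (D₀ + 8) * En) := by
    have h1 : s * En ≤ M * En := mul_le_mul_of_nonneg_right hsM hEn.le
    have h2 : s * En * T ≤ M * En * M := mul_le_mul h1 hTM hT0.le (by positivity)
    have h3 : M * En ≤ M ^ (D₀ + 8) * En := by
      have := hM2 1 (by omega)
      rw [pow_one] at this
      exact mul_le_mul_of_nonneg_right this hEn.le
    have h4 : M * En * M ≤ M ^ (D₀ + 8) * En := by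
      have := hM2 2 (by omega)
      have e : M * En * M = M ^ 2 * En := by ring
      rw [e]
      exact mul_le_mul_of_nonneg_right this hEn.le
    nlinarith
  have f5 : |(eval x Tu - eval x Un) + ∑ i, (eval x (pderiv i Tu) - eval x (pderiv i Un)) *
      (b i - x i) - Z + (L - ln) * R| ≤ s * En + 8 * (s * En) * T +
      9 * (C₃ * (3 * T) ^ D₀ * εn * (4 * T * ρn) ^ 2) +
      4 * (W * (En / ρn ^ 2 + εn)) / S * (9 * (A * (4 * T * ρn) ^ 2)) := by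
    refine (abs_add_le _ _).trans (add_le_add ?_ f1)
    refine (abs_sub _ _).trans (add_le_add ?_ t1)
    exact (abs_add_le _ _).trans (add_le_add hv1 hg1)
  refine f5.trans ?_
  have h0 : 0 ≤ M ^ (D₀ + 8) * En := by positivity
  have h0' : 0 ≤ M ^ (D₀ + 8) * (εn * ρn ^ 2) := by positivity
  have e9 : (C₄ + 8 * C₂) * M ^ (D₀ + 8) * (En + εn * ρn ^ 2) =
      (C₄ + 8 * C₂) * (M ^ (D₀ + 8) * En) + (C₄ + 8 * C₂) * (M ^ (D₀ + 8) * (εn * ρn ^ 2)) := by ring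
  have e10 : 1152 * C₁ * (M ^ (D₀ + 8) * (En + εn * ρn ^ 2)) =
      1152 * C₁ * (M ^ (D₀ + 8) * En) + 1152 * C₁ * (M ^ (D₀ + 8) * (εn * ρn ^ 2)) := by ring
  rw [e10] at f2
  rw [e9]
  have g3 : (9 + 1152 * C₁) * (M ^ (D₀ + 8) * En) ≤ (C₄ + 8 * C₂) * (M ^ (D₀ + 8) * En) :=
    mul_le_mul_of_nonneg_right (by rw [hC₄]; linarith) h0
  have g4 : (144 * (C₃ * 3 ^ D₀) + 1152 * C₁) * (M ^ (D₀ + 8) * (εn * ρn ^ 2)) ≤
      (C₄ + 8 * C₂) * (M ^ (D₀ + 8) * (εn * ρn ^ 2)) :=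
    mul_le_mul_of_nonneg_right (by rw [hC₄]; linarith) h0'
  linarith

end Pool.CNC76
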