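import Pool.Agent.H76.CNC.Prp

/-!
# Taylor's formula, and polynomials on a path

`tay2`: the second-order remainder. `der_iv`: the derivative on an interval. `cpp`: the polynomial on a
path. `jet`: the first jet along a path, as a polynomial.
-/

set_option autoImplicit false

namespace Pool.CNC76

open Finset MvPolynomial
open Pool.CUB46 (q2 l1 h3)
open Pool.D2G30 (nd lin eval_lin deriv_lin)
open Pool.GEN (totalDegree_pdσ)

/-- **Taylor's formula.** -/
theorem tay2 {F : MvPolynomial (Fin 3) ℝ} {x b : Fin 3 → ℝ} {A δ : ℝ}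
    (hA : ∀ t ∈ Set.Icc (0 : ℝ) 1, ∀ i j, |h3 F (fun i => x i + (b i - x i) * t) i j| ≤ A)
    (hδ : ∀ i, |b i - x i| ≤ δ) :
    |eval b F - eval x F - ∑ i, eval x (pderiv i F) * (b i - x i)| ≤ 9 * (A * δ ^ 2) := by
  classical
  obtain ⟨v, hv⟩ : ∃ v : Fin 3 → ℝ, v = fun i => b i - x i := ⟨_, rfl⟩
  obtain ⟨q, hq⟩ : ∃ q, q = lin x v F := ⟨_, rfl⟩
  have e1 : q.eval 1 = eval b F := by
    rw [hq, eval_lin]
    congr 2
    funext i
    rw [hv]
    ring
  have e0 : q.eval 0 = eval x F := by
    rw [hq, eval_lin]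
    congr 2
    funext i
    ring
  have d1 : ∀ t, q.derivative.eval t = ∑ i, v i * eval (fun i => x i + v i * t) (pderiv i F) := by
    intro t
    rw [hq, deriv_lin, Polynomial.eval_finsetSum]
    refine Finset.sum_congr rfl fun i _ => ?_
    rw [Polynomial.eval_mul, Polynomial.eval_C, eval_lin]
  have d2 : ∀ t, q.derivative.derivative.eval t = q2 (h3 F (fun i => x i + v i * t)) v v := by
    intro t
    rw [hq, deriv_lin, Polynomial.derivative_sum, Polynomial.eval_finsetSum]
    unfold q2
    rw [Finset.sum_comm]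
    refine Finset.sum_congr rfl fun i _ => ?_
    rw [Polynomial.derivative_C_mul, deriv_lin, Polynomial.eval_mul, Polynomial.eval_C,
      Polynomial.eval_finsetSum, Finset.mul_sum]
    refine Finset.sum_congr rfl fun j _ => ?_
    rw [Polynomial.eval_mul, Polynomial.eval_C, eval_lin]
    unfold h3
    ring
  have hb2 : ∀ t ∈ Set.Icc (0 : ℝ) 1, ‖q.derivative.derivative.eval t‖ ≤ 9 * (A * δ ^ 2) := by
    intro t ht
    rw [Real.norm_eq_abs, d2]
    refine q2_le (fun i j => ?_) (fun i => ?_)
    · rw [hv]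
      exact hA t ht i j
    · rw [hv]
      exact hδ i
  have h1 : ∀ t ∈ Set.Icc (0 : ℝ) 1, ‖q.derivative.eval t - q.derivative.eval 0‖ ≤
      9 * (A * δ ^ 2) := by
    intro t ht
    have h := Convex.norm_image_sub_le_of_norm_hasDerivWithin_le
      (f := fun t => q.derivative.eval t) (f' := fun t => q.derivative.derivative.eval t)
      (fun t _ => (q.derivative.hasDerivAt t).hasDerivWithinAt) hb2 (convex_Icc 0 1)
      (Set.left_mem_Icc.2 zero_le_one) ht
    refine h.trans ?_
    have h2 : ‖t - 0‖ ≤ 1 := by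
      rw [sub_zero, Real.norm_eq_abs, abs_of_nonneg ht.1]
      exact ht.2
    have h3 : 0 ≤ 9 * (A * δ ^ 2) := (norm_nonneg _).trans (hb2 0 (Set.left_mem_Icc.2 zero_le_one))
    exact mul_le_of_le_one_right h3 h2
  have h2 := Convex.norm_image_sub_le_of_norm_hasDerivWithin_le
    (f := fun t => q.eval t - q.derivative.eval 0 * t)
    (f' := fun t => q.derivative.eval t - q.derivative.eval 0)
    (fun t _ => by
      have h3 := (q.hasDerivAt t).sub ((hasDerivAt_id t).const_mul (q.derivative.eval 0))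
      rw [mul_one] at h3
      exact h3.hasDerivWithinAt) h1 (convex_Icc 0 1)
    (Set.left_mem_Icc.2 zero_le_one) (Set.right_mem_Icc.2 zero_le_one)
  rw [sub_zero, norm_one, mul_one, Real.norm_eq_abs, e1, e0, d1] at h2
  refine le_trans (le_of_eq ?_) (h2.trans (le_of_eq (mul_one _)))
  congr 1
  have e3 : ∑ i, v i * eval (fun i => x i + v i * 0) (pderiv i F) =
      ∑ i, eval x (pderiv i F) * (b i - x i) := by
    refine Finset.sum_congr rfl fun i _ => ?_
    have : (fun i => x i + v i * 0) = x := by funext i; ring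
    rw [this, hv]
    ring
  rw [e3]
  ring

/-- **The derivative on an interval.** -/
theorem der_iv (K : ℕ) : ∃ C : ℝ, 1 ≤ C ∧ ∀ {q : Polynomial ℝ} {A a r : ℝ}, q.natDegree ≤ K →
    0 < r → (∀ τ, |τ - a| ≤ r → |q.eval τ| ≤ A) →
    ∀ τ, |τ - a| ≤ r → |q.derivative.eval τ| ≤ C * A / r := by
  obtain ⟨C, hC, h⟩ := Pool.D2R.der_one K
  refine ⟨C, hC, ?_⟩
  intro q A a r hq hr hA τ hτ
  obtain ⟨s, hs, hsb⟩ : ∃ s : ℝ, |s| = 1 ∧ ∀ t ∈ Set.Icc (0 : ℝ) 1, |τ + s * r * t - a| ≤ r := by
    have h1 := abs_le.1 hτ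
    rcases le_total τ a with h0 | h0
    · refine ⟨1, abs_one, fun t ht => ?_⟩
      rw [abs_le]
      have := mul_le_mul_of_nonneg_left ht.2 hr.le
      have := mul_nonneg hr.le ht.1
      constructor <;> nlinarith
    · refine ⟨-1, by rw [abs_neg, abs_one], fun t ht => ?_⟩
      rw [abs_le]
      have := mul_le_mul_of_nonneg_left ht.2 hr.le
      have := mul_nonneg hr.le ht.1
      constructor <;> nlinarith
  obtain ⟨p, hp⟩ : ∃ p : Polynomial ℝ, p = q.comp (Polynomial.C τ + Polynomial.C (s * r) *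
    Polynomial.X) := ⟨_, rfl⟩
  have hpe : ∀ t, p.eval t = q.eval (τ + s * r * t) := fun t => by
    rw [hp, Polynomial.eval_comp, Polynomial.eval_add, Polynomial.eval_mul, Polynomial.eval_C,
      Polynomial.eval_C, Polynomial.eval_X]
  have hpd : p.natDegree ≤ K := by
    rw [hp, Polynomial.natDegree_comp]
    have h1 : (Polynomial.C τ + Polynomial.C (s * r) * Polynomial.X).natDegree ≤ 1 := by
      refine (Polynomial.natDegree_add_le _ _).trans (max_le ?_ ?_)
      · rw [Polynomial.natDegree_C]; exact Nat.zero_le _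
      · exact (Polynomial.natDegree_C_mul_le _ _).trans (Polynomial.natDegree_X_le)
    calc q.natDegree * _ ≤ K * 1 := Nat.mul_le_mul hq h1
      _ = K := mul_one K
  have h1 := h p A hpd (fun t ht => by rw [hpe]; exact hA _ (hsb t ht)) 0 (by norm_num)
  have h2 : p.derivative.eval 0 = s * r * q.derivative.eval τ := by
    rw [hp, Polynomial.derivative_comp, Polynomial.eval_mul, Polynomial.eval_comp]
    simp
  rw [h2, abs_mul, abs_mul, hs, one_mul, abs_of_pos hr] at h1
  rw [le_div_iff₀ hr, mul_comm]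
  exact h1

/-! ### The path -/

/-- The polynomial on the path. -/
noncomputable def cpp (xh : Fin 3 → Polynomial ℝ) (F : MvPolynomial (Fin 3) ℝ) : Polynomial ℝ :=
  aeval xh F

theorem eval_cpp (xh : Fin 3 → Polynomial ℝ) (F : MvPolynomial (Fin 3) ℝ) (τ : ℝ) :
    (cpp xh F).eval τ = eval (fun i => (xh i).eval τ) F := by
  unfold cpp
  induction F using MvPolynomial.induction_on with
  | C a => simp
  | add p q hp hq => rw [map_add, Polynomial.eval_add, hp, hq, map_add]
  | mul_X p i hp => rw [map_mul, Polynomial.eval_mul, hp, map_mul]; simp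

theorem deriv_cpp (xh : Fin 3 → Polynomial ℝ) (F : MvPolynomial (Fin 3) ℝ) :
    (cpp xh F).derivative = ∑ i, cpp xh (pderiv i F) * (xh i).derivative := by
  classical
  unfold cpp
  induction F using MvPolynomial.induction_on with
  | C a => simp
  | add p q hp hq =>
    rw [map_add, Polynomial.derivative_add, hp, hq, ← Finset.sum_add_distrib]
    exact Finset.sum_congr rfl fun i _ => by rw [map_add, map_add, add_mul]
  | mul_X p j hp =>
    rw [map_mul, aeval_X, Polynomial.derivative_mul, hp, Finset.sum_mul]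
    have e : ∀ i, aeval xh (pderiv i (p * X j)) * (xh i).derivative =
        aeval xh (pderiv i p) * (xh i).derivative * xh j +
          (if i = j then aeval xh p * (xh j).derivative else 0) := by
      intro i
      rw [pderiv_mul, map_add, map_mul, map_mul, aeval_X, pderiv_X]
      by_cases h : i = j
      · subst h
        rw [Pi.single_eq_same, map_one, if_pos rfl]
        ring
      · rw [Pi.single_eq_of_ne (fun hh => h hh.symm), map_zero, if_neg h]
        ring
    rw [Finset.sum_congr rfl fun i _ => e i, Finset.sum_add_distrib, Finset.sum_ite_eq' univ j,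
      if_pos (Finset.mem_univ j)]

theorem deg_cpp {K L : ℕ} {xh : Fin 3 → Polynomial ℝ} (hx : ∀ i, (xh i).natDegree ≤ K)
    {F : MvPolynomial (Fin 3) ℝ} (hF : F.totalDegree ≤ L) : (cpp xh F).natDegree ≤ L * K := by
  unfold cpp
  rw [MvPolynomial.aeval_def, MvPolynomial.eval₂_eq]
  refine Polynomial.natDegree_sum_le_of_forall_le _ _ fun α hα => ?_
  refine (Polynomial.natDegree_mul_le).trans ?_
  have h1 : (algebraMap ℝ (Polynomial ℝ) (MvPolynomial.coeff α F)).natDegree = 0 :=
    Polynomial.natDegree_C _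
  rw [h1, zero_add]
  refine (Polynomial.natDegree_prod_le _ _).trans ?_
  have h2 : ∀ i ∈ α.support, (xh i ^ α i).natDegree ≤ α i * K := fun i _ =>
    (Polynomial.natDegree_pow_le).trans (Nat.mul_le_mul_left _ (hx i))
  refine (Finset.sum_le_sum h2).trans ?_
  rw [← Finset.sum_mul]
  exact Nat.mul_le_mul_right _ ((MvPolynomial.le_totalDegree hα).trans hF)

/-- A polynomial in the time. -/
noncomputable def tm (q : Polynomial ℝ) : MvPolynomial (Fin 3) ℝ := Polynomial.aeval (X 0) q

theorem eval_tm (q : Polynomial ℝ) (b : Fin 3 → ℝ) : eval b (tm q) = q.eval (b 0) := by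
  unfold tm
  induction q using Polynomial.induction_on' with
  | add p q hp hq => rw [map_add, map_add, hp, hq, Polynomial.eval_add]
  | monomial n a =>
    rw [Polynomial.aeval_monomial, map_mul, map_pow, eval_X, Polynomial.eval_monomial]
    congr 1
    rw [MvPolynomial.algebraMap_eq, eval_C]

theorem deg_tm {K : ℕ} {q : Polynomial ℝ} (h : q.natDegree ≤ K) : (tm q).totalDegree ≤ K := by
  unfold tm
  rw [Polynomial.aeval_eq_sum_range]
  refine totalDegree_finsetSum_le fun i hi => ?_
  refine (totalDegree_smul_le _ _).trans ?_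
  refine (totalDegree_pow _ _).trans ?_
  rw [totalDegree_X, mul_one]
  exact (Nat.lt_succ_iff.1 (Finset.mem_range.1 hi)).trans h

/-- The polynomial on the path, as a function of the time. -/
noncomputable def tF (xh : Fin 3 → Polynomial ℝ) (F : MvPolynomial (Fin 3) ℝ) :
    MvPolynomial (Fin 3) ℝ := tm (cpp xh F)

theorem eval_tF (xh : Fin 3 → Polynomial ℝ) (F : MvPolynomial (Fin 3) ℝ) (b : Fin 3 → ℝ) :
    eval b (tF xh F) = eval (fun i => (xh i).eval (b 0)) F := by
  unfold tF
  rw [eval_tm, eval_cpp]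

/-- **The first jet along the path.** -/
noncomputable def jet (xh : Fin 3 → Polynomial ℝ) (F : MvPolynomial (Fin 3) ℝ) :
    MvPolynomial (Fin 3) ℝ :=
  tF xh F + ∑ i, tF xh (pderiv i F) * (X i - tm (xh i))

theorem eval_jet (xh : Fin 3 → Polynomial ℝ) (F : MvPolynomial (Fin 3) ℝ) (b : Fin 3 → ℝ) :
    eval b (jet xh F) = eval (fun i => (xh i).eval (b 0)) F +
      ∑ i, eval (fun i => (xh i).eval (b 0)) (pderiv i F) * (b i - (xh i).eval (b 0)) := by
  unfold jet
  rw [map_add, eval_tF, map_sum]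
  congr 1
  refine Finset.sum_congr rfl fun i _ => ?_
  rw [map_mul, eval_tF, map_sub, eval_X, eval_tm]

theorem deg_jet {K : ℕ} (hK : 1 ≤ K) {xh : Fin 3 → Polynomial ℝ} (hx : ∀ i, (xh i).natDegree ≤ K)
    {F : MvPolynomial (Fin 3) ℝ} (hF : F.totalDegree ≤ K) : (jet xh F).totalDegree ≤ K * K + K := by
  unfold jet
  refine (totalDegree_add _ _).trans (max_le ?_ (totalDegree_finsetSum_le fun i _ => ?_))
  · exact (deg_tm (deg_cpp hx hF)).trans (Nat.le_add_right _ _)
  · refine (totalDegree_mul _ _).trans (Nat.add_le_add (deg_tm (deg_cpp hx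
      (totalDegree_pdσ hF i))) ?_)
    refine (totalDegree_sub _ _).trans (max_le ?_ (deg_tm (hx i)))
    rw [totalDegree_X]
    exact hK

end Pool.CNC76
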