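import Pool.Agent.H76.CNC.Ccu

/-!
# The closed number `K`

`thm_a`: in a chain of windows `Chn` whose chart of `u` is visible at the window `0` there is one
closed number `K` (at the window `0`) such that the second derivatives of `Ph k` are
`(K - cs k) * U k''` up to the error of the window `0`. `cas_vis`: if `|K - cs k|` is not small then
`Ph k` is visible.
-/

set_option autoImplicit false

namespace Pool.CNC76

open Finset MvPolynomial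
open Pool.Agent.H49.Ent
open Pool.STK (IsLaw)
open Pool.K2S (Pe)
open Pool.CUB46 (q2 l1 h3)
open Pool.D2G30 (nd)

section

variable {Ω P S S' : Type} [Fintype Ω] {p : Ω → ℝ} {B : Ω → Prop} {pt : Ω → P} {sl : ℕ → Ω → S}
  {sd : Ω → S'} {Y Yc X : Ω → Fin 3 → ℝ} {n : ℕ} {ctr : ℕ → Ω → Fin 3 → ℝ} {ρ EU EN : ℕ → ℝ}
  {U Ph : ℕ → Ω → MvPolynomial (Fin 3) ℝ} {cs : ℕ → Ω → ℝ} {D₀ D h Q : ℕ} {κ η c T s : ℝ}

theorem Chn.half (H : Chn p B pt sl sd Y Yc X n ctr ρ EU EN U Ph cs D₀ D h Q κ η c T s) {k : ℕ}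
    (hk : k ≤ n) {ω : Ω} (hω : B ω) : Cu (ctr k ω) (ρ k / 2) (Y ω) := fun i => by
  have h1 := (H.bll k hk).y1 ω hω i
  have hρ := (H.ρ0 k hk).1
  unfold unt at h1
  rw [abs_div, abs_of_pos hρ, div_le_iff₀ hρ] at h1
  linarith

theorem Chn.own (H : Chn p B pt sl sd Y Yc X n ctr ρ EU EN U Ph cs D₀ D h Q κ η c T s) {k : ℕ}
    (hk : k ≤ n) {ω : Ω} (hω : B ω) : Cu (ctr k ω) (ρ k) (Y ω) := fun i =>
  (H.half hk hω i).trans (by linarith [(H.ρ0 k hk).1])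

theorem Chn.inc (H : Chn p B pt sl sd Y Yc X n ctr ρ EU EN U Ph cs D₀ D h Q κ η c T s) {j k : ℕ}
    (hj : j ≤ n) (hk : k ≤ n) (hjk : j ≤ k) {ω : Ω} (hω : B ω) {b : Fin 3 → ℝ}
    (hb : Cu (ctr k ω) (ρ k) b) : Cu (ctr j ω) (ρ j) b := by
  rcases hjk.eq_or_lt with rfl | hlt
  · exact hb
  · intro i
    have h1 := H.half hj hω i
    have h2 := H.half hk hω i
    have h3 := H.ρd j hj k hk hlt
    have h4 := (H.ρ0 k hk).1
    have h5 := hb i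
    rw [abs_le] at h1 h2 h5 ⊢
    constructor <;> linarith [h1.1, h1.2, h2.1, h2.2, h5.1, h5.2]

theorem Chn.ρle (H : Chn p B pt sl sd Y Yc X n ctr ρ EU EN U Ph cs D₀ D h Q κ η c T s) {j k : ℕ}
    (hj : j ≤ n) (hk : k ≤ n) (hjk : j ≤ k) : ρ k ≤ ρ j := by
  rcases hjk.eq_or_lt with rfl | hlt
  · exact le_rfl
  · have h3 := H.ρd j hj k hk hlt
    have h4 := (H.ρ0 k hk).1
    linarith

end

/-- **Telescoping of the second derivatives.** -/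
theorem tel_h (D₀ : ℕ) : ∃ C : ℝ, 1 ≤ C ∧
    ∀ {Ω P S S' : Type} [Fintype Ω] {p : Ω → ℝ} {B : Ω → Prop} {pt : Ω → P} {sl : ℕ → Ω → S}
    {sd : Ω → S'} {Y Yc X : Ω → Fin 3 → ℝ} {n : ℕ} {ctr : ℕ → Ω → Fin 3 → ℝ} {ρ EU EN : ℕ → ℝ}
    {U Ph : ℕ → Ω → MvPolynomial (Fin 3) ℝ} {cs : ℕ → Ω → ℝ} {D h Q : ℕ} {κ η c T s : ℝ},
    Chn p B pt sl sd Y Yc X n ctr ρ EU EN U Ph cs D₀ D h Q κ η c T s →
    ∀ {j k : ℕ}, j ≤ n → k ≤ n → j ≤ k → ∀ {ω : Ω}, B ω → ∀ b, Cu (ctr k ω) (ρ k) b → ∀ i l,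
      |h3 (U k ω) b i l - h3 (U j ω) b i l| ≤ C * (s * EU j) / ρ k ^ 2 ∧
      |h3 (Ph k ω) b i l + (cs k ω - cs j ω) * h3 (U k ω) b i l - h3 (Ph j ω) b i l| ≤
        C * (s * EN j) / ρ k ^ 2 := by
  obtain ⟨C', hC, h⟩ := hes_cu D₀
  refine ⟨C', hC, ?_⟩
  intro Ω P S S' _ p B pt sl sd Y Yc X n ctr ρ EU EN U Ph cs D h' Q κ η c T s H j k hj hk hjk ω hω b hb
    i l
  have hρ := (H.ρ0 k hk).1
  constructor
  · have h1 := h (P := U k ω - U j ω) (M := s * EU j)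
      ((totalDegree_sub _ _).trans (max_le (H.degU k hk ω hω) (H.degU j hj ω hω))) hρ
      (fun b hb => by
        rw [map_sub]
        exact H.telU j hj k hk hjk ω hω b hb) i l b hb
    rw [h3_sub] at h1
    exact h1
  · have h1 := h (P := Ph k ω + C (cs k ω - cs j ω) * U k ω - Ph j ω) (M := s * EN j)
      ((totalDegree_sub _ _).trans (max_le ((totalDegree_add _ _).trans
        (max_le (H.degP k hk ω hω) (deg_Cmul (H.degU k hk ω hω) _))) (H.degP j hj ω hω))) hρ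
      (fun b hb => by
        rw [map_sub, map_add, map_mul, eval_C]
        exact H.telP j hj k hk hjk ω hω b hb) i l b hb
    rw [h3_sub, h3_add, h3_Cmul] at h1
    exact h1

/-- **The closed number `K`.** -/
theorem thm_a (D₀ : ℕ) (hD₀ : 1 ≤ D₀) : ∃ C : ℝ, 1 ≤ C ∧
    ∀ {Ω P S S' : Type} [Fintype Ω] {p : Ω → ℝ} {B : Ω → Prop} {pt : Ω → P} {sl : ℕ → Ω → S}
    {sd : Ω → S'} {Y Yc X : Ω → Fin 3 → ℝ} {n : ℕ} {ctr : ℕ → Ω → Fin 3 → ℝ} {ρ EU EN : ℕ → ℝ}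
    {U Ph : ℕ → Ω → MvPolynomial (Fin 3) ℝ} {cs : ℕ → Ω → ℝ} {D h Q : ℕ} {κ η c T s M : ℝ},
    Chn p B pt sl sd Y Yc X n ctr ρ EU EN U Ph cs D₀ D h Q κ η c T s → 2 * D₀ ≤ D →
    1 ≤ T → 2 ^ h ≤ M → T ≤ M → 0 < s → s ≤ M → 0 < η → η ≤ 1 → 1 ≤ M * η → 12 * c ≤ 1 →
    ∀ {B' : Ω → Prop}, (∀ ω, B' ω → B ω) →
      32 * (κ * Pe p B) ≤ Pe p B' → 0 < Pe p B' →
      (∀ ω, B' ω → ∃ i j, C * M ^ 11 * EU 0 / ρ 0 ^ 2 ≤ |h3 (U 0 ω) (Y ω) i j|) →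
      C * M ^ 14 ≤ 2 ^ Q →
      ∃ (B'' : Ω → Prop) (K : Ω → ℝ), (∀ ω, B'' ω → B' ω) ∧ Pe p B' ≤ 4 * Pe p B'' ∧
        Clo B' pt (sl 0) K ∧
        ∀ ω, B'' ω → ∀ k ≤ n, ∀ b, Cu (ctr k ω) (ρ k) b → ∀ i j,
          |h3 (Ph k ω) b i j - (K ω - cs k ω) * h3 (U k ω) b i j| ≤
            C * M ^ 12 * (EN 0 + |K ω - cs k ω| * EU 0) / ρ k ^ 2 := by
  obtain ⟨C₁, hC₁, hcc⟩ := conic_cu D₀ hD₀
  obtain ⟨C₂, hC₂, htel⟩ := tel_h D₀
  refine ⟨2 * C₁ + 2 * C₂, by linarith, ?_⟩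
  intro Ω P S S' _ p B pt sl sd Y Yc X n ctr ρ EU EN U Ph cs D h Q κ η c T s M H hD hT hhM hTM hs0
    hsM hη hη1 hMη hc B' hB hκ hpos hvis hQ1
  have hM1 : 1 ≤ M := hT.trans hTM
  have hM0 : 0 < M := by linarith
  have hn0 : 0 ≤ n := Nat.zero_le n
  have hρ0 := (H.ρ0 0 hn0).1
  have hU0 := H.EU0 0 hn0
  have hN0 := H.EN0 0 hn0
  have hC1' : C₁ ≤ 2 * C₁ + 2 * C₂ := by linarith
  obtain ⟨B'', lam, h1, h2, h3', h4⟩ := hcc (H.bll 0 hn0) hD hT hhM hTM hη hη1 hMη hc hρ0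
    (H.ctrc 0 hn0) (U 0) (Ph 0) (e₁ := s * EN 0) (e₂ := s * EU 0) hB hκ hpos
    ((H.Uc 0 hn0).sub hB) ((H.Phc 0 hn0).sub hB)
    (fun ω hω => H.degU 0 hn0 ω (hB ω hω)) (fun ω hω => H.degP 0 hn0 ω (hB ω hω))
    (by positivity) (by positivity) (fun ω hω => H.ownP 0 hn0 ω (hB ω hω))
    (fun ω hω => H.ownU 0 hn0 ω (hB ω hω))
    (fun ω hω => by
      obtain ⟨i, j, hij⟩ := hvis ω hω
      refine ⟨i, j, le_trans (div_le_div_of_nonneg_right ?_ (by positivity)) hij⟩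
      have e : C₁ * M ^ 10 * (s * EU 0) = s * (C₁ * M ^ 10 * EU 0) := by ring
      rw [e]
      have e2 : (2 * C₁ + 2 * C₂) * M ^ 11 * EU 0 = M * ((2 * C₁ + 2 * C₂) * M ^ 10 * EU 0) := by
        ring
      rw [e2]
      refine mul_le_mul hsM ?_ (by positivity) hM0.le
      exact mul_le_mul_of_nonneg_right (mul_le_mul_of_nonneg_right hC1' (by positivity)) hU0.le)
    (le_trans (mul_le_mul_of_nonneg_right hC1' (by positivity)) hQ1)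
  refine ⟨B'', fun ω => cs 0 ω + lam ω, h1, h2,
    ((H.csc 0 hn0).sub hB).map2 h3' fun a b => a + b, fun ω hω k hk b hb i j => ?_⟩
  have hBω := hB ω (h1 ω hω)
  have hρk := (H.ρ0 k hk).1
  obtain ⟨t1, t2⟩ := htel H hn0 hk (Nat.zero_le k) hBω b hb i j
  have hb0 := H.inc hn0 hk (Nat.zero_le k) hBω hb
  have t3 := (h4 ω hω).2 b hb0 i j
  obtain ⟨l, hl⟩ : ∃ l, l = lam ω := ⟨_, rfl⟩
  obtain ⟨μ, hμ⟩ : ∃ μ, μ = cs 0 ω + lam ω - cs k ω := ⟨_, rfl⟩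
  rw [← hl] at t3
  rw [← hμ]
  have hlμ : l = μ + (cs k ω - cs 0 ω) := by rw [hμ, hl]; ring
  have hlb : |l| * EU 0 ≤ |μ| * EU 0 + M * EN 0 := by
    have h5 : |l| ≤ |μ| + s * (EN 0 / EU 0) := by
      rw [hlμ]
      exact (abs_add_le _ _).trans (add_le_add le_rfl (H.telc 0 hn0 k hk (Nat.zero_le k) ω hBω))
    have h6 := mul_le_mul_of_nonneg_right h5 hU0.le
    have e : (|μ| + s * (EN 0 / EU 0)) * EU 0 = |μ| * EU 0 + s * EN 0 := by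
      field_simp
    rw [e] at h6
    have h7 := mul_le_mul_of_nonneg_right hsM hN0.le
    linarith
  have e : h3 (Ph k ω) b i j - μ * h3 (U k ω) b i j =
      (h3 (Ph k ω) b i j + (cs k ω - cs 0 ω) * h3 (U k ω) b i j - h3 (Ph 0 ω) b i j) +
      (h3 (Ph 0 ω) b i j - l * h3 (U 0 ω) b i j) -
      l * (h3 (U k ω) b i j - h3 (U 0 ω) b i j) := by
    rw [hμ, hl]
    ring
  rw [e]
  obtain ⟨r, hr⟩ : ∃ r, r = 1 / ρ k ^ 2 := ⟨_, rfl⟩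
  have hr0 : 0 < r := by rw [hr]; positivity
  have hrr : 1 / ρ 0 ^ 2 ≤ r := by
    rw [hr]
    exact one_div_le_one_div_of_le (by positivity)
      (pow_le_pow_left₀ hρk.le (H.ρle hn0 hk (Nat.zero_le k)) 2)
  have a1 : |h3 (Ph k ω) b i j + (cs k ω - cs 0 ω) * h3 (U k ω) b i j - h3 (Ph 0 ω) b i j| ≤
      C₂ * M * EN 0 * r := by
    refine t2.trans ?_
    rw [div_eq_mul_one_div, ← hr]
    refine mul_le_mul_of_nonneg_right ?_ hr0.le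
    have := mul_le_mul_of_nonneg_right hsM hN0.le
    nlinarith
  have hA0 : 0 ≤ EN 0 + |l| * EU 0 := by positivity
  have a2 : |h3 (Ph 0 ω) b i j - l * h3 (U 0 ω) b i j| ≤
      C₁ * M ^ 11 * (EN 0 + |l| * EU 0) * r := by
    refine t3.trans ?_
    rw [div_eq_mul_one_div]
    refine mul_le_mul ?_ hrr (by positivity) (by positivity)
    have e3 : C₁ * M ^ 10 * (s * EN 0 + |l| * (s * EU 0)) =
        C₁ * M ^ 10 * (EN 0 + |l| * EU 0) * s := by ring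
    rw [e3]
    refine (mul_le_mul_of_nonneg_left hsM (by positivity)).trans (le_of_eq ?_)
    ring
  have a3 : |l * (h3 (U k ω) b i j - h3 (U 0 ω) b i j)| ≤ C₂ * M * (|l| * EU 0) * r := by
    rw [abs_mul]
    refine (mul_le_mul_of_nonneg_left t1 (abs_nonneg l)).trans ?_
    rw [div_eq_mul_one_div, ← hr]
    have e3 : |l| * (C₂ * (s * EU 0) * r) = (C₂ * (|l| * EU 0) * r) * s := by ring
    rw [e3]
    refine (mul_le_mul_of_nonneg_left hsM (by positivity)).trans (le_of_eq ?_)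
    ring
  have hM11 : M ≤ M ^ 11 := by
    calc M = M ^ 1 := (pow_one M).symm
      _ ≤ M ^ 11 := pow_le_pow_right₀ hM1 (by norm_num)
  have a4 : C₂ * M * EN 0 * r + C₂ * M * (|l| * EU 0) * r ≤
      C₂ * M ^ 11 * (EN 0 + |l| * EU 0) * r := by
    have e3 : C₂ * M * EN 0 * r + C₂ * M * (|l| * EU 0) * r =
        (C₂ * (EN 0 + |l| * EU 0) * r) * M := by ring
    rw [e3]
    refine (mul_le_mul_of_nonneg_left hM11 (by positivity)).trans (le_of_eq ?_)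
    ring
  have a5 : |h3 (Ph k ω) b i j + (cs k ω - cs 0 ω) * h3 (U k ω) b i j - h3 (Ph 0 ω) b i j +
      (h3 (Ph 0 ω) b i j - l * h3 (U 0 ω) b i j) -
      l * (h3 (U k ω) b i j - h3 (U 0 ω) b i j)| ≤
      (C₁ + C₂) * M ^ 11 * (EN 0 + |l| * EU 0) * r := by
    refine (abs_sub _ _).trans ?_
    refine (add_le_add (abs_add_le _ _) le_rfl).trans ?_
    nlinarith
  refine a5.trans ?_
  rw [div_eq_mul_one_div, ← hr]
  refine mul_le_mul_of_nonneg_right ?_ hr0.le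
  have a6 : EN 0 + |l| * EU 0 ≤ 2 * M * (EN 0 + |μ| * EU 0) := by
    have h5 : 0 ≤ |μ| * EU 0 := by positivity
    nlinarith
  calc (C₁ + C₂) * M ^ 11 * (EN 0 + |l| * EU 0)
      ≤ (C₁ + C₂) * M ^ 11 * (2 * M * (EN 0 + |μ| * EU 0)) :=
        mul_le_mul_of_nonneg_left a6 (by positivity)
    _ = _ := by ring

end Pool.CNC76
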